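import Pool.Agent.Work.MP_bf99ce_ie.Interface2

set_option autoImplicit false

open Polynomial

noncomputable section

namespace Pool.IE

lemma ACO_ev_mem {k K : Type} [Field k] [Field K] [Algebra k K] (t x : K) (V : ValuationSubring K)
    (hk : ∀ c : k, algebraMap k K c ∈ V) (ht : t ∈ V) (hx : x ∈ V) (P : P2 k) : ev t x P ∈ V := by
  have h1 : ∀ p : k[X], (aeval t p : K) ∈ V := by
    intro p
    rw [aeval_eq_sum_range]
    refine sum_mem (fun i _ => ?_)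
    rw [Algebra.smul_def]
    exact mul_mem (hk _) (pow_mem ht _)
  have h2 : ev t x P = ∑ i ∈ Finset.range (P.natDegree + 1), (aeval t (P.coeff i) : K) * x ^ i := by
    simp only [ev, coe_eval₂RingHom]
    rw [eval₂_eq_sum_range]
    rfl
  rw [h2]
  exact sum_mem (fun i _ => mul_mem (h1 _) (pow_mem hx _))

lemma ACO_t_mem {k K : Type} [Field k] [Field K] [Algebra k K] (t x y : K) : t ∈ VG k t x y := by
  refine ⟨1, TT k, 0, ?_, ?_⟩
  · intro h
    have h2 := map_dvd (mapRingHom (evalRingHom (0 : k))) h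
    simp [TT] at h2
  · simp [rr, ev, TT]

lemma ACO_pow_mul_mem {k K : Type} [Field k] [Field K] [Algebra k K] (t x y : K)
    (hV : ∃ V : ValuationSubring K, (V : Set K) = VG k t x y) (z : K) (m n : ℕ) (hmn : m ≤ n)
    (hz : t ^ m * z ∈ VG k t x y) : t ^ n * z ∈ VG k t x y := by
  obtain ⟨V, hV⟩ := hV
  have ht : t ∈ V := by rw [← SetLike.mem_coe, hV]; exact ACO_t_mem t x y
  have hz' : t ^ m * z ∈ V := by rw [← SetLike.mem_coe, hV]; exact hz
  rw [← hV, SetLike.mem_coe]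
  have : t ^ n * z = t ^ (n - m) * (t ^ m * z) := by
    rw [← mul_assoc, ← pow_add, Nat.sub_add_cancel hmn]
  rw [this]
  exact mul_mem (pow_mem ht _) hz'

lemma ACO_xinv_mem {k K : Type} [Field k] [Field K] [Algebra k K] (t x y : K) (hx : x ≠ 0) :
    x⁻¹ ∈ VO k t x y := by
  refine ⟨1, 0, X, 0, ?_, ?_, ?_⟩
  · simp [lam]
  · simp [rr, ev, hx]
  · simp [lam]

lemma ACO_xpow_mul_mem {k K : Type} [Field k] [Field K] [Algebra k K] (t x y : K) (hx : x ≠ 0)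
    (hV : ∃ V : ValuationSubring K, (V : Set K) = VO k t x y) (z : K) (m n : ℕ) (hmn : m ≤ n)
    (hz : x⁻¹ ^ m * z ∈ VO k t x y) : x⁻¹ ^ n * z ∈ VO k t x y := by
  obtain ⟨V, hV⟩ := hV
  have ht : x⁻¹ ∈ V := by rw [← SetLike.mem_coe, hV]; exact ACO_xinv_mem t x y hx
  have hz' : x⁻¹ ^ m * z ∈ V := by rw [← SetLike.mem_coe, hV]; exact hz
  rw [← hV, SetLike.mem_coe]
  have : x⁻¹ ^ n * z = x⁻¹ ^ (n - m) * (x⁻¹ ^ m * z) := by
    rw [← mul_assoc, ← pow_add, Nat.sub_add_cancel hmn]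
  rw [this]
  exact mul_mem (pow_mem ht _) hz'

theorem p_ACO (hUNQ : Stmt_UNQ) (hVVA : Stmt_VVA) (hVOO : Stmt_VOO) (hTRL : Stmt_TRL) (hINV : Stmt_INV)
    (hUHO : Stmt_UHO) (hUFZ : Stmt_UFZ) : Stmt_ACO := by
  classical
  intro k K _ _ _ _ t x y A B f r W d hd N u
  obtain ⟨hU1, hU2, hU3⟩ := hUFZ k K t x y A B f r W
  obtain ⟨q, hq0, hq⟩ := hU3 N u
  obtain ⟨_, _, hN3, hy0, hx0, ht0, _⟩ := hUNQ k K t x y A B f r W
  choose Zs hZs using fun s => hU1 (u s)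
  have hT : ∀ c : k, WD k K (t - algebraMap k K c) x y (A.comp (X + C c)) (B.comp (X + C c))
      (f.comp (X + C c)) r := fun c => (hTRL k K t x y A B f r W c).1
  have hhc : ∀ (c : k) (s : Fin N), ∃ h : ℕ, (t - algebraMap k K c) ^ h * u s ∈
      VG k (t - algebraMap k K c) x y := fun c s => (hUHO _ _ _ _ _ _ _ _ _ (hT c)).1 (u s)
  choose hc hhc using hhc
  obtain ⟨A', B', WI⟩ := (hINV k K t x y A B f r W d hd).1
  have hi := (hUHO _ _ _ _ _ _ _ _ _ WI).1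
  choose gi hgi using hi
  obtain ⟨hO1, -, -, -, hO5⟩ := hVOO k K t x y A B f r W
  have hO6 : ∀ z : K, ∃ e : ℕ, x⁻¹ ^ e * z ∈ VO k t x y := by
    intro z
    obtain ⟨e, w, hw, hz⟩ := hO5 z
    refine ⟨e, ?_⟩
    have : x⁻¹ ^ e * z = w := by
      rw [hz, inv_pow, ← mul_assoc, inv_mul_cancel₀ (pow_ne_zero _ hx0), one_mul]
    rw [this]
    exact hw
  choose ge hge using hO6
  let Z : Finset k := Finset.univ.biUnion Zs
  let H : K := ev t x q
  let h0 : ℕ := Z.sup (fun c => Finset.univ.sup (fun s => hc c s))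
  let h1 : ℕ := max (gi H) (Finset.univ.sup (fun s => gi (u s)))
  let e0 : ℕ := max (ge H) (Finset.univ.sup (fun s => ge (u s)))
  have huz : ∀ c ∉ Z, ∀ s, u s ∈ VG k (t - algebraMap k K c) x y := by
    intro c hcZ s
    refine hZs s c (fun h => hcZ ?_)
    exact Finset.mem_biUnion.mpr ⟨s, Finset.mem_univ _, h⟩
  refine ⟨H, h0, e0, h1, Z, ⟨hN3 q hq0, ?_, fun c => hU2 q c, ?_, huz, ?_, ?_, ?_, ?_⟩⟩
  · intro V hk ht hx hy s
    obtain ⟨Q, S, hQS⟩ := hq s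
    show ev t x q * u s ∈ V
    rw [hQS]
    exact add_mem (ACO_ev_mem t x V hk ht hx Q) (mul_mem (ACO_ev_mem t x V hk ht hx S) hy)
  · intro c s
    have hV := hVVA _ _ _ _ _ _ _ _ _ (hT c)
    by_cases hcZ : c ∈ Z
    · refine ACO_pow_mul_mem _ x y hV (u s) (hc c s) h0 ?_ (hhc c s)
      exact le_trans (Finset.le_sup (f := fun s => hc c s) (Finset.mem_univ s))
        (Finset.le_sup (f := fun c => Finset.univ.sup (fun s => hc c s)) hcZ)
    · refine ACO_pow_mul_mem _ x y hV (u s) 0 h0 (Nat.zero_le _) ?_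
      rw [pow_zero, one_mul]
      exact huz c hcZ s
  · exact ACO_pow_mul_mem _ _ _ (hVVA _ _ _ _ _ _ _ _ _ WI) H (gi H) h1 (le_max_left _ _) (hgi H)
  · intro s
    refine ACO_pow_mul_mem _ _ _ (hVVA _ _ _ _ _ _ _ _ _ WI) (u s) (gi (u s)) h1 ?_ (hgi (u s))
    exact le_trans (Finset.le_sup (f := fun s => gi (u s)) (Finset.mem_univ s)) (le_max_right _ _)
  · exact ACO_xpow_mul_mem t x y hx0 hO1 H (ge H) e0 (le_max_left _ _) (hge H)
  · intro s
    refine ACO_xpow_mul_mem t x y hx0 hO1 (u s) (ge (u s)) e0 ?_ (hge (u s))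
    exact le_trans (Finset.le_sup (f := fun s => ge (u s)) (Finset.mem_univ s)) (le_max_right _ _)

end Pool.IE
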