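import Pool.Agent.Work.MP_bf99ce_ie.Interface2

set_option autoImplicit false

open Polynomial

noncomputable section

namespace Pool.IE

theorem AFP_mult {k : Type} [Field k] (l : k[X]) (hl : l ≠ 0) (c : k) (e E : ℕ)
    (h : (X : k[X]) ^ e ∣ X ^ E * l.comp (X + C c)) : e ≤ l.rootMultiplicity c + E := by
  have h1 := map_dvd (compRingHom (X - C c)) h
  rw [map_mul, map_pow, map_pow, coe_compRingHom_apply, coe_compRingHom_apply, X_comp,
    comp_assoc] at h1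
  have e1 : (X + C c : k[X]).comp (X - C c) = X := by
    rw [add_comp, X_comp, C_comp]
    ring
  rw [e1, comp_X] at h1
  have h2 : (X - C c) ^ e ∣ l * (X - C c) ^ E := by rwa [mul_comm] at h1
  have hne : l * (X - C c) ^ E ≠ 0 := mul_ne_zero hl (pow_ne_zero _ (X_sub_C_ne_zero c))
  have h3 := (le_rootMultiplicity_iff hne).mpr h2
  rwa [rootMultiplicity_mul_X_sub_C_pow hl] at h3

theorem AFP_core (hPOL : Stmt_POL) (hVVA : Stmt_VVA) (hLAT : Stmt_LAT) (hTRL : Stmt_TRL)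
    (hUFZ : Stmt_UFZ) (k K : Type) [Field k] [CharZero k] [Field K] [Algebra k K] (t x y : K)
    (A B f : k[X]) (r : ℕ) (hWD : WD k K t x y A B f r) (D1 D2 : Derivation k K K)
    (N : ℕ) (u : Fin N → K) (d : ℕ) (H : K)
    (h0 e0 h1 : ℕ) (Z : Finset k) (hCD : CD k K t x y u d H h0 e0 h1 Z) (i j D : ℕ) (G : ℕ → K)
    (g : k[X]) (Q S : ℕ → P2 k) (hND : ND k K t x y D1 D2 u H i j D G g Q S) (c : k) (h : ℕ)
    (hh : ∀ s, (t - algebraMap k K c) ^ h * u s ∈ VG k (t - algebraMap k K c) x y) :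
    ∃ (Q' S' : ℕ → P2 k) (Λ : MvPolynomial (Fin 2) K),
      InL D1 D2 (VG k (t - algebraMap k K c) x y) i Λ ∧
      MvPolynomial.C ((t - algebraMap k K c) ^ (j * h)) *
        pol i (fun a => rr (t - algebraMap k K c) x y (Q' a) (S' a)) =
        MvPolynomial.C ((t - algebraMap k K c) ^ (g.rootMultiplicity c)) * Λ ∧
      ∀ a, (lam (Q' a) (S' a)).natDegree = (lam (Q a) (S a)).natDegree ∧
        (lam (Q' a) (S' a)).leadingCoeff = (lam (Q a) (S a)).leadingCoeff.comp (X + C c) ∧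
        (lam (Q a) (S a) ≠ 0 → lam (Q' a) (S' a) ≠ 0) ∧
        (lam (Q' a) (S' a) ≠ 0 → lam (Q a) (S a) ≠ 0) := by
  obtain ⟨hWD', -, hQS⟩ := hTRL k K t x y A B f r hWD c
  obtain ⟨V, hV⟩ := hVVA k K _ x y _ _ _ r hWD'
  obtain ⟨-, hev, -⟩ := hUFZ k K t x y A B f r hWD
  set t' : K := t - algebraMap k K c with ht'
  have hVmem : ∀ z : K, z ∈ V ↔ z ∈ VG k t' x y := by
    intro z
    rw [← hV]
    exact Iff.rfl
  have hkV : ∀ b : k, algebraMap k K b ∈ V := by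
    intro b
    rw [hVmem]
    have h2 := hev (C (C b)) c
    have e1 : ev t x (C (C b)) = algebraMap k K b := by
      simp [ev]
    rwa [e1] at h2
  have hsec := hND.sec V hkV
  obtain ⟨g1, hg1, -⟩ := exists_eq_pow_rootMultiplicity_mul_and_not_dvd g hND.g0 c
  have hgt : aeval t g = t' ^ (g.rootMultiplicity c) * aeval t g1 := by
    conv_lhs => rw [hg1]
    rw [map_mul, map_pow, map_sub, aeval_X, aeval_C]
  have hg1V : aeval t g1 ∈ V := by
    rw [hVmem]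
    have h2 := hev (C g1) c
    have e1 : ev t x (C g1) = aeval t g1 := by
      simp [ev]
    rwa [e1] at h2
  have hHV : H ∈ V := by
    rw [hVmem]
    exact hCD.Hc c
  have hw : aeval t g1 * H ^ j ∈ V := V.mul_mem _ _ hg1V (pow_mem hHV j)
  obtain ⟨-, -, hLAT3, -⟩ := hLAT k K D1 D2 V i j
  have hΛ := hLAT3 N u (pol i G) (aeval t g1 * H ^ j) (t' ^ h) hw
    (fun s => by rw [hVmem]; exact hh s) hsec
  choose Q' S' hrr hdeg hlc hne using fun a => hQS (Q a) (S a)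
  obtain ⟨-, hPOL2, hPOL3, -⟩ := hPOL K i
  refine ⟨Q', S', MvPolynomial.C (aeval t g1 * H ^ j * (t' ^ h) ^ j) * pol i G, ?_, ?_, ?_⟩
  · rw [hV] at hΛ
    exact hΛ
  · rw [hPOL3, hPOL3, hPOL3]
    refine hPOL2 _ _ fun a ha => ?_
    rw [hrr a, hND.num a ha, hgt]
    rw [← pow_mul, mul_comm j h]
    ring
  · intro a
    refine ⟨hdeg a, hlc a, hne a, fun h2 h3 => ?_⟩
    have h4 := hlc a
    rw [h3, leadingCoeff_zero, zero_comp] at h4
    exact h2 (leadingCoeff_eq_zero.mp h4)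

theorem p_AFP (hPOL : Stmt_POL) (hVVA : Stmt_VVA) (hLAT : Stmt_LAT) (hLGD : Stmt_LGD)
    (hLBD : Stmt_LBD) (hTRL : Stmt_TRL) (hUFZ : Stmt_UFZ) : Stmt_AFP := by
  intro k K _ _ _ _ t x y A B f r hWD D1 D2 hDD N u d H h0 e0 h1 Z hCD i j D G g Q S hND M a
    hM ha hla hMa
  have hev0 : ∀ c : k, (f.comp (X + C c)).eval 0 = f.eval c := by
    intro c
    rw [eval_comp, eval_add, eval_X, eval_C, zero_add]
  have hl : (lam (Q a) (S a)).leadingCoeff ≠ 0 := leadingCoeff_ne_zero.mpr hla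
  have good : ∀ (c : k) (h : ℕ), f.eval c ≠ 0 →
      (∀ s, (t - algebraMap k K c) ^ h * u s ∈ VG k (t - algebraMap k K c) x y) →
      g.rootMultiplicity c ≤ (lam (Q a) (S a)).leadingCoeff.rootMultiplicity c + j * h := by
    intro c h hfc hh
    obtain ⟨hWD', hDD', -⟩ := hTRL k K t x y A B f r hWD c
    obtain ⟨Q', S', Λ, hΛ, heq, hlam⟩ := AFP_core hPOL hVVA hLAT hTRL hUFZ k K t x y A B f r hWD
      D1 D2 N u d H h0 e0 h1 Z hCD i j D G g Q S hND c h hh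
    have h2 := hLGD k K _ x y _ _ _ r hWD' (by rw [hev0]; exact hfc) D1 D2 (hDD' D1 D2 hDD) i
      (j * h) (g.rootMultiplicity c) Q' S' Λ hΛ heq a ha (lam (Q' a) (S' a)).natDegree
    rw [coeff_natDegree, (hlam a).2.1] at h2
    exact AFP_mult _ hl c _ _ h2
  refine ⟨fun c hcZ hfc => ?_, fun c hfc => good c h0 hfc (hCD.uc c), fun c hfc => ?_⟩
  · have h2 := good c 0 hfc (fun s => by rw [pow_zero, one_mul]; exact hCD.uz c hcZ s)
    rwa [mul_zero, add_zero] at h2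
  · obtain ⟨hWD', hDD', -⟩ := hTRL k K t x y A B f r hWD c
    obtain ⟨Q', S', Λ, hΛ, heq, hlam⟩ := AFP_core hPOL hVVA hLAT hTRL hUFZ k K t x y A B f r hWD
      D1 D2 N u d H h0 e0 h1 Z hCD i j D G g Q S hND c h0 (hCD.uc c)
    have h2 := hLBD k K _ x y _ _ _ r hWD' (by rw [hev0]; exact hfc) D1 D2 (hDD' D1 D2 hDD) i
      (j * h0) (g.rootMultiplicity c) D M Q' S' Λ hΛ heq
      (fun a' ha' hne => by
        rw [(hlam a').1]
        exact ⟨hM a' ha' ((hlam a').2.2.2 hne), hND.deg a' ha'⟩)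
      a ha ((hlam a).2.2.1 hla) (by rw [(hlam a).1]; exact hMa)
    rw [(hlam a).2.1] at h2
    exact AFP_mult _ hl c _ _ h2

end Pool.IE
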