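import Pool.Agent.Work.MP_bf99ce_ie.Interface2

/-!
# Block AGD: the numerators of the coefficients of a section
-/

set_option autoImplicit false

open Polynomial

noncomputable section

namespace Pool.IE

theorem AGD_evC {k K : Type} [Field k] [Field K] [Algebra k K] (t x : K) (p : k[X]) :
    ev t x (C p) = aeval t p := by
  simp [ev]

/-- scaling of a pair by a polynomial in `t` -/
theorem AGD_rrC {k K : Type} [Field k] [Field K] [Algebra k K] (t x y : K) (c : k[X]) (Q S : P2 k) :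
    rr t x y (C c * Q) (C c * S) = aeval t c * rr t x y Q S := by
  simp only [rr, map_mul, AGD_evC]
  ring

/-- polynomials in `t` lie in every valuation ring containing `k` and `t` -/
theorem AGD_aeval {k K : Type} [Field k] [Field K] [Algebra k K] (V : ValuationSubring K) (t : K)
    (hk : ∀ c : k, algebraMap k K c ∈ V) (ht : t ∈ V) (p : k[X]) : aeval t p ∈ V := by
  induction p using Polynomial.induction_on' with
  | add p q hp hq =>
    rw [map_add]
    exact V.add_mem _ _ hp hq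
  | monomial n a =>
    rw [aeval_monomial]
    exact V.mul_mem _ _ (hk a) (pow_mem ht n)

/-- the two derivations preserve the valuation rings over the affine part of the generic fibre -/
theorem AGD_pres (hUNQ : Stmt_UNQ) (hDYF : Stmt_DYF) (hDVP : Stmt_DVP) {k K : Type} [Field k] [CharZero k] [Field K]
    [Algebra k K] (t x y : K) (A B f : k[X]) (r : ℕ) (hW : WD k K t x y A B f r) (hD : 4 * A ^ 3 + 27 * B ^ 2 ≠ 0)
    (D1 D2 : Derivation k K K) (hDD : DD t x y f r D1 D2) (V : ValuationSubring K)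
    (hk : ∀ c : k, algebraMap k K c ∈ V) (ht : t ∈ V) (hx : x ∈ V) (hy : y ∈ V)
    (hinv : ∀ p : k[X], p ≠ 0 → (aeval t p)⁻¹ ∈ V) : ∀ z ∈ V, D1 z ∈ V ∧ D2 z ∈ V := by
  obtain ⟨-, -, -, hy0, hx0, ht0, haev⟩ := hUNQ k K t x y A B f r hW
  obtain ⟨-, hdd⟩ := hDYF k K t x y A B f r hW
  obtain ⟨hD1y, hD2y⟩ := hdd D1 D2 hDD
  have hae := AGD_aeval V t hk ht
  have hnat : ∀ n : ℕ, (n : K) ∈ V := fun n => by
    have := hk (n : k)
    rwa [map_natCast] at this
  have hninv : ∀ n : ℕ, ((n : K))⁻¹ ∈ V := fun n => by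
    have := hk ((n : k)⁻¹)
    rwa [map_inv₀, map_natCast] at this
  have hchar : ∀ n : ℕ, n ≠ 0 → (n : K) ≠ 0 := by
    intro n hn h0
    have h1 : algebraMap k K (n : k) = 0 := by rw [map_natCast]; exact h0
    have h2 : (n : k) = 0 := (map_eq_zero _).mp h1
    exact hn (Nat.cast_eq_zero.mp h2)
  have hr : (r : K) ≠ 0 := hchar r (by have := hW.r0; omega)
  have hf : aeval t f ≠ 0 := haev f hW.f0
  have hfi := hinv f hW.f0
  have h2' : (2 : K) ≠ 0 := by
    have := hchar 2 two_ne_zero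
    simpa using this
  have hsol : ∀ z w : K, w ∈ V → (r : K) * aeval t f * z = w → z ∈ V := by
    intro z w hw hz
    have : z = ((r : K))⁻¹ * (aeval t f)⁻¹ * w := by
      rw [← hz]
      field_simp
    rw [this]
    exact V.mul_mem _ _ (V.mul_mem _ _ (hninv r) hfi) hw
  have m2 : (2 : K) ∈ V := by simpa using hnat 2
  have m3 : (3 : K) ∈ V := by simpa using hnat 3
  have hD1x : D1 x ∈ V := hsol _ _ (V.mul_mem _ _ (V.mul_mem _ _ m2 (hae (derivative f))) hx) hDD.x1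
  have hD1y' : D1 y ∈ V := hsol _ _ (V.mul_mem _ _ (V.mul_mem _ _ m3 (hae (derivative f))) hy) hD1y
  have hD1t : D1 t ∈ V := by rw [hDD.t1]; exact V.one_mem
  have hD2t : D2 t ∈ V := by rw [hDD.t2]; exact V.zero_mem
  have hD2x : D2 x ∈ V := by rw [hDD.x2]; exact hy
  have hD2y' : D2 y ∈ V := by
    have : D2 y = (2 : K)⁻¹ * (3 * x ^ 2 + aeval t A) := by
      rw [← hD2y]
      field_simp
    rw [this]
    refine V.mul_mem _ _ ?_ (V.add_mem _ _ (V.mul_mem _ _ m3 (pow_mem hx 2)) (hae A))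
    simpa using hninv 2
  intro z hz
  exact ⟨hDVP k K t x y A B f r hW hD V hk ht hx hy hinv D1 hD1t hD1x hD1y' z hz,
    hDVP k K t x y A B f r hW hD V hk ht hx hy hinv D2 hD2t hD2x hD2y' z hz⟩

/-- common denominators -/
theorem AGD_common {k K : Type} [Field k] [Field K] [Algebra k K] (t x y : K) (i : ℕ) (z : ℕ → K)
    (h : ∀ a ≤ i, ∃ (g : k[X]) (Q S : P2 k), g ≠ 0 ∧ aeval t g * z a = rr t x y Q S) :
    ∃ (g : k[X]) (Q S : ℕ → P2 k), g ≠ 0 ∧ ∀ a ≤ i, rr t x y (Q a) (S a) = aeval t g * z a := by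
  have h' : ∀ a : ℕ, ∃ (g : k[X]) (Q S : P2 k), g ≠ 0 ∧ (a ≤ i → aeval t g * z a = rr t x y Q S) := by
    intro a
    by_cases ha : a ≤ i
    · obtain ⟨g, Q, S, hg, hh⟩ := h a ha
      exact ⟨g, Q, S, hg, fun _ => hh⟩
    · exact ⟨1, 0, 0, one_ne_zero, fun h1 => absurd h1 ha⟩
  choose g Q S hg hgq using h'
  refine ⟨∏ a ∈ Finset.range (i + 1), g a, fun a => C (∏ b ∈ (Finset.range (i + 1)).erase a, g b) * Q a,
    fun a => C (∏ b ∈ (Finset.range (i + 1)).erase a, g b) * S a, ?_, ?_⟩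
  · exact Finset.prod_ne_zero_iff.mpr fun a _ => hg a
  · intro a ha
    have hmem : a ∈ Finset.range (i + 1) := Finset.mem_range.mpr (by omega)
    rw [AGD_rrC, ← hgq a ha, ← Finset.mul_prod_erase _ _ hmem, map_mul]
    ring

theorem p_AGD (hUNQ : Stmt_UNQ) (hDYF : Stmt_DYF) (hLMM : Stmt_LMM) (hPOL : Stmt_POL) (hLAT : Stmt_LAT)
    (hVOO : Stmt_VOO) (hINC : Stmt_INC) (hDVP : Stmt_DVP) : Stmt_AGD := by
  intro k K _ _ _ _ t x y A B f r hW hD D1 D2 hDD N u d H h0 e0 h1 Z hCD i j Φ hΦ0 hΦ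
  obtain ⟨hmul, hU2, hne, hy0, hx0, ht0, haev⟩ := hUNQ k K t x y A B f r hW
  obtain ⟨-, -, hL3, -⟩ := hLMM k A B
  obtain ⟨-, -, hP3, hP4⟩ := hPOL K i
  obtain ⟨⟨VO', hVO'⟩, hVOp, hVOd, hVOe, -⟩ := hVOO k K t x y A B f r hW
  have hmO : ∀ z : K, z ∈ VO k t x y ↔ z ∈ VO' := fun z => by
    rw [← hVO']
    exact SetLike.mem_coe
  -- step 1: homogeneity
  have hhom : Φ.IsHomogeneous i := by
    obtain ⟨hl1, -, hl3, -⟩ := hLAT k K D1 D2 (⊤ : ValuationSubring K) i j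
    have h2 := hl3 N u Φ 1 1 (ValuationSubring.mem_top _) (fun s => ValuationSubring.mem_top _)
      (hΦ ⊤ (fun c => ValuationSubring.mem_top _))
    rw [one_pow, mul_one, map_one, one_mul] at h2
    exact hl1 Φ h2
  obtain ⟨G, hG, hGc⟩ := hP4 Φ hhom
  -- step 2: the numerators
  have hnum : ∀ a ≤ i, ∃ (g : k[X]) (Q S : P2 k), g ≠ 0 ∧ aeval t g * (H ^ j * G a) = rr t x y Q S := by
    intro a ha
    refine hINC k K t x y A B f r hW hD (H ^ j * G a) ?_
    intro V hk ht hx hy hinv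
    have hpres := AGD_pres hUNQ hDYF hDVP t x y A B f r hW hD D1 D2 hDD V hk ht hx hy hinv
    obtain ⟨-, hl2, hl3, -⟩ := hLAT k K D1 D2 V i j
    have h2 := hl3 N u Φ 1 H V.one_mem (fun s => hCD.HV V hk ht hx hy s) (hΦ V hk)
    have h3 := hl2 _ hpres h2 (Finsupp.single 0 a + Finsupp.single 1 (i - a))
    rw [MvPolynomial.coeff_C_mul, ← hGc a ha, one_mul] at h3
    exact h3
  obtain ⟨g, Q, S, hg, hQS⟩ := AGD_common t x y i (fun a => H ^ j * G a) hnum
  have hkO : ∀ c : k, algebraMap k K c ∈ VO' := by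
    intro c
    by_cases hc : c = 0
    · rw [hc, map_zero]; exact VO'.zero_mem
    · have := (hVOp (C c) (by rw [Ne, C_eq_zero]; exact hc)).1
      rw [hmO, aeval_C] at this
      exact this
  refine ⟨G, g, Q, S, hG, ⟨?_, hg, ?_, ?_⟩, ?_⟩
  · intro V hk
    rw [← hG]
    exact hΦ V hk
  · intro a ha
    rw [hQS a ha]
    ring
  · intro a ha
    obtain ⟨-, hl2, hl3, -⟩ := hLAT k K D1 D2 VO' i j
    have h2 := hl3 N u Φ 1 (x⁻¹ ^ e0) VO'.one_mem (fun s => (hmO _).1 (hCD.uO s)) (hΦ VO' hkO)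
    have hpres : ∀ z ∈ VO', D1 z ∈ VO' ∧ D2 z ∈ VO' := by
      intro z hz
      have := hVOd D1 D2 hDD z ((hmO z).2 hz)
      exact ⟨(hmO _).1 this.1, (hmO _).1 this.2⟩
    have h3 := hl2 _ hpres h2 (Finsupp.single 0 a + Finsupp.single 1 (i - a))
    rw [MvPolynomial.coeff_C_mul, ← hGc a ha, one_mul] at h3
    have h4 : aeval t g * ((x⁻¹ ^ e0 * H) ^ j * ((x⁻¹ ^ e0) ^ j * G a)) ∈ VO k t x y := by
      rw [hmO]
      exact VO'.mul_mem _ _ ((hmO _).1 (hVOp g hg).1)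
        (VO'.mul_mem _ _ (pow_mem ((hmO _).1 hCD.HO) j) h3)
    have h5 := hVOe (Q a) (S a) (2 * e0 * j) _ h4 (by
      rw [hQS a ha]
      have hxx : x ^ (2 * e0 * j) * ((x⁻¹ ^ e0) ^ j * (x⁻¹ ^ e0) ^ j) = 1 := by
        rw [← mul_pow, ← pow_add, ← pow_mul, inv_pow, ← two_mul]
        exact mul_inv_cancel₀ (pow_ne_zero _ hx0)
      rw [mul_pow]
      linear_combination (-(aeval t g * H ^ j * G a)) * hxx)
    refine h5.trans (le_of_eq ?_)
    ring
  · have hex : ∃ a ≤ i, G a ≠ 0 := by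
      by_contra hcon
      push Not at hcon
      apply hΦ0
      rw [hG]
      unfold pol
      refine Finset.sum_eq_zero fun a ha => ?_
      rw [Finset.mem_range] at ha
      rw [hcon a (by omega), map_zero, zero_mul, zero_mul]
    obtain ⟨a, ha, hGa⟩ := hex
    refine ⟨a, ha, ?_⟩
    intro hl
    obtain ⟨hq0, hs0⟩ := hL3 _ _ hl
    have h2 := hQS a ha
    rw [hq0, hs0] at h2
    have h3 : rr t x y (0 : P2 k) 0 = 0 := by
      simp [rr]
    rw [h3] at h2
    exact mul_ne_zero (haev g hg) (mul_ne_zero (pow_ne_zero _ hCD.H0) hGa) h2.symm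

end Pool.IE
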