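import Pool.Agent.Work.MP_bf99ce_ie.Interface4

/-!
# Block AGN: the numerators of the coefficients of a section in the frame `D0`, `D2`
-/

set_option autoImplicit false

open Polynomial

noncomputable section

namespace Pool.IE

theorem AGN_evC {k K : Type} [Field k] [Field K] [Algebra k K] (t x : K) (p : k[X]) :
    ev t x (C p) = aeval t p := by
  simp [ev]

/-- scaling of a pair by a polynomial in `t` -/
theorem AGN_rrC {k K : Type} [Field k] [Field K] [Algebra k K] (t x y : K) (c : k[X]) (Q S : P2 k) :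
    rr t x y (C c * Q) (C c * S) = aeval t c * rr t x y Q S := by
  simp only [rr, map_mul, AGN_evC]
  ring

/-- polynomials in `t` lie in every valuation ring containing `k` and `t` -/
theorem AGN_aeval {k K : Type} [Field k] [Field K] [Algebra k K] (V : ValuationSubring K) (t : K)
    (hk : ∀ c : k, algebraMap k K c ∈ V) (ht : t ∈ V) (p : k[X]) : aeval t p ∈ V := by
  induction p using Polynomial.induction_on' with
  | add p q hp hq =>
    rw [map_add]
    exact V.add_mem _ _ hp hq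
  | monomial n a =>
    rw [aeval_monomial]
    exact V.mul_mem _ _ (hk a) (pow_mem ht n)

/-- common denominators -/
theorem AGN_common {k K : Type} [Field k] [Field K] [Algebra k K] (t x y : K) (i : ℕ) (z : ℕ → K)
    (h : ∀ a ≤ i, ∃ (g : k[X]) (Q S : P2 k), g ≠ 0 ∧ aeval t g * z a = rr t x y Q S) :
    ∃ (g : k[X]) (Q S : ℕ → P2 k), g ≠ 0 ∧ ∀ a ≤ i, rr t x y (Q a) (S a) = aeval t g * z a := by
  have h' : ∀ a : ℕ, ∃ (g : k[X]) (Q S : P2 k), g ≠ 0 ∧ (a ≤ i → aeval t g * z a = rr t x y Q S) := by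
    intro a
    by_cases ha : a ≤ i
    · obtain ⟨g, Q, S, hg, hh⟩ := h a ha
      exact ⟨g, Q, S, hg, fun _ => hh⟩
    · exact ⟨1, 0, 0, one_ne_zero, fun h1 => absurd h1 ha⟩
  choose g Q S hg hgq using h'
  refine ⟨∏ a ∈ Finset.range (i + 1), g a, fun a => C (∏ b ∈ (Finset.range (i + 1)).erase a, g b) * Q a,
    fun a => C (∏ b ∈ (Finset.range (i + 1)).erase a, g b) * S a, ?_, ?_⟩
  · exact Finset.prod_ne_zero_iff.mpr fun a _ => hg a
  · intro a ha
    have hmem : a ∈ Finset.range (i + 1) := Finset.mem_range.mpr (by omega)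
    rw [AGN_rrC, ← hgq a ha, ← Finset.mul_prod_erase _ _ hmem, map_mul]
    ring

theorem AGN_hom {K : Type} [Field K] (i : ℕ) (G : ℕ → K) : (pol i G).IsHomogeneous i := by
  unfold pol
  refine MvPolynomial.IsHomogeneous.sum _ _ _ fun a ha => ?_
  rw [Finset.mem_range] at ha
  have h := ((MvPolynomial.isHomogeneous_C (Fin 2) (G a)).mul
    (MvPolynomial.isHomogeneous_X_pow (R := K) (0 : Fin 2) a)).mul
    (MvPolynomial.isHomogeneous_X_pow (R := K) (1 : Fin 2) (i - a))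
  have he : 0 + a + (i - a) = i := by omega
  rw [he] at h
  exact h

/-- the coefficients of `pol` -/
theorem AGN_coeff (hPOL : Stmt_POL) {K : Type} [Field K] (i : ℕ) (G : ℕ → K) (a : ℕ) (ha : a ≤ i) :
    (pol i G).coeff (Finsupp.single 0 a + Finsupp.single 1 (i - a)) = G a := by
  obtain ⟨hP1, -, -, hP4⟩ := hPOL K i
  obtain ⟨G', hG', hc⟩ := hP4 (pol i G) (AGN_hom i G)
  rw [← hc a ha]
  exact (hP1 G G' hG' a ha).symm

/-- the derivations `y D0` and `D2` preserve the valuation rings over the affine part of the generic fibre -/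
theorem AGN_pres (hUNQ : Stmt_UNQ1) (hDYF : Stmt_DYF1) (hDVP : Stmt_DVP1) {k K : Type} [Field k] [CharZero k] [Field K]
    [Algebra k K] (t x y : K) (A B : k[X]) (hW : W1 k K t x y A B) (hD : 4 * A ^ 3 + 27 * B ^ 2 ≠ 0)
    (D0 D2 : Derivation k K K) (hDD : D0D t x y D0 D2) (V : ValuationSubring K)
    (hk : ∀ c : k, algebraMap k K c ∈ V) (ht : t ∈ V) (hx : x ∈ V) (hy : y ∈ V)
    (hinv : ∀ p : k[X], p ≠ 0 → (aeval t p)⁻¹ ∈ V) :
    ∀ z ∈ V, (y • D0) z ∈ V ∧ ((1 : K) • D2) z ∈ V := by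
  obtain ⟨-, -, -, hy0, hx0, ht0, haev⟩ := hUNQ k K t x y A B hW
  have hdd := hDYF k K t x y A B hW
  have hae := AGN_aeval V t hk ht
  have hninv : ∀ n : ℕ, ((n : K))⁻¹ ∈ V := fun n => by
    have := hk ((n : k)⁻¹)
    rwa [map_inv₀, map_natCast] at this
  have hnat : ∀ n : ℕ, (n : K) ∈ V := fun n => by
    have := hk (n : k)
    rwa [map_natCast] at this
  have h2' : (2 : K) ≠ 0 := by
    intro h0
    have h1 : algebraMap k K (2 : k) = 0 := by rw [map_ofNat]; exact h0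
    exact two_ne_zero ((map_eq_zero _).mp h1)
  have m3 : (3 : K) ∈ V := by simpa using hnat 3
  have m2i : (2 : K)⁻¹ ∈ V := by simpa using hninv 2
  have h0y : y * D0 y = (2 : K)⁻¹ * (aeval t (derivative A) * x + aeval t (derivative B)) := by
    have h := hdd D0
    rw [hDD.t1, hDD.x1] at h
    have h3 : 2 * (y * D0 y) = aeval t (derivative A) * x + aeval t (derivative B) := by
      linear_combination h
    rw [← h3]
    field_simp
  have h2y : D2 y = (2 : K)⁻¹ * (3 * x ^ 2 + aeval t A) := by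
    have h := hdd D2
    rw [hDD.t2, hDD.x2] at h
    have h3 : y * (2 * D2 y) = y * (3 * x ^ 2 + aeval t A) := by
      linear_combination h
    have h4 := mul_left_cancel₀ hy0 h3
    rw [← h4]
    field_simp
  intro z hz
  refine ⟨hDVP k K t x y A B hW hD V hk ht hx hy hinv (y • D0) ?_ ?_ ?_ z hz,
    hDVP k K t x y A B hW hD V hk ht hx hy hinv ((1 : K) • D2) ?_ ?_ ?_ z hz⟩
  · rw [Derivation.smul_apply, hDD.t1, smul_eq_mul, mul_one]
    exact hy
  · rw [Derivation.smul_apply, hDD.x1, smul_zero]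
    exact V.zero_mem
  · rw [Derivation.smul_apply, smul_eq_mul, h0y]
    exact V.mul_mem _ _ m2i (V.add_mem _ _ (V.mul_mem _ _ (hae _) hx) (hae _))
  · rw [Derivation.smul_apply, hDD.t2, smul_zero]
    exact V.zero_mem
  · rw [Derivation.smul_apply, hDD.x2, one_smul]
    exact hy
  · rw [Derivation.smul_apply, one_smul, h2y]
    exact V.mul_mem _ _ m2i (V.add_mem _ _ (V.mul_mem _ _ m3 (pow_mem hx 2)) (hae A))

theorem p_AGN (hUNQ : Stmt_UNQ1) (hDYF : Stmt_DYF1) (hPOL : Stmt_POL) (hLAT : Stmt_LAT)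
    (hVO : Stmt_VO1) (hVOZ : Stmt_VOZ) (hINC : Stmt_INC1) (hDVP : Stmt_DVP1) : Stmt_AGN := by
  intro k K _ _ _ _ t x y A B hW hD D0 D2 hDD N u d H h0 e0 h1 Z hCD i j Φ hΦ0 hΦ
  obtain ⟨hmul, hU2, hne, hy0, hx0, ht0, haev⟩ := hUNQ k K t x y A B hW
  obtain ⟨-, -, hP3, hP4⟩ := hPOL K i
  obtain ⟨⟨VO', hVO'⟩, hVOp, hVOd, hVOe, -⟩ := hVO k K t x y A B hW
  obtain ⟨-, -, hz3⟩ := hVOZ k K t x y A B hW
  have hmO : ∀ z : K, z ∈ VO k t x y ↔ z ∈ VO' := fun z => by
    rw [← hVO']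
    exact SetLike.mem_coe
  -- step 1: homogeneity
  have hhom : Φ.IsHomogeneous i := by
    obtain ⟨hl1, -, hl3, -⟩ := hLAT k K D0 D2 (⊤ : ValuationSubring K) i j
    have h2 := hl3 N u Φ 1 1 (ValuationSubring.mem_top _) (fun s => ValuationSubring.mem_top _)
      (hΦ ⊤ (fun c => ValuationSubring.mem_top _))
    rw [one_pow, mul_one, map_one, one_mul] at h2
    exact hl1 Φ h2
  obtain ⟨G, hG, hGc⟩ := hP4 Φ hhom
  -- step 2: the numerators
  have hnum : ∀ a ≤ i, ∃ (g : k[X]) (Q S : P2 k), g ≠ 0 ∧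
      aeval t g * (y ^ a * H ^ j * G a) = rr t x y Q S := by
    intro a ha
    refine hINC k K t x y A B hW hD (y ^ a * H ^ j * G a) ?_
    intro V hk ht hx hy hinv
    have hpres := AGN_pres hUNQ hDYF hDVP t x y A B hW hD D0 D2 hDD V hk ht hx hy hinv
    obtain ⟨-, -, -, hl4⟩ := hLAT k K D0 D2 V i j
    have hI := hΦ V hk
    rw [hG] at hI
    have hI' := hl4 N u G y 1 hI
    obtain ⟨-, hl2, hl3, -⟩ := hLAT k K (y • D0) ((1 : K) • D2) V i j
    have h2 := hl3 N u _ 1 H V.one_mem (fun s => hCD.HV V hk ht hx hy s) hI'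
    have h3 := hl2 _ hpres h2 (Finsupp.single 0 a + Finsupp.single 1 (i - a))
    rw [MvPolynomial.coeff_C_mul, AGN_coeff hPOL i _ a ha, one_mul] at h3
    have h4 : y ^ a * H ^ j * G a = H ^ j * (y ^ a * 1 ^ (i - a) * G a) := by
      rw [one_pow]
      ring
    rw [h4]
    exact h3
  obtain ⟨g, Q, S, hg, hQS⟩ := AGN_common t x y i (fun a => y ^ a * H ^ j * G a) hnum
  have hkO : ∀ c : k, algebraMap k K c ∈ VO' := by
    intro c
    by_cases hc : c = 0
    · rw [hc, map_zero]; exact VO'.zero_mem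
    · have := (hVOp (C c) (by rw [Ne, C_eq_zero]; exact hc)).1
      rw [hmO, aeval_C] at this
      exact this
  refine ⟨G, g, Q, S, hG, ⟨?_, hg, hQS⟩, ?_, ?_⟩
  · intro V hk
    rw [← hG]
    exact hΦ V hk
  · intro a ha
    obtain ⟨-, hl2, hl3, -⟩ := hLAT k K D0 D2 VO' i j
    have h2 := hl3 N u Φ 1 (x⁻¹ ^ e0) VO'.one_mem (fun s => (hmO _).1 (hCD.uO s)) (hΦ VO' hkO)
    have hpres : ∀ z ∈ VO', D0 z ∈ VO' ∧ D2 z ∈ VO' := by
      intro z hz
      have := hVOd D0 D2 hDD z ((hmO z).2 hz)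
      exact ⟨(hmO _).1 this.1, (hmO _).1 this.2⟩
    have h3 := hl2 _ hpres h2 (Finsupp.single 0 a + Finsupp.single 1 (i - a))
    rw [MvPolynomial.coeff_C_mul, ← hGc a ha, one_mul] at h3
    have hXz : x * (x / y) ^ 2 ∈ VO' := by
      have hl : lam (X : P2 k) 0 = X ^ 2 := by
        simp [lam]
      have hne0 : lam (X : P2 k) 0 ≠ 0 := by
        rw [hl]
        exact pow_ne_zero _ X_ne_zero
      have h5 := (hz3 X 0 hne0).1
      rw [hl, natDegree_X_pow, hmO] at h5
      have h6 : rr t x y (X : P2 k) 0 = x := by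
        simp [rr, ev]
      rw [h6] at h5
      rw [mul_comm]
      exact h5
    have h4 : (x / y) ^ (j * (4 * e0)) * (H ^ j * G a) =
        (x * (x / y) ^ 2) ^ (2 * e0 * j) * ((x⁻¹ ^ e0 * H) ^ j * ((x⁻¹ ^ e0) ^ j * G a)) := by
      have hxx : x ^ (2 * e0 * j) * ((x⁻¹ ^ e0) ^ j * (x⁻¹ ^ e0) ^ j) = 1 := by
        rw [← mul_pow, ← pow_add, ← pow_mul, inv_pow, ← two_mul]
        exact mul_inv_cancel₀ (pow_ne_zero _ hx0)
      have he : ((x / y) ^ 2) ^ (2 * e0 * j) = (x / y) ^ (j * (4 * e0)) := by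
        rw [← pow_mul]
        congr 1
        ring
      rw [mul_pow x, mul_pow _ H, he]
      linear_combination (-((x / y) ^ (j * (4 * e0)) * H ^ j * G a)) * hxx
    rw [h4, hmO]
    exact VO'.mul_mem _ _ (pow_mem hXz _) (VO'.mul_mem _ _ (pow_mem ((hmO _).1 hCD.HO) j) h3)
  · by_contra hcon
    push Not at hcon
    apply hΦ0
    rw [hG]
    unfold pol
    refine Finset.sum_eq_zero fun a ha => ?_
    rw [Finset.mem_range] at ha
    rw [hcon a (by omega), map_zero, zero_mul, zero_mul]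

end Pool.IE
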