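import Pool.Agent.Work.MP_bf99ce_ie.Interface2

/-!
# THEOREM IE (MP_bf99ce_ag), block AIN: the place `t = ∞`
-/

set_option autoImplicit false

open Polynomial

noncomputable section

namespace Pool.IE

theorem AIN_pow {K : Type} [Field K] (t s : K) (hst : s * t = 1) (p q a : ℕ)
    (h : p + 2 * a = q) : s ^ p = s ^ q * t ^ (2 * a) := by
  rw [← h, pow_add, mul_assoc, ← mul_pow, hst, one_pow, mul_one]

/-- The constants are in the valuation ring. -/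
theorem AIN_const (k K : Type) [Field k] [Field K] [Algebra k K] (t x y : K) (c : k) :
    algebraMap k K c ∈ VG k t x y := by
  refine ⟨1, C (C c), 0, ?_, ?_⟩
  · intro h
    have h1 : IsUnit (TT k) := isUnit_of_dvd_one h
    unfold TT at h1
    rw [Polynomial.isUnit_C] at h1
    exact Polynomial.not_isUnit_X h1
  · simp [rr, ev]

/-- Multiplication of a pair by a constant. -/
theorem AIN_rr (k K : Type) [Field k] [Field K] [Algebra k K] (t x y : K) (c : k[X])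
    (Q S : P2 k) : rr t x y (C c * Q) (C c * S) = aeval t c * rr t x y Q S := by
  have h : ev t x (C c) = aeval t c := by simp [ev]
  unfold rr
  rw [map_mul, map_mul, h]
  ring

/-- Cancellation of powers of `X`. -/
theorem AIN_dvd (k : Type) [Field k] (e E : ℕ) (hE : E ≤ e) (l : k[X])
    (h : (X : k[X]) ^ e ∣ X ^ E * l) : (X : k[X]) ^ (e - E) ∣ l := by
  have h1 : (X : k[X]) ^ e = X ^ E * X ^ (e - E) := by
    rw [← pow_add, Nat.add_sub_cancel' hE]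
  rw [h1] at h
  exact (mul_dvd_mul_iff_left (pow_ne_zero E X_ne_zero)).1 h

/-- The coefficients of the two sides. -/
theorem AIN_coef {K : Type} [Field K] (t : K) (ht : t ≠ 0) (H gt Ga : K)
    (E e dg h1 j d i a N : ℕ) (h : E + N + 2 * a = e + dg + h1 * j + h1 * j + d * (i - a)) :
    t⁻¹ ^ E * (t⁻¹ ^ N * ((-1) ^ a * (gt * H ^ j * Ga))) =
      t⁻¹ ^ e * ((t⁻¹ ^ dg * gt * (t⁻¹ ^ h1 * H) ^ j) * (t⁻¹ ^ h1) ^ j *
        ((-(t ^ 2)) ^ a * ((t ^ d)⁻¹) ^ (i - a) * Ga)) := by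
  have e1 : (-(t ^ 2)) ^ a = (-1) ^ a * t ^ (2 * a) := by
    rw [neg_pow, ← pow_mul]
  have e2 : ((t ^ d)⁻¹) ^ (i - a) = t⁻¹ ^ (d * (i - a)) := by
    rw [← inv_pow, ← pow_mul]
  have e3 : (t⁻¹ ^ h1 * H) ^ j = t⁻¹ ^ (h1 * j) * H ^ j := by
    rw [mul_pow, ← pow_mul]
  have e4 : (t⁻¹ ^ h1) ^ j = t⁻¹ ^ (h1 * j) := by
    rw [← pow_mul]
  have e5 := AIN_pow t t⁻¹ (inv_mul_cancel₀ ht) (E + N) _ a h
  rw [e1, e2, e3, e4]
  rw [pow_add, pow_add, pow_add, pow_add, pow_add] at e5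
  linear_combination ((-1) ^ a * (gt * H ^ j * Ga)) * e5

/-- **AIN.** The place `t = ∞`. -/
theorem p_AIN (hUNQ : Stmt_UNQ) (hLMM : Stmt_LMM) (hPOL : Stmt_POL) (hVVA : Stmt_VVA)
    (hLAT : Stmt_LAT) (hLGD : Stmt_LGD) (hLBD : Stmt_LBD) (hINV : Stmt_INV) (hINP : Stmt_INP)
    (hUHO : Stmt_UHO) : Stmt_AIN := by
  classical
  intro k K _ _ _ _ t x y A B f r hW D1 D2 hD d hd N u H h0 e0 h1 Z hCD i j D G g Q S hND
    M a hM ha hla hMa
  have ht0 : t ≠ 0 := (hUNQ k K t x y A B f r hW).2.2.2.2.2.1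
  obtain ⟨⟨A', B', hW'⟩, hDD'⟩ := hINV k K t x y A B f r hW d hd
  have hD' := hDD' D1 D2 hD
  obtain ⟨V, hV⟩ := hVVA k K _ _ _ A' B' _ r hW'
  have hmem : ∀ z, z ∈ V ↔ z ∈ VG k t⁻¹ (x / t ^ (2 * d)) (y / t ^ (3 * d)) := by
    intro z
    rw [← hV]
    rfl
  have hk : ∀ c : k, algebraMap k K c ∈ V := fun c => (hmem _).2 (AIN_const k K _ _ _ c)
  -- the pairs of the new datum
  have hINPa : ∀ a : ℕ, ∃ n0 : ℕ, ∀ N ≥ n0, ∃ Q' S' : P2 k,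
      rr t⁻¹ (x / t ^ (2 * d)) (y / t ^ (3 * d)) Q' S'
        = t⁻¹ ^ N * ((-1) ^ a * rr t x y (Q a) (S a)) ∧
      (lam Q' S').natDegree = (lam (Q a) (S a)).natDegree ∧
      (lam (Q a) (S a) ≠ 0 → lam Q' S' ≠ 0 ∧ ∀ e : ℕ, (X : k[X]) ^ e ∣ (lam Q' S').leadingCoeff →
        e + d * (lam (Q a) (S a)).natDegree + (lam (Q a) (S a)).leadingCoeff.natDegree ≤ N) := by
    intro a
    have hc0 : ((-1) ^ a : k[X]) ≠ 0 := pow_ne_zero _ (neg_ne_zero.2 one_ne_zero)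
    have hcd : ((-1) ^ a : k[X]).natDegree = 0 := by
      rw [natDegree_pow, natDegree_neg, natDegree_one, mul_zero]
    obtain ⟨n0, hn0⟩ := hINP k K t x y ht0 d (C ((-1) ^ a) * Q a) (C ((-1) ^ a) * S a)
    refine ⟨n0, fun N hN => ?_⟩
    obtain ⟨Q', S', g1, g2, g3⟩ := hn0 N hN
    have hl : lam (C ((-1) ^ a) * Q a) (C ((-1) ^ a) * S a) = C ((-1) ^ a) * lam (Q a) (S a) :=
      (hLMM k A B).2.1 _ _ _
    rw [AIN_rr, map_pow, map_neg, map_one] at g1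
    rw [hl, natDegree_C_mul hc0] at g2
    refine ⟨Q', S', g1, g2, fun h => ?_⟩
    rw [hl] at g3
    obtain ⟨g4, g5⟩ := g3 (mul_ne_zero (C_ne_zero.2 hc0) h)
    refine ⟨g4, fun e he => ?_⟩
    have g6 := g5 e he
    rw [natDegree_C_mul hc0, leadingCoeff_mul, leadingCoeff_C,
      natDegree_mul hc0 (leadingCoeff_ne_zero.2 h), hcd, zero_add] at g6
    exact g6
  choose n0 hn0 using hINPa
  obtain ⟨κ, hκ⟩ : ∃ κ, κ = 2 * i + g.natDegree + j * (2 * h1) + D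
      + ∑ a ∈ Finset.range (i + 1), n0 a := ⟨_, rfl⟩
  have hκa : ∀ b ≤ i, n0 b ≤ κ + d * (i - b) - 2 * b := by
    intro b hb
    have g1 : n0 b ≤ ∑ a ∈ Finset.range (i + 1), n0 a :=
      Finset.single_le_sum (f := n0) (fun _ _ => Nat.zero_le _)
        (Finset.mem_range.2 (Nat.lt_succ_of_le hb))
    omega
  have hex : ∀ b : ℕ, ∃ Q' S' : P2 k, b ≤ i →
      (rr t⁻¹ (x / t ^ (2 * d)) (y / t ^ (3 * d)) Q' S'
        = t⁻¹ ^ (κ + d * (i - b) - 2 * b) * ((-1) ^ b * rr t x y (Q b) (S b)) ∧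
      (lam Q' S').natDegree = (lam (Q b) (S b)).natDegree ∧
      (lam (Q b) (S b) ≠ 0 → lam Q' S' ≠ 0 ∧ ∀ e : ℕ, (X : k[X]) ^ e ∣ (lam Q' S').leadingCoeff →
        e + d * (lam (Q b) (S b)).natDegree + (lam (Q b) (S b)).leadingCoeff.natDegree
          ≤ κ + d * (i - b) - 2 * b)) := by
    intro b
    by_cases hb : b ≤ i
    · obtain ⟨Q', S', h⟩ := hn0 b _ (hκa b hb)
      exact ⟨Q', S', fun _ => h⟩
    · exact ⟨0, 0, fun h => absurd h hb⟩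
  choose Q' S' hQS using hex
  -- the form
  have hg1 : t⁻¹ ^ g.natDegree * aeval t g ∈ V :=
    (hmem _).2 ((hUHO k K t x y A B f r hW).2 g _ _)
  have hw : t⁻¹ ^ g.natDegree * aeval t g * (t⁻¹ ^ h1 * H) ^ j ∈ V :=
    V.mul_mem _ _ hg1 (pow_mem ((hmem _).2 hCD.Hi) j)
  have hInT := (hLAT k K D1 D2 V i j).2.2.2 N u G (-(t ^ 2)) ((t ^ d)⁻¹) (hND.sec V hk)
  have hInL := (hLAT k K (-(t ^ 2) • D1) ((t ^ d)⁻¹ • D2) V i j).2.2.1 N u _ _ (t⁻¹ ^ h1) hw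
    (fun s => (hmem _).2 (hCD.ui s)) hInT
  rw [hV] at hInL
  have hpol : MvPolynomial.C (t⁻¹ ^ (j * (2 * h1))) *
      pol i (fun b => rr t⁻¹ (x / t ^ (2 * d)) (y / t ^ (3 * d)) (Q' b) (S' b)) =
      MvPolynomial.C (t⁻¹ ^ (κ - g.natDegree)) *
        (MvPolynomial.C (t⁻¹ ^ g.natDegree * aeval t g * (t⁻¹ ^ h1 * H) ^ j * (t⁻¹ ^ h1) ^ j) *
          pol i (fun a => (-(t ^ 2)) ^ a * ((t ^ d)⁻¹) ^ (i - a) * G a)) := by
    rw [(hPOL K i).2.2.1, (hPOL K i).2.2.1, (hPOL K i).2.2.1]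
    apply (hPOL K i).2.1
    intro b hb
    show t⁻¹ ^ (j * (2 * h1)) * rr t⁻¹ (x / t ^ (2 * d)) (y / t ^ (3 * d)) (Q' b) (S' b) =
      t⁻¹ ^ (κ - g.natDegree) * (t⁻¹ ^ g.natDegree * aeval t g * (t⁻¹ ^ h1 * H) ^ j *
        (t⁻¹ ^ h1) ^ j * ((-(t ^ 2)) ^ b * ((t ^ d)⁻¹) ^ (i - b) * G b))
    rw [(hQS b hb).1, hND.num b hb]
    apply AIN_coef t ht0
    have g1 : j * (2 * h1) = h1 * j + h1 * j := by ring
    omega
  have hne : ∀ b ≤ i, lam (Q' b) (S' b) ≠ 0 → lam (Q b) (S b) ≠ 0 := by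
    intro b hb h h'
    apply h
    obtain ⟨g1, g2⟩ := (hLMM k A B).2.2.1 _ _ h'
    have g3 : rr t⁻¹ (x / t ^ (2 * d)) (y / t ^ (3 * d)) (Q' b) (S' b) = 0 := by
      rw [(hQS b hb).1, g1, g2]
      simp [rr]
    obtain ⟨g4, g5⟩ := (hUNQ k K _ _ _ A' B' _ r hW').2.1 _ _ g3
    rw [g4, g5]
    simp [lam]
  obtain ⟨k1, k2, k3⟩ := hQS a ha
  obtain ⟨k4, k5⟩ := k3 hla
  have hf0 : (reflect (r * d) f).eval 0 = f.coeff (r * d) := by
    rw [← coeff_zero_eq_eval_zero, coeff_reflect, revAt_zero]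
  by_cases hdeg : f.natDegree = r * d
  · rw [if_pos hdeg]
    have hf1 : (reflect (r * d) f).eval 0 ≠ 0 := by
      rw [hf0, ← hdeg]
      exact leadingCoeff_ne_zero.2 hW.f0
    have c1 := hLGD k K _ _ _ A' B' _ r hW' hf1 _ _ hD' i _ _ Q' S' _ hInL hpol a ha
      (lam (Q' a) (S' a)).natDegree
    have c2 := k5 _ (AIN_dvd k _ _ (by omega) _ c1)
    have c3 : 0 ≤ d * (lam (Q a) (S a)).natDegree := Nat.zero_le _
    omega
  · rw [if_neg hdeg]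
    have hf1 : (reflect (r * d) f).eval 0 = 0 := by
      rw [hf0]
      exact coeff_eq_zero_of_natDegree_lt (lt_of_le_of_ne hd hdeg)
    have c1 := hLBD k K _ _ _ A' B' _ r hW' hf1 _ _ hD' i _ _ D M Q' S' _ hInL hpol
      (fun b hb hb' => by
        have g1 := hne b hb hb'
        rw [(hQS b hb).2.1]
        exact ⟨hM b hb g1, hND.deg b hb⟩) a ha k4 (by rw [k2]; exact hMa)
    have c2 := k5 _ (AIN_dvd k _ _ (by omega) _ c1)
    have c3 : 0 ≤ d * (lam (Q a) (S a)).natDegree := Nat.zero_le _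
    omega

end Pool.IE
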