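import Pool.Agent.Work.MP_bf99ce_ie.Interface2

set_option autoImplicit false

open Polynomial

namespace Pool.IE

theorem p_AMN (hACO : Stmt_ACO) (hAGD : Stmt_AGD) (hAFP : Stmt_AFP) (hAIN : Stmt_AIN) (hARI : Stmt_ARI) : Stmt_AMN := by
  classical
  intro k K _ _ _ _ _ t x y A B f r hW hne hf1 hmult D1 D2 hD N u
  have hr := hW.r0
  obtain ⟨d, hd1, hd2⟩ : ∃ d : ℕ, f.natDegree ≤ r * d ∧ r * d < f.natDegree + r := by
    refine ⟨(f.natDegree + (r - 1)) / r, ?_, ?_⟩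
    · have h1 := Nat.div_add_mod (f.natDegree + (r - 1)) r
      have h2 := Nat.mod_lt (f.natDegree + (r - 1)) (show 0 < r by omega)
      omega
    · have h1 := Nat.mul_div_le (f.natDegree + (r - 1)) r
      omega
  obtain ⟨H, h0, e0, h1, Z, hCD⟩ := hACO k K t x y A B f r hW d hd1 N u
  refine ⟨2 * h1 + 4 * e0 + (Z.card + f.natDegree) * (h0 + 4 * e0), fun i j hij Φ hΦ => ?_⟩
  by_contra hne0
  obtain ⟨G, g, Q, S, hG, hND, a0, ha0, hl0⟩ :=
    hAGD k K t x y A B f r hW hne D1 D2 hD N u d H h0 e0 h1 Z hCD i j Φ hne0 hΦ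
  obtain ⟨a, haT, hmax⟩ := Finset.exists_max_image
    ((Finset.range (i + 1)).filter (fun a => lam (Q a) (S a) ≠ 0))
    (fun a => (lam (Q a) (S a)).natDegree + a) ⟨a0, by simp [hl0]; omega⟩
  rw [Finset.mem_filter, Finset.mem_range] at haT
  obtain ⟨hai, hla⟩ := haT
  have hM : ∀ a' ≤ i, lam (Q a') (S a') ≠ 0 →
      (lam (Q a') (S a')).natDegree + a' ≤ (lam (Q a) (S a)).natDegree + a := by
    intro a' ha' hl'
    exact hmax a' (by rw [Finset.mem_filter, Finset.mem_range]; exact ⟨by omega, hl'⟩)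
  obtain ⟨p1, p2, p3⟩ := hAFP k K t x y A B f r hW D1 D2 hD N u d H h0 e0 h1 Z hCD i j _ G g Q S hND _ a hM
    (by omega) hla rfl
  have p4 := hAIN k K t x y A B f r hW D1 D2 hD d hd1 N u H h0 e0 h1 Z hCD i j _ G g Q S hND _ a hM
    (by omega) hla rfl
  have key := hARI k f r d hf1 hmult hd1 hd2 (lam (Q a) (S a)).leadingCoeff g Z i a (j * h0) (j * (4 * e0))
    (j * (2 * h1) + j * (4 * e0)) (leadingCoeff_ne_zero.2 hla) hND.g0 (by omega) p1 p2 p3 p4
  have h3 : j * (2 * h1) + j * (4 * e0) + (Z.card + f.natDegree) * (j * h0 + j * (4 * e0)) =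
      (2 * h1 + 4 * e0 + (Z.card + f.natDegree) * (h0 + 4 * e0)) * j := by ring
  omega

end Pool.IE
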