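import Pool.Agent.Work.MP_bf99ce_ie.Interface

set_option autoImplicit false

open Polynomial AlgebraicGeometry CategoryTheory

noncomputable section

namespace Pool.IE

theorem ARI_deg {k : Type} [Field k] [IsAlgClosed k] [DecidableEq k] (P : k[X]) (T : Finset k)
    (hT : P.roots.toFinset ⊆ T) : P.natDegree = ∑ c ∈ T, P.rootMultiplicity c := by
  have h1 : Multiset.card P.roots = P.natDegree :=
    (Polynomial.splits_iff_card_roots.1 (IsAlgClosed.splits P))
  have h2 := Multiset.toFinset_sum_count_eq P.roots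
  rw [← h1, ← h2, Finset.sum_subset hT]
  · exact Finset.sum_congr rfl fun c _ => count_roots P
  · intro c _ hc
    exact Multiset.count_eq_zero_of_notMem fun h => hc (Multiset.mem_toFinset.2 h)

theorem p_ARI : Stmt_ARI := by
  intro k _ _ f r d hf1 hfr hfd hfd' l g Z i a h D h' hl hg hai h1 h2 h3 h4
  classical
  obtain ⟨S, hS⟩ : ∃ S : Finset k, S = f.roots.toFinset := ⟨_, rfl⟩
  obtain ⟨T, hT⟩ : ∃ T : Finset k, T = S ∪ g.roots.toFinset ∪ l.roots.toFinset ∪ Z := ⟨_, rfl⟩
  have hST : S ⊆ T := by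
    rw [hT]; intro c hc; simp only [Finset.mem_union]; tauto
  have hZT : Z ⊆ T := by
    rw [hT]; intro c hc; simp only [Finset.mem_union]; tauto
  have hgT : g.roots.toFinset ⊆ T := by
    rw [hT]; intro c hc; simp only [Finset.mem_union]; tauto
  have hlT : l.roots.toFinset ⊆ T := by
    rw [hT]; intro c hc; simp only [Finset.mem_union]; tauto
  have hf0 : f ≠ 0 := by rintro rfl; simp at hf1
  have hSm : ∀ c, c ∈ S ↔ f.eval c = 0 := by
    intro c
    rw [hS, Multiset.mem_toFinset, mem_roots hf0, IsRoot.def]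
  obtain ⟨b, hb⟩ : ∃ b, b = i - a := ⟨_, rfl⟩
  rw [← hb] at h3 h4
  have hpt : ∀ c ∈ T, g.rootMultiplicity c + (if c ∈ S then b else 0) ≤
      l.rootMultiplicity c + (if c ∈ Z then h else 0) + (if c ∈ S then h + D else 0) := by
    intro c _
    by_cases hc : c ∈ S
    · have := h3 c ((hSm c).1 hc)
      simp only [hc, if_true]
      omega
    · have hc' : f.eval c ≠ 0 := fun h0 => hc ((hSm c).2 h0)
      simp only [hc, if_false]
      by_cases hz : c ∈ Z
      · have := h2 c hc'
        simp only [hz, if_true]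
        omega
      · have := h1 c hz hc'
        simp only [hz, if_false]
        omega
  have hsum := Finset.sum_le_sum hpt
  rw [Finset.sum_add_distrib, Finset.sum_add_distrib, Finset.sum_add_distrib,
    ← ARI_deg g T hgT, ← ARI_deg l T hlT, Finset.sum_ite_mem, Finset.sum_ite_mem,
    Finset.sum_ite_mem, Finset.inter_eq_right.2 hST, Finset.inter_eq_right.2 hZT,
    Finset.sum_const, Finset.sum_const, Finset.sum_const, smul_eq_mul, smul_eq_mul,
    smul_eq_mul] at hsum
  have hdf : f.natDegree = ∑ c ∈ S, f.rootMultiplicity c := ARI_deg f S (by rw [hS])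
  have hr1 : 1 ≤ r := by
    have := hfr 0
    omega
  have hdf2 : f.natDegree ≤ S.card * (r - 1) := by
    rw [hdf, ← smul_eq_mul, ← Finset.sum_const]
    exact Finset.sum_le_sum fun c _ => Nat.le_sub_one_of_lt (hfr c)
  have hSc : S.card ≤ f.natDegree := by
    rw [hS]
    exact (Multiset.toFinset_card_le _).trans (card_roots' f)
  have hd1 : 1 ≤ d := by
    rcases Nat.eq_zero_or_pos d with h0 | h0
    · rw [h0] at hfd; omega
    · exact h0
  obtain ⟨s, hs⟩ : ∃ s, s = S.card := ⟨_, rfl⟩
  rw [← hs] at hdf2 hSc hsum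
  have hfin : s * (h + D) + Z.card * h ≤ (Z.card + f.natDegree) * (h + D) := by
    have e1 : s * (h + D) ≤ f.natDegree * (h + D) := Nat.mul_le_mul_right _ hSc
    have e2 : Z.card * h ≤ Z.card * (h + D) := Nat.mul_le_mul_left _ (Nat.le_add_right _ _)
    rw [add_mul]; omega
  obtain ⟨r', rfl⟩ : ∃ r', r = r' + 1 := ⟨r - 1, by omega⟩
  obtain ⟨d', rfl⟩ : ∃ d', d = d' + 1 := ⟨d - 1, by omega⟩
  rw [Nat.add_sub_cancel] at hdf2
  by_cases hfe : f.natDegree = (r' + 1) * (d' + 1)
  · rw [if_pos hfe] at h4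
    have hsd : d' + 2 ≤ s := by
      by_contra hc
      have hc' : s ≤ d' + 1 := by omega
      have := Nat.mul_le_mul_right r' hc'
      rw [hfe] at hdf2
      nlinarith
    have := Nat.mul_le_mul_right b hsd
    have e3 : (d' + 2) * b = (d' + 1) * b + b := by ring
    omega
  · rw [if_neg hfe] at h4
    have hsd : d' + 1 ≤ s := by
      by_contra hc
      have hc' : s ≤ d' := by omega
      have := Nat.mul_le_mul_right r' hc'
      nlinarith
    have := Nat.mul_le_mul_right b hsd
    omega

end Pool.IE
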