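import Pool.Agent.Work.MP_bf99ce_ie.Interface

/-!
# MP_bf99ce_ag, THEOREM IE, block CEN (the centre of a valuation on a proper scheme)
-/

set_option autoImplicit false

open Polynomial AlgebraicGeometry CategoryTheory

noncomputable section

namespace Pool.IE

theorem CEN_gen {k : Type} [Field k] {X : Scheme.{0}} [IsIntegral X]
    (s : X ⟶ Spec (CommRingCat.of k)) :
    X.fromSpecStalk (genericPoint X) ≫ s = Spec.map ((Scheme.ΓSpecIso (CommRingCat.of k)).inv ≫
      s.appTop ≫ X.presheaf.germ ⊤ (genericPoint X) trivial) := by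
  have h1 := Scheme.fromSpecStalk_toSpecΓ X (genericPoint X)
  have h2 := Scheme.toSpecΓ_naturality s
  have h3 : (Spec (CommRingCat.of k)).toSpecΓ = Spec.map (Scheme.ΓSpecIso (CommRingCat.of k)).hom :=
    (SpecMap_ΓSpecIso_hom _).symm
  rw [h3] at h2
  have h4 : s = X.toSpecΓ ≫ Spec.map s.appTop ≫
      Spec.map (Scheme.ΓSpecIso (CommRingCat.of k)).inv := by
    rw [← Category.assoc, ← h2, Category.assoc, ← Spec.map_comp, Iso.inv_hom_id, Spec.map_id,
      Category.comp_id]
  rw [Spec.map_comp, Spec.map_comp, ← h1, Category.assoc, Category.assoc, ← h4]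

theorem p_CEN : Stmt_CEN := by
  intro k _ X _ s _ V hV
  have hval : ValuativeCriterion.Existence s := by
    have h := (inferInstance : IsProper s)
    rw [IsProper.eq_valuativeCriterion] at h
    exact h.1.1.1.existence
  let φ : k →+* V := (str s).codRestrict V.toSubring hV
  have hφ : (algebraMap V X.functionField).comp φ = str s := by
    ext c
    rfl
  let i₁ : Spec (CommRingCat.of X.functionField) ⟶ X := X.fromSpecStalk (genericPoint X)
  let i₂ : Spec (CommRingCat.of V) ⟶ Spec (CommRingCat.of k) := Spec.map (CommRingCat.ofHom φ)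
  have hsq : i₁ ≫ s = Spec.map (CommRingCat.ofHom (algebraMap V X.functionField)) ≫ i₂ := by
    have h1 : i₁ ≫ s = Spec.map (CommRingCat.ofHom (str s)) := CEN_gen s
    rw [h1, ← Spec.map_comp, ← CommRingCat.ofHom_comp, hφ]
  obtain ⟨⟨l, hl, -⟩⟩ := hval ⟨V, X.functionField, i₁, i₂, ⟨hsq⟩⟩
  dsimp only at l hl
  let p : X := l (IsLocalRing.closedPoint V)
  let ψ : X.presheaf.stalk p ⟶ CommRingCat.of V := Scheme.stalkClosedPointTo l
  have hψ : Spec.map ψ ≫ X.fromSpecStalk p = l := Scheme.Spec_stalkClosedPointTo_fromSpecStalk l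
  have hsp : genericPoint X ⤳ p := (genericPoint_spec X).specializes trivial
  have h1 : Spec.map (X.presheaf.stalkSpecializes hsp) ≫ X.fromSpecStalk p =
      X.fromSpecStalk (genericPoint X) := Scheme.SpecMap_stalkSpecializes_fromSpecStalk hsp
  have h2 : Spec.map (ψ ≫ CommRingCat.ofHom (algebraMap V X.functionField)) ≫
      X.fromSpecStalk p = i₁ := by
    rw [Spec.map_comp, Category.assoc, hψ]
    exact hl
  have h3 : Spec.map (ψ ≫ CommRingCat.ofHom (algebraMap V X.functionField)) =
      Spec.map (X.presheaf.stalkSpecializes hsp) := by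
    rw [← cancel_mono (X.fromSpecStalk p), h2]
    exact h1.symm
  have h4 : ψ ≫ CommRingCat.ofHom (algebraMap V X.functionField) =
      X.presheaf.stalkSpecializes hsp := Spec.map_injective h3
  refine ⟨p, fun a => ?_⟩
  have h5 : algebraMap (X.presheaf.stalk p) X.functionField a =
      (X.presheaf.stalkSpecializes hsp).hom a := rfl
  rw [h5, ← h4]
  exact (ψ.hom a).2

end Pool.IE
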