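import Pool.Agent.Work.MP_bf99ce_ie.Interface4

/-! # Block CHC: choice of the second polynomial -/

set_option autoImplicit false

open Polynomial

noncomputable section

namespace Pool.IE

theorem CHC_map {K F : Type} [Field K] [Field F] [Algebra K F] (G : K[X]) (l : ℕ) :
    hasseDeriv l (G.map (algebraMap K F)) = (hasseDeriv l G).map (algebraMap K F) := by
  ext n
  rw [hasseDeriv_coeff, coeff_map, coeff_map, hasseDeriv_coeff, map_mul, map_natCast]

theorem CHC_tc {K F : Type} [Field K] [Field F] [Algebra K F] (α : F) (G : K[X]) (l : ℕ) :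
    (taylor α (G.map (algebraMap K F))).coeff l = aeval α (hasseDeriv l G) := by
  rw [taylor_coeff, CHC_map, eval_map_algebraMap]

theorem CHC_key {K F : Type} [Field K] [CharZero K] [Field F] [Algebra K F] (α : F)
    (N P h : K[X]) (e : ℕ) (hN : aeval α N = 0) (hN' : aeval α (derivative N) ≠ 0)
    (hP : P = N ^ e * h) (hh : aeval α h ≠ 0) : aeval α (hasseDeriv e P) ≠ 0 := by
  have h0 : (taylor α (N.map (algebraMap K F))).coeff 0 = 0 := by
    rw [CHC_tc, hasseDeriv_zero', hN]
  obtain ⟨q, hq⟩ := X_dvd_iff.2 h0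
  have hq0 : q.coeff 0 ≠ 0 := by
    have h1 : (taylor α (N.map (algebraMap K F))).coeff 1 = aeval α (derivative N) := by
      rw [CHC_tc, hasseDeriv_one']
    rw [hq, coeff_X_mul] at h1
    rw [h1]
    exact hN'
  have hT : taylor α (P.map (algebraMap K F)) =
      X ^ e * (q ^ e * taylor α (h.map (algebraMap K F))) := by
    rw [hP, Polynomial.map_mul, Polynomial.map_pow, taylor_mul, taylor_pow, hq, mul_pow,
      mul_assoc]
  rw [← CHC_tc, hT]
  have h2 := coeff_X_pow_mul (q ^ e * taylor α (h.map (algebraMap K F))) e 0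
  rw [zero_add] at h2
  rw [h2, mul_coeff_zero, coeff_zero_eq_eval_zero, eval_pow, ← coeff_zero_eq_eval_zero,
    CHC_tc, hasseDeriv_zero']
  exact mul_ne_zero (pow_ne_zero _ hq0) hh

theorem CHC_fin {k K : Type} [Field k] [CharZero k] [Field K] [Algebra k K] (P N : K[X])
    (L : ℕ) (hP : P ≠ 0) (hN : Irreducible N)
    (hL : ∀ e : ℕ, N ^ e ∣ P → e ≤ L) :
    {c : k | N ∣ ∑ l ∈ Finset.range (L + 1),
      C (algebraMap k K c ^ l) * hasseDeriv l P}.Finite := by
  classical
  have hcz : CharZero K := charZero_of_injective_algebraMap (algebraMap k K).injective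
  have hF : Fact (Irreducible N) := ⟨hN⟩
  obtain ⟨h, hh, hNh⟩ := (FiniteMultiplicity.of_prime_left hN.prime hP).exists_eq_pow_mul_and_not_dvd
  have h1 : ∀ G : K[X], aeval (AdjoinRoot.root N) G = 0 ↔ N ∣ G := fun G => by
    rw [AdjoinRoot.aeval_eq, AdjoinRoot.mk_eq_zero]
  have he : multiplicity N P ≤ L := hL _ ⟨h, hh⟩
  have hd : ¬ N ∣ derivative N := by
    intro hd
    have h3 : IsCoprime N (derivative N) := hN.separable
    exact hN.not_isUnit (h3.isUnit_of_dvd' dvd_rfl hd)
  have hk := CHC_key (AdjoinRoot.root N) N P h (multiplicity N P)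
    ((h1 N).2 dvd_rfl) (fun h' => hd ((h1 _).1 h')) hh (fun h' => hNh ((h1 _).1 h'))
  let Q : (AdjoinRoot N)[X] := ∑ l ∈ Finset.range (L + 1),
    C (aeval (AdjoinRoot.root N) (hasseDeriv l P)) * X ^ l
  have hQ : Q ≠ 0 := by
    intro hQ
    have h4 : Q.coeff (multiplicity N P) =
        aeval (AdjoinRoot.root N) (hasseDeriv (multiplicity N P) P) := by
      show (∑ l ∈ Finset.range (L + 1),
        C (aeval (AdjoinRoot.root N) (hasseDeriv l P)) * X ^ l).coeff (multiplicity N P) = _
      rw [Polynomial.finsetSum_coeff, Finset.sum_eq_single (multiplicity N P)]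
      · rw [coeff_C_mul_X_pow, if_pos rfl]
      · intro b _ hb
        rw [coeff_C_mul_X_pow, if_neg (Ne.symm hb)]
      · intro h5
        exact absurd (Finset.mem_range.2 (Nat.lt_succ_of_le he)) h5
    rw [hQ, coeff_zero] at h4
    exact hk h4.symm
  have hinj : Function.Injective (fun c : k =>
      algebraMap K (AdjoinRoot N) (algebraMap k K c)) :=
    (algebraMap K (AdjoinRoot N)).injective.comp (algebraMap k K).injective
  refine Set.Finite.subset (Set.Finite.preimage hinj.injOn
    (Polynomial.finite_setOfPred_isRoot hQ)) ?_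
  intro c hc
  show IsRoot Q (algebraMap K (AdjoinRoot N) (algebraMap k K c))
  have h6 := (h1 _).2 hc
  rw [map_sum] at h6
  show Polynomial.eval (algebraMap K (AdjoinRoot N) (algebraMap k K c))
    (∑ l ∈ Finset.range (L + 1),
      C (aeval (AdjoinRoot.root N) (hasseDeriv l P)) * X ^ l) = 0
  rw [Polynomial.eval_finsetSum, ← h6]
  refine Finset.sum_congr rfl fun l _ => ?_
  rw [eval_mul, eval_C, eval_pow, eval_X, map_mul, aeval_C, map_pow, mul_comm]

theorem CHC_lt {K : Type} [Field K] (P : K[X]) (hP : P ≠ 0) (l : ℕ) (hl : 1 ≤ l) :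
    (hasseDeriv l P).degree < P.degree := by
  rw [degree_eq_natDegree hP, degree_lt_iff_coeff_zero]
  intro m hm
  rw [hasseDeriv_coeff, coeff_eq_zero_of_natDegree_lt (by omega), mul_zero]

theorem p_CHC : Stmt_CHC := by
  intro k K _ _ _ _ P L hP hL
  classical
  have hinf : Infinite k := CharZero.infinite k
  have hfin : (⋃ N ∈ (UniqueFactorizationMonoid.normalizedFactors P).toFinset,
      {c : k | N ∣ ∑ l ∈ Finset.range (L + 1),
        C (algebraMap k K c ^ l) * hasseDeriv l P}).Finite := by
    refine Set.Finite.biUnion (Finset.finite_toSet _) ?_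
    intro N hN
    have hN' : N ∈ UniqueFactorizationMonoid.normalizedFactors P := Multiset.mem_toFinset.1 hN
    have hi := UniqueFactorizationMonoid.irreducible_of_normalized_factor N hN'
    have hm : N.Monic := by
      rw [← UniqueFactorizationMonoid.normalize_normalized_factor N hN']
      exact monic_normalize hi.ne_zero
    exact CHC_fin P N L hP hi (fun e he => hL N e hm hi he)
  obtain ⟨c, hc⟩ := hfin.exists_notMem
  refine ⟨c, ?_, ?_⟩
  · refine isCoprime_of_irreducible_dvd (fun h => hP h.1) ?_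
    intro z hz hzP hz2
    obtain ⟨N, hN, hzN⟩ := UniqueFactorizationMonoid.exists_mem_normalizedFactors_of_dvd
      hP hz hzP
    apply hc
    refine Set.mem_biUnion (x := N) ?_ ?_
    · exact Multiset.mem_toFinset.2 hN
    · exact (hzN.symm.dvd).trans hz2
  · refine natDegree_eq_of_degree_eq ?_
    rw [Finset.sum_range_succ', pow_zero, C_1, one_mul, hasseDeriv_zero', add_comm]
    refine degree_add_eq_left_of_degree_lt ?_
    refine lt_of_le_of_lt (degree_sum_le _ _) ?_
    have hb : (⊥ : WithBot ℕ) < P.degree := bot_lt_iff_ne_bot.2 (fun h => hP (degree_eq_bot.1 h))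
    rw [Finset.sup_lt_iff hb]
    intro l _
    refine lt_of_le_of_lt ?_ (CHC_lt P hP (l + 1) (Nat.le_add_left 1 l))
    refine (degree_mul_le _ _).trans ?_
    calc (C (algebraMap k K c ^ (l + 1))).degree + (hasseDeriv (l + 1) P).degree
        ≤ 0 + (hasseDeriv (l + 1) P).degree := by gcongr; exact degree_C_le
      _ = _ := zero_add _

end Pool.IE
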