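import Pool.Agent.Work.MP_bf99ce_ie.Interface3

/-!
# Block CNS (helper10): existence of the function field
-/

set_option autoImplicit false

open Polynomial

noncomputable section

namespace Pool.IE

theorem CNS_deg {k : Type} [Field k] (A B : k[X]) : (WP A B).natDegree = 3 := by
  have h1 : WP A B = X ^ 3 + (C A * X + C B) := by unfold WP; ring
  rw [h1]
  refine (Polynomial.natDegree_add_eq_left_of_natDegree_lt ?_).trans (Polynomial.natDegree_X_pow 3)
  rw [Polynomial.natDegree_X_pow]
  have h2 : (C A * X + C B : P2 k).natDegree ≤ 1 := Polynomial.natDegree_linear_le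
  omega

/-- `W` is not a square in the fraction field -/
theorem CNS_sq {k : Type} [Field k] (A B : k[X]) (b : FractionRing (P2 k)) :
    b ^ 2 ≠ algebraMap (P2 k) (FractionRing (P2 k)) (WP A B) := by
  intro h
  obtain ⟨c, hc⟩ := IsIntegrallyClosed.exists_algebraMap_eq_of_isIntegral_pow (R := P2 k)
    (x := b) (n := 2) (by norm_num) (by rw [h]; exact isIntegral_algebraMap)
  rw [← hc, ← map_pow] at h
  have h2 : c ^ 2 = WP A B := IsFractionRing.injective (P2 k) (FractionRing (P2 k)) h
  have h3 := congrArg Polynomial.natDegree h2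
  rw [Polynomial.natDegree_pow, CNS_deg] at h3
  omega

theorem p_CNS : Stmt_CNS := by
  intro k _ A B
  let M := FractionRing (P2 k)
  let F : M[X] := X ^ 2 - C (algebraMap (P2 k) M (WP A B))
  have hirr : Irreducible F := X_pow_sub_C_irreducible_of_prime Nat.prime_two (CNS_sq A B)
  haveI : Fact (Irreducible F) := ⟨hirr⟩
  let K := AdjoinRoot F
  let φ : P2 k →+* K := (AdjoinRoot.of F).comp (algebraMap (P2 k) M)
  have hφ : Function.Injective φ :=
    (AdjoinRoot.of F).injective.comp (IsFractionRing.injective (P2 k) M)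
  letI alg : Algebra k K := (φ.comp ((C : k[X] →+* P2 k).comp (C : k →+* k[X]))).toAlgebra
  let s : K := φ (C X)
  let x : K := φ X
  let y : K := AdjoinRoot.root F
  have halg : ∀ a : k, algebraMap k K a = φ (C (C a)) := fun a => rfl
  have haev : ∀ c : k[X], aeval s c = φ (C c) := by
    intro c
    have h1 : ((aeval s : k[X] →ₐ[k] K) : k[X] →+* K) = φ.comp (C : k[X] →+* P2 k) := by
      apply Polynomial.ringHom_ext
      · intro a
        change aeval s (C a) = φ (C (C a))
        rw [aeval_C, halg]
      · change aeval s X = φ (C X)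
        rw [aeval_X]
    exact congrArg (fun f : k[X] →+* K => f c) h1
  have hev : ∀ P : P2 k, ev s x P = φ P := by
    intro P
    have h1 : ev s x = φ := by
      apply Polynomial.ringHom_ext
      · intro c
        change eval₂RingHom ((aeval s : k[X] →ₐ[k] K) : k[X] →+* K) x (C c) = φ (C c)
        rw [coe_eval₂RingHom, eval₂_C]
        exact haev c
      · change eval₂RingHom ((aeval s : k[X] →ₐ[k] K) : k[X] →+* K) x X = φ X
        rw [coe_eval₂RingHom, eval₂_X]
    rw [h1]
  have hroot : y ^ 2 = φ (WP A B) := by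
    have h1 : eval₂ (AdjoinRoot.of F) (AdjoinRoot.root F) F = 0 := AdjoinRoot.eval₂_root F
    have h2 : eval₂ (AdjoinRoot.of F) (AdjoinRoot.root F) F = y ^ 2 - φ (WP A B) := by
      change eval₂ (AdjoinRoot.of F) (AdjoinRoot.root F)
        (X ^ 2 - C (algebraMap (P2 k) M (WP A B))) = y ^ 2 - φ (WP A B)
      rw [eval₂_sub, eval₂_pow, eval₂_X, eval₂_C]
      rfl
    rw [h2] at h1
    exact sub_eq_zero.mp h1
  refine ⟨K, inferInstance, alg, s, x, y, ⟨?_, ?_, ?_⟩⟩
  · rw [hroot, haev, haev]
    unfold WP
    rw [map_add, map_add, map_mul, map_pow]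
  · intro P hP
    rw [hev] at hP
    exact hφ (by rw [hP, map_zero])
  · intro z
    obtain ⟨p, hp⟩ := AdjoinRoot.mk_surjective (g := F) z
    have hmon : F.Monic := Polynomial.monic_X_pow_sub_C _ (by norm_num)
    have hF2 : F.natDegree = 2 := Polynomial.natDegree_X_pow_sub_C
    have hlt : (p %ₘ F).natDegree < F.natDegree :=
      Polynomial.natDegree_modByMonic_lt p hmon (by
        intro h
        rw [h, natDegree_one] at hF2
        exact absurd hF2 (by norm_num))
    rw [hF2] at hlt
    obtain ⟨a, b, hab⟩ := Polynomial.exists_eq_X_add_C_of_natDegree_le_one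
      (p := p %ₘ F) (by omega)
    have hz : z = AdjoinRoot.of F a * y + AdjoinRoot.of F b := by
      rw [← hp]
      have h1 : AdjoinRoot.mk F p = AdjoinRoot.mk F (p %ₘ F) := by
        rw [AdjoinRoot.mk_eq_mk]
        refine ⟨p /ₘ F, ?_⟩
        have := Polynomial.modByMonic_add_div p F
        linear_combination (-1 : M[X]) * this
      rw [h1, hab, map_add, map_mul]
      rfl
    obtain ⟨qa, pa, hpa, ha⟩ := IsFractionRing.div_surjective (A := P2 k) a
    obtain ⟨qb, pb, hpb, hb⟩ := IsFractionRing.div_surjective (A := P2 k) b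
    have hpa0 : pa ≠ 0 := nonZeroDivisors.ne_zero hpa
    have hpb0 : pb ≠ 0 := nonZeroDivisors.ne_zero hpb
    have ha' : AdjoinRoot.of F a * φ pa = φ qa := by
      have h1 : a * algebraMap (P2 k) M pa = algebraMap (P2 k) M qa := by
        rw [← ha, div_mul_cancel₀]
        intro h
        exact hpa0 (IsFractionRing.injective (P2 k) M (by rw [h, map_zero]))
      calc AdjoinRoot.of F a * φ pa = AdjoinRoot.of F (a * algebraMap (P2 k) M pa) := by
            rw [map_mul]; rfl
        _ = φ qa := by rw [h1]; rfl
    have hb' : AdjoinRoot.of F b * φ pb = φ qb := by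
      have h1 : b * algebraMap (P2 k) M pb = algebraMap (P2 k) M qb := by
        rw [← hb, div_mul_cancel₀]
        intro h
        exact hpb0 (IsFractionRing.injective (P2 k) M (by rw [h, map_zero]))
      calc AdjoinRoot.of F b * φ pb = AdjoinRoot.of F (b * algebraMap (P2 k) M pb) := by
            rw [map_mul]; rfl
        _ = φ qb := by rw [h1]; rfl
    refine ⟨pa * pb, qb * pa, qa * pb, mul_ne_zero hpa0 hpb0, ?_⟩
    unfold rr
    rw [hev, hev, hev, map_mul, map_mul, map_mul, hz]
    linear_combination (φ pb * y) * ha' + (φ pa) * hb'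

end Pool.IE
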