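import Pool.Agent.Work.MP_bf99ce_ie.Interface4

set_option autoImplicit false

open Polynomial AlgebraicGeometry CategoryTheory

noncomputable section

namespace Pool.IE

theorem UNQ1_evC {k K : Type} [Field k] [Field K] [Algebra k K] (t x : K) (p : k[X]) :
    ev t x (C p) = aeval t p := by
  simp [ev]

theorem UNQ1_evX {k K : Type} [Field k] [Field K] [Algebra k K] (t x : K) :
    ev t x (X : P2 k) = x := by
  simp [ev]

theorem UNQ1_evW {k K : Type} [Field k] [Field K] [Algebra k K] (t x : K) (A B : k[X]) :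
    ev t x (WP A B) = x ^ 3 + aeval t A * x + aeval t B := by
  simp only [WP, map_add, map_mul, map_pow, UNQ1_evC, UNQ1_evX]

theorem UNQ1_degW {k : Type} [Field k] (A B : k[X]) : (WP A B).natDegree = 3 ∧ WP A B ≠ 0 := by
  have h : (WP A B).natDegree = 3 := by
    unfold WP
    compute_degree!
  refine ⟨h, ?_⟩
  intro h0
  rw [h0] at h
  simp at h

theorem p_UNQ1 : Stmt_UNQ1 := by
  intro k K _ _ _ t x y A B h
  have hW : y ^ 2 = ev t x (WP A B) := by
    rw [UNQ1_evW]; exact h.rel
  have hne : ∀ P : P2 k, P ≠ 0 → ev t x P ≠ 0 := fun P hP h0 => hP (h.ind P h0)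
  have hWne : WP A B ≠ 0 := (UNQ1_degW A B).2
  have hmul : ∀ Q S Q' S' : P2 k,
      rr t x y Q S * rr t x y Q' S' = rr t x y (Q * Q' + S * S' * WP A B) (Q * S' + S * Q') := by
    intro Q S Q' S'
    simp only [rr, map_add, map_mul]
    linear_combination (ev t x S * ev t x S') * hW
  refine ⟨hmul, ?_, hne, ?_, ?_, ?_, ?_⟩
  · intro Q S h0
    have h1 : ev t x (Q ^ 2 - S ^ 2 * WP A B) = 0 := by
      simp only [map_sub, map_mul, map_pow, ← hW]
      have h2 : ev t x Q + ev t x S * y = 0 := h0
      linear_combination (ev t x Q - ev t x S * y) * h2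
    have h2 : Q ^ 2 = S ^ 2 * WP A B := sub_eq_zero.mp (h.ind _ h1)
    have hS : S = 0 := by
      by_contra hS
      have h3 := congrArg natDegree h2
      rw [natDegree_pow, natDegree_mul (pow_ne_zero _ hS) hWne, natDegree_pow, (UNQ1_degW A B).1] at h3
      omega
    subst hS
    refine ⟨?_, rfl⟩
    have h4 : Q ^ 2 = 0 := by rw [h2]; ring
    exact pow_eq_zero_iff (two_ne_zero) |>.mp h4
  · intro hy
    rw [hy] at hW
    exact hne _ hWne (by rw [← hW]; ring)
  · intro hx
    have := hne (X : P2 k) X_ne_zero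
    rw [UNQ1_evX] at this
    exact this hx
  · intro ht
    have h1 : (C (X : k[X]) : P2 k) ≠ 0 := by
      rw [Ne, C_eq_zero]; exact X_ne_zero
    have := hne _ h1
    rw [UNQ1_evC, aeval_X] at this
    exact this ht
  · intro p hp
    have h1 : (C p : P2 k) ≠ 0 := by
      rw [Ne, C_eq_zero]; exact hp
    have := hne _ h1
    rwa [UNQ1_evC] at this

end Pool.IE
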