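import Pool.Agent.Work.MP_bf99ce_ie.Interface4
import Pool.Agent.Work.MP_bf99ce_ie.B_UNQ1
import Pool.Agent.Work.MP_bf99ce_ie.B_DEX

set_option autoImplicit false

open Polynomial

noncomputable section

namespace Pool.IE

theorem DEX1_ker {k K L : Type} [Field k] [Field K] [Algebra k K] [CommRing L] (t x y : K) (A B : k[X])
    (h : W1 k K t x y A B) (φ : P2 k →+* L) (η : L) (hη : η ^ 2 = φ (WP A B)) (P : Polynomial (P2 k))
    (hP : eval₂ (ev t x) y P = 0) : eval₂ φ η P = 0 := by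
  obtain ⟨-, h0, -⟩ := p_UNQ1 k K t x y A B h
  have hm : (X ^ 2 - C (WP A B) : Polynomial (P2 k)).Monic := monic_X_pow_sub_C _ (by norm_num)
  have hd : (X ^ 2 - C (WP A B) : Polynomial (P2 k)).degree = 2 := degree_X_pow_sub_C (by norm_num) _
  have hdiv := modByMonic_add_div P (X ^ 2 - C (WP A B) : Polynomial (P2 k))
  have hmE : eval₂ (ev t x) y (X ^ 2 - C (WP A B) : Polynomial (P2 k)) = 0 := by
    rw [eval₂_sub, eval₂_X_pow, eval₂_C, UNQ_evW, h.rel, sub_self]
  have hmF : eval₂ φ η (X ^ 2 - C (WP A B) : Polynomial (P2 k)) = 0 := by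
    rw [eval₂_sub, eval₂_X_pow, eval₂_C, hη, sub_self]
  have hr : (P %ₘ (X ^ 2 - C (WP A B) : Polynomial (P2 k))).degree ≤ 1 := by
    have h1 := degree_modByMonic_lt P hm
    rw [hd] at h1
    exact Order.le_of_lt_succ h1
  have hr2 := eq_X_add_C_of_degree_le_one hr
  have hrE : eval₂ (ev t x) y (P %ₘ (X ^ 2 - C (WP A B) : Polynomial (P2 k))) = 0 := by
    rw [← hdiv, eval₂_add, eval₂_mul, hmE, zero_mul, add_zero] at hP
    exact hP
  rw [hr2, eval₂_add, eval₂_mul, eval₂_C, eval₂_C, eval₂_X] at hrE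
  obtain ⟨h3, h4⟩ := h0 _ _ (show rr t x y ((P %ₘ (X ^ 2 - C (WP A B) : Polynomial (P2 k))).coeff 0)
    ((P %ₘ (X ^ 2 - C (WP A B) : Polynomial (P2 k))).coeff 1) = 0 by rw [rr, add_comm]; exact hrE)
  have hr3 : P %ₘ (X ^ 2 - C (WP A B) : Polynomial (P2 k)) = 0 := by
    rw [hr2, h3, h4]; simp
  rw [← hdiv, eval₂_add, eval₂_mul, hmF, zero_mul, add_zero, hr3, eval₂_zero]

open TrivSqZeroExt in
theorem p_DEX1 : Stmt_DEX1 := by
  intro k K _ _ _ _ t x y A B h a b
  obtain ⟨-, -, hne, hy0, -⟩ := p_UNQ1 k K t x y A B h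
  let φ : P2 k →+* TrivSqZeroExt K K :=
    eval₂RingHom ((aeval (inl t + inr a : TrivSqZeroExt K K) : k[X] →ₐ[k] TrivSqZeroExt K K) :
      k[X] →+* TrivSqZeroExt K K) (inl x + inr b)
  let pr : TrivSqZeroExt K K →+* K := (fstHom K K K : TrivSqZeroExt K K →ₐ[K] K).toRingHom
  have hpr : ∀ l : TrivSqZeroExt K K, pr l = l.fst := fun l => rfl
  have hφC : ∀ p : k[X], (φ (C p)).fst = aeval t p := by
    intro p
    have h1 : φ (C p) = aeval (inl t + inr a : TrivSqZeroExt K K) p := by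
      simp [φ]
    rw [h1]
    have h2 : ((fstHom k K K : TrivSqZeroExt K K →ₐ[k] K).comp
        (aeval (inl t + inr a : TrivSqZeroExt K K) : k[X] →ₐ[k] TrivSqZeroExt K K)) = aeval t := by
      apply Polynomial.algHom_ext
      simp
    exact DFunLike.congr_fun h2 p
  have hφ : pr.comp φ = ev t x := by
    apply Polynomial.ringHom_ext
    · intro p
      rw [RingHom.comp_apply, hpr, hφC, UNQ_evC]
    · rw [RingHom.comp_apply, hpr, UNQ_evX]
      simp [φ]
  have hφ' : ∀ P : P2 k, (φ P).fst = ev t x P := fun P => DFunLike.congr_fun hφ P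
  let c : K := (φ (WP A B)).snd / (2 * y)
  let η : TrivSqZeroExt K K := inl y + inr c
  have hη : η ^ 2 = φ (WP A B) := by
    ext
    · rw [hφ', UNQ_evW, ← h.rel]
      simp [η]
    · rw [pow_two, snd_mul]
      simp only [η, fst_add, fst_inl, fst_inr, add_zero, snd_add, snd_inl, snd_inr, zero_add, smul_eq_mul,
        MulOpposite.smul_eq_mul_unop, MulOpposite.unop_op]
      simp only [c]
      have : CharZero K := charZero_of_injective_algebraMap (algebraMap k K).injective
      field_simp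
      norm_num
  obtain ⟨ψ, hψ1, hψ2⟩ := DEX_lift (eval₂RingHom (ev t x) y) (eval₂RingHom φ η) pr
    (fun P => by
      simp only [coe_eval₂RingHom]
      rw [Polynomial.hom_eval₂, hφ, hpr]
      simp [η])
    (fun P hP => DEX1_ker t x y A B h φ η hη P hP)
    (fun l hl => isUnit_iff_isUnit_fst.mpr (isUnit_iff_ne_zero.mpr hl))
    (fun z => by
      obtain ⟨P, Q, S, hP, hz⟩ := h.gen z
      refine ⟨C Q + C S * X, C P, ?_, ?_⟩
      · simp only [coe_eval₂RingHom, eval₂_C]
        exact hne P hP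
      · simp only [coe_eval₂RingHom, eval₂_C, eval₂_add, eval₂_mul, eval₂_X]
        exact hz)
  have hψc : ∀ e : k, ψ (algebraMap k K e) = algebraMap k (TrivSqZeroExt K K) e := by
    intro e
    have h1 := hψ1 (C (C (C e)))
    simp only [coe_eval₂RingHom, eval₂_C, UNQ_evC, aeval_C] at h1
    rw [h1]
    simp [φ]
  have hψt : ψ t = inl t + inr a := by
    have h1 := hψ1 (C (C X))
    simp only [coe_eval₂RingHom, eval₂_C, UNQ_evC, aeval_X] at h1
    rw [h1]
    simp [φ]
  have hψx : ψ x = inl x + inr b := by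
    have h1 := hψ1 (C X)
    simp only [coe_eval₂RingHom, eval₂_C, UNQ_evX] at h1
    rw [h1]
    simp [φ]
  have hf : ∀ z, (ψ z).fst = z := hψ2
  refine ⟨Derivation.mk'
    { toFun := fun z => (ψ z).snd
      map_add' := fun z w => by rw [map_add, snd_add]
      map_smul' := fun e z => ?_ } ?_, ?_, ?_⟩
  · rw [Algebra.smul_def, map_mul, hψc, snd_mul]
    simp [TrivSqZeroExt.algebraMap_eq_inl', Algebra.smul_def]
  · intro z w
    simp only [LinearMap.coe_mk, AddHom.coe_mk]
    rw [map_mul, snd_mul, hf, hf]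
    simp [mul_comm]
  · simp [hψt]
  · simp [hψx]

end Pool.IE
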