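import Pool.Agent.Work.MP_bf99ce_ie.Interface4

set_option autoImplicit false

open Polynomial AlgebraicGeometry CategoryTheory

noncomputable section

namespace Pool.IE

theorem DVP1_evC {k K : Type} [Field k] [Field K] [Algebra k K] (t x : K) (p : k[X]) :
    ev t x (C p) = aeval t p := by
  simp [ev]

theorem DVP1_evX {k K : Type} [Field k] [Field K] [Algebra k K] (t x : K) :
    ev t x (X : P2 k) = x := by
  simp [ev]

/-- the elements of `V` whose derivative is in `V` -/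
def DVP1_T {k K : Type} [Field k] [Field K] [Algebra k K] (V : ValuationSubring K) (D : Derivation k K K) : Subring K where
  carrier := {a | a ∈ V ∧ D a ∈ V}
  mul_mem' := by
    rintro a b ⟨ha, ha'⟩ ⟨hb, hb'⟩
    refine ⟨V.mul_mem _ _ ha hb, ?_⟩
    rw [D.leibniz]
    exact V.add_mem _ _ (V.mul_mem _ _ ha hb') (V.mul_mem _ _ hb ha')
  one_mem' := ⟨V.one_mem, by rw [D.map_one_eq_zero]; exact V.zero_mem⟩
  add_mem' := by
    rintro a b ⟨ha, ha'⟩ ⟨hb, hb'⟩
    exact ⟨V.add_mem _ _ ha hb, by rw [map_add]; exact V.add_mem _ _ ha' hb'⟩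
  zero_mem' := ⟨V.zero_mem, by rw [map_zero]; exact V.zero_mem⟩
  neg_mem' := by
    rintro a ⟨ha, ha'⟩
    exact ⟨V.neg_mem _ ha, by rw [map_neg]; exact V.neg_mem _ ha'⟩

theorem DVP1_T_inv {k K : Type} [Field k] [Field K] [Algebra k K] (V : ValuationSubring K) (D : Derivation k K K) (a : K)
    (ha : a ∈ DVP1_T V D) (hi : a⁻¹ ∈ V) : a⁻¹ ∈ DVP1_T V D := by
  refine ⟨hi, ?_⟩
  rw [D.leibniz_inv]
  have h1 : a⁻¹ ^ 2 ∈ V := by
    rw [pow_two]; exact V.mul_mem _ _ hi hi
  rw [smul_eq_mul]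
  have h2 := V.mul_mem _ _ h1 ha.2
  have h3 := V.neg_mem _ h2
  have e : -a⁻¹ ^ 2 * D a = -(a⁻¹ ^ 2 * D a) := by ring
  rw [e]
  exact h3

theorem DVP1_T_ev {k K : Type} [Field k] [Field K] [Algebra k K] (T : Subring K) (t x : K)
    (hk : ∀ c : k, algebraMap k K c ∈ T) (ht : t ∈ T) (hx : x ∈ T) :
    (∀ p : k[X], aeval t p ∈ T) ∧ ∀ Q : P2 k, ev t x Q ∈ T := by
  have h1 : ∀ p : k[X], aeval t p ∈ T := by
    intro p
    rw [aeval_eq_sum_range]
    refine T.sum_mem fun i _ => ?_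
    rw [Algebra.smul_def]
    exact T.mul_mem (hk _) (T.pow_mem ht _)
  refine ⟨h1, fun Q => ?_⟩
  induction Q using Polynomial.induction_on' with
  | add p q hp hq => rw [map_add]; exact T.add_mem hp hq
  | monomial n p =>
    rw [← C_mul_X_pow_eq_monomial, map_mul, map_pow, DVP1_evC, DVP1_evX]
    exact T.mul_mem (h1 p) (T.pow_mem hx _)

theorem DVP1_ded {k K : Type} [Field k] [Field K] [Algebra k K] (t x y : K) (A B : k[X])
    (h : W1 k K t x y A B) (R : Subring K)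
    (hR : ∀ z : K, z ∈ R ↔ ∃ (g : k[X]) (Q S : P2 k), g ≠ 0 ∧ aeval t g * z = rr t x y Q S)
    (hint : ∀ z : K, IsIntegral R z → z ∈ R) (hne : ∀ P : P2 k, P ≠ 0 → ev t x P ≠ 0)
    (hne' : ∀ p : k[X], p ≠ 0 → aeval t p ≠ 0) : IsFractionRing R K ∧ IsDedekindDomain R := by
  have hev : ∀ Q : P2 k, ev t x Q ∈ R := fun Q => (hR _).mpr ⟨1, Q, 0, one_ne_zero, by simp [rr]⟩
  have hy : y ∈ R := (hR _).mpr ⟨1, 0, 1, one_ne_zero, by simp [rr]⟩
  have hxR : x ∈ R := by rw [← DVP1_evX (k := k) t x]; exact hev _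
  have hfrac : IsFractionRing R K := by
    refine IsFractionRing.of_field R K fun z => ?_
    obtain ⟨P, Q, S, hP, hz⟩ := h.gen z
    refine ⟨⟨rr t x y Q S, ?_⟩, ⟨ev t x P, hev P⟩, ?_⟩
    · exact R.add_mem (hev _) (R.mul_mem (hev _) hy)
    · show z = rr t x y Q S / ev t x P
      rw [← hz, mul_div_assoc, div_self (hne P hP), mul_one]
  refine ⟨hfrac, ?_⟩
  -- the map from `F[X]`
  let F := FractionRing k[X]
  have hinj : Function.Injective ((aeval t : k[X] →ₐ[k] K) : k[X] →+* K) := by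
    rw [injective_iff_map_eq_zero]
    intro p hp
    by_contra h0
    exact hne' p h0 hp
  let φ : F →+* K := IsFractionRing.lift hinj
  have hφ : ∀ p : k[X], φ (algebraMap k[X] F p) = aeval t p := fun p => IsFractionRing.lift_algebraMap hinj p
  have hφR : ∀ c : F, φ c ∈ R := by
    intro c
    obtain ⟨a, b, hb, rfl⟩ := IsFractionRing.div_surjective k[X] c
    refine (hR _).mpr ⟨b, C a, 0, nonZeroDivisors.ne_zero hb, ?_⟩
    rw [map_div₀, hφ, hφ, rr, DVP1_evC, map_zero, zero_mul, add_zero, mul_div_cancel₀ _ (hne' b (nonZeroDivisors.ne_zero hb))]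
  let φR : F →+* R := φ.codRestrict R hφR
  let Φ : F[X] →+* R := eval₂RingHom φR ⟨x, hxR⟩
  have hΦ : ∀ P : F[X], ((Φ P : R) : K) = eval₂ φ x P := by
    intro P
    have : ((Φ P : R) : K) = R.subtype (eval₂ φR ⟨x, hxR⟩ P) := rfl
    rw [this, Polynomial.hom_eval₂]
    rfl
  have hΦm : ∀ Q : P2 k, ((Φ (Q.map (algebraMap k[X] F)) : R) : K) = ev t x Q := by
    intro Q
    rw [hΦ, eval₂_map]
    have : φ.comp (algebraMap k[X] F) = ((aeval t : k[X] →ₐ[k] K) : k[X] →+* K) := by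
      apply RingHom.ext; intro p; exact hφ p
    rw [this]
    rfl
  letI : Algebra F[X] R := Φ.toAlgebra
  have halg : ∀ P : F[X], algebraMap F[X] R P = Φ P := fun _ => rfl
  have hfin : Module.Finite F[X] R := by
    classical
    refine ⟨⟨{1, ⟨y, hy⟩}, ?_⟩⟩
    rw [eq_top_iff]
    rintro ⟨z, hz⟩ -
    obtain ⟨g, Q, S, hg, hz'⟩ := (hR z).mp hz
    have e : (⟨z, hz⟩ : R) = (C (algebraMap k[X] F g)⁻¹ * Q.map (algebraMap k[X] F)) • (1 : R) +
        (C (algebraMap k[X] F g)⁻¹ * S.map (algebraMap k[X] F)) • (⟨y, hy⟩ : R) := by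
      apply Subtype.ext
      rw [Algebra.smul_def, Algebra.smul_def, halg, halg, map_mul, map_mul]
      push_cast
      rw [hΦm, hΦm, hΦ, eval₂_C, map_inv₀, hφ]
      simp only [rr] at hz'
      have hg' := hne' g hg
      field_simp
      rw [mul_comm]
      exact hz'
    rw [e]
    refine Submodule.add_mem _ (Submodule.smul_mem _ _ (Submodule.subset_span (by simp)))
      (Submodule.smul_mem _ _ (Submodule.subset_span (by simp)))
  haveI : Algebra.IsIntegral F[X] R := inferInstance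
  haveI hN : IsNoetherianRing R := IsNoetherianRing.of_finite F[X] R
  haveI hDim : Ring.DimensionLEOne R := by
    refine ⟨fun {p} hp hpr => ?_⟩
    haveI := hpr
    refine Ideal.isMaximal_of_isIntegral_of_isMaximal_comap (R := F[X]) p ?_
    have h2 : p.comap (algebraMap F[X] R) ≠ ⊥ := fun h3 => hp (Ideal.eq_bot_of_comap_eq_bot h3)
    haveI : (p.comap (algebraMap F[X] R)).IsPrime := Ideal.comap_isPrime _ _
    exact IsPrime.to_maximal_ideal h2
  have hic : IsIntegrallyClosed R := by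
    rw [isIntegrallyClosed_iff K]
    intro z hz
    exact ⟨⟨z, hint z hz⟩, rfl⟩
  haveI : IsDedekindRing R := by
    rw [isDedekindRing_iff R K]
    exact ⟨hN, hDim, fun {z} hz => ⟨⟨z, hint z hz⟩, rfl⟩⟩
  exact {}

theorem p_DVP1 (hU : Stmt_UNQ1) (hRI : Stmt_RIC1) : Stmt_DVP1 := by
  intro k K _ _ _ _ t x y A B h hdisc V hk ht hx hy hinv D hDt hDx hDy z hz
  obtain ⟨-, -, hne, -, -, -, hne'⟩ := hU k K t x y A B h
  obtain ⟨R, hR', hint⟩ := hRI k K t x y A B h hdisc
  have hR : ∀ z : K, z ∈ R ↔ ∃ (g : k[X]) (Q S : P2 k), g ≠ 0 ∧ aeval t g * z = rr t x y Q S := by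
    intro z
    rw [← SetLike.mem_coe, hR']
    rfl
  obtain ⟨hfrac, hded⟩ := DVP1_ded t x y A B h R hR hint hne hne'
  haveI := hfrac
  haveI := hded
  -- `R` is in `T`
  let T := DVP1_T V D
  have hkT : ∀ c : k, algebraMap k K c ∈ T := fun c => ⟨hk c, by rw [D.map_algebraMap]; exact V.zero_mem⟩
  obtain ⟨hT1, hT2⟩ := DVP1_T_ev T t x hkT ⟨ht, hDt⟩ ⟨hx, hDx⟩
  have hRT : ∀ a : K, a ∈ R → a ∈ T := by
    intro a ha
    obtain ⟨g, Q, S, hg, ha'⟩ := (hR a).mp ha
    have e : a = (aeval t g)⁻¹ * rr t x y Q S := by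
      rw [← ha', inv_mul_cancel_left₀ (hne' g hg)]
    rw [e]
    exact T.mul_mem (DVP1_T_inv V D _ (hT1 g) (hinv g hg)) (T.add_mem (hT2 _) (T.mul_mem (hT2 _) ⟨hy, hDy⟩))
  have hRV : ∀ a : K, a ∈ R → a ∈ V := fun a ha => (hRT a ha).1
  -- it suffices to write `z` as a fraction
  suffices hs : ∃ a s : K, a ∈ R ∧ s ∈ R ∧ s⁻¹ ∈ V ∧ z = a * s⁻¹ by
    obtain ⟨a, s, ha, hs, hsi, rfl⟩ := hs
    exact (T.mul_mem (hRT a ha) (DVP1_T_inv V D s (hRT s hs) hsi)).2
  by_cases hz0 : z = 0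
  · exact ⟨0, 1, R.zero_mem, R.one_mem, by rw [inv_one]; exact V.one_mem, by rw [hz0]; ring⟩
  let ι : R →+* V := Subring.inclusion (T := V.toSubring) (fun a ha => hRV a ha)
  let P : Ideal R := (IsLocalRing.maximalIdeal V).comap ι
  haveI hP : P.IsPrime := Ideal.comap_isPrime _ _
  have hPc : ∀ s : R, s ∉ P → ((s : K))⁻¹ ∈ V := by
    intro s hs
    have h1 : IsUnit (ι s) := by
      by_contra h2
      exact hs ((IsLocalRing.mem_maximalIdeal _).mpr h2)
    obtain ⟨u, hu⟩ := h1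
    have h3 : ((s : K)) * ((u⁻¹ : Vˣ) : V) = 1 := by
      have h4 : ((ι s : V) : K) = (s : K) := rfl
      rw [← h4, ← hu]
      have h5 : ((u : V) * ((u⁻¹ : Vˣ) : V) : V) = 1 := u.mul_inv
      exact congrArg (Subtype.val) h5
    have h6 : ((s : K))⁻¹ = (((u⁻¹ : Vˣ) : V) : K) := by
      rw [inv_eq_iff_eq_inv]
      exact eq_inv_of_mul_eq_one_left h3
    rw [h6]
    exact ((u⁻¹ : Vˣ) : V).2
  by_cases hP0 : P = ⊥
  · obtain ⟨a, b, hb, hab⟩ := IsFractionRing.div_surjective R z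
    have hb0 : b ≠ 0 := nonZeroDivisors.ne_zero hb
    refine ⟨a, b, a.2, b.2, hPc b (by rw [hP0]; simpa using hb0), ?_⟩
    rw [← div_eq_mul_inv]
    exact hab.symm
  · let L := Localization.subalgebra.ofField K P.primeCompl P.primeCompl_le_nonZeroDivisors
    haveI hL : IsLocalization.AtPrime L P := Localization.subalgebra.isLocalization_ofField K P.primeCompl
      P.primeCompl_le_nonZeroDivisors
    haveI hLf : IsFractionRing L K := Localization.subalgebra.isFractionRing_ofField K P.primeCompl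
      P.primeCompl_le_nonZeroDivisors
    haveI hdvr : IsDiscreteValuationRing L := IsLocalization.AtPrime.isDiscreteValuationRing_of_dedekind_domain R hP0 L
    have hmem : ∀ w : K, w ∈ L → ∃ a s : R, s ∉ P ∧ w = (a : K) * ((s : K))⁻¹ := by
      rintro w ⟨a, s, hs, hw⟩
      exact ⟨a, s, hs, hw⟩
    rcases ValuationRing.isInteger_or_isInteger L z with ⟨w, hw⟩ | ⟨w, hw⟩
    · obtain ⟨a, s, hs, hw'⟩ := hmem w w.2
      refine ⟨a, s, a.2, s.2, hPc s hs, ?_⟩
      rw [← hw, ← hw']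
      rfl
    · obtain ⟨a, s, hs, hw'⟩ := hmem w w.2
      have hzi : z⁻¹ = (a : K) * ((s : K))⁻¹ := by
        rw [← hw, ← hw']
        rfl
      have hs0 : (s : K) ≠ 0 := by
        intro h0
        apply hs
        have : s = 0 := Subtype.ext h0
        rw [this]
        exact P.zero_mem
      have ha0 : (a : K) ≠ 0 := by
        intro h0
        rw [h0, zero_mul] at hzi
        exact hz0 (inv_eq_zero.mp hzi)
      have hsz : (s : K) = z * a := by
        have : (a : K) = z⁻¹ * s := by rw [hzi]; field_simp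
        rw [this]; field_simp
      have ha : a ∉ P := by
        intro haP
        apply hs
        have h7 : ι s = (⟨z, hz⟩ : V) * ι a := Subtype.ext hsz
        show ι s ∈ IsLocalRing.maximalIdeal V
        rw [h7]
        exact Ideal.mul_mem_left _ _ haP
      refine ⟨s, a, s.2, a.2, hPc a ha, ?_⟩
      rw [hsz]; field_simp

end Pool.IE
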