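import Pool.Agent.Work.MP_bf99ce_ie.Interface

set_option autoImplicit false

open Polynomial AlgebraicGeometry CategoryTheory

noncomputable section

namespace Pool.IE

lemma DYF_ev_W {k K : Type} [Field k] [Field K] [Algebra k K] (t x : K) (A B : k[X]) :
    ev t x (WP A B) = x ^ 3 + aeval t A * x + aeval t B := by
  simp [ev, WP]

lemma DYF_W_ne {k : Type} [Field k] (A B : k[X]) : WP A B ≠ 0 := by
  intro h
  have h3 : (WP A B).coeff 3 = 1 := by
    simp [WP]
  rw [h] at h3
  simp at h3

theorem p_DYF : Stmt_DYF := by
  intro k K _ _ _ _ t x y A B f r hW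
  have hrel := hW.rel
  have hy : y ≠ 0 := by
    intro h0
    apply DYF_W_ne A B
    apply hW.ind
    rw [DYF_ev_W, ← hrel, h0]
    ring
  have key : ∀ D : Derivation k K K, 2 * y * D y =
      (3 * x ^ 2 + aeval t A) * D x + (aeval t (derivative A) * x + aeval t (derivative B)) * D t := by
    intro D
    have h1 := congrArg D hrel
    rw [map_add, map_add, Derivation.leibniz, Derivation.leibniz_pow, Derivation.leibniz_pow,
      Derivation.map_aeval, Derivation.map_aeval] at h1
    simp only [smul_eq_mul, nsmul_eq_mul, Nat.cast_ofNat] at h1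
    have e1 : y ^ (2 - 1) = y := by norm_num
    have e2 : x ^ (3 - 1) = x ^ 2 := by norm_num
    rw [e1, e2] at h1
    linear_combination h1
  refine ⟨key, ?_⟩
  intro D1 D2 hD
  have h1 := key D1
  have h2 := key D2
  rw [hD.t1] at h1
  rw [hD.t2, hD.x2] at h2
  have a1 : (r : K) * aeval t f * aeval t (derivative A) = 4 * aeval t (derivative f) * aeval t A := by
    have h4 : aeval t (4 : k[X]) = (4 : K) := map_ofNat (aeval t) 4
    have := congrArg (aeval t) hW.flA
    rw [map_mul, map_mul, map_mul, map_mul, h4, map_natCast] at this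
    exact this
  have b1 : (r : K) * aeval t f * aeval t (derivative B) = 6 * aeval t (derivative f) * aeval t B := by
    have h6 : aeval t (6 : k[X]) = (6 : K) := map_ofNat (aeval t) 6
    have := congrArg (aeval t) hW.flB
    rw [map_mul, map_mul, map_mul, map_mul, h6, map_natCast] at this
    exact this
  have x1 := hD.x1
  constructor
  · have h3 : (2 * y) * ((r : K) * aeval t f * D1 y) = (2 * y) * (3 * aeval t (derivative f) * y) := by
      linear_combination ((r : K) * aeval t f) * h1 + (3 * x ^ 2 + aeval t A) * x1 + x * a1 + b1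
        - 6 * aeval t (derivative f) * hrel
    have h2y : (2 * y : K) ≠ 0 := by
      have : CharZero K := charZero_of_injective_algebraMap (algebraMap k K).injective
      exact mul_ne_zero two_ne_zero hy
    exact mul_left_cancel₀ h2y h3
  · have h3 : y * (2 * D2 y) = y * (3 * x ^ 2 + aeval t A) := by
      linear_combination h2
    exact mul_left_cancel₀ hy h3

end Pool.IE
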