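import Pool.Agent.Work.MP_bf99ce_ie.Interface4

set_option autoImplicit false

open Polynomial

noncomputable section

namespace Pool.IE

theorem p_DYF1 : Stmt_DYF1 := by
  intro k K _ _ _ _ t x y A B hW D
  have hrel := hW.rel
  have h1 := congrArg D hrel
  rw [map_add, map_add, Derivation.leibniz, Derivation.leibniz_pow, Derivation.leibniz_pow,
    Derivation.map_aeval, Derivation.map_aeval] at h1
  simp only [smul_eq_mul, nsmul_eq_mul, Nat.cast_ofNat] at h1
  have e1 : y ^ (2 - 1) = y := by norm_num
  have e2 : x ^ (3 - 1) = x ^ 2 := by norm_num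
  rw [e1, e2] at h1
  linear_combination h1

end Pool.IE
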