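import Pool.Agent.Work.MP_bf99ce_ie.Interface3

/-! # Block EMB (helper25): the embedding of the function field -/

set_option autoImplicit false

open Polynomial

noncomputable section

namespace Pool.IE

/-- the Weierstrass polynomial -/
def EMB_W {k : Type} [Field k] {m : ℕ} (A B : MvPolynomial (Fin m) k) :
    Polynomial (MvPolynomial (Fin m) k) := X ^ 3 + C A * X + C B

theorem EMB_degW {k : Type} [Field k] {m : ℕ} (A B : MvPolynomial (Fin m) k) :
    (EMB_W A B).natDegree = 3 ∧ EMB_W A B ≠ 0 := by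
  have h : (EMB_W A B).natDegree = 3 := by
    unfold EMB_W
    compute_degree!
  refine ⟨h, ?_⟩
  intro h0
  rw [h0] at h
  simp at h

theorem EMB_evC {k K : Type} [Field k] [Field K] [Algebra k K] {m : ℕ} (t : Fin m → K) (x : K)
    (p : MvPolynomial (Fin m) k) : evm t x (C p) = MvPolynomial.aeval t p := by
  simp [evm]

theorem EMB_evX {k K : Type} [Field k] [Field K] [Algebra k K] {m : ℕ} (t : Fin m → K) (x : K) :
    evm t x (X : Polynomial (MvPolynomial (Fin m) k)) = x := by
  simp [evm]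

theorem EMB_lin {k K : Type} [Field k] [Field K] [Algebra k K] {m : ℕ} {t : Fin m → K} {x y : K}
    {A B : MvPolynomial (Fin m) k} (h : WM k K t x y A B)
    (Q S : Polynomial (MvPolynomial (Fin m) k)) (h0 : evm t x Q + evm t x S * y = 0) :
    Q = 0 ∧ S = 0 := by
  have hW : y ^ 2 = evm t x (EMB_W A B) := by
    rw [h.rel]
    simp only [EMB_W, map_add, map_mul, map_pow, EMB_evC, EMB_evX]
  have h1 : evm t x (Q ^ 2 - S ^ 2 * EMB_W A B) = 0 := by
    simp only [map_sub, map_mul, map_pow, ← hW]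
    linear_combination (evm t x Q - evm t x S * y) * h0
  have h2 : Q ^ 2 = S ^ 2 * EMB_W A B := sub_eq_zero.mp (h.ind _ h1)
  have hS : S = 0 := by
    by_contra hS
    have h3 := congrArg natDegree h2
    rw [natDegree_pow, natDegree_mul (pow_ne_zero _ hS) (EMB_degW A B).2, natDegree_pow,
      (EMB_degW A B).1] at h3
    omega
  subst hS
  refine ⟨?_, rfl⟩
  have h4 : Q ^ 2 = 0 := by rw [h2]; ring
  exact pow_eq_zero_iff (two_ne_zero) |>.mp h4

/-- the homomorphism on polynomials -/
def EMB_phi {k k' K' : Type} [Field k] [Field k'] [Field K'] [Algebra k' K'] [Algebra k k']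
    {m : ℕ} (α β : Fin m → k') (s x' : K') : Polynomial (MvPolynomial (Fin m) k) →+* K' :=
  (ev s x').comp (Polynomial.mapRingHom
    ((lin k α β : MvPolynomial (Fin m) k →ₐ[k] k'[X]) : MvPolynomial (Fin m) k →+* k'[X]))

theorem EMB_phiC {k k' K' : Type} [Field k] [Field k'] [Field K'] [Algebra k' K'] [Algebra k k']
    {m : ℕ} (α β : Fin m → k') (s x' : K') (p : MvPolynomial (Fin m) k) :
    EMB_phi α β s x' (C p) = aeval s (lin k α β p) := by
  simp [EMB_phi, ev]

theorem EMB_phiX {k k' K' : Type} [Field k] [Field k'] [Field K'] [Algebra k' K'] [Algebra k k']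
    {m : ℕ} (α β : Fin m → k') (s x' : K') :
    EMB_phi α β s x' (X : Polynomial (MvPolynomial (Fin m) k)) = x' := by
  simp [EMB_phi, ev]

/-- a homomorphism from a field of fractions -/
theorem EMB_ext {R K L : Type} [CommRing R] [IsDomain R] [Field K] [Field L] (e : R →+* K)
    (φ : R →+* L) (W : R) (y : K) (y' : L) (hy : y ^ 2 = e W) (hy' : y' ^ 2 = φ W)
    (he : ∀ P : R, P ≠ 0 → e P ≠ 0)
    (hlin : ∀ Q S : R, e Q + e S * y = 0 → Q = 0 ∧ S = 0)
    (hφ : ∀ P : R, P ≠ 0 → φ P ≠ 0)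
    (hgen : ∀ z : K, ∃ P Q S : R, P ≠ 0 ∧ z * e P = e Q + e S * y) :
    ∃ j : K →+* L, ∀ Q S : R, j (e Q + e S * y) = φ Q + φ S * y' := by
  have huniq : ∀ (z : K) (w w' : L) (P Q S P' Q' S' : R), P ≠ 0 → P' ≠ 0 →
      z * e P = e Q + e S * y → z * e P' = e Q' + e S' * y →
      w * φ P = φ Q + φ S * y' → w' * φ P' = φ Q' + φ S' * y' → w = w' := by
    intro z w w' P Q S P' Q' S' hP hP' h1 h2 h3 h4
    obtain ⟨h5, h6⟩ := hlin (Q * P' - Q' * P) (S * P' - S' * P) (by
      simp only [map_sub, map_mul]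
      linear_combination e P * h2 - e P' * h1)
    have h7 := congrArg φ h5
    have h8 := congrArg φ h6
    rw [map_sub, map_mul, map_mul, map_zero] at h7 h8
    have h9 : (w - w') * (φ P * φ P') = 0 := by
      linear_combination φ P' * h3 - φ P * h4 + h7 + y' * h8
    rcases mul_eq_zero.1 h9 with h10 | h10
    · exact sub_eq_zero.1 h10
    · exact absurd h10 (mul_ne_zero (hφ P hP) (hφ P' hP'))
  have hex : ∀ z : K, ∃ w : L, ∃ P Q S : R, P ≠ 0 ∧ z * e P = e Q + e S * y ∧
      w * φ P = φ Q + φ S * y' := by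
    intro z
    obtain ⟨P, Q, S, hP, h1⟩ := hgen z
    exact ⟨(φ Q + φ S * y') / φ P, P, Q, S, hP, h1, div_mul_cancel₀ _ (hφ P hP)⟩
  choose j hj using hex
  have hval : ∀ (z : K) (w : L) (P Q S : R), P ≠ 0 → z * e P = e Q + e S * y →
      w * φ P = φ Q + φ S * y' → j z = w := by
    intro z w P Q S hP h1 h2
    obtain ⟨P', Q', S', hP', h3, h4⟩ := hj z
    exact huniq z (j z) w P' Q' S' P Q S hP' hP h3 h1 h4 h2
  have hj0 : j 0 = 0 := hval 0 0 1 0 0 one_ne_zero (by simp) (by simp)
  have hj1 : j 1 = 1 := hval 1 1 1 1 0 one_ne_zero (by simp) (by simp)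
  have hja : ∀ a b, j (a + b) = j a + j b := by
    intro a b
    obtain ⟨P, Q, S, hP, h1, h2⟩ := hj a
    obtain ⟨P', Q', S', hP', h3, h4⟩ := hj b
    refine hval (a + b) (j a + j b) (P * P') (Q * P' + Q' * P) (S * P' + S' * P)
      (mul_ne_zero hP hP') ?_ ?_
    · simp only [map_add, map_mul]
      linear_combination e P' * h1 + e P * h3
    · simp only [map_add, map_mul]
      linear_combination φ P' * h2 + φ P * h4
  have hjm : ∀ a b, j (a * b) = j a * j b := by
    intro a b
    obtain ⟨P, Q, S, hP, h1, h2⟩ := hj a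
    obtain ⟨P', Q', S', hP', h3, h4⟩ := hj b
    refine hval (a * b) (j a * j b) (P * P') (Q * Q' + S * S' * W) (Q * S' + S * Q')
      (mul_ne_zero hP hP') ?_ ?_
    · simp only [map_add, map_mul]
      rw [← hy]
      linear_combination b * e P' * h1 + (e Q + e S * y) * h3
    · simp only [map_add, map_mul]
      rw [← hy']
      linear_combination j b * φ P' * h2 + (φ Q + φ S * y') * h4
  refine ⟨{ toFun := j, map_one' := hj1, map_mul' := hjm, map_zero' := hj0, map_add' := hja },
    fun Q S => ?_⟩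
  exact hval _ _ 1 Q S one_ne_zero (by rw [map_one, mul_one]) (by rw [map_one, mul_one])

theorem p_EMB (hGLD : Stmt_GLD) : Stmt_EMB := by
  intro k K k' K' _ _ _ _ _ _ _ m t x y A B α β s x' y' hW hAI hW1
  have hy : y ^ 2 = evm t x (EMB_W A B) := by
    rw [hW.rel]
    simp only [EMB_W, map_add, map_mul, map_pow, EMB_evC, EMB_evX]
  have hy' : y' ^ 2 = EMB_phi α β s x' (EMB_W A B) := by
    rw [hW1.rel]
    simp only [EMB_W, map_add, map_mul, map_pow, EMB_phiC, EMB_phiX]
  have hlinj : Function.Injective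
      ((lin k α β : MvPolynomial (Fin m) k →ₐ[k] k'[X]) : MvPolynomial (Fin m) k →+* k'[X]) := by
    rw [injective_iff_map_eq_zero]
    intro D hD
    by_contra hD0
    exact (hGLD k k' m α β hAI D).1 hD0 hD
  obtain ⟨j, hj⟩ := EMB_ext (evm t x) (EMB_phi α β s x') (EMB_W A B) y y' hy hy'
    (fun P hP h0 => hP (hW.ind P h0)) (fun Q S h0 => EMB_lin hW Q S h0)
    (fun P hP h0 => by
      have h1 := hW1.ind _ h0
      exact hP (Polynomial.map_injective _ hlinj (by rw [Polynomial.map_zero]; exact h1)))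
    hW.gen
  refine ⟨j, fun c => ?_, fun l => ?_, ?_, ?_⟩
  · have h1 := hj (C (MvPolynomial.C c)) 0
    rw [map_zero, zero_mul, add_zero, map_zero, zero_mul, add_zero, EMB_evC, EMB_phiC] at h1
    rw [MvPolynomial.aeval_C] at h1
    rw [h1]
    unfold lin
    rw [MvPolynomial.aeval_C, Polynomial.algebraMap_apply, aeval_C]
  · have h1 := hj (C (MvPolynomial.X l)) 0
    rw [map_zero, zero_mul, add_zero, map_zero, zero_mul, add_zero, EMB_evC, EMB_phiC] at h1
    rw [MvPolynomial.aeval_X] at h1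
    rw [h1]
    unfold lin
    rw [MvPolynomial.aeval_X, map_add, map_mul, aeval_C, aeval_C, aeval_X]
  · have h1 := hj X 0
    rw [map_zero, zero_mul, add_zero, map_zero, zero_mul, add_zero, EMB_evX, EMB_phiX] at h1
    exact h1
  · have h1 := hj 0 1
    rw [map_zero, map_zero, map_one, map_one, zero_add, zero_add, one_mul, one_mul] at h1
    exact h1

end Pool.IE
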