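import Pool.Agent.Work.MP_bf99ce_ie.Interface4

/-!
# THEOREM EM, block GLJ: constant j-invariant on the generic line
-/

set_option autoImplicit false

open Polynomial

noncomputable section

namespace Pool.IE

theorem GLJ_eval {k k' : Type} [Field k] [Field k'] [Algebra k k'] {m : ℕ} (α β : Fin m → k')
    (D : MvPolynomial (Fin m) k) (c : k') :
    (lin k α β D).eval c = MvPolynomial.aeval (fun l => α l + β l * c) D := by
  induction D using MvPolynomial.induction_on with
  | C a =>
    rw [lin, MvPolynomial.aeval_C, MvPolynomial.aeval_C]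
    rw [IsScalarTower.algebraMap_apply k k' k'[X], Polynomial.algebraMap_eq, eval_C]
  | add p q hp hq => rw [map_add, eval_add, hp, hq, map_add]
  | mul_X p i hp =>
    have h1 : lin k α β (MvPolynomial.X i) = C (α i) + C (β i) * X := by
      rw [lin, MvPolynomial.aeval_X]
    rw [map_mul, eval_mul, hp, map_mul, h1, MvPolynomial.aeval_X]
    simp

theorem p_GLJ (_ : Stmt_GLD) : Stmt_GLJ := by
  intro k k' _ _ _ _ m α β hAI A B hE h
  obtain ⟨a', ha⟩ := h
  obtain ⟨E, hEE⟩ : ∃ E : MvPolynomial (Fin m) k, E = 4 * A ^ 3 + 27 * B ^ 2 := ⟨_, rfl⟩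
  rw [← hEE] at hE ⊢
  have hl : 4 * (lin k α β A) ^ 3 + 27 * (lin k α β B) ^ 2 = lin k α β E := by
    rw [hEE, map_add, map_mul, map_mul, map_pow, map_pow, map_ofNat, map_ofNat]
  rw [hl] at ha
  obtain ⟨i, hi⟩ : ∃ i : MvPolynomial (Fin m) k →ₐ[k] MvPolynomial (Fin m ⊕ Fin m) k,
    i = MvPolynomial.rename Sum.inl := ⟨_, rfl⟩
  obtain ⟨s, hs⟩ : ∃ s : MvPolynomial (Fin m) k →ₐ[k] MvPolynomial (Fin m ⊕ Fin m) k,
    s = MvPolynomial.aeval (fun l : Fin m => (MvPolynomial.X (Sum.inl l) +
      MvPolynomial.X (Sum.inr l) : MvPolynomial (Fin m ⊕ Fin m) k)) := ⟨_, rfl⟩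
  have h0 : ∀ D : MvPolynomial (Fin m) k, (lin k α β D).eval 0 =
      MvPolynomial.aeval (Sum.elim α β) (i D) := by
    intro D
    rw [GLJ_eval, hi, MvPolynomial.aeval_rename]
    congr 2
    funext l
    simp
  have h1 : ∀ D : MvPolynomial (Fin m) k, (lin k α β D).eval 1 =
      MvPolynomial.aeval (Sum.elim α β) (s D) := by
    intro D
    rw [GLJ_eval]
    have h3 : (MvPolynomial.aeval (Sum.elim α β)).comp s =
        (MvPolynomial.aeval (fun l => α l + β l * 1) : MvPolynomial (Fin m) k →ₐ[k] k') := by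
      apply MvPolynomial.algHom_ext
      intro l
      simp [hs]
    exact (DFunLike.congr_fun h3 D).symm
  have e0 : MvPolynomial.aeval (Sum.elim α β) (i A) ^ 3 =
      a' * MvPolynomial.aeval (Sum.elim α β) (i E) := by
    have := congrArg (Polynomial.eval 0) ha
    rw [eval_pow, eval_mul, eval_C, h0, h0] at this
    exact this
  have e1 : MvPolynomial.aeval (Sum.elim α β) (s A) ^ 3 =
      a' * MvPolynomial.aeval (Sum.elim α β) (s E) := by
    have := congrArg (Polynomial.eval 1) ha
    rw [eval_pow, eval_mul, eval_C, h1, h1] at this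
    exact this
  have h2 : i A ^ 3 * s E - s A ^ 3 * i E = 0 := by
    apply hAI
    rw [map_sub, map_mul, map_mul, map_pow, map_pow, e0, e1]
    ring
  -- a point where E does not vanish
  obtain ⟨τ, hτ⟩ : ∃ τ : Fin m → k, MvPolynomial.eval τ E ≠ 0 := by
    by_contra hcon
    push Not at hcon
    apply hE
    apply MvPolynomial.funext
    intro x
    rw [hcon x, map_zero]
  obtain ⟨ψ, hψ⟩ : ∃ ψ : MvPolynomial (Fin m ⊕ Fin m) k →ₐ[k] MvPolynomial (Fin m) k,
    ψ = MvPolynomial.aeval (Sum.elim (fun l => MvPolynomial.C (τ l))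
      (fun l => MvPolynomial.X l - MvPolynomial.C (τ l))) := ⟨_, rfl⟩
  have h3 : ∀ D, ψ (i D) = MvPolynomial.C (MvPolynomial.eval τ D) := by
    intro D
    rw [hψ, hi, MvPolynomial.aeval_rename]
    induction D using MvPolynomial.induction_on with
    | C a => rw [MvPolynomial.aeval_C, MvPolynomial.eval_C]; rfl
    | add p q hp hq => rw [map_add, hp, hq, map_add, map_add]
    | mul_X p j hp =>
      rw [map_mul, hp, MvPolynomial.aeval_X, map_mul, MvPolynomial.eval_X, map_mul]
      rfl
  have h4 : ∀ D, ψ (s D) = D := by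
    intro D
    have h9 : ψ.comp s = AlgHom.id k (MvPolynomial (Fin m) k) := by
      apply MvPolynomial.algHom_ext
      intro l
      simp [hψ, hs]
    exact DFunLike.congr_fun h9 D
  have h5 : MvPolynomial.C (MvPolynomial.eval τ A) ^ 3 * E =
      A ^ 3 * MvPolynomial.C (MvPolynomial.eval τ E) := by
    have := congrArg ψ h2
    rw [map_sub, map_mul, map_mul, map_pow, map_pow, h3, h3, h4, h4, map_zero] at this
    exact sub_eq_zero.1 this
  refine ⟨(MvPolynomial.eval τ A) ^ 3 / MvPolynomial.eval τ E, ?_⟩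
  have h6 : (MvPolynomial.C (MvPolynomial.eval τ E) : MvPolynomial (Fin m) k) ≠ 0 := by
    rw [Ne, MvPolynomial.C_eq_zero]; exact hτ
  apply mul_right_cancel₀ h6
  rw [← h5]
  have h7 : (MvPolynomial.C ((MvPolynomial.eval τ A) ^ 3 / MvPolynomial.eval τ E) :
      MvPolynomial (Fin m) k) * MvPolynomial.C (MvPolynomial.eval τ E) =
      MvPolynomial.C (MvPolynomial.eval τ A) ^ 3 := by
    rw [← map_mul, div_mul_cancel₀ _ hτ, map_pow]
  rw [← h7]
  ring

end Pool.IE
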