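import Pool.Agent.Work.MP_bf99ce_ie.Interface3

/-!
# Block GLK (helper46): an algebraically closed field with `2 m` independent elements
-/

set_option autoImplicit false

open Polynomial

noncomputable section

namespace Pool.IE

theorem GLK_aux (k k' : Type) [Field k] [CharZero k] [Field k'] [IsAlgClosed k'] (m : ℕ)
    (f : MvPolynomial (Fin m ⊕ Fin m) k →+* k') (hf : Function.Injective f) :
    ∃ (_ : CharZero k') (_ : Algebra k k') (α β : Fin m → k'), AI k α β := by
  letI : Algebra k k' := (f.comp MvPolynomial.C).toAlgebra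
  have hc : CharZero k' := charZero_of_injective_algebraMap (algebraMap k k').injective
  refine ⟨hc, inferInstance, fun l => f (MvPolynomial.X (Sum.inl l)),
    fun l => f (MvPolynomial.X (Sum.inr l)), fun P hP => ?_⟩
  have e : ((MvPolynomial.aeval (Sum.elim (fun l => f (MvPolynomial.X (Sum.inl l)))
      fun l => f (MvPolynomial.X (Sum.inr l))) : MvPolynomial (Fin m ⊕ Fin m) k →ₐ[k] k') :
      MvPolynomial (Fin m ⊕ Fin m) k →+* k') = f := by
    apply MvPolynomial.ringHom_ext
    · intro c
      show MvPolynomial.aeval _ (MvPolynomial.C c) = _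
      rw [MvPolynomial.aeval_C]
      rfl
    · intro i
      show MvPolynomial.aeval _ (MvPolynomial.X i) = _
      rw [MvPolynomial.aeval_X]
      rcases i with l | l <;> rfl
  apply hf
  rw [map_zero, ← e]
  exact hP

theorem p_GLK : Stmt_GLK := by
  intro k _ _ m
  obtain ⟨h1, h2, α, β, h3⟩ := GLK_aux k
    (AlgebraicClosure (FractionRing (MvPolynomial (Fin m ⊕ Fin m) k))) m
    ((algebraMap (FractionRing (MvPolynomial (Fin m ⊕ Fin m) k))
      (AlgebraicClosure (FractionRing (MvPolynomial (Fin m ⊕ Fin m) k)))).comp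
      (algebraMap (MvPolynomial (Fin m ⊕ Fin m) k)
        (FractionRing (MvPolynomial (Fin m ⊕ Fin m) k))))
    ((algebraMap (FractionRing (MvPolynomial (Fin m ⊕ Fin m) k))
      (AlgebraicClosure (FractionRing (MvPolynomial (Fin m ⊕ Fin m) k)))).injective.comp
      (IsFractionRing.injective _ _))
  exact ⟨AlgebraicClosure (FractionRing (MvPolynomial (Fin m ⊕ Fin m) k)), inferInstance, h1,
    inferInstance, h2, α, β, h3⟩

end Pool.IE
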