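import Pool.Agent.Work.MP_bf99ce_ie.Interface3

set_option autoImplicit false

open Polynomial

noncomputable section

namespace Pool.IE

theorem GLM_L1 {F L : Type} [Field F] [CharZero F] [Field L] (φ : F →+* L) (G : F[X]) (c : L)
    (N : ℕ) (hN : 1 ≤ N) (hG : G.map φ ≠ 0) (h : N ≤ (G.map φ).rootMultiplicity c) :
    ∃ P : F[X], Irreducible P ∧ P ^ N ∣ G := by
  classical
  let _ := φ.toAlgebra
  have hφ : algebraMap F L = φ := rfl
  have hG0 : G ≠ 0 := by rintro rfl; simp at hG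
  have hev : ∀ H : F[X], aeval c H = (H.map φ).eval c := fun H => by
    rw [aeval_def, eval_map, hφ]
  have hroot : ∀ H : F[X], 0 < (H.map φ).rootMultiplicity c → aeval c H = 0 := by
    intro H hH
    rw [hev]
    by_contra h0
    rw [rootMultiplicity_eq_zero h0] at hH
    exact lt_irrefl _ hH
  have hint : IsIntegral F c := by
    rw [← isAlgebraic_iff_isIntegral]
    exact ⟨G, hG0, hroot G (lt_of_lt_of_le hN h)⟩
  have hirr := minpoly.irreducible hint
  refine ⟨minpoly F c, hirr, ?_⟩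
  have hsep : ((minpoly F c).map φ).Separable := hirr.separable.map
  have h1 := rootMultiplicity_le_one_of_separable hsep c
  have key : ∀ n ≤ N, minpoly F c ^ n ∣ G := by
    intro n
    induction n with
    | zero => intro _; rw [pow_zero]; exact one_dvd _
    | succ n ih =>
      intro hn
      obtain ⟨G', hG'⟩ := ih (Nat.le_of_succ_le hn)
      have e1 : G.map φ = ((minpoly F c).map φ) ^ n * G'.map φ := by
        rw [hG', Polynomial.map_mul, Polynomial.map_pow]
      have e2 : (G.map φ).rootMultiplicity c =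
          n * ((minpoly F c).map φ).rootMultiplicity c + (G'.map φ).rootMultiplicity c := by
        rw [← count_roots, ← count_roots, ← count_roots, e1, roots_mul (e1 ▸ hG), roots_pow,
          Multiset.count_add, Multiset.count_nsmul]
      have e3 : 0 < (G'.map φ).rootMultiplicity c := by
        have : n * ((minpoly F c).map φ).rootMultiplicity c ≤ n * 1 := Nat.mul_le_mul_left _ h1
        omega
      have e4 := minpoly.dvd F c (hroot G' e3)
      rw [hG', pow_succ]
      exact mul_dvd_mul_left _ e4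
  exact key N le_rfl

theorem GLM_L0 {A : Type} [CommRing A] [IsDomain A] [UniqueFactorizationMonoid A] (P : A[X])
    (hP : 0 < P.natDegree) : ∃ Q : A[X], Irreducible Q ∧ Q ∣ P ∧ 0 < Q.natDegree := by
  have key : ∀ P : A[X], 0 < P.natDegree → ∃ Q : A[X], Irreducible Q ∧ Q ∣ P ∧
      0 < Q.natDegree := by
    intro P
    refine WfDvdMonoid.induction_on_irreducible P ?_ ?_ ?_
    · intro h; simp at h
    · intro u hu h
      rw [natDegree_eq_zero_of_isUnit hu] at h
      exact absurd h (lt_irrefl _)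
    · intro a i ha hi ih h
      rw [natDegree_mul hi.ne_zero ha] at h
      rcases Nat.eq_zero_or_pos i.natDegree with h0 | h0
      · obtain ⟨Q, h1, h2, h3⟩ := ih (by omega)
        exact ⟨Q, h1, h2.mul_left i, h3⟩
      · exact ⟨i, hi, dvd_mul_right _ _, h0⟩
  exact key P hP

theorem GLM_L2 {A : Type} [CommRing A] [IsDomain A] [UniqueFactorizationMonoid A] (H : A[X])
    (N : ℕ) (P : (FractionRing A)[X]) (hP : Irreducible P)
    (h : P ^ N ∣ H.map (algebraMap A (FractionRing A))) : ∃ Q : A[X], Prime Q ∧ Q ^ N ∣ H := by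
  obtain ⟨R, hR⟩ := h
  have hinj : Function.Injective (algebraMap A (FractionRing A)) :=
    IsFractionRing.injective A (FractionRing A)
  obtain ⟨b, hb, hPb⟩ := IsLocalization.integerNormalization_spec (nonZeroDivisors A) P
  obtain ⟨b', hb', hRb⟩ := IsLocalization.integerNormalization_spec (nonZeroDivisors A) R
  obtain ⟨P₀, hP₀⟩ : ∃ P₀, P₀ = IsLocalization.integerNormalization (nonZeroDivisors A) P :=
    ⟨_, rfl⟩
  obtain ⟨R₀, hR₀⟩ : ∃ P₀, P₀ = IsLocalization.integerNormalization (nonZeroDivisors A) R :=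
    ⟨_, rfl⟩
  rw [← hP₀] at hPb
  rw [← hR₀] at hRb
  have hb0 : b ≠ 0 := nonZeroDivisors.ne_zero hb
  have hb0' : b' ≠ 0 := nonZeroDivisors.ne_zero hb'
  have hsm : ∀ (a : A) (T : (FractionRing A)[X]),
      a • T = C (algebraMap A (FractionRing A) a) * T := by
    intro a T
    rw [← smul_eq_C_mul, algebraMap_smul]
  rw [hsm] at hPb hRb
  have hdeg : 0 < P₀.natDegree := by
    rw [← natDegree_map_eq_of_injective hinj, hPb, natDegree_C_mul
      (by rw [Ne, FaithfulSMul.algebraMap_eq_zero_iff]; exact hb0)]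
    exact hP.natDegree_pos
  obtain ⟨Q, hQ, hQP, hQd⟩ := GLM_L0 P₀ hdeg
  have hQp : Prime Q := hQ.prime
  refine ⟨Q, hQp, ?_⟩
  have e1 : P₀ ^ N * R₀ = C (b ^ N * b') * H := by
    apply Polynomial.map_injective _ hinj
    rw [Polynomial.map_mul, Polynomial.map_pow, hPb, hRb, Polynomial.map_mul, hR, map_C,
      map_mul, map_pow, C_mul, C_pow]
    ring
  have e2 : Q ^ N ∣ C (b ^ N * b') * H := by
    rw [← e1]
    exact (pow_dvd_pow_of_dvd hQP N).mul_right _
  refine hQp.pow_dvd_of_dvd_mul_left N ?_ e2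
  intro h3
  have h4 : (C (b ^ N * b') : A[X]) ≠ 0 := by
    rw [Ne, C_eq_zero]
    exact mul_ne_zero (pow_ne_zero _ hb0) hb0'
  have h5 := natDegree_le_of_dvd h3 h4
  rw [natDegree_C] at h5
  omega

theorem GLM_L3 (k : Type) [Field k] (m : ℕ) (D : MvPolynomial (Fin m) k) (hD : D ≠ 0)
    (a : (MvPolynomial (Fin m ⊕ Fin m) k)[X])
    (ha : a ∣ C (MvPolynomial.rename Sum.inl D)) :
    ∃ p : MvPolynomial (Fin m) k, a = C (MvPolynomial.rename Sum.inl p) := by
  classical
  obtain ⟨b, hb⟩ := ha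
  have hD' : (MvPolynomial.rename Sum.inl D : MvPolynomial (Fin m ⊕ Fin m) k) ≠ 0 := by
    rw [Ne, MvPolynomial.rename_eq_zero_iff_of_injective _ Sum.inl_injective]
    exact hD
  have hab : a * b ≠ 0 := by
    rw [← hb, Ne, C_eq_zero]; exact hD'
  have h1 := congrArg natDegree hb
  rw [natDegree_C, natDegree_mul (left_ne_zero_of_mul hab) (right_ne_zero_of_mul hab)] at h1
  obtain ⟨a0, rfl⟩ : ∃ a0, a = C a0 := ⟨_, eq_C_of_natDegree_eq_zero (by omega)⟩
  obtain ⟨b0, rfl⟩ : ∃ b0, b = C b0 := ⟨_, eq_C_of_natDegree_eq_zero (by omega)⟩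
  rw [← C_mul, C_inj] at hb
  have ha0 : a0 ≠ 0 := by
    rintro rfl; rw [zero_mul] at hb; exact hD' hb
  have hb0 : b0 ≠ 0 := by
    rintro rfl; rw [mul_zero] at hb; exact hD' hb
  have hv : (a0.vars : Set (Fin m ⊕ Fin m)) ⊆ Set.range Sum.inl := by
    intro i hi
    rcases i with l | l
    · exact ⟨l, rfl⟩
    · exfalso
      have h2 : Sum.inr l ∉ (MvPolynomial.rename Sum.inl D :
          MvPolynomial (Fin m ⊕ Fin m) k).vars := by
        intro h3
        obtain ⟨i, _, hi'⟩ := MvPolynomial.mem_vars_rename _ _ h3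
        exact Sum.inl_ne_inr hi'
      rw [MvPolynomial.mem_vars_iff_degreeOf_ne_zero, not_not, hb,
        MvPolynomial.degreeOf_mul_eq ha0 hb0] at h2
      have h3 := (MvPolynomial.mem_vars_iff_degreeOf_ne_zero).1 (Finset.mem_coe.1 hi)
      omega
  obtain ⟨p, hp⟩ := MvPolynomial.exists_rename_eq_of_vars_subset_range a0 Sum.inl
    Sum.inl_injective hv
  exact ⟨p, by rw [hp]⟩

/-- the substitution `T_l ↦ T_l + e U_l X` -/
def GLM_s (k : Type) [Field k] (m : ℕ) (e : k) :
    (MvPolynomial (Fin m ⊕ Fin m) k)[X] →+* (MvPolynomial (Fin m ⊕ Fin m) k)[X] :=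
  eval₂RingHom ((MvPolynomial.aeval (R := k) (Sum.elim
    (fun l => C (MvPolynomial.X (Sum.inl l)) +
      C (MvPolynomial.C e * MvPolynomial.X (Sum.inr l)) * X)
    (fun l => C (MvPolynomial.X (Sum.inr l)))) :
      MvPolynomial (Fin m ⊕ Fin m) k →ₐ[k] (MvPolynomial (Fin m ⊕ Fin m) k)[X]) :
      MvPolynomial (Fin m ⊕ Fin m) k →+* (MvPolynomial (Fin m ⊕ Fin m) k)[X]) X

theorem GLM_sX (k : Type) [Field k] (m : ℕ) (e : k) : GLM_s k m e X = X := by
  simp [GLM_s]

theorem GLM_sk (k : Type) [Field k] (m : ℕ) (e a : k) :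
    GLM_s k m e (C (MvPolynomial.C a)) = C (MvPolynomial.C a) := by
  simp only [GLM_s, coe_eval₂RingHom, eval₂_C, RingHom.coe_coe, MvPolynomial.aeval_C]
  rfl

theorem GLM_sl (k : Type) [Field k] (m : ℕ) (e : k) (l : Fin m) :
    GLM_s k m e (C (MvPolynomial.X (Sum.inl l))) = C (MvPolynomial.X (Sum.inl l)) +
      C (MvPolynomial.C e * MvPolynomial.X (Sum.inr l)) * X := by
  simp [GLM_s]

theorem GLM_sr (k : Type) [Field k] (m : ℕ) (e : k) (l : Fin m) :
    GLM_s k m e (C (MvPolynomial.X (Sum.inr l))) = C (MvPolynomial.X (Sum.inr l)) := by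
  simp [GLM_s]

theorem GLM_ss (k : Type) [Field k] (m : ℕ) (e e' : k) (h : e + e' = 0) :
    (GLM_s k m e).comp (GLM_s k m e') = RingHom.id _ := by
  refine Polynomial.ringHom_ext' ?_ ?_
  · refine MvPolynomial.ringHom_ext ?_ ?_
    · intro a
      simp only [RingHom.comp_apply, GLM_sk, RingHom.id_apply]
    · rintro (l | l)
      · simp only [RingHom.comp_apply, RingHom.id_apply, GLM_sl, map_add, map_mul, GLM_sk, GLM_sr,
          GLM_sX]
        have : (C (MvPolynomial.C e') : (MvPolynomial (Fin m ⊕ Fin m) k)[X]) =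
            - C (MvPolynomial.C e) := by
          rw [eq_neg_of_add_eq_zero_right h, MvPolynomial.C_neg, C_neg]
        rw [this]; ring
      · simp only [RingHom.comp_apply, RingHom.id_apply, GLM_sr]
  · simp only [RingHom.comp_apply, RingHom.id_apply, GLM_sX]

theorem p_GLM (hGLD : Stmt_GLD) : Stmt_GLM := by
  intro k k' _ _ _ _ m α β hAI D N hN hD hirr c
  by_contra hc
  push Not at hc
  -- the generic polynomial
  obtain ⟨hat, hhat⟩ : ∃ hat : MvPolynomial (Fin m) k →ₐ[k] (MvPolynomial (Fin m ⊕ Fin m) k)[X],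
    hat = MvPolynomial.aeval (fun l => C (MvPolynomial.X (Sum.inl l)) +
      C (MvPolynomial.X (Sum.inr l)) * X) := ⟨_, rfl⟩
  obtain ⟨φ, hφ⟩ : ∃ φ : MvPolynomial (Fin m ⊕ Fin m) k →ₐ[k] k',
    φ = MvPolynomial.aeval (Sum.elim α β) := ⟨_, rfl⟩
  have hφinj : Function.Injective (φ : MvPolynomial (Fin m ⊕ Fin m) k →+* k') := by
    rw [injective_iff_map_eq_zero]
    intro P hP
    apply hAI P
    rw [← hφ]; exact hP
  have hlin : ∀ P, lin k α β P = (hat P).map (φ : MvPolynomial (Fin m ⊕ Fin m) k →+* k') := by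
    intro P
    have e1 : lin k α β = (Polynomial.mapAlgHom φ).comp hat := by
      ext l n
      simp [lin, hhat, hφ]
    rw [e1]
    rfl
  have hlin0 : lin k α β D ≠ 0 := (hGLD k k' m α β hAI D).1 hD
  obtain ⟨φ', hφ'⟩ : ∃ φ' : FractionRing (MvPolynomial (Fin m ⊕ Fin m) k) →+* k',
    φ' = IsFractionRing.lift hφinj := ⟨_, rfl⟩
  have hmap : ((hat D).map (algebraMap _ (FractionRing (MvPolynomial (Fin m ⊕ Fin m) k)))).map φ' =
      lin k α β D := by
    rw [hlin, Polynomial.map_map]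
    congr 1
    refine RingHom.ext fun a => ?_
    rw [hφ', RingHom.comp_apply, IsFractionRing.lift_algebraMap]
  have : CharZero (FractionRing (MvPolynomial (Fin m ⊕ Fin m) k)) :=
    charZero_of_injective_algebraMap (IsFractionRing.injective (MvPolynomial (Fin m ⊕ Fin m) k) _)
  obtain ⟨P, hP, hPN⟩ := GLM_L1 φ' _ c N hN (by rw [hmap]; exact hlin0) (by rw [hmap]; exact hc)
  obtain ⟨Q, hQ, hQN⟩ := GLM_L2 (hat D) N P hP hPN
  -- apply the automorphism
  have hs1 : (GLM_s k m (-1)).comp (GLM_s k m 1) = RingHom.id _ := GLM_ss k m (-1) 1 (by ring)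
  have hs2 : (GLM_s k m 1).comp (GLM_s k m (-1)) = RingHom.id _ := GLM_ss k m 1 (-1) (by ring)
  obtain ⟨E, hE⟩ : ∃ E : (MvPolynomial (Fin m ⊕ Fin m) k)[X] ≃+*
      (MvPolynomial (Fin m ⊕ Fin m) k)[X], E = RingEquiv.ofRingHom (GLM_s k m (-1))
        (GLM_s k m 1) hs1 hs2 := ⟨_, rfl⟩
  have hEa : ∀ a, E a = GLM_s k m (-1) a := fun a => by rw [hE]; rfl
  have hEhat : E (hat D) = C (MvPolynomial.rename Sum.inl D) := by
    rw [hEa]
    have e1 : ∀ P, GLM_s k m 1 (C (MvPolynomial.rename Sum.inl P)) = hat P := by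
      intro P
      have e2 : ((GLM_s k m 1).comp C).comp ((MvPolynomial.rename Sum.inl :
          MvPolynomial (Fin m) k →ₐ[k] MvPolynomial (Fin m ⊕ Fin m) k) :
          MvPolynomial (Fin m) k →+* MvPolynomial (Fin m ⊕ Fin m) k) =
          (hat : MvPolynomial (Fin m) k →+* _) := by
        refine MvPolynomial.ringHom_ext ?_ ?_
        · intro a
          simp only [RingHom.comp_apply, RingHom.coe_coe, MvPolynomial.rename_C, GLM_sk]
          rw [hhat, MvPolynomial.aeval_C]
          rfl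
        · intro l
          simp only [RingHom.comp_apply, RingHom.coe_coe, MvPolynomial.rename_X, GLM_sl]
          rw [hhat, MvPolynomial.aeval_X]
          simp
      exact RingHom.congr_fun e2 P
    rw [← e1, ← RingHom.comp_apply, hs1, RingHom.id_apply]
  have hQ' : Prime (E Q) := (MulEquiv.prime_iff E).2 hQ
  have hQN' : (E Q) ^ N ∣ C (MvPolynomial.rename Sum.inl D) := by
    have h9 := _root_.map_dvd (GLM_s k m (-1)) hQN
    rw [map_pow, ← hEa, ← hEa, hEhat] at h9
    exact h9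
  obtain ⟨q, hq⟩ := GLM_L3 k m D hD (E Q) ((dvd_pow_self _ (by omega)).trans hQN')
  rw [hq] at hQ' hQN'
  -- the retraction
  obtain ⟨ρ, hρ⟩ : ∃ ρ : (MvPolynomial (Fin m ⊕ Fin m) k)[X] →+* MvPolynomial (Fin m) k,
      ∀ p, ρ (C (MvPolynomial.rename Sum.inl p)) = p := by
    refine ⟨((MvPolynomial.aeval (R := k) (Sum.elim (MvPolynomial.X : Fin m → MvPolynomial (Fin m) k)
      (fun _ => 0)) : MvPolynomial (Fin m ⊕ Fin m) k →ₐ[k] MvPolynomial (Fin m) k) :
      MvPolynomial (Fin m ⊕ Fin m) k →+* MvPolynomial (Fin m) k).comp (evalRingHom 0), ?_⟩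
    intro p
    simp only [RingHom.comp_apply, coe_evalRingHom, eval_C, RingHom.coe_coe,
      MvPolynomial.aeval_rename, Sum.elim_comp_inl, MvPolynomial.aeval_X_left, AlgHom.id_apply]
  have hqN : q ^ N ∣ D := by
    have := _root_.map_dvd ρ hQN'
    rwa [map_pow, hρ, hρ] at this
  have hqu : ¬ IsUnit q := by
    intro hu
    apply hQ'.not_isUnit
    exact (hu.map (MvPolynomial.rename Sum.inl :
      MvPolynomial (Fin m) k →ₐ[k] MvPolynomial (Fin m ⊕ Fin m) k)).map C
  have hq0 : q ≠ 0 := by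
    rintro rfl
    rw [zero_pow (by omega), zero_dvd_iff] at hqN
    exact hD hqN
  obtain ⟨i, hi, hiq⟩ := WfDvdMonoid.exists_irreducible_factor hqu hq0
  exact hirr i hi ((pow_dvd_pow_of_dvd hiq N).trans hqN)

end Pool.IE
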