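import Pool.Agent.Work.MP_bf99ce_ie.Interface4

set_option autoImplicit false

open Polynomial

noncomputable section

namespace Pool.IE

theorem INC1_CC {k K : Type} [Field k] [Field K] [Algebra k K] (t x : K) (p : k[X]) :
    ev t x (C p) = aeval t p := by
  simp [ev]

theorem INC1_X {k K : Type} [Field k] [Field K] [Algebra k K] (t x : K) :
    ev t x (X : P2 k) = x := by
  simp [ev]

theorem p_INC1 (hUNQ : Stmt_UNQ1) (hRIC : Stmt_RIC1) : Stmt_INC1 := by
  intro k K _ _ _ _ t x y A B hW hD z hz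
  obtain ⟨-, -, -, -, -, -, hne⟩ := hUNQ k K t x y A B hW
  obtain ⟨R, hR, hcl⟩ := hRIC k K t x y A B hW hD
  have hI : IsIntegrallyClosedIn R K := Subring.isIntegrallyClosedIn_iff.2 (fun {w} hw => hcl w hw)
  rw [← hR]
  by_contra hcon
  obtain ⟨V, hV, hzV⟩ := Subring.exists_le_valuationSubring_of_isIntegrallyClosedIn hcon
  apply hzV
  apply hz V
  · intro c
    apply hV
    rw [← SetLike.mem_coe, hR]
    refine ⟨1, C (C c), 0, one_ne_zero, ?_⟩
    rw [rr, INC1_CC]
    simp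
  · apply hV
    rw [← SetLike.mem_coe, hR]
    refine ⟨1, C X, 0, one_ne_zero, ?_⟩
    rw [rr, INC1_CC]
    simp
  · apply hV
    rw [← SetLike.mem_coe, hR]
    refine ⟨1, X, 0, one_ne_zero, ?_⟩
    rw [rr, INC1_X]
    simp
  · apply hV
    rw [← SetLike.mem_coe, hR]
    refine ⟨1, 0, 1, one_ne_zero, ?_⟩
    rw [rr]
    simp
  · intro p hp
    apply hV
    rw [← SetLike.mem_coe, hR]
    refine ⟨p, 1, 0, hp, ?_⟩
    rw [rr, mul_inv_cancel₀ (hne p hp)]
    simp

end Pool.IE
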