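import Pool.Agent.Work.MP_bf99ce_ie.Interface3

/-!
# THEOREM IEM (MP_bf99ce_ag), block IND: the `β_l` are algebraically independent over `K`
-/

set_option autoImplicit false

open Polynomial

noncomputable section

namespace Pool.IE

theorem IND_evC {k K : Type} [Field k] [Field K] [Algebra k K] (t x : K) (p : k[X]) :
    ev t x (C p) = aeval t p := by
  simp [ev]

theorem IND_evX {k K : Type} [Field k] [Field K] [Algebra k K] (t x : K) :
    ev t x (X : P2 k) = x := by
  simp [ev]

theorem IND_evW {k K : Type} [Field k] [Field K] [Algebra k K] (t x : K) (A B : k[X]) :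
    ev t x (WP A B) = x ^ 3 + aeval t A * x + aeval t B := by
  simp only [WP, map_add, map_mul, map_pow, IND_evC, IND_evX]

theorem IND_degW {k : Type} [Field k] (A B : k[X]) : (WP A B).natDegree = 3 ∧ WP A B ≠ 0 := by
  have h : (WP A B).natDegree = 3 := by
    unfold WP
    compute_degree!
  refine ⟨h, ?_⟩
  intro h0
  rw [h0] at h
  simp at h

/-- Uniqueness of the representation. -/
theorem IND_rr {k K : Type} [Field k] [Field K] [Algebra k K] {s x y : K} {A B : k[X]}
    (h : W1 k K s x y A B) (Q S : P2 k) (h0 : rr s x y Q S = 0) : Q = 0 ∧ S = 0 := by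
  have hW : y ^ 2 = ev s x (WP A B) := by
    rw [IND_evW]
    exact h.rel
  have hWne : WP A B ≠ 0 := (IND_degW A B).2
  have h1 : ev s x (Q ^ 2 - S ^ 2 * WP A B) = 0 := by
    simp only [map_sub, map_mul, map_pow, ← hW]
    have h2 : ev s x Q + ev s x S * y = 0 := h0
    linear_combination (ev s x Q - ev s x S * y) * h2
  have h2 : Q ^ 2 = S ^ 2 * WP A B := sub_eq_zero.mp (h.ind _ h1)
  have hS : S = 0 := by
    by_contra hS
    have h3 := congrArg natDegree h2
    rw [natDegree_pow, natDegree_mul (pow_ne_zero _ hS) hWne, natDegree_pow,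
      (IND_degW A B).1] at h3
    omega
  subst hS
  refine ⟨?_, rfl⟩
  have h4 : Q ^ 2 = 0 := by
    rw [h2]
    ring
  exact pow_eq_zero_iff (two_ne_zero) |>.mp h4

/-- Common denominators. -/
theorem IND_den {k K : Type} [Field k] [Field K] [Algebra k K] {m : ℕ} {t : Fin m → K} {x y : K}
    {A B : MvPolynomial (Fin m) k} (h : WM k K t x y A B) {ι : Type} (z : ι → K) (T : Finset ι) :
    ∃ P0 : Polynomial (MvPolynomial (Fin m) k), P0 ≠ 0 ∧ ∀ b ∈ T,
      ∃ Q S : Polynomial (MvPolynomial (Fin m) k),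
        z b * evm t x P0 = evm t x Q + evm t x S * y := by
  classical
  induction T using Finset.induction_on with
  | empty => exact ⟨1, one_ne_zero, fun b hb => absurd hb (Finset.notMem_empty b)⟩
  | insert a T _ ih =>
    obtain ⟨P0, hP0, ih⟩ := ih
    obtain ⟨P1, Q1, S1, hP1, h1⟩ := h.gen (z a)
    refine ⟨P0 * P1, mul_ne_zero hP0 hP1, fun b hb => ?_⟩
    rcases Finset.mem_insert.1 hb with rfl | hb
    · refine ⟨Q1 * P0, S1 * P0, ?_⟩
      rw [map_mul, map_mul, map_mul]
      linear_combination evm t x P0 * h1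
    · obtain ⟨Q, S, h2⟩ := ih b hb
      refine ⟨Q * P1, S * P1, ?_⟩
      rw [map_mul, map_mul, map_mul]
      linear_combination evm t x P1 * h2

/-- The embedding on polynomials. -/
theorem IND_evm {k K k' K' : Type} [Field k] [Field K] [Algebra k K] [Field k'] [Field K']
    [Algebra k' K'] [Algebra k k'] {m : ℕ} {t : Fin m → K} {x : K} {α β : Fin m → k'}
    {s x' : K'} {j : K →+* K'}
    (hj : ∀ c : k, j (algebraMap k K c) = algebraMap k' K' (algebraMap k k' c))
    (hjt : ∀ l, j (t l) = algebraMap k' K' (α l) + algebraMap k' K' (β l) * s) (hjx : j x = x')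
    (P : Polynomial (MvPolynomial (Fin m) k)) :
    j (evm t x P) = ev s x' (P.map (lin k α β : MvPolynomial (Fin m) k →+* k'[X])) := by
  have hA : ∀ a : MvPolynomial (Fin m) k, j (MvPolynomial.aeval t a) = aeval s (lin k α β a) := by
    intro a
    have h1 : j.comp ((MvPolynomial.aeval t : MvPolynomial (Fin m) k →ₐ[k] K) :
        MvPolynomial (Fin m) k →+* K) =
        ((aeval s : k'[X] →ₐ[k'] K') : k'[X] →+* K').comp
          ((lin k α β : MvPolynomial (Fin m) k →ₐ[k] k'[X]) :
            MvPolynomial (Fin m) k →+* k'[X]) := by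
      apply MvPolynomial.ringHom_ext
      · intro c
        have h2 : (algebraMap k k'[X]) c = C (algebraMap k k' c) := rfl
        simp [lin, hj, h2]
      · intro l
        simp [lin, hjt]
    exact DFunLike.congr_fun h1 a
  induction P using Polynomial.induction_on' with
  | add p q hp hq => rw [map_add, map_add, hp, hq, Polynomial.map_add, map_add]
  | monomial n a =>
    have h1 : (Polynomial.monomial n a : Polynomial (MvPolynomial (Fin m) k)) = C a * X ^ n :=
      (Polynomial.C_mul_X_pow_eq_monomial).symm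
    have h2 : evm t x (C a) = MvPolynomial.aeval t a := by simp [evm]
    have h3 : evm t x (X : Polynomial (MvPolynomial (Fin m) k)) = x := by simp [evm]
    rw [h1, map_mul, map_pow, h2, h3, map_mul, map_pow, hA, hjx, Polynomial.map_mul,
      Polynomial.map_pow, Polynomial.map_C, Polynomial.map_X, map_mul, map_pow, IND_evC, IND_evX]
    rfl

/-- A polynomial relation of `α`, `β` with coefficients in `k[α]`. -/
theorem IND_alg {k k' : Type} [Field k] [Field k'] [Algebra k k'] {m : ℕ} {α β : Fin m → k'}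
    (hAI : AI k α β) (T : Finset (Fin m →₀ ℕ)) (q : (Fin m →₀ ℕ) → MvPolynomial (Fin m) k)
    (h : ∑ b ∈ T, (∏ i, β i ^ b i) * MvPolynomial.aeval α (q b) = 0) : ∀ b ∈ T, q b = 0 := by
  classical
  have h1 := hAI (∑ b ∈ T, (∏ i, MvPolynomial.X (Sum.inr i) ^ b i) *
      MvPolynomial.rename Sum.inl (q b)) (by
    rw [map_sum, ← h]
    refine Finset.sum_congr rfl fun b _ => ?_
    rw [map_mul, map_prod, MvPolynomial.aeval_rename, Sum.elim_comp_inl]
    congr 1
    refine Finset.prod_congr rfl fun i _ => ?_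
    rw [map_pow, MvPolynomial.aeval_X, Sum.elim_inr])
  obtain ⟨Ψ, hΨ⟩ : ∃ Ψ : MvPolynomial (Fin m ⊕ Fin m) k →ₐ[k]
      MvPolynomial (Fin m) (MvPolynomial (Fin m) k), Ψ = MvPolynomial.aeval
        (Sum.elim (fun l => MvPolynomial.C (MvPolynomial.X l)) MvPolynomial.X) := ⟨_, rfl⟩
  have hC : ∀ a : MvPolynomial (Fin m) k, Ψ (MvPolynomial.rename Sum.inl a)
      = MvPolynomial.C a := by
    intro a
    rw [hΨ, MvPolynomial.aeval_rename, Sum.elim_comp_inl]
    have h2 : (MvPolynomial.aeval (fun l => (MvPolynomial.C (MvPolynomial.X l) :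
        MvPolynomial (Fin m) (MvPolynomial (Fin m) k))) :
        MvPolynomial (Fin m) k →ₐ[k] MvPolynomial (Fin m) (MvPolynomial (Fin m) k)) =
        IsScalarTower.toAlgHom k (MvPolynomial (Fin m) k)
          (MvPolynomial (Fin m) (MvPolynomial (Fin m) k)) := by
      apply MvPolynomial.algHom_ext
      intro l
      rw [MvPolynomial.aeval_X]
      rfl
    rw [h2]
    rfl
  have hX : ∀ b : Fin m →₀ ℕ, Ψ (∏ i, MvPolynomial.X (Sum.inr i) ^ b i)
      = MvPolynomial.monomial b 1 := by
    intro b
    rw [MvPolynomial.monomial_eq, map_one, one_mul, Finsupp.prod_fintype _ _ (by simp), map_prod]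
    refine Finset.prod_congr rfl fun i _ => ?_
    rw [map_pow, hΨ, MvPolynomial.aeval_X, Sum.elim_inr]
  have h2 := congrArg Ψ h1
  rw [map_sum, map_zero] at h2
  have h3 : ∑ b ∈ T, MvPolynomial.monomial b (q b) = 0 := by
    rw [← h2]
    refine Finset.sum_congr rfl fun b _ => ?_
    rw [map_mul, hC, hX, mul_comm, MvPolynomial.C_mul_monomial, mul_one]
  intro b hb
  have h4 := congrArg (MvPolynomial.coeff b) h3
  rw [MvPolynomial.coeff_sum, MvPolynomial.coeff_zero] at h4
  simp only [MvPolynomial.coeff_monomial] at h4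
  rw [Finset.sum_ite_eq' T b q, if_pos hb] at h4
  exact h4

/-- The vanishing of the coefficients. -/
theorem IND_coef {k k' : Type} [Field k] [Field k'] [Algebra k k'] {m : ℕ} {α β : Fin m → k'}
    (hAI : AI k α β) (T : Finset (Fin m →₀ ℕ))
    (Q : (Fin m →₀ ℕ) → Polynomial (MvPolynomial (Fin m) k))
    (h : ∑ b ∈ T, C (C (∏ i, β i ^ b i)) *
      (Q b).map (lin k α β : MvPolynomial (Fin m) k →+* k'[X]) = 0) : ∀ b ∈ T, Q b = 0 := by
  intro b hb
  ext1 n
  rw [Polynomial.coeff_zero]
  refine IND_alg hAI T (fun b => (Q b).coeff n) ?_ b hb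
  have h1 := congrArg (fun p : P2 k' => (p.coeff n).eval 0) h
  simp only [Polynomial.finsetSum_coeff, Polynomial.coeff_C_mul, Polynomial.coeff_map,
    Polynomial.eval_finsetSum, Polynomial.eval_mul, Polynomial.eval_C, Polynomial.coeff_zero,
    Polynomial.eval_zero] at h1
  rw [← h1]
  refine Finset.sum_congr rfl fun c _ => ?_
  congr 1
  have h2 : ((MvPolynomial.aeval α : MvPolynomial (Fin m) k →ₐ[k] k') :
      MvPolynomial (Fin m) k →+* k') = (evalRingHom (0 : k')).comp
        ((lin k α β : MvPolynomial (Fin m) k →ₐ[k] k'[X]) : MvPolynomial (Fin m) k →+* k'[X]) := by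
    apply MvPolynomial.ringHom_ext
    · intro c
      have h2 : (algebraMap k k'[X]) c = C (algebraMap k k' c) := rfl
      simp [lin, h2]
    · intro l
      simp [lin]
  exact DFunLike.congr_fun h2 ((Q c).coeff n)

theorem p_IND : Stmt_IND := by
  classical
  intro k K k' K' _ _ _ _ _ _ _ m t x y A B α β s x' y' hM hAI hW j hj hjt hjx hjy P hP
  obtain ⟨P0, hP0, hden⟩ := IND_den hM (fun b => P.coeff b) P.support
  choose! Q S hQS using hden
  have hev : ∀ R, j (evm t x R) =
      ev s x' (R.map (lin k α β : MvPolynomial (Fin m) k →+* k'[X])) := fun R =>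
    IND_evm hj hjt hjx R
  have hC : ∀ c : k', ev s x' (C (C c)) = algebraMap k' K' c := by
    intro c
    rw [IND_evC, aeval_C]
  have h1 : rr s x' y'
      (∑ b ∈ P.support, C (C (∏ i, β i ^ b i)) *
        (Q b).map (lin k α β : MvPolynomial (Fin m) k →+* k'[X]))
      (∑ b ∈ P.support, C (C (∏ i, β i ^ b i)) *
        (S b).map (lin k α β : MvPolynomial (Fin m) k →+* k'[X])) = 0 := by
    rw [MvPolynomial.eval₂_eq'] at hP
    have h2 : j (evm t x P0) * ∑ b ∈ P.support, j (P.coeff b) *
        ∏ i, (algebraMap k' K' (β i)) ^ b i = 0 := by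
      rw [hP, mul_zero]
    unfold rr
    rw [← h2, map_sum, map_sum, Finset.sum_mul, ← Finset.sum_add_distrib, Finset.mul_sum]
    refine Finset.sum_congr rfl fun b hb => ?_
    have h3 := congrArg j (hQS b hb)
    rw [map_mul, map_add, map_mul, hjy, hev (Q b), hev (S b)] at h3
    rw [map_mul, map_mul, hC, map_prod]
    simp only [map_pow]
    linear_combination (-(∏ i, (algebraMap k' K' (β i)) ^ b i)) * h3
  obtain ⟨h2, h3⟩ := IND_rr hW _ _ h1
  have h4 := IND_coef hAI P.support Q h2
  have h5 := IND_coef hAI P.support S h3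
  have hne : evm t x P0 ≠ 0 := fun h => hP0 (hM.ind P0 h)
  ext b
  rw [MvPolynomial.coeff_zero]
  by_cases hb : b ∈ P.support
  · have h6 := hQS b hb
    rw [h4 b hb, h5 b hb, map_zero, zero_mul, add_zero] at h6
    exact (mul_eq_zero.1 h6).resolve_right hne
  · exact MvPolynomial.notMem_support_iff.1 hb

end Pool.IE
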