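import Pool.Agent.Work.MP_bf99ce_ie.Interface

set_option autoImplicit false

open Polynomial AlgebraicGeometry CategoryTheory

noncomputable section

namespace Pool.IE

theorem INV_evC {k K : Type} [Field k] [Field K] [Algebra k K] (t x : K) (p : k[X]) :
    ev t x (C p) = aeval t p := by
  simp [ev]

theorem INV_evX {k K : Type} [Field k] [Field K] [Algebra k K] (t x : K) :
    ev t x (X : P2 k) = x := by
  simp [ev]

/-- the reflected polynomial at `t⁻¹` -/
theorem INV_ref {k K : Type} [Field k] [Field K] [Algebra k K] (t : K) (ht : t ≠ 0) (N : ℕ) (p : k[X])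
    (hp : p.natDegree ≤ N) : aeval t⁻¹ (reflect N p) * t ^ N = aeval t p := by
  letI : Invertible t := invertibleOfNonzero ht
  have h := eval₂_reflect_mul_pow (algebraMap k K) t N p hp
  rw [invOf_eq_inv] at h
  exact h

theorem INV_ref' {k K : Type} [Field k] [Field K] [Algebra k K] (t : K) (ht : t ≠ 0) (N : ℕ) (p : k[X])
    (hp : p.natDegree ≤ N) : aeval t (reflect N p) = t ^ N * aeval t⁻¹ p := by
  have h := INV_ref t⁻¹ (inv_ne_zero ht) N p hp
  rw [inv_inv] at h
  rw [← h, mul_comm, mul_assoc, ← mul_pow, inv_mul_cancel₀ ht, one_pow, mul_one]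

/-- the transformed polynomial in two variables -/
theorem INV_RCP {k K : Type} [Field k] [Field K] [Algebra k K] (t x : K) (ht : t ≠ 0) (d : ℕ) (P : P2 k) :
    ∃ n0 : ℕ, ∀ N ≥ n0, ∃ P' : P2 k, ev t x P' = t ^ N * ev t⁻¹ (x / t ^ (2 * d)) P ∧ (P ≠ 0 → P' ≠ 0) := by
  refine ⟨P.support.sup (fun n => 2 * d * n + (P.coeff n).natDegree), fun N hN => ?_⟩
  have hN' : ∀ n ∈ P.support, 2 * d * n + (P.coeff n).natDegree ≤ N := fun n hn =>
    le_trans (Finset.le_sup (f := fun n => 2 * d * n + (P.coeff n).natDegree) hn) hN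
  refine ⟨∑ n ∈ P.support, C (reflect (N - 2 * d * n) (P.coeff n)) * X ^ n, ?_, ?_⟩
  · have h1 : ev t⁻¹ (x / t ^ (2 * d)) P = ∑ n ∈ P.support, aeval t⁻¹ (P.coeff n) * (x / t ^ (2 * d)) ^ n := by
      conv_lhs => rw [P.as_sum_support_C_mul_X_pow]
      rw [map_sum]
      refine Finset.sum_congr rfl fun n _ => ?_
      rw [map_mul, map_pow, INV_evC, INV_evX]
    rw [h1, map_sum, Finset.mul_sum]
    refine Finset.sum_congr rfl fun n hn => ?_
    rw [map_mul, map_pow, INV_evC, INV_evX]
    have h2 := hN' n hn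
    rw [INV_ref' t ht (N - 2 * d * n) (P.coeff n) (by omega)]
    have h3 : t ^ N = t ^ (N - 2 * d * n) * (t ^ (2 * d)) ^ n := by
      rw [← pow_mul, ← pow_add]; congr 1; omega
    rw [h3, div_pow]
    have h4 : (t ^ (2 * d)) ^ n ≠ 0 := pow_ne_zero _ (pow_ne_zero _ ht)
    field_simp
  · intro hP h0
    obtain ⟨n, hn⟩ := Finset.nonempty_iff_ne_empty.mpr (mt Polynomial.support_eq_empty.mp hP)
    have h1 : (∑ n ∈ P.support, C (reflect (N - 2 * d * n) (P.coeff n)) * X ^ n : P2 k).coeff n =
        reflect (N - 2 * d * n) (P.coeff n) := by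
      rw [finset_sum_coeff]
      rw [Finset.sum_eq_single n]
      · rw [coeff_C_mul, coeff_X_pow, if_pos rfl, mul_one]
      · intro m _ hm
        rw [coeff_C_mul, coeff_X_pow, if_neg (Ne.symm hm), mul_zero]
      · intro h; exact absurd hn h
    rw [h0, coeff_zero] at h1
    exact (mem_support_iff.mp hn) (reflect_eq_zero_iff.mp h1.symm)

/-- the derivative of the reflected polynomial -/
theorem INV_der {k : Type} [Field k] (N : ℕ) (p : k[X]) (hp : p.natDegree ≤ N) :
    X * derivative (reflect N p) = (N : k[X]) * reflect N p - reflect N (X * derivative p) := by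
  have hX : ∀ (q : k[X]) (i : ℕ), (X * derivative q).coeff i = (i : k) * q.coeff i := by
    intro q i
    cases i with
    | zero => simp
    | succ i =>
      rw [coeff_X_mul, coeff_derivative]
      push_cast
      ring
  ext i
  rw [hX, coeff_sub, coeff_reflect, coeff_reflect, hX, ← C_eq_natCast, coeff_C_mul, coeff_reflect]
  by_cases hi : i ≤ N
  · rw [revAt_le hi, Nat.cast_sub hi]; ring
  · rw [revAt_eq_self_of_lt (by omega), coeff_eq_zero_of_natDegree_lt (by omega)]; ring

theorem INV_degXd {k : Type} [Field k] (N : ℕ) (p : k[X]) (hp : p.natDegree ≤ N) :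
    (X * derivative p).natDegree ≤ N := by
  by_cases h0 : derivative p = 0
  · rw [h0]; simp
  · have h1 : p.natDegree ≠ 0 := by
      intro h2
      rw [eq_C_of_natDegree_eq_zero h2, derivative_C] at h0
      exact h0 rfl
    have h2 := natDegree_derivative_lt h1
    rw [natDegree_X_mul h0]
    omega

/-- the degree of a flat section -/
theorem INV_deg {k : Type} [Field k] [CharZero k] (f A : k[X]) (r s d : ℕ) (hf : f ≠ 0) (hr : 1 ≤ r)
    (h : (r : k[X]) * f * derivative A = (s : k[X]) * derivative f * A) (hd : f.natDegree ≤ r * d) :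
    A.natDegree ≤ s * d := by
  by_cases hA : A.natDegree = 0
  · rw [hA]; exact Nat.zero_le _
  have hA0 : A ≠ 0 := by
    rintro rfl
    exact hA natDegree_zero
  obtain ⟨m, hm⟩ := Nat.exists_eq_succ_of_ne_zero hA
  have hlA : A.coeff A.natDegree ≠ 0 := by
    rw [coeff_natDegree]; exact leadingCoeff_ne_zero.mpr hA0
  have hlf : f.coeff f.natDegree ≠ 0 := by
    rw [coeff_natDegree]; exact leadingCoeff_ne_zero.mpr hf
  have hdA : derivative A ≠ 0 := by
    intro h0
    have h1 : (derivative A).coeff m = 0 := by rw [h0, coeff_zero]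
    rw [coeff_derivative, ← Nat.succ_eq_add_one, ← hm] at h1
    rcases mul_eq_zero.mp h1 with h2 | h2
    · exact hlA h2
    · have : ((m + 1 : ℕ) : k) = 0 := by push_cast; exact h2
      exact absurd (Nat.cast_eq_zero.mp this) (by omega)
  have hrne : (r : k[X]) ≠ 0 := by
    rw [← C_eq_natCast, Ne, C_eq_zero, Nat.cast_eq_zero]; omega
  have hf0 : f.natDegree ≠ 0 := by
    intro h0
    have h1 : derivative f = 0 := by
      rw [eq_C_of_natDegree_eq_zero h0, derivative_C]
    rw [h1] at h
    have h2 : (r : k[X]) * f * derivative A ≠ 0 := mul_ne_zero (mul_ne_zero hrne hf) hdA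
    exact h2 (by rw [h]; ring)
  obtain ⟨n, hn⟩ := Nat.exists_eq_succ_of_ne_zero hf0
  have e1 : (f * derivative A).coeff (f.natDegree + m) = f.coeff f.natDegree * (derivative A).coeff m := by
    refine coeff_mul_add_eq_of_natDegree_le le_rfl ?_
    have := natDegree_derivative_lt hA
    omega
  have e2 : (derivative f * A).coeff (n + A.natDegree) = (derivative f).coeff n * A.coeff A.natDegree := by
    refine coeff_mul_add_eq_of_natDegree_le ?_ le_rfl
    have := natDegree_derivative_lt hf0
    omega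
  rw [coeff_derivative] at e1 e2
  have hidx : f.natDegree + m = n + A.natDegree := by omega
  have e3 := congrArg (fun q => q.coeff (f.natDegree + m)) h
  simp only [mul_assoc] at e3
  rw [← C_eq_natCast, ← C_eq_natCast, coeff_C_mul, coeff_C_mul, e1, hidx, e2] at e3
  have e4 : m + 1 = A.natDegree := hm.symm
  have e5 : n + 1 = f.natDegree := hn.symm
  have e6 : ((m : k) + 1) = (A.natDegree : k) := by rw [← e4]; push_cast; ring
  have e7 : ((n : k) + 1) = (f.natDegree : k) := by rw [← e5]; push_cast; ring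
  rw [e6, e7, e4, e5] at e3
  have e8 : ((r * A.natDegree : ℕ) : k) = ((s * f.natDegree : ℕ) : k) := by
    push_cast
    have : (f.coeff f.natDegree * A.coeff A.natDegree) * ((r : k) * A.natDegree) =
        (f.coeff f.natDegree * A.coeff A.natDegree) * ((s : k) * f.natDegree) := by
      linear_combination e3
    exact mul_left_cancel₀ (mul_ne_zero hlf hlA) this
  have e9 : r * A.natDegree = s * f.natDegree := Nat.cast_injective e8
  have e10 : r * A.natDegree ≤ r * (s * d) := by
    calc r * A.natDegree = s * f.natDegree := e9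
      _ ≤ s * (r * d) := Nat.mul_le_mul_left _ hd
      _ = r * (s * d) := by ring
  exact Nat.le_of_mul_le_mul_left e10 (by omega)

/-- the reflected flat section is flat -/
theorem INV_flat {k : Type} [Field k] (f A : k[X]) (r s d : ℕ)
    (h : (r : k[X]) * f * derivative A = (s : k[X]) * derivative f * A) (hf : f.natDegree ≤ r * d)
    (hA : A.natDegree ≤ s * d) :
    (r : k[X]) * reflect (r * d) f * derivative (reflect (s * d) A) =
      (s : k[X]) * derivative (reflect (r * d) f) * reflect (s * d) A := by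
  have h1 := INV_der (r * d) f hf
  have h2 := INV_der (s * d) A hA
  have h3 := reflect_mul f (X * derivative A) hf (INV_degXd _ A hA)
  have h4 := reflect_mul (X * derivative f) A (INV_degXd _ f hf) hA
  have h5 : (r : k[X]) * reflect (r * d + s * d) (f * (X * derivative A)) =
      (s : k[X]) * reflect (r * d + s * d) (X * derivative f * A) := by
    rw [← C_eq_natCast, ← C_eq_natCast, ← reflect_C_mul, ← reflect_C_mul, C_eq_natCast, C_eq_natCast]
    congr 1
    linear_combination X * h
  rw [h3, h4] at h5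
  apply mul_left_cancel₀ (X_ne_zero (R := k))
  push_cast at h1 h2
  linear_combination (r : k[X]) * reflect (r * d) f * h2 - (s : k[X]) * reflect (s * d) A * h1 - h5

theorem p_INV (hU : Stmt_UNQ) : Stmt_INV := by
  intro k K _ _ _ _ t x y A B f r h d hd
  obtain ⟨-, -, hne, -, -, ht, hne'⟩ := hU k K t x y A B f r h
  have hA4 : A.natDegree ≤ 4 * d := INV_deg f A r 4 d h.f0 h.r0 (by exact_mod_cast h.flA) hd
  have hB6 : B.natDegree ≤ 6 * d := INV_deg f B r 6 d h.f0 h.r0 (by exact_mod_cast h.flB) hd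
  have hf0 : reflect (r * d) f ≠ 0 := fun h0 => h.f0 (reflect_eq_zero_iff.mp h0)
  refine ⟨⟨reflect (4 * d) A, reflect (6 * d) B, ?_⟩, ?_⟩
  · refine ⟨?_, ?_, ?_, ?_, ?_, hf0, h.r0⟩
    · have h1 := INV_ref t ht (4 * d) A hA4
      have h2 := INV_ref t ht (6 * d) B hB6
      have h3 := h.rel
      rw [← h1, ← h2] at h3
      have e1 : (y / t ^ (3 * d)) ^ 2 = y ^ 2 / t ^ (6 * d) := by
        rw [div_pow, ← pow_mul]; congr 2; ring
      have e2 : (x / t ^ (2 * d)) ^ 3 = x ^ 3 / t ^ (6 * d) := by
        rw [div_pow, ← pow_mul]; congr 2; ring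
      have e3 : x / t ^ (2 * d) = x * t ^ (4 * d) / t ^ (6 * d) := by
        rw [div_eq_div_iff (pow_ne_zero _ ht) (pow_ne_zero _ ht), mul_assoc, ← pow_add]; congr 2; ring
      rw [e1, e2, e3, h3]
      have h6 : t ^ (6 * d) ≠ 0 := pow_ne_zero _ ht
      field_simp
    · intro P hP
      by_contra hP0
      obtain ⟨n0, hn0⟩ := INV_RCP t x ht d P
      obtain ⟨P', hP', hP'0⟩ := hn0 n0 le_rfl
      rw [hP, mul_zero] at hP'
      exact hP'0 hP0 (h.ind P' hP')
    · intro z
      obtain ⟨P, Q, S, hP, hz⟩ := h.gen z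
      have hs : t⁻¹ ≠ 0 := inv_ne_zero ht
      have hx : x / t ^ (2 * d) / t⁻¹ ^ (2 * d) = x := by
        rw [div_div, ← mul_pow, mul_inv_cancel₀ ht, one_pow, div_one]
      obtain ⟨n1, h1⟩ := INV_RCP t⁻¹ (x / t ^ (2 * d)) hs d P
      obtain ⟨n2, h2⟩ := INV_RCP t⁻¹ (x / t ^ (2 * d)) hs d Q
      obtain ⟨n3, h3⟩ := INV_RCP t⁻¹ (x / t ^ (2 * d)) hs d S
      rw [hx, inv_inv] at h1 h2 h3
      obtain ⟨P', hP', hP'0⟩ := h1 (n1 + n2 + n3 + 3 * d) (by omega)
      obtain ⟨Q', hQ', -⟩ := h2 (n1 + n2 + n3 + 3 * d) (by omega)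
      obtain ⟨S', hS', -⟩ := h3 (n1 + n2 + n3) (by omega)
      refine ⟨P', Q', S', hP'0 hP, ?_⟩
      rw [rr, hP', hQ', hS', pow_add t⁻¹ (n1 + n2 + n3) (3 * d)]
      rw [rr] at hz
      have e4 : y / t ^ (3 * d) = y * t⁻¹ ^ (3 * d) := by
        rw [inv_pow, div_eq_mul_inv]
      rw [e4]
      linear_combination (t⁻¹ ^ (n1 + n2 + n3) * t⁻¹ ^ (3 * d)) * hz
    · have := INV_flat f A r 4 d (by exact_mod_cast h.flA) hd hA4
      exact_mod_cast this
    · have := INV_flat f B r 6 d (by exact_mod_cast h.flB) hd hB6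
      exact_mod_cast this
  · intro D1 D2 hD
    have hDpow : ∀ (D : Derivation k K K) (n : ℕ), D (x / t ^ n) = D x / t ^ n - (n : K) * x * D t / t ^ (n + 1) := by
      intro D n
      rw [Derivation.leibniz_div, Derivation.leibniz_pow]
      simp only [smul_eq_mul, nsmul_eq_mul]
      cases n with
      | zero => simp
      | succ n =>
        simp only [Nat.add_sub_cancel]
        field_simp
        ring
    refine ⟨?_, ?_, ?_, ?_⟩
    · show (-(t ^ 2) • D1) t⁻¹ = 1
      rw [Derivation.smul_apply, Derivation.leibniz_inv, hD.t1]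
      simp only [smul_eq_mul]
      field_simp
    · show (r : K) * aeval t⁻¹ (reflect (r * d) f) * (-(t ^ 2) • D1) (x / t ^ (2 * d)) =
        2 * aeval t⁻¹ (derivative (reflect (r * d) f)) * (x / t ^ (2 * d))
      rw [Derivation.smul_apply, hDpow, hD.t1]
      have h1 := congrArg (aeval t⁻¹) (INV_der (r * d) f hd)
      rw [map_mul, map_sub, map_mul, aeval_X, map_natCast] at h1
      have h2 := INV_ref t ht (r * d) f hd
      have h3 := INV_ref t ht (r * d) (X * derivative f) (INV_degXd _ f hd)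
      rw [map_mul, aeval_X] at h3
      have h4 := hD.x1
      rw [← h2] at h4
      have h5 : aeval t (derivative f) = aeval t⁻¹ (reflect (r * d) (X * derivative f)) * t ^ (r * d) * t⁻¹ := by
        rw [h3]; field_simp
      rw [h5] at h4
      have h6 : aeval t⁻¹ (derivative (reflect (r * d) f)) =
          t * (((r * d : ℕ) : K) * aeval t⁻¹ (reflect (r * d) f) - aeval t⁻¹ (reflect (r * d) (X * derivative f))) := by
        rw [← h1]; field_simp
      rw [h6]
      have h7 : (r : K) * aeval t⁻¹ (reflect (r * d) f) * D1 x =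
          2 * (aeval t⁻¹ (reflect (r * d) (X * derivative f)) * t⁻¹) * x := by
        apply mul_right_cancel₀ (pow_ne_zero (r * d) ht)
        linear_combination h4
      rw [smul_eq_mul]
      have h8 : (r : K) * aeval t⁻¹ (reflect (r * d) f) * (-t ^ 2 * (D1 x / t ^ (2 * d) - ((2 * d : ℕ) : K) * x * 1 / t ^ (2 * d + 1))) =
          -t ^ 2 / t ^ (2 * d) * ((r : K) * aeval t⁻¹ (reflect (r * d) f) * D1 x) +
          (r : K) * aeval t⁻¹ (reflect (r * d) f) * (t ^ 2 * (((2 * d : ℕ) : K) * x / t ^ (2 * d + 1))) := by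
        ring
      rw [h8, h7, pow_succ]
      push_cast
      field_simp
      ring
    · show ((t ^ d)⁻¹ • D2) t⁻¹ = 0
      rw [Derivation.smul_apply, Derivation.leibniz_inv, hD.t2]
      simp
    · show ((t ^ d)⁻¹ • D2) (x / t ^ (2 * d)) = y / t ^ (3 * d)
      rw [Derivation.smul_apply, hDpow, hD.t2, hD.x2, smul_eq_mul]
      have e : t ^ (3 * d) = t ^ d * t ^ (2 * d) := by rw [← pow_add]; congr 1; ring
      rw [e]
      field_simp
      ring

end Pool.IE
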