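import Pool.Agent.Work.MP_bf99ce_ie.Interface4
import Pool.Agent.Work.MP_bf99ce_ie.B_INV

set_option autoImplicit false

open Polynomial

noncomputable section

namespace Pool.IE

theorem p_INV1 (hUNQ1 : Stmt_UNQ1) : Stmt_INV1 := by
  intro k K _ _ _ _ t x y A B h d hA4 hB6
  obtain ⟨-, -, hne, hy, -, ht, hne'⟩ := hUNQ1 k K t x y A B h
  refine ⟨⟨?_, ?_, ?_⟩, ?_⟩
  · have h1 := INV_ref t ht (4 * d) A hA4
    have h2 := INV_ref t ht (6 * d) B hB6
    have h3 := h.rel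
    rw [← h1, ← h2] at h3
    have e1 : (y / t ^ (3 * d)) ^ 2 = y ^ 2 / t ^ (6 * d) := by
      rw [div_pow, ← pow_mul]; congr 2; ring
    have e2 : (x / t ^ (2 * d)) ^ 3 = x ^ 3 / t ^ (6 * d) := by
      rw [div_pow, ← pow_mul]; congr 2; ring
    have e3 : x / t ^ (2 * d) = x * t ^ (4 * d) / t ^ (6 * d) := by
      rw [div_eq_div_iff (pow_ne_zero _ ht) (pow_ne_zero _ ht), mul_assoc, ← pow_add]; congr 2; ring
    rw [e1, e2, e3, h3]
    have h6 : t ^ (6 * d) ≠ 0 := pow_ne_zero _ ht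
    field_simp
  · intro P hP
    by_contra hP0
    obtain ⟨n0, hn0⟩ := INV_RCP t x ht d P
    obtain ⟨P', hP', hP'0⟩ := hn0 n0 le_rfl
    rw [hP, mul_zero] at hP'
    exact hP'0 hP0 (h.ind P' hP')
  · intro z
    obtain ⟨P, Q, S, hP, hz⟩ := h.gen z
    have hs : t⁻¹ ≠ 0 := inv_ne_zero ht
    have hx : x / t ^ (2 * d) / t⁻¹ ^ (2 * d) = x := by
      rw [div_div, ← mul_pow, mul_inv_cancel₀ ht, one_pow, div_one]
    obtain ⟨n1, h1⟩ := INV_RCP t⁻¹ (x / t ^ (2 * d)) hs d P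
    obtain ⟨n2, h2⟩ := INV_RCP t⁻¹ (x / t ^ (2 * d)) hs d Q
    obtain ⟨n3, h3⟩ := INV_RCP t⁻¹ (x / t ^ (2 * d)) hs d S
    rw [hx, inv_inv] at h1 h2 h3
    obtain ⟨P', hP', hP'0⟩ := h1 (n1 + n2 + n3 + 3 * d) (by omega)
    obtain ⟨Q', hQ', -⟩ := h2 (n1 + n2 + n3 + 3 * d) (by omega)
    obtain ⟨S', hS', -⟩ := h3 (n1 + n2 + n3) (by omega)
    refine ⟨P', Q', S', hP'0 hP, ?_⟩
    rw [rr, hP', hQ', hS', pow_add t⁻¹ (n1 + n2 + n3) (3 * d)]
    rw [rr] at hz
    have e4 : y / t ^ (3 * d) = y * t⁻¹ ^ (3 * d) := by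
      rw [inv_pow, div_eq_mul_inv]
    rw [e4]
    linear_combination (t⁻¹ ^ (n1 + n2 + n3) * t⁻¹ ^ (3 * d)) * hz
  · intro D0 D2 hD
    have hDpow : ∀ (D : Derivation k K K) (n : ℕ), D (x / t ^ n) = D x / t ^ n - (n : K) * x * D t / t ^ (n + 1) := by
      intro D n
      rw [Derivation.leibniz_div, Derivation.leibniz_pow]
      simp only [smul_eq_mul, nsmul_eq_mul]
      cases n with
      | zero => simp
      | succ n =>
        simp only [Nat.add_sub_cancel]
        field_simp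
        ring
    refine ⟨?_, ?_, ?_, ?_⟩
    · rw [Derivation.add_apply, Derivation.smul_apply, Derivation.smul_apply, Derivation.leibniz_inv,
        Derivation.leibniz_inv, hD.t1, hD.t2]
      simp only [smul_eq_mul]
      field_simp
      ring
    · rw [Derivation.add_apply, Derivation.smul_apply, Derivation.smul_apply, hDpow, hDpow, hD.t1,
        hD.t2, hD.x1, hD.x2, smul_eq_mul, smul_eq_mul, pow_succ]
      push_cast
      field_simp
      ring
    · rw [Derivation.smul_apply, Derivation.leibniz_inv, hD.t2]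
      simp
    · rw [Derivation.smul_apply, hDpow, hD.t2, hD.x2, smul_eq_mul]
      have e : t ^ (3 * d) = t ^ d * t ^ (2 * d) := by rw [← pow_add]; congr 1; ring
      rw [e]
      field_simp
      ring

end Pool.IE
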