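import Pool.Agent.Work.MP_bf99ce_ie.Interface4

/-!
# THEOREM EM, block KAP: constant j-invariant
-/

set_option autoImplicit false

open Polynomial

noncomputable section

namespace Pool.IE

theorem KAP_deg {k : Type} [Field k] [CharZero k] (P Q : k[X]) (hP : P ≠ 0) (hQ : Q ≠ 0)
    (h : derivative P * Q = P * derivative Q) : P.natDegree = Q.natDegree := by
  have hc : ∀ R : k[X], (X * derivative R).natDegree ≤ R.natDegree ∧
      (X * derivative R).coeff R.natDegree = R.natDegree * R.leadingCoeff := by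
    intro R
    rcases Nat.eq_zero_or_pos R.natDegree with h0 | h0
    · obtain ⟨c, rfl⟩ := Polynomial.natDegree_eq_zero.1 h0
      simp
    · refine ⟨?_, ?_⟩
      · refine le_trans natDegree_mul_le ?_
        rw [natDegree_X]
        have := natDegree_derivative_le R
        omega
      · obtain ⟨n, hn⟩ : ∃ n, R.natDegree = n + 1 := ⟨R.natDegree - 1, by omega⟩
        rw [hn, coeff_X_mul, coeff_derivative, leadingCoeff, hn]
        push_cast
        ring
  have h1 : (X * derivative P) * Q = P * (X * derivative Q) := by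
    rw [mul_assoc, h]; ring
  have h2 : ((X * derivative P) * Q).coeff (P.natDegree + Q.natDegree) =
      (P.natDegree * P.leadingCoeff) * Q.leadingCoeff := by
    rw [coeff_mul_add_eq_of_natDegree_le (hc P).1 le_rfl, (hc P).2]
    rfl
  have h3 : (P * (X * derivative Q)).coeff (P.natDegree + Q.natDegree) =
      P.leadingCoeff * (Q.natDegree * Q.leadingCoeff) := by
    rw [coeff_mul_add_eq_of_natDegree_le le_rfl (hc Q).1, (hc Q).2]
    rfl
  rw [h1, h3] at h2
  have h4 : P.leadingCoeff ≠ 0 := leadingCoeff_ne_zero.2 hP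
  have h5 : Q.leadingCoeff ≠ 0 := leadingCoeff_ne_zero.2 hQ
  have h6 : ((P.natDegree : k) - Q.natDegree) * (P.leadingCoeff * Q.leadingCoeff) = 0 := by
    linear_combination -h2
  rcases mul_eq_zero.1 h6 with h7 | h7
  · exact_mod_cast sub_eq_zero.1 h7
  · exact absurd h7 (mul_ne_zero h4 h5)

theorem p_KAP : Stmt_KAP := by
  intro k _ _ A B hE hk
  by_cases hA : A = 0
  · exact ⟨0, by simp [hA]⟩
  by_cases hB : B = 0
  · refine ⟨1 / 4, ?_⟩
    have h4 : (4 : k[X]) = C 4 := rfl
    rw [hB, h4]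
    have : C (1 / 4 : k) * (C 4 * A ^ 3 + 27 * 0 ^ 2) = (C (1 / 4 : k) * C 4) * A ^ 3 := by ring
    rw [this, ← C_mul]
    norm_num
  have hP : A ^ 3 ≠ 0 := pow_ne_zero _ hA
  have hQ : B ^ 2 ≠ 0 := pow_ne_zero _ hB
  have hd : derivative (A ^ 3) * B ^ 2 = A ^ 3 * derivative (B ^ 2) := by
    have h0 : 3 * derivative A * B - 2 * A * derivative B = 0 := hk
    rw [derivative_pow, derivative_pow]
    push_cast
    have e3 : (C (3 : k)) = (3 : k[X]) := rfl
    have e2 : (C (2 : k)) = (2 : k[X]) := rfl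
    rw [e3, e2]
    simp only [pow_one]
    linear_combination A ^ 2 * B * h0
  have hdeg := KAP_deg _ _ hP hQ hd
  -- the constant
  have hlQ : (B ^ 2).leadingCoeff ≠ 0 := leadingCoeff_ne_zero.2 hQ
  have hlP : (A ^ 3).leadingCoeff ≠ 0 := leadingCoeff_ne_zero.2 hP
  obtain ⟨c, hc⟩ : ∃ c : k, c = (A ^ 3).leadingCoeff / (B ^ 2).leadingCoeff := ⟨_, rfl⟩
  have hc0 : c ≠ 0 := by rw [hc]; exact div_ne_zero hlP hlQ
  have hG : A ^ 3 - C c * B ^ 2 = 0 := by
    by_contra hG
    have hdG : derivative (A ^ 3 - C c * B ^ 2) * B ^ 2 = (A ^ 3 - C c * B ^ 2) * derivative (B ^ 2) := by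
      rw [derivative_sub, derivative_C_mul]
      linear_combination hd
    have h1 := KAP_deg _ _ hG hQ hdG
    have h2 : (A ^ 3 - C c * B ^ 2).coeff (B ^ 2).natDegree = 0 := by
      rw [coeff_sub, coeff_C_mul]
      have h3 : (A ^ 3).coeff (B ^ 2).natDegree = (A ^ 3).leadingCoeff := by
        rw [← hdeg]; rfl
      rw [h3]
      change _ - c * (B ^ 2).leadingCoeff = 0
      rw [hc, div_mul_cancel₀ _ hlQ, sub_self]
    rw [← h1] at h2
    exact hG (leadingCoeff_eq_zero.1 h2)
  have h1 : A ^ 3 = C c * B ^ 2 := sub_eq_zero.1 hG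
  have hne : 4 * c + 27 ≠ 0 := by
    intro h0
    apply hE
    have : (4 * A ^ 3 + 27 * B ^ 2 : k[X]) = C (4 * c + 27) * B ^ 2 := by
      rw [h1, C_add, C_mul]
      have e4 : (C (4 : k)) = (4 : k[X]) := rfl
      have e27 : (C (27 : k)) = (27 : k[X]) := rfl
      rw [e4, e27]
      ring
    rw [this, h0, C_0, zero_mul]
  refine ⟨c / (4 * c + 27), ?_⟩
  have : (4 * A ^ 3 + 27 * B ^ 2 : k[X]) = C (4 * c + 27) * B ^ 2 := by
    rw [h1, C_add, C_mul]
    have e4 : (C (4 : k)) = (4 : k[X]) := rfl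
    have e27 : (C (27 : k)) = (27 : k[X]) := rfl
    rw [e4, e27]
    ring
  rw [this, ← mul_assoc, ← C_mul, div_mul_cancel₀ _ hne, h1]

end Pool.IE
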