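import Pool.Agent.Work.MP_bf99ce_ie.Interface

/-!
# Block LAS: products of linear forms after the substitution
-/

set_option autoImplicit false

open Polynomial AlgebraicGeometry CategoryTheory

noncomputable section

namespace Pool.IE

/-- the coefficient of `X ^ c` is in `p ^ (i - c) V` for `c ≤ i` and zero for `c > i` -/
def LAS_good {K : Type} [Field K] (V : ValuationSubring K) (p : K) (i : ℕ) (P : K[X]) : Prop :=
  (∀ c ≤ i, ∃ w ∈ V, P.coeff c = p ^ (i - c) * w) ∧ ∀ c, i < c → P.coeff c = 0

theorem LAS_sum {K ι : Type} [Field K] (V : ValuationSubring K) (p : K) (m : ℕ) (s : Finset ι)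
    (f : ι → K) (h : ∀ x ∈ s, ∃ w ∈ V, f x = p ^ m * w) : ∃ w ∈ V, ∑ x ∈ s, f x = p ^ m * w := by
  classical
  induction s using Finset.induction_on with
  | empty => exact ⟨0, zero_mem _, by simp⟩
  | insert a s ha ih =>
    obtain ⟨w, hw, h1⟩ := ih fun x hx => h x (Finset.mem_insert_of_mem hx)
    obtain ⟨v, hv, h2⟩ := h a (Finset.mem_insert_self a s)
    exact ⟨v + w, add_mem hv hw, by rw [Finset.sum_insert ha, h1, h2, mul_add]⟩

theorem LAS_mul {K : Type} [Field K] (V : ValuationSubring K) (p : K) {i j : ℕ} {P Q : K[X]}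
    (hP : LAS_good V p i P) (hQ : LAS_good V p j Q) : LAS_good V p (i + j) (P * Q) := by
  constructor
  · intro c hc
    rw [coeff_mul]
    refine LAS_sum V p _ _ _ fun x hx => ?_
    rw [Finset.HasAntidiagonal.mem_antidiagonal] at hx
    by_cases h1 : x.1 ≤ i
    · by_cases h2 : x.2 ≤ j
      · obtain ⟨w, hw, h3⟩ := hP.1 _ h1
        obtain ⟨v, hv, h4⟩ := hQ.1 _ h2
        refine ⟨w * v, mul_mem hw hv, ?_⟩
        have h5 : i + j - c = (i - x.1) + (j - x.2) := by omega
        rw [h3, h4, h5, pow_add]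
        ring
      · exact ⟨0, zero_mem _, by rw [hQ.2 _ (by omega)]; simp⟩
    · exact ⟨0, zero_mem _, by rw [hP.2 _ (by omega)]; simp⟩
  · intro c hc
    rw [coeff_mul]
    refine Finset.sum_eq_zero fun x hx => ?_
    rw [Finset.HasAntidiagonal.mem_antidiagonal] at hx
    by_cases h1 : x.1 ≤ i
    · rw [hQ.2 _ (by omega), mul_zero]
    · rw [hP.2 _ (by omega), zero_mul]

theorem LAS_one {K : Type} [Field K] (V : ValuationSubring K) (p : K) :
    LAS_good V p 0 (1 : K[X]) := by
  constructor
  · intro c hc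
    have h : c = 0 := by omega
    subst h
    exact ⟨1, one_mem _, by simp⟩
  · intro c hc
    rw [coeff_one, if_neg (by omega)]

theorem LAS_C {K : Type} [Field K] (V : ValuationSubring K) (p : K) (c : K) (hc : c ∈ V) :
    LAS_good V p 0 (C c : K[X]) := by
  constructor
  · intro d hd
    have h : d = 0 := by omega
    subst h
    exact ⟨c, hc, by simp⟩
  · intro d hd
    rw [coeff_C, if_neg (by omega)]

theorem LAS_prod {K : Type} [Field K] (V : ValuationSubring K) (p : K) :
    ∀ (i : ℕ) (f : Fin i → K[X]), (∀ l, LAS_good V p 1 (f l)) → LAS_good V p i (∏ l, f l) := by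
  intro i
  induction i with
  | zero =>
    intro f _
    simpa using LAS_one V p
  | succ i ih =>
    intro f hf
    rw [Fin.prod_univ_castSucc]
    exact LAS_mul V p (ih _ fun l => hf _) (hf _)

theorem LAS_add {K ι : Type} [Field K] (V : ValuationSubring K) (p : K) (i : ℕ) (s : Finset ι)
    (f : ι → K[X]) (h : ∀ x ∈ s, LAS_good V p i (f x)) : LAS_good V p i (∑ x ∈ s, f x) := by
  constructor
  · intro c hc
    rw [finsetSum_coeff]
    exact LAS_sum V p _ _ _ fun x hx => (h x hx).1 c hc
  · intro c hc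
    rw [finsetSum_coeff]
    exact Finset.sum_eq_zero fun x hx => (h x hx).2 c hc

theorem LAS_lin {K : Type} [Field K] (V : ValuationSubring K) (p w v : K) (hw : w ∈ V)
    (hv : v ∈ V) : LAS_good V p 1 (C (p * w) + C v * X : K[X]) := by
  constructor
  · intro c hc
    rcases Nat.le_one_iff_eq_zero_or_eq_one.1 hc with h | h
    · subst h
      exact ⟨w, hw, by simp⟩
    · subst h
      exact ⟨v, hv, by simp [coeff_C]⟩
  · intro c hc
    rw [coeff_add, coeff_C, if_neg (by omega), coeff_C_mul, coeff_X, if_neg (by omega)]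
    simp

theorem p_LAS : Stmt_LAS := by
  intro k K _ _ _ D1 D2 V i Φ p α β γ h1 h2 hΦ c hc
  obtain ⟨n, cc, a, hcc, ha, rfl⟩ := hΦ
  have hkey : LAS_good V p i
      (MvPolynomial.aeval ![(C α : K[X]), C β + C γ * X]
        (∑ s, MvPolynomial.C (cc s) * ∏ l, lf D1 D2 (a s l)) : K[X]) := by
    rw [map_sum]
    refine LAS_add V p i _ _ fun s _ => ?_
    rw [map_mul, map_prod]
    have h3 : (MvPolynomial.aeval ![(C α : K[X]), C β + C γ * X] (MvPolynomial.C (cc s)) : K[X]) =
        C (cc s) := by
      rw [MvPolynomial.aeval_C]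
      rfl
    rw [h3]
    have h4 := LAS_mul V p (LAS_C V p (cc s) (hcc s)) (LAS_prod V p i
      (fun l => (MvPolynomial.aeval ![(C α : K[X]), C β + C γ * X] (lf D1 D2 (a s l)) : K[X]))
      fun l => ?_)
    · rwa [zero_add] at h4
    · obtain ⟨w, hw, h5⟩ := h1 _ (ha s l)
      have h6 := h2 _ (ha s l)
      have h7 : (MvPolynomial.aeval ![(C α : K[X]), C β + C γ * X] (lf D1 D2 (a s l)) : K[X]) =
          C (p * w) + C (γ * D2 (a s l)) * X := by
        unfold lf
        rw [← h5]
        simp only [map_add, map_mul, MvPolynomial.aeval_C, MvPolynomial.aeval_X,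
          Matrix.cons_val_zero, Matrix.cons_val_one]
        have h8 : ∀ z : K, algebraMap K K[X] z = C z := fun z => rfl
        rw [h8, h8]
        ring
      rw [h7]
      exact LAS_lin V p w _ hw h6
  exact hkey.1 c hc

end Pool.IE
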