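import Pool.Agent.Work.MP_bf99ce_ie.Interface

/-!
# Block LAT: products of linear forms
-/

set_option autoImplicit false

open Polynomial AlgebraicGeometry CategoryTheory

noncomputable section

namespace Pool.IE

theorem LAT_lf_hom {k K : Type} [Field k] [Field K] [Algebra k K] (D1 D2 : Derivation k K K)
    (a : K) : (lf D1 D2 a).IsHomogeneous 1 := by
  unfold lf
  have h1 := (MvPolynomial.isHomogeneous_C (Fin 2) (D1 a)).mul
    (MvPolynomial.isHomogeneous_X K (0 : Fin 2))
  have h2 := (MvPolynomial.isHomogeneous_C (Fin 2) (D2 a)).mul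
    (MvPolynomial.isHomogeneous_X K (1 : Fin 2))
  rw [zero_add] at h1 h2
  exact h1.add h2

theorem LAT_mul {K : Type} [Field K] (V : ValuationSubring K) (P Q : MvPolynomial (Fin 2) K)
    (hP : ∀ m, P.coeff m ∈ V) (hQ : ∀ m, Q.coeff m ∈ V) : ∀ m, (P * Q).coeff m ∈ V := by
  intro m
  rw [MvPolynomial.coeff_mul]
  exact sum_mem fun x _ => mul_mem (hP _) (hQ _)

theorem LAT_C {K : Type} [Field K] (V : ValuationSubring K) (c : K) (hc : c ∈ V) :
    ∀ m, (MvPolynomial.C c : MvPolynomial (Fin 2) K).coeff m ∈ V := by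
  intro m
  rw [MvPolynomial.coeff_C]
  split_ifs
  · exact hc
  · exact zero_mem _

theorem LAT_X {K : Type} [Field K] (V : ValuationSubring K) (i : Fin 2) :
    ∀ m, (MvPolynomial.X i : MvPolynomial (Fin 2) K).coeff m ∈ V := by
  intro m
  rw [MvPolynomial.coeff_X]
  split_ifs
  · exact one_mem _
  · exact zero_mem _

theorem LAT_lf {k K : Type} [Field k] [Field K] [Algebra k K] (D1 D2 : Derivation k K K)
    (V : ValuationSubring K) (h : ∀ z ∈ V, D1 z ∈ V ∧ D2 z ∈ V) (a : K) (ha : a ∈ V) :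
    ∀ m, (lf D1 D2 a).coeff m ∈ V := by
  intro m
  unfold lf
  rw [MvPolynomial.coeff_add]
  exact add_mem (LAT_mul V _ _ (LAT_C V _ (h a ha).1) (LAT_X V 0) m)
    (LAT_mul V _ _ (LAT_C V _ (h a ha).2) (LAT_X V 1) m)

theorem LAT_sub {k K : Type} [Field k] [Field K] [Algebra k K] (D1 D2 : Derivation k K K)
    (α1 α2 : K) (a : K) :
    MvPolynomial.aeval (R := K) ![MvPolynomial.C α1 * MvPolynomial.X (0 : Fin 2),
      MvPolynomial.C α2 * MvPolynomial.X 1] (lf D1 D2 a) = lf (α1 • D1) (α2 • D2) a := by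
  unfold lf
  rw [map_add, map_mul, map_mul, MvPolynomial.aeval_X, MvPolynomial.aeval_X,
    MvPolynomial.aeval_C, MvPolynomial.aeval_C]
  simp only [Matrix.cons_val_zero, Matrix.cons_val_one, MvPolynomial.algebraMap_eq,
    Derivation.smul_apply, smul_eq_mul, MvPolynomial.C_mul]
  ring

/-- Block LAT. -/
theorem p_LAT : Stmt_LAT := by
  intro k K _ _ _ D1 D2 V i j
  refine ⟨?_, ?_, ?_, ?_⟩
  · rintro Φ ⟨n, c, a, _, _, rfl⟩
    refine MvPolynomial.IsHomogeneous.sum _ _ _ fun s _ => ?_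
    have h1 := MvPolynomial.isHomogeneous_C (Fin 2) (c s)
    have h2 := MvPolynomial.IsHomogeneous.prod Finset.univ (fun l => lf D1 D2 (a s l))
      (fun _ => 1) (fun l _ => LAT_lf_hom D1 D2 (a s l))
    have h3 := h1.mul h2
    simpa using h3
  · rintro Φ hD ⟨n, c, a, hc, ha, rfl⟩ m
    rw [MvPolynomial.coeff_sum]
    refine sum_mem fun s _ => ?_
    refine LAT_mul V _ _ (LAT_C V _ (hc s)) ?_ m
    refine Finset.prod_induction (fun l => lf D1 D2 (a s l))
      (fun P : MvPolynomial (Fin 2) K => ∀ m, P.coeff m ∈ V) (LAT_mul V) ?_ ?_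
    · have h := LAT_C V 1 (one_mem _)
      rwa [MvPolynomial.C_1] at h
    · intro l _
      exact LAT_lf D1 D2 V hD _ (ha s l)
  · rintro N u Φ w H hw hH ⟨n, c, e, a, hc, ha, rfl⟩
    refine ⟨n, fun s => c s * w * ∏ l, (H * u (e s l)), a, ?_, ha, ?_⟩
    · intro s
      exact mul_mem (mul_mem (hc s) hw) (prod_mem fun l _ => hH _)
    · rw [Finset.mul_sum]
      refine Finset.sum_congr rfl fun s _ => ?_
      rw [← mul_assoc, ← MvPolynomial.C_mul]
      congr 2
      show w * H ^ j * (c s * ∏ l, u (e s l)) = c s * w * ∏ l, H * u (e s l)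
      rw [Finset.prod_mul_distrib, Finset.prod_const, Finset.card_univ, Fintype.card_fin]
      ring
  · rintro N u G α1 α2 ⟨n, c, e, a, hc, ha, heq⟩
    refine ⟨n, c, e, a, hc, ha, ?_⟩
    have h := congrArg (MvPolynomial.aeval (R := K) ![MvPolynomial.C α1 *
      MvPolynomial.X (0 : Fin 2), MvPolynomial.C α2 * MvPolynomial.X 1]) heq
    rw [map_sum] at h
    have h1 : ∀ s, MvPolynomial.aeval (R := K) ![MvPolynomial.C α1 *
        MvPolynomial.X (0 : Fin 2), MvPolynomial.C α2 * MvPolynomial.X 1]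
        (MvPolynomial.C (c s * ∏ l, u (e s l)) * ∏ l, lf D1 D2 (a s l)) =
        MvPolynomial.C (c s * ∏ l, u (e s l)) * ∏ l, lf (α1 • D1) (α2 • D2) (a s l) := by
      intro s
      rw [map_mul, MvPolynomial.aeval_C, map_prod]
      congr 1
      exact Finset.prod_congr rfl fun l _ => LAT_sub D1 D2 α1 α2 (a s l)
    rw [Finset.sum_congr rfl fun s _ => h1 s] at h
    rw [← h]
    unfold pol
    rw [map_sum]
    refine Finset.sum_congr rfl fun b _ => ?_
    have h2 : MvPolynomial.aeval (R := K) ![MvPolynomial.C α1 *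
        MvPolynomial.X (0 : Fin 2), MvPolynomial.C α2 * MvPolynomial.X 1]
        (MvPolynomial.C (G b) * MvPolynomial.X 0 ^ b * MvPolynomial.X 1 ^ (i - b)) =
        MvPolynomial.C (G b) * (MvPolynomial.C α1 * MvPolynomial.X 0) ^ b *
          (MvPolynomial.C α2 * MvPolynomial.X 1) ^ (i - b) := by
      rw [map_mul, map_mul, map_pow, map_pow, MvPolynomial.aeval_C, MvPolynomial.aeval_X,
        MvPolynomial.aeval_X]
      rfl
    rw [h2]
    simp only [MvPolynomial.C_mul, MvPolynomial.C_pow, mul_pow]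
    ring

end Pool.IE
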