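import Pool.Agent.Work.MP_bf99ce_ie.Interface

/-!
# Block LBD (typed by helper21): the bad place
-/

set_option autoImplicit false

open Polynomial

noncomputable section

namespace Pool.IE

theorem LBD_evC {k K : Type} [Field k] [Field K] [Algebra k K] (t x : K) (p : k[X]) :
    ev t x (C p) = aeval t p := by
  unfold ev
  rw [coe_eval₂RingHom, eval₂_C]
  rfl

theorem LBD_evX {k K : Type} [Field k] [Field K] [Algebra k K] (t x : K) :
    ev (k := k) t x X = x := by
  unfold ev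
  rw [coe_eval₂RingHom, eval₂_X]

theorem LBD_mx {k K : Type} [Field k] [Field K] [Algebra k K] {t x y : K} {A B : k[X]}
    (hmul : ∀ Q S Q' S' : P2 k, rr t x y Q S * rr t x y Q' S' =
      rr t x y (Q * Q' + S * S' * WP A B) (Q * S' + S * Q'))
    (lmul : ∀ (Q S Q' S' : P2 k) (M M' : ℕ), (lam Q S).natDegree ≤ M →
      (lam Q' S').natDegree ≤ M' →
      (lam (Q * Q' + S * S' * WP A B) (Q * S' + S * Q')).natDegree ≤ M + M' ∧
      (lam (Q * Q' + S * S' * WP A B) (Q * S' + S * Q')).coeff (M + M') =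
        (lam Q S).coeff M * (lam Q' S').coeff M') (Q S : P2 k) :
    ∃ Q' S' : P2 k, rr t x y Q' S' = rr t x y Q S * x ∧ ∀ N, (lam Q S).natDegree ≤ N →
      (lam Q' S').natDegree ≤ N + 2 ∧ (lam Q' S').coeff (N + 2) = (lam Q S).coeff N := by
  have h1 : rr (k := k) t x y X 0 = x := by
    unfold rr
    rw [LBD_evX, map_zero, zero_mul, add_zero]
  have h2 : lam (k := k) X 0 = X ^ 2 := by
    unfold lam
    rw [expand_X, map_zero, mul_zero, add_zero]
  have h4 := hmul Q S X 0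
  rw [h1] at h4
  have h3 : ∀ N, (lam Q S).natDegree ≤ N →
      (lam (Q * X + S * 0 * WP A B) (Q * 0 + S * X)).natDegree ≤ N + 2 ∧
      (lam (Q * X + S * 0 * WP A B) (Q * 0 + S * X)).coeff (N + 2) = (lam Q S).coeff N := by
    intro N hN
    have h5 := lmul Q S X 0 N 2 hN (by rw [h2]; exact natDegree_X_pow_le 2)
    have h6 : (lam (k := k) X 0).coeff 2 = 1 := by rw [h2, coeff_X_pow_self]
    rw [h6, mul_one] at h5
    exact h5
  exact ⟨Q * X + S * 0 * WP A B, Q * 0 + S * X, h4.symm, h3⟩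

theorem LBD_my {k K : Type} [Field k] [Field K] [Algebra k K] {t x y : K} {A B : k[X]}
    (hmul : ∀ Q S Q' S' : P2 k, rr t x y Q S * rr t x y Q' S' =
      rr t x y (Q * Q' + S * S' * WP A B) (Q * S' + S * Q'))
    (lmul : ∀ (Q S Q' S' : P2 k) (M M' : ℕ), (lam Q S).natDegree ≤ M →
      (lam Q' S').natDegree ≤ M' →
      (lam (Q * Q' + S * S' * WP A B) (Q * S' + S * Q')).natDegree ≤ M + M' ∧
      (lam (Q * Q' + S * S' * WP A B) (Q * S' + S * Q')).coeff (M + M') =
        (lam Q S).coeff M * (lam Q' S').coeff M') (Q S : P2 k) :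
    ∃ Q' S' : P2 k, rr t x y Q' S' = rr t x y Q S * y ∧ ∀ N, (lam Q S).natDegree ≤ N →
      (lam Q' S').natDegree ≤ N + 3 ∧ (lam Q' S').coeff (N + 3) = (lam Q S).coeff N := by
  obtain ⟨z, hz⟩ : ∃ z : P2 k, z = 0 := ⟨0, rfl⟩
  obtain ⟨u, hu⟩ : ∃ u : P2 k, u = 1 := ⟨1, rfl⟩
  have h1 : rr (k := k) t x y z u = y := by
    unfold rr
    rw [hz, hu, map_zero, map_one, one_mul, zero_add]
  have h2 : lam (k := k) z u = X ^ 3 := by
    unfold lam
    rw [hz, hu, map_zero, map_one, mul_one, zero_add]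
  have h4 := hmul Q S z u
  rw [h1] at h4
  have h5 : (lam z u).natDegree ≤ 3 := by rw [h2]; exact natDegree_X_pow_le 3
  have h6 : (lam z u).coeff 3 = 1 := by rw [h2, coeff_X_pow_self]
  refine ⟨Q * z + S * u * WP A B, Q * u + S * z, h4.symm, fun N hN => ?_⟩
  obtain ⟨h7, h8⟩ := lmul Q S z u N 3 hN h5
  rw [h6, mul_one] at h8
  exact ⟨h7, h8⟩

theorem LBD_pair {k K : Type} [Field k] [Field K] [Algebra k K] {t x y : K} {A B : k[X]}
    (hmul : ∀ Q S Q' S' : P2 k, rr t x y Q S * rr t x y Q' S' =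
      rr t x y (Q * Q' + S * S' * WP A B) (Q * S' + S * Q'))
    (lmul : ∀ (Q S Q' S' : P2 k) (M M' : ℕ), (lam Q S).natDegree ≤ M →
      (lam Q' S').natDegree ≤ M' →
      (lam (Q * Q' + S * S' * WP A B) (Q * S' + S * Q')).natDegree ≤ M + M' ∧
      (lam (Q * Q' + S * S' * WP A B) (Q * S' + S * Q')).coeff (M + M') =
        (lam Q S).coeff M * (lam Q' S').coeff M') (Q S : P2 k) (m a : ℕ) :
    ∃ Q' S' : P2 k, rr t x y Q' S' = rr t x y Q S * x ^ m * y ^ a ∧
      ∀ N, (lam Q S).natDegree ≤ N → (lam Q' S').natDegree ≤ N + 2 * m + 3 * a ∧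
        (lam Q' S').coeff (N + 2 * m + 3 * a) = (lam Q S).coeff N := by
  induction a with
  | zero =>
    induction m with
    | zero =>
      refine ⟨Q, S, by rw [pow_zero, pow_zero, mul_one, mul_one], fun N hN => ?_⟩
      exact ⟨hN, rfl⟩
    | succ m ih =>
      obtain ⟨Q1, S1, h1, h2⟩ := ih
      obtain ⟨Q2, S2, h3, h4⟩ := LBD_mx hmul lmul Q1 S1
      refine ⟨Q2, S2, by rw [h3, h1, pow_succ]; ring, fun N hN => ?_⟩
      obtain ⟨h5, h6⟩ := h2 N hN
      obtain ⟨h7, h8⟩ := h4 _ h5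
      have h9 : N + 2 * (m + 1) + 3 * 0 = N + 2 * m + 3 * 0 + 2 := by ring
      rw [h9]
      exact ⟨h7, h8.trans h6⟩
  | succ a ih =>
    obtain ⟨Q1, S1, h1, h2⟩ := ih
    obtain ⟨Q2, S2, h3, h4⟩ := LBD_my hmul lmul Q1 S1
    refine ⟨Q2, S2, by rw [h3, h1, pow_succ]; ring, fun N hN => ?_⟩
    obtain ⟨h5, h6⟩ := h2 N hN
    obtain ⟨h7, h8⟩ := h4 _ h5
    have h9 : N + 2 * m + 3 * (a + 1) = N + 2 * m + 3 * a + 3 := by ring
    rw [h9]
    exact ⟨h7, h8.trans h6⟩

theorem LBD_lamsum {k : Type} [Field k] (s : Finset ℕ) (c : ℕ → k[X]) (Q S : ℕ → P2 k) :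
    lam (∑ a ∈ s, C (c a) * Q a) (∑ a ∈ s, C (c a) * S a) =
      ∑ a ∈ s, C (c a) * lam (Q a) (S a) := by
  unfold lam
  rw [map_sum, map_sum, Finset.mul_sum, ← Finset.sum_add_distrib]
  refine Finset.sum_congr rfl fun a _ => ?_
  rw [map_mul, map_mul, expand_C]
  ring

theorem LBD_rrsum {k K : Type} [Field k] [Field K] [Algebra k K] (t x y : K) (s : Finset ℕ)
    (c : ℕ → k[X]) (Q S : ℕ → P2 k) :
    rr t x y (∑ a ∈ s, C (c a) * Q a) (∑ a ∈ s, C (c a) * S a) =
      ∑ a ∈ s, aeval t (c a) * rr t x y (Q a) (S a) := by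
  unfold rr
  rw [map_sum, map_sum, Finset.sum_mul, ← Finset.sum_add_distrib]
  refine Finset.sum_congr rfl fun a _ => ?_
  rw [map_mul, map_mul, LBD_evC]
  ring

/-- the coefficients of the substituted form -/
theorem LBD_subst {K : Type} [Field K] (i c : ℕ) (G : ℕ → K) (α b ρ τ : K) :
    (MvPolynomial.aeval ![C α, C (b * ρ) + C ρ * X] (MvPolynomial.C τ * pol i G) : K[X]).coeff c =
      τ * ∑ a ∈ Finset.range (i + 1),
        G a * α ^ a * (ρ ^ (i - a) * (b ^ (i - a - c) * ((i - a).choose c : K))) := by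
  unfold pol
  rw [map_mul, MvPolynomial.aeval_C, Polynomial.algebraMap_eq, coeff_C_mul, map_sum,
    finsetSum_coeff]
  refine congrArg (fun z => τ * z) (Finset.sum_congr rfl fun a _ => ?_)
  rw [map_mul, map_mul, map_pow, map_pow, MvPolynomial.aeval_C, MvPolynomial.aeval_X,
    MvPolynomial.aeval_X, Polynomial.algebraMap_eq]
  have h1 : (![C α, C (b * ρ) + C ρ * X] : Fin 2 → K[X]) 0 = C α := rfl
  have h2 : (![C α, C (b * ρ) + C ρ * X] : Fin 2 → K[X]) 1 = C (b * ρ) + C ρ * X := rfl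
  have h3 : (C (b * ρ) + C ρ * X : K[X]) = C ρ * (X + C b) := by
    rw [C_mul]
    ring
  rw [h1, h2, h3, mul_pow, ← C_pow, ← C_pow, ← C_mul, coeff_C_mul, coeff_C_mul,
    coeff_X_add_C_pow]

theorem p_LBD (hUNQ : Stmt_UNQ) (hLMM : Stmt_LMM) (hLAS : Stmt_LAS) (hLIN : Stmt_LIN)
    (hVVA : Stmt_VVA) (hVCM : Stmt_VCM) (hVDB : Stmt_VDB) : Stmt_LBD := by
  intro k K _ _ _ _ t x y A B f r hWD hf0 D1 D2 hDD i E e D M Q S Λ hΛ hEq hdeg
  obtain ⟨hmul, hzero, hev, hy, hx, ht, haev⟩ := hUNQ k K t x y A B f r hWD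
  obtain ⟨ladd, lsmul, lzero, lmul⟩ := hLMM k A B
  obtain ⟨V, hV⟩ := hVVA k K t x y A B f r hWD
  have hVmem : ∀ z : K, z ∈ V ↔ z ∈ VG k t x y := fun z => by
    rw [← hV]
    rfl
  obtain ⟨n, f1, hf, hf1⟩ : ∃ (n : ℕ) (f1 : k[X]), f = X ^ n * f1 ∧ f1.eval 0 ≠ 0 := by
    obtain ⟨q, h1, h2⟩ := exists_eq_pow_rootMultiplicity_mul_and_not_dvd f hWD.f0 (0 : k)
    rw [C_0, sub_zero] at h1 h2
    refine ⟨_, q, h1, fun h3 => h2 ?_⟩
    rw [X_dvd_iff, coeff_zero_eq_eval_zero]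
    exact h3
  have hn : n ≠ 0 := by
    intro h
    rw [h, pow_zero, one_mul] at hf
    rw [hf] at hf0
    exact hf1 hf0
  obtain ⟨ν, hν⟩ : ∃ ν : k[X], ν = (n : k[X]) * f1 + X * derivative f1 := ⟨_, rfl⟩
  have hν0 : ν.eval 0 ≠ 0 := by
    rw [hν, eval_add, eval_mul, eval_mul, eval_X, zero_mul, add_zero, eval_natCast]
    exact mul_ne_zero (Nat.cast_ne_zero.mpr hn) hf1
  have hB := hVDB k K t x y A B f r hWD n f1 hf hf1 D1 D2 hDD
  rw [← hν] at hB
  rw [← hV] at hΛ
  have hr0 : (r : k) ≠ 0 := Nat.cast_ne_zero.mpr (by have := hWD.r0; omega)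
  -- the substitution
  have hlas := hLAS k K D1 D2 V i Λ t ((r : K) * aeval t f1 * t)
    (-(2 * aeval t ν) * (x / y)) (x / y)
    (fun z hz => by
      obtain ⟨⟨w, hw, h1⟩, -⟩ := hB z ((hVmem z).mp hz)
      refine ⟨w, (hVmem w).mpr hw, ?_⟩
      rw [← h1]
      ring)
    (fun z hz => (hVmem _).mpr (hB z ((hVmem z).mp hz)).2) hΛ
  have hyV : y ∈ V := by
    rw [hVmem]
    refine ⟨1, 0, 1, ?_, ?_⟩
    · intro h
      unfold TT at h
      rw [C_dvd_iff_dvd_coeff] at h
      have h1 := h 0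
      rw [coeff_one_zero, X_dvd_iff, coeff_one_zero] at h1
      exact one_ne_zero h1
    · unfold rr
      rw [map_one, map_zero, one_mul, zero_add, mul_one]
  -- the products with powers of x and y
  have hpair := fun a => LBD_pair hmul lmul (Q a) (S a) (i - a) a
  choose Q' S' hQS hdeg' using hpair
  have hcoef0 : ∀ a ≤ i, ¬ (lam (Q a) (S a) ≠ 0 ∧ (lam (Q a) (S a)).natDegree + a = M) →
      (lam (Q' a) (S' a)).coeff (M + 2 * i) = 0 := by
    intro a ha h
    by_cases h0 : lam (Q a) (S a) = 0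
    · obtain ⟨h1, h2⟩ := lzero _ _ h0
      have h3 : rr t x y (Q' a) (S' a) = 0 := by
        rw [hQS a, h1, h2]
        unfold rr
        rw [map_zero, zero_mul, add_zero, zero_mul, zero_mul]
      obtain ⟨h4, h5⟩ := hzero _ _ h3
      rw [h4, h5]
      unfold lam
      rw [map_zero, mul_zero, add_zero, coeff_zero]
    · have h1 : (lam (Q a) (S a)).natDegree + a ≠ M := fun h2 => h ⟨h0, h2⟩
      have h2 := (hdeg a ha h0).1
      have h3 := (hdeg' a _ le_rfl).1
      exact coeff_eq_zero_of_natDegree_lt (by omega)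
  have hcoef1 : ∀ a ≤ i, (lam (Q a) (S a)).natDegree + a = M →
      (lam (Q' a) (S' a)).coeff (M + 2 * i) = (lam (Q a) (S a)).leadingCoeff := by
    intro a ha h
    have h1 := (hdeg' a _ le_rfl).2
    have h2 : (lam (Q a) (S a)).natDegree + 2 * (i - a) + 3 * a = M + 2 * i := by omega
    rw [h2] at h1
    exact h1
  -- the divisibility
  have hdvd : ∀ c ≤ i, (X : k[X]) ^ (e + (i - c)) ∣ ∑ a ∈ Finset.range (i + 1),
      (X ^ E * ((r : k[X]) * f1 * X) ^ a * (-(2 * ν)) ^ (i - a - c) * ((i - a).choose c : k[X])) *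
        (lam (Q' a) (S' a)).coeff (M + 2 * i) := by
    intro c hc
    obtain ⟨w, hw, h1⟩ := hlas c hc
    have h2 := congrArg (fun Φ : MvPolynomial (Fin 2) K => (MvPolynomial.aeval
      ![C ((r : K) * aeval t f1 * t), C (-(2 * aeval t ν) * (x / y)) + C (x / y) * X] Φ :
        K[X]).coeff c) hEq
    rw [LBD_subst, map_mul, MvPolynomial.aeval_C, Polynomial.algebraMap_eq, coeff_C_mul, h1] at h2
    have h3 : rr t x y (∑ a ∈ Finset.range (i + 1), C (X ^ E * ((r : k[X]) * f1 * X) ^ a *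
        (-(2 * ν)) ^ (i - a - c) * ((i - a).choose c : k[X])) * Q' a)
        (∑ a ∈ Finset.range (i + 1), C (X ^ E * ((r : k[X]) * f1 * X) ^ a *
        (-(2 * ν)) ^ (i - a - c) * ((i - a).choose c : k[X])) * S' a) =
        t ^ (e + (i - c)) * (w * y ^ i) := by
      rw [LBD_rrsum]
      have h4 : t ^ (e + (i - c)) * (w * y ^ i) = (t ^ e * (t ^ (i - c) * w)) * y ^ i := by
        rw [pow_add]
        ring
      rw [h4, ← h2, Finset.mul_sum, Finset.sum_mul]
      refine Finset.sum_congr rfl fun a ha => ?_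
      have ha' : a ≤ i := by
        have := Finset.mem_range.mp ha
        omega
      rw [hQS a]
      simp only [map_mul, map_pow, map_neg, map_natCast, aeval_X, map_ofNat]
      have h5 : (x / y) ^ (i - a) * y ^ i = x ^ (i - a) * y ^ a := by
        have h6 : y ^ i = y ^ (i - a) * y ^ a := by
          rw [← pow_add]
          congr 1
          omega
        rw [h6, div_pow]
        field_simp
      calc t ^ E * ((r : K) * aeval t f1 * t) ^ a * (-(2 * aeval t ν)) ^ (i - a - c) *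
            ((i - a).choose c : K) * (rr t x y (Q a) (S a) * x ^ (i - a) * y ^ a)
          = t ^ E * (rr t x y (Q a) (S a) * ((r : K) * aeval t f1 * t) ^ a *
            ((x ^ (i - a) * y ^ a) * ((-(2 * aeval t ν)) ^ (i - a - c) *
              ((i - a).choose c : K)))) := by ring
        _ = t ^ E * (rr t x y (Q a) (S a) * ((r : K) * aeval t f1 * t) ^ a *
            (((x / y) ^ (i - a) * y ^ i) * ((-(2 * aeval t ν)) ^ (i - a - c) *
              ((i - a).choose c : K)))) := by rw [h5]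
        _ = _ := by ring
    have hwy : w * y ^ i ∈ VG k t x y :=
      (hVmem _).mp (V.mul_mem _ _ hw (V.toSubring.pow_mem hyV i))
    obtain ⟨⟨q, hq⟩, ⟨q', hq'⟩⟩ := hVCM k K t x y A B f r hWD _ _ _ _ hwy h3
    have h6 := LBD_lamsum (Finset.range (i + 1)) (fun a => X ^ E * ((r : k[X]) * f1 * X) ^ a *
        (-(2 * ν)) ^ (i - a - c) * ((i - a).choose c : k[X])) Q' S'
    rw [hq, hq'] at h6
    have h7 : TT k ^ (e + (i - c)) = C (X ^ (e + (i - c))) := by
      unfold TT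
      rw [C_pow]
    rw [h7, lsmul] at h6
    have h8 := congrArg (fun p : P2 k => p.coeff (M + 2 * i)) h6
    simp only [coeff_C_mul, finsetSum_coeff] at h8
    exact ⟨_, h8.symm⟩
  -- LIN
  classical
  obtain ⟨s, hs⟩ : ∃ s : Finset ℕ, ∀ a, a ∈ s ↔ a ≤ i ∧ lam (Q a) (S a) ≠ 0 ∧
      (lam (Q a) (S a)).natDegree + a = M := by
    refine ⟨(Finset.range (i + 1)).filter fun a => lam (Q a) (S a) ≠ 0 ∧
      (lam (Q a) (S a)).natDegree + a = M, fun a => ?_⟩
    rw [Finset.mem_filter, Finset.mem_range, Nat.lt_succ_iff]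
  have hlin := hLIN k i D (e + i) s
    (fun a => X ^ E * ((r : k[X]) * f1 * X) ^ a * (lam (Q a) (S a)).leadingCoeff) ν hν0
    (fun a ha => ((hs a).mp ha).1)
    (fun a ha a' ha' => by
      obtain ⟨h1, h2, h3⟩ := (hs a).mp ha
      obtain ⟨h4, h5, h6⟩ := (hs a').mp ha'
      have h7 := (hdeg a' h4 h5).2
      omega)
    (fun c hc => by
      have h1 := hdvd c hc
      have h2 : e + i - c = e + (i - c) := by omega
      rw [h2]
      have h3 : ∑ a ∈ Finset.range (i + 1), (X ^ E * ((r : k[X]) * f1 * X) ^ a *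
          (-(2 * ν)) ^ (i - a - c) * ((i - a).choose c : k[X])) *
            (lam (Q' a) (S' a)).coeff (M + 2 * i) =
          ∑ a ∈ s, X ^ E * ((r : k[X]) * f1 * X) ^ a * (lam (Q a) (S a)).leadingCoeff *
            ((i - a).choose c : k[X]) * (-(2 * ν)) ^ (i - a - c) := by
        symm
        have hsub : s ⊆ Finset.range (i + 1) := fun a ha => by
          rw [Finset.mem_range]
          have := ((hs a).mp ha).1
          omega
        rw [← Finset.sum_subset hsub (f := fun a => (X ^ E * ((r : k[X]) * f1 * X) ^ a *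
          (-(2 * ν)) ^ (i - a - c) * ((i - a).choose c : k[X])) *
            (lam (Q' a) (S' a)).coeff (M + 2 * i))]
        · refine Finset.sum_congr rfl fun a ha => ?_
          obtain ⟨h4, h5, h6⟩ := (hs a).mp ha
          rw [hcoef1 a h4 h6]
          ring
        · intro a ha ha'
          have ha2 : a ≤ i := by
            have := Finset.mem_range.mp ha
            omega
          rw [hcoef0 a ha2 fun h => ha' ((hs a).mpr ⟨ha2, h⟩), mul_zero]
      rw [← h3]
      exact h1)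
  -- conclusion
  intro a ha h0 hM
  have h1 := hlin a ((hs a).mpr ⟨ha, h0, hM⟩)
  have h2 : X ^ E * ((r : k[X]) * f1 * X) ^ a * (lam (Q a) (S a)).leadingCoeff =
      ((r : k[X]) * f1) ^ a * (X ^ (E + a) * (lam (Q a) (S a)).leadingCoeff) := by
    rw [mul_pow, pow_add]
    ring
  rw [h2] at h1
  have hXp : Prime (X : k[X]) := prime_X
  have h3 : ¬ (X : k[X]) ∣ ((r : k[X]) * f1) ^ a := by
    intro h4
    have h5 := hXp.dvd_of_dvd_pow h4
    rw [X_dvd_iff, coeff_zero_eq_eval_zero, eval_mul, eval_natCast] at h5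
    exact mul_ne_zero hr0 hf1 h5
  have h4 : (X : k[X]) ^ (e + i - D) ∣ X ^ (E + a) * (lam (Q a) (S a)).leadingCoeff :=
    hXp.pow_dvd_of_dvd_mul_left _ h3 h1
  have h5 : (X : k[X]) ^ (e + i) ∣ X ^ a * (X ^ (E + D) * (lam (Q a) (S a)).leadingCoeff) := by
    have h6 : (X : k[X]) ^ (e + i) ∣ X ^ (e + i - D) * X ^ D := by
      rw [← pow_add]
      exact pow_dvd_pow X (by omega)
    refine h6.trans ?_
    have h7 : (X : k[X]) ^ a * (X ^ (E + D) * (lam (Q a) (S a)).leadingCoeff) =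
        X ^ (E + a) * (lam (Q a) (S a)).leadingCoeff * X ^ D := by
      rw [pow_add, pow_add]
      ring
    rw [h7]
    exact mul_dvd_mul_right h4 _
  have h8 : (X : k[X]) ^ (e + i) = X ^ a * X ^ (e + (i - a)) := by
    rw [← pow_add]
    congr 1
    omega
  rw [h8] at h5
  exact (mul_dvd_mul_iff_left (pow_ne_zero a X_ne_zero)).mp h5

end Pool.IE

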