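import Pool.Agent.Work.MP_bf99ce_ie.Interface

set_option autoImplicit false

open Polynomial AlgebraicGeometry CategoryTheory

noncomputable section

namespace Pool.IE

theorem p_LGD (hV : Stmt_VVA) (hM : Stmt_VCM) (hD : Stmt_VDG) (hP : Stmt_POL) (hL : Stmt_LAT) : Stmt_LGD := by
  intro k K _ _ _ _ t x y A B f r wd hf D1 D2 dd i E e Q S Λ hΛ heq a ha M
  obtain ⟨V, hVV⟩ := hV k K t x y A B f r wd
  have hpres : ∀ z ∈ V, D1 z ∈ V ∧ D2 z ∈ V := by
    intro z hz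
    have hz' : z ∈ VG k t x y := by rw [← hVV]; exact hz
    have := hD k K t x y A B f r wd hf D1 D2 dd z hz'
    rw [← hVV] at this
    exact this
  rw [← hVV] at hΛ
  obtain ⟨l1, l2, -, -⟩ := hL k K D1 D2 V i 0
  have hhom := l1 Λ hΛ
  have hco := l2 Λ hpres hΛ
  obtain ⟨p1, -, p3, p4⟩ := hP K i
  obtain ⟨G, hG, hGc⟩ := p4 Λ hhom
  have hGV : ∀ b ≤ i, G b ∈ VG k t x y := by
    intro b hb
    rw [← hVV, hGc b hb]
    exact hco _
  rw [hG, p3, p3] at heq
  have h1 := p1 _ _ heq a ha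
  have h2 : rr t x y (TT k ^ E * Q a) (TT k ^ E * S a) = t ^ e * G a := by
    rw [← h1]
    have hT : ev t x (TT k) = t := by simp [ev, TT]
    simp only [rr, map_mul, map_pow, hT]
    ring
  obtain ⟨h3, h4⟩ := hM k K t x y A B f r wd _ _ e (G a) (hGV a ha) h2
  have hTe : ∀ n : ℕ, TT k ^ n = C ((X : k[X]) ^ n) := by
    intro n
    simp [TT]
  rw [hTe, hTe] at h3 h4
  have h5 : (C ((X : k[X]) ^ e) : P2 k) ∣ C ((X : k[X]) ^ E) * lam (Q a) (S a) := by
    have h6 := map_dvd (expand k[X] 2) h3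
    have h7 := map_dvd (expand k[X] 2) h4
    rw [map_mul, expand_C, expand_C] at h6 h7
    have e1 : C ((X : k[X]) ^ E) * lam (Q a) (S a) =
        C ((X : k[X]) ^ E) * expand k[X] 2 (Q a) + (C ((X : k[X]) ^ E) * expand k[X] 2 (S a)) * X ^ 3 := by
      unfold lam
      ring
    rw [e1]
    exact dvd_add h6 (Dvd.dvd.mul_right h7 _)
  have h8 := (C_dvd_iff_dvd_coeff _ _).1 h5 M
  rwa [coeff_C_mul] at h8

end Pool.IE
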