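import Pool.Agent.Work.MP_bf99ce_ie.Interface

/-!
# THEOREM IE (MP_bf99ce_ag), block LIN
-/

set_option autoImplicit false

open Polynomial

noncomputable section

namespace Pool.IE

/-- the coefficient of `X ^ c` is divisible by `T ^ (E - c)` -/
def LIN_P {R : Type} [CommRing R] (T : R) (E : ℕ) (Θ : R[X]) : Prop :=
  ∀ c, T ^ (E - c) ∣ Θ.coeff c

theorem LIN_step {R : Type} [CommRing R] {T r : R} (h : IsCoprime T r) {E : ℕ} {Θ : R[X]}
    (hP : LIN_P T E ((X + C r) * Θ)) : LIN_P T E Θ := by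
  intro c
  induction c with
  | zero =>
    have h1 := hP 0
    rw [mul_coeff_zero, coeff_add, coeff_X_zero, coeff_C_zero, zero_add] at h1
    exact (h.pow_left (m := E - 0)).dvd_of_dvd_mul_left h1
  | succ c ih =>
    have h1 := hP (c + 1)
    rw [add_mul, coeff_add, coeff_X_mul, coeff_C_mul] at h1
    have h2 : T ^ (E - (c + 1)) ∣ Θ.coeff c :=
      (pow_dvd_pow T (by omega)).trans ih
    have h3 : T ^ (E - (c + 1)) ∣ r * Θ.coeff (c + 1) := (dvd_add_right h2).1 h1
    exact (h.pow_left (m := E - (c + 1))).dvd_of_dvd_mul_left h3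

theorem LIN_pow {R : Type} [CommRing R] {T r : R} (h : IsCoprime T r) {E : ℕ} {Θ : R[X]} (b : ℕ)
    (hP : LIN_P T E ((X + C r) ^ b * Θ)) : LIN_P T E Θ := by
  induction b with
  | zero =>
    rw [pow_zero, one_mul] at hP
    exact hP
  | succ b ih =>
    rw [pow_succ', mul_assoc] at hP
    exact ih (LIN_step h hP)

theorem p_LIN : Stmt_LIN := by
  intro k _ _ i D E s w ν hν hi hD hdiv a ha
  -- the largest element
  obtain ⟨a₀, ha₀, hmax⟩ := s.exists_max_image id ⟨a, ha⟩
  have hle : ∀ a ∈ s, a ≤ a₀ := hmax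
  have hi0 : a₀ ≤ i := hi a₀ ha₀
  set r : k[X] := -(2 * ν) with hr
  have hcop : IsCoprime (X : k[X]) r := by
    rw [Irreducible.coprime_iff_not_dvd irreducible_X, hr, dvd_neg, X_dvd_iff]
    intro h0
    apply hν
    have h1 : (2 * ν).coeff 0 = 2 * ν.coeff 0 := by
      rw [mul_coeff_zero]
      simp
    rw [h1, mul_eq_zero] at h0
    rcases h0 with h0 | h0
    · exact absurd h0 two_ne_zero
    · rw [← coeff_zero_eq_eval_zero]
      exact h0
  -- the polynomial
  have hΨ : LIN_P (X : k[X]) E (∑ a ∈ s, C (w a) * (X + C r) ^ (i - a)) := by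
    intro c
    have h1 : (∑ a ∈ s, C (w a) * (X + C r) ^ (i - a)).coeff c =
        ∑ a ∈ s, w a * ((i - a).choose c : k[X]) * r ^ (i - a - c) := by
      rw [finsetSum_coeff]
      refine Finset.sum_congr rfl fun a _ => ?_
      rw [coeff_C_mul, coeff_X_add_C_pow]
      ring
    rw [h1]
    by_cases hc : c ≤ i
    · exact hdiv c hc
    · have h2 : ∑ a ∈ s, w a * ((i - a).choose c : k[X]) * r ^ (i - a - c) = 0 := by
        refine Finset.sum_eq_zero fun a _ => ?_
        rw [Nat.choose_eq_zero_of_lt (by omega)]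
        simp
      rw [h2]
      exact dvd_zero _
  have hfac : ∑ a ∈ s, C (w a) * (X + C r) ^ (i - a) =
      (X + C r) ^ (i - a₀) * ∑ a ∈ s, C (w a) * (X + C r) ^ (a₀ - a) := by
    rw [Finset.mul_sum]
    refine Finset.sum_congr rfl fun a ha => ?_
    have h1 : i - a = (i - a₀) + (a₀ - a) := by
      have := hle a ha
      omega
    rw [h1, pow_add]
    ring
  rw [hfac] at hΨ
  have hΨ1 := LIN_pow hcop _ hΨ
  -- all coefficients are divisible by `T ^ (E - D)`
  have hall : C ((X : k[X]) ^ (E - D)) ∣ ∑ a ∈ s, C (w a) * (X + C r) ^ (a₀ - a) := by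
    rw [C_dvd_iff_dvd_coeff]
    intro c
    by_cases hc : c ≤ D
    · exact (pow_dvd_pow X (by omega)).trans (hΨ1 c)
    · have h2 : (∑ a ∈ s, C (w a) * (X + C r) ^ (a₀ - a)).coeff c = 0 := by
        rw [finsetSum_coeff]
        refine Finset.sum_eq_zero fun a ha => ?_
        have h3 := hD a₀ ha₀ a ha
        rw [coeff_C_mul, coeff_X_add_C_pow, Nat.choose_eq_zero_of_lt (by omega)]
        simp
      rw [h2]
      exact dvd_zero _
  -- substitute
  have hcomp : (∑ a ∈ s, C (w a) * (X + C r) ^ (a₀ - a)).comp (X - C r) =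
      ∑ a ∈ s, C (w a) * X ^ (a₀ - a) := by
    rw [← coe_compRingHom_apply, map_sum]
    refine Finset.sum_congr rfl fun a _ => ?_
    rw [coe_compRingHom_apply, mul_comp, pow_comp, add_comp, X_comp, C_comp, C_comp,
      sub_add_cancel]
  obtain ⟨Θ, hΘ⟩ := hall
  have h5 : C ((X : k[X]) ^ (E - D)) ∣ ∑ a ∈ s, C (w a) * X ^ (a₀ - a) := by
    rw [← hcomp, hΘ, mul_comp, C_comp]
    exact dvd_mul_right _ _
  have h6 := (C_dvd_iff_dvd_coeff _ _).1 h5 (a₀ - a)
  have h7 : (∑ b ∈ s, C (w b) * (X : k[X][X]) ^ (a₀ - b)).coeff (a₀ - a) = w a := by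
    rw [finsetSum_coeff, Finset.sum_eq_single a]
    · rw [coeff_C_mul, coeff_X_pow_self, mul_one]
    · intro b hb hba
      rw [coeff_C_mul, coeff_X_pow, if_neg, mul_zero]
      have := hle b hb
      have := hle a ha
      omega
    · intro h
      exact absurd ha h
  rw [h7] at h6
  exact h6

end Pool.IE
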