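import Pool.Agent.Work.MP_bf99ce_ie.Interface

/-!
# THEOREM IE (MP_bf99ce_ag): block LMM
-/

set_option autoImplicit false

open Polynomial

noncomputable section

namespace Pool.IE

theorem LMM_even {k : Type} [Field k] (Q S : P2 k) (n : ℕ) : (lam Q S).coeff (2 * n) = Q.coeff n := by
  rw [lam, coeff_add, coeff_expand (by norm_num : 0 < 2), if_pos (dvd_mul_right 2 n),
    Nat.mul_div_cancel_left n (by norm_num), coeff_X_pow_mul']
  split_ifs with h
  · rw [coeff_expand (by norm_num : 0 < 2), if_neg (by omega), add_zero]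
  · rw [add_zero]

theorem LMM_odd {k : Type} [Field k] (Q S : P2 k) (n : ℕ) :
    (lam Q S).coeff (2 * n + 3) = S.coeff n := by
  rw [lam, coeff_add, coeff_expand (by norm_num : 0 < 2), if_neg (by omega), zero_add,
    coeff_X_pow_mul, coeff_expand (by norm_num : 0 < 2), if_pos (dvd_mul_right 2 n),
    Nat.mul_div_cancel_left n (by norm_num)]

theorem LMM_deg {k : Type} [Field k] (Q S : P2 k) (hS : S ≠ 0) :
    2 * S.natDegree + 3 ≤ (lam Q S).natDegree := by
  apply le_natDegree_of_ne_zero
  rw [LMM_odd]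
  exact leadingCoeff_ne_zero.2 hS

theorem LMM_mul {k : Type} [Field k] (A B : k[X]) (Q S Q' S' : P2 k) :
    lam (Q * Q' + S * S' * WP A B) (Q * S' + S * Q') =
      lam Q S * lam Q' S' + expand k[X] 2 S * expand k[X] 2 S' * (C A * X ^ 2 + C B) := by
  simp only [lam, WP, map_add, map_mul, map_pow, expand_X, expand_C]
  ring

theorem LMM_err {k : Type} [Field k] (A B : k[X]) (Q S Q' S' : P2 k) (M M' : ℕ)
    (hM : (lam Q S).natDegree ≤ M) (hM' : (lam Q' S').natDegree ≤ M') :
    (expand k[X] 2 S * expand k[X] 2 S' * (C A * X ^ 2 + C B)).natDegree ≤ M + M' ∧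
    (expand k[X] 2 S * expand k[X] 2 S' * (C A * X ^ 2 + C B)).coeff (M + M') = 0 := by
  by_cases hS : S = 0
  · rw [hS, map_zero, zero_mul, zero_mul]
    exact ⟨by rw [natDegree_zero]; exact Nat.zero_le _, coeff_zero _⟩
  by_cases hS' : S' = 0
  · rw [hS', map_zero, mul_zero, zero_mul]
    exact ⟨by rw [natDegree_zero]; exact Nat.zero_le _, coeff_zero _⟩
  have h1 := LMM_deg Q S hS
  have h2 := LMM_deg Q' S' hS'
  have h3 : (C A * X ^ 2 + C B : P2 k).natDegree ≤ 2 := by
    refine (natDegree_add_le _ _).trans (max_le ?_ ?_)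
    · exact natDegree_C_mul_X_pow_le A 2
    · rw [natDegree_C]
      exact Nat.zero_le _
  have h4 : (expand k[X] 2 S * expand k[X] 2 S' * (C A * X ^ 2 + C B)).natDegree ≤
      (2 * S.natDegree + 2 * S'.natDegree) + 2 := by
    refine natDegree_mul_le_of_le (natDegree_mul_le_of_le ?_ ?_) h3
    · rw [natDegree_expand, mul_comm]
    · rw [natDegree_expand, mul_comm]
  refine ⟨h4.trans (by omega), coeff_eq_zero_of_natDegree_lt (lt_of_le_of_lt h4 (by omega))⟩

theorem p_LMM : Stmt_LMM := by
  intro k _ A B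
  refine ⟨?_, ?_, ?_, ?_⟩
  · intro Q S Q' S'
    simp only [lam, map_add]
    ring
  · intro c Q S
    simp only [lam, map_mul, expand_C]
    ring
  · intro Q S h
    constructor
    · ext1 n
      rw [← LMM_even Q S n, h, coeff_zero, coeff_zero]
    · ext1 n
      rw [← LMM_odd Q S n, h, coeff_zero, coeff_zero]
  · intro Q S Q' S' M M' hM hM'
    obtain ⟨h1, h2⟩ := LMM_err A B Q S Q' S' M M' hM hM'
    rw [LMM_mul]
    constructor
    · exact (natDegree_add_le _ _).trans (max_le (natDegree_mul_le_of_le hM hM') h1)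
    · rw [coeff_add, h2, add_zero, coeff_mul_add_eq_of_natDegree_le hM hM']

end Pool.IE
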