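import Pool.Agent.Work.MP_bf99ce_ie.Interface4

/-!
# THEOREM EM, block MIN
-/

set_option autoImplicit false

open MvPolynomial

namespace Pool.IE

theorem p_MIN : Stmt_MIN := by
  intro k _ _ m A B a h p _ hp
  have hA : (p ^ 4) ^ 3 ∣ A ^ 3 := by
    rw [← pow_mul, h]
    exact hp.mul_left _
  have hB27 : p ^ 12 ∣ 27 * B ^ 2 := by
    have h1 : p ^ 12 ∣ A ^ 3 := by rw [h]; exact hp.mul_left _
    have h2 : (27 : MvPolynomial (Fin m) k) * B ^ 2 = (4 * A ^ 3 + 27 * B ^ 2) - 4 * A ^ 3 := by ring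
    rw [h2]
    exact dvd_sub hp (h1.mul_left _)
  have hB : (p ^ 6) ^ 2 ∣ B ^ 2 := by
    rw [← pow_mul]
    have h3 : B ^ 2 = MvPolynomial.C ((27 : k)⁻¹) * (27 * B ^ 2) := by
      have h4 : (MvPolynomial.C ((27 : k)⁻¹) : MvPolynomial (Fin m) k) * 27 = 1 := by
        have h5 : (27 : MvPolynomial (Fin m) k) = MvPolynomial.C (27 : k) := by
          rw [map_ofNat]
        rw [h5, ← map_mul, inv_mul_cancel₀ (by norm_num), map_one]
      rw [← mul_assoc, h4, one_mul]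
    rw [h3]
    exact hB27.mul_left _
  exact ⟨(IsIntegrallyClosed.pow_dvd_pow_iff (by norm_num)).1 hA,
    (IsIntegrallyClosed.pow_dvd_pow_iff (by norm_num)).1 hB⟩

end Pool.IE
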