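import Pool.Agent.Work.MP_bf99ce_ie.Interface4

set_option autoImplicit false

open Polynomial

noncomputable section

namespace Pool.IE

theorem NAR_deg {k : Type} [Field k] [IsAlgClosed k] [DecidableEq k] (P : k[X]) (T : Finset k)
    (hT : P.roots.toFinset ⊆ T) : P.natDegree = ∑ c ∈ T, P.rootMultiplicity c := by
  have h1 : Multiset.card P.roots = P.natDegree :=
    (Polynomial.splits_iff_card_roots.1 (IsAlgClosed.splits P))
  have h2 := Multiset.toFinset_sum_count_eq P.roots
  rw [← h1, ← h2, Finset.sum_subset hT]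
  · exact Finset.sum_congr rfl fun c _ => count_roots P
  · intro c _ hc
    exact Multiset.count_eq_zero_of_notMem fun h => hc (Multiset.mem_toFinset.2 h)

theorem p_NAR : Stmt_NAR := by
  intro k _ _ l g Z h hl hg h1 h2
  classical
  obtain ⟨T, hT⟩ : ∃ T : Finset k, T = g.roots.toFinset ∪ l.roots.toFinset ∪ Z := ⟨_, rfl⟩
  have hZT : Z ⊆ T := by
    rw [hT]; intro c hc; simp only [Finset.mem_union]; tauto
  have hgT : g.roots.toFinset ⊆ T := by
    rw [hT]; intro c hc; simp only [Finset.mem_union]; tauto
  have hlT : l.roots.toFinset ⊆ T := by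
    rw [hT]; intro c hc; simp only [Finset.mem_union]; tauto
  have hpt : ∀ c ∈ T, g.rootMultiplicity c ≤ l.rootMultiplicity c + (if c ∈ Z then h else 0) := by
    intro c _
    by_cases hz : c ∈ Z
    · simp only [hz, if_true]
      exact h2 c
    · simp only [hz, if_false]
      exact h1 c hz
  have hsum := Finset.sum_le_sum hpt
  rw [Finset.sum_add_distrib, ← NAR_deg g T hgT, ← NAR_deg l T hlT, Finset.sum_ite_mem,
    Finset.inter_eq_right.2 hZT, Finset.sum_const, smul_eq_mul] at hsum
  exact hsum

end Pool.IE
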