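import Pool.Agent.Work.MP_bf99ce_ie.Interface4

/-!
# Block NFP (typed by helper21): the finite places, without flatness
-/

set_option autoImplicit false

open Polynomial

noncomputable section

namespace Pool.IE

theorem NFP_mult {k : Type} [Field k] (l : k[X]) (hl : l ≠ 0) (c : k) (e E : ℕ)
    (h : (X : k[X]) ^ e ∣ X ^ E * l.comp (X + C c)) : e ≤ l.rootMultiplicity c + E := by
  have h1 := map_dvd (compRingHom (X - C c)) h
  rw [map_mul, map_pow, map_pow, coe_compRingHom_apply, coe_compRingHom_apply, X_comp,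
    comp_assoc] at h1
  have e1 : (X + C c : k[X]).comp (X - C c) = X := by
    rw [add_comp, X_comp, C_comp]
    ring
  rw [e1, comp_X] at h1
  have h2 : (X - C c) ^ e ∣ l * (X - C c) ^ E := by rwa [mul_comm] at h1
  have hne : l * (X - C c) ^ E ≠ 0 := mul_ne_zero hl (pow_ne_zero _ (X_sub_C_ne_zero c))
  have h3 := (le_rootMultiplicity_iff hne).mpr h2
  rwa [rootMultiplicity_mul_X_sub_C_pow hl] at h3

theorem NFP_core (hPOL : Stmt_POL) (hVVA : Stmt_VVA1) (hVCM : Stmt_VCM1) (hVD0 : Stmt_VD0)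
    (hLAT : Stmt_LAT) (hTRL : Stmt_TRL1) (hUFZ : Stmt_UFZ1) (k K : Type) [Field k] [CharZero k]
    [Field K] [Algebra k K] (t x y : K) (A B : k[X]) (hW : W1 k K t x y A B)
    (D0 D2 : Derivation k K K) (hD : D0D t x y D0 D2) (N : ℕ) (u : Fin N → K) (d : ℕ) (H : K)
    (h0 e0 h1 : ℕ) (Z : Finset k) (hCD : CD k K t x y u d H h0 e0 h1 Z) (i j : ℕ) (Ψ : ℕ → K)
    (g : k[X]) (Q S : ℕ → P2 k) (hNN : NN k K t x y D0 D2 u H i j Ψ g Q S) (a : ℕ) (ha : a ≤ i)
    (hla : lam (Q a) (S a) ≠ 0) (c : k) (h : ℕ)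
    (hh : ∀ s, (t - algebraMap k K c) ^ h * u s ∈ VG k (t - algebraMap k K c) x y) :
    g.rootMultiplicity c ≤ (lam (Q a) (S a)).leadingCoeff.rootMultiplicity c + j * h := by
  obtain ⟨hW', hD', hQS⟩ := hTRL k K t x y A B hW c
  obtain ⟨V, hV⟩ := hVVA k K _ x y _ _ hW'
  obtain ⟨-, hev, -⟩ := hUFZ k K t x y A B hW
  have hVD := hVD0 k K _ x y _ _ hW' D0 D2 (hD' D0 D2 hD)
  have hVC := hVCM k K _ x y _ _ hW'
  obtain ⟨t', ht'⟩ : ∃ t' : K, t' = t - algebraMap k K c := ⟨_, rfl⟩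
  have hev' : ∀ q : P2 k, ev t x q ∈ VG k t' x y := fun q => by
    rw [ht']
    exact hev q c
  have hHc := hCD.Hc c
  rw [← ht'] at hQS hV hVD hVC hh hHc
  have hVmem : ∀ z : K, z ∈ V ↔ z ∈ VG k t' x y := by
    intro z
    rw [← hV]
    exact Iff.rfl
  have hkV : ∀ b : k, algebraMap k K b ∈ V := by
    intro b
    rw [hVmem]
    have h2 := hev' (C (C b))
    have e1 : ev t x (C (C b)) = algebraMap k K b := by
      simp [ev]
    rwa [e1] at h2
  obtain ⟨g1, hg1, -⟩ := exists_eq_pow_rootMultiplicity_mul_and_not_dvd g hNN.g0 c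
  have hgt : aeval t g = t' ^ (g.rootMultiplicity c) * aeval t g1 := by
    conv_lhs => rw [hg1]
    rw [map_mul, map_pow, map_sub, aeval_X, aeval_C, ht']
  have hg1V : aeval t g1 ∈ V := by
    rw [hVmem]
    have h2 := hev' (C g1)
    have e1 : ev t x (C g1) = aeval t g1 := by
      simp [ev]
    rwa [e1] at h2
  have hHV : H ∈ V := (hVmem H).mpr hHc
  have hyV : y ∈ V := by
    rw [hVmem]
    refine ⟨1, 0, 1, ?_, ?_⟩
    · intro h
      unfold TT at h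
      rw [C_dvd_iff_dvd_coeff] at h
      have h1 := h 0
      rw [coeff_one_zero, X_dvd_iff, coeff_one_zero] at h1
      exact one_ne_zero h1
    · unfold rr
      rw [map_one, map_zero, one_mul, zero_add, mul_one]
  -- the coefficients
  obtain ⟨hL1, hL2, hL3, -⟩ := hLAT k K D0 D2 V i j
  have hΛ := hL3 N u (pol i Ψ) 1 (t' ^ h) V.one_mem
    (fun s => (hVmem _).mpr (hh s)) (hNN.sec V hkV)
  have hom := hL1 _ hΛ
  have hco := hL2 _ (fun z hz => by
    obtain ⟨h2, h3⟩ := hVD z ((hVmem z).mp hz)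
    exact ⟨(hVmem _).mpr h2, (hVmem _).mpr h3⟩) hΛ
  obtain ⟨p1, -, p3, p4⟩ := hPOL K i
  obtain ⟨G, hG, hGc⟩ := p4 _ hom
  have hG2 := hG
  rw [p3] at hG2
  have hΨ : (t' ^ h) ^ j * Ψ a ∈ V := by
    have h2 := p1 _ _ hG2 a ha
    simp only [one_mul] at h2
    rw [h2, hGc a ha]
    exact hco _
  -- the pair at the place
  obtain ⟨Q', S', hrr, hdeg, hlc, hne⟩ := hQS (Q a) (S a)
  have hz : aeval t g1 * (y ^ a * H ^ j) * ((t' ^ h) ^ j * Ψ a) ∈ VG k t' x y := by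
    rw [← hVmem]
    exact V.mul_mem _ _ (V.mul_mem _ _ hg1V (V.mul_mem _ _ (pow_mem hyV a) (pow_mem hHV j))) hΨ
  have heq : rr t' x y (TT k ^ (j * h) * Q') (TT k ^ (j * h) * S') =
      t' ^ (g.rootMultiplicity c) * (aeval t g1 * (y ^ a * H ^ j) * ((t' ^ h) ^ j * Ψ a)) := by
    have h2 : rr t' x y (TT k ^ (j * h) * Q') (TT k ^ (j * h) * S') =
        t' ^ (j * h) * rr t' x y Q' S' := by
      have hT : ev t' x (TT k) = t' := by simp [ev, TT]
      simp only [rr, map_mul, map_pow, hT]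
      ring
    rw [h2, hrr, hNN.num a ha, hgt, ← pow_mul, mul_comm j h]
    ring
  obtain ⟨h3, h4⟩ := hVC _ _ _ _ hz heq
  have hTe : ∀ n : ℕ, TT k ^ n = C ((X : k[X]) ^ n) := by
    intro n
    simp [TT]
  rw [hTe, hTe] at h3 h4
  have h5 : (C ((X : k[X]) ^ (g.rootMultiplicity c)) : P2 k) ∣
      C ((X : k[X]) ^ (j * h)) * lam Q' S' := by
    have h6 := map_dvd (expand k[X] 2) h3
    have h7 := map_dvd (expand k[X] 2) h4
    rw [map_mul, expand_C, expand_C] at h6 h7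
    have e1 : C ((X : k[X]) ^ (j * h)) * lam Q' S' =
        C ((X : k[X]) ^ (j * h)) * expand k[X] 2 Q' +
          (C ((X : k[X]) ^ (j * h)) * expand k[X] 2 S') * X ^ 3 := by
      unfold lam
      ring
    rw [e1]
    exact dvd_add h6 (Dvd.dvd.mul_right h7 _)
  have h8 := (C_dvd_iff_dvd_coeff _ _).1 h5 (lam Q' S').natDegree
  rw [coeff_C_mul, coeff_natDegree, hlc] at h8
  exact NFP_mult _ (leadingCoeff_ne_zero.mpr hla) c _ _ h8

theorem p_NFP (hPOL : Stmt_POL) (hVVA : Stmt_VVA1) (hVCM : Stmt_VCM1) (hVD0 : Stmt_VD0)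
    (hLAT : Stmt_LAT) (hTRL : Stmt_TRL1) (hUFZ : Stmt_UFZ1) : Stmt_NFP := by
  intro k K _ _ _ _ t x y A B hW D0 D2 hD N u d H h0 e0 h1 Z hCD i j Ψ g Q S hNN a ha hla
  refine ⟨fun c hc => ?_, fun c => ?_⟩
  · have h2 := NFP_core hPOL hVVA hVCM hVD0 hLAT hTRL hUFZ k K t x y A B hW D0 D2 hD N u d H
      h0 e0 h1 Z hCD i j Ψ g Q S hNN a ha hla c 0
      (fun s => by rw [pow_zero, one_mul]; exact hCD.uz c hc s)
    rwa [mul_zero, add_zero] at h2
  · exact NFP_core hPOL hVVA hVCM hVD0 hLAT hTRL hUFZ k K t x y A B hW D0 D2 hD N u d H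
      h0 e0 h1 Z hCD i j Ψ g Q S hNN a ha hla c h0 (hCD.uc c)

end Pool.IE

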