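import Pool.Agent.Work.MP_bf99ce_ie.Interface4

/-!
# Block NIN: the place `t = ∞` in the frame `D0`, `D2`
-/

set_option autoImplicit false

open Polynomial

noncomputable section

namespace Pool.IE

/-- the substitution of the frame -/
def NIN_sig {K : Type} [Field K] (α β γ : K) : MvPolynomial (Fin 2) K →ₐ[K] MvPolynomial (Fin 2) K :=
  MvPolynomial.aeval ![MvPolynomial.C α * MvPolynomial.X 0,
    MvPolynomial.C β * MvPolynomial.X 0 + MvPolynomial.C γ * MvPolynomial.X 1]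

/-- the inverse substitution followed by `X0 = 1` -/
def NIN_psi {K : Type} [Field K] (α β γ : K) : MvPolynomial (Fin 2) K →ₐ[K] K[X] :=
  MvPolynomial.aeval ![C α, C γ * X + C β]

theorem NIN_lf {k K : Type} [Field k] [Field K] [Algebra k K] (D0 D2 : Derivation k K K) (α β γ a : K) :
    NIN_sig α β γ (lf D0 D2 a) = lf (α • D0 + β • D2) (γ • D2) a := by
  simp only [NIN_sig, lf, map_add, map_mul, MvPolynomial.aeval_C, MvPolynomial.aeval_X,
    Matrix.cons_val_zero, Matrix.cons_val_one, MvPolynomial.algebraMap_eq, Derivation.add_apply,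
    Derivation.smul_apply, smul_eq_mul]
  ring

theorem NIN_InT {k K : Type} [Field k] [Field K] [Algebra k K] (D0 D2 : Derivation k K K) (α β γ : K)
    (V : Set K) {N : ℕ} (u : Fin N → K) (i j : ℕ) (Φ : MvPolynomial (Fin 2) K) (h : InT D0 D2 V u i j Φ) :
    InT (α • D0 + β • D2) (γ • D2) V u i j (NIN_sig α β γ Φ) := by
  obtain ⟨n, c, e, a, hc, ha, hΦ⟩ := h
  refine ⟨n, c, e, a, hc, ha, ?_⟩
  rw [hΦ, map_sum]
  refine Finset.sum_congr rfl fun s _ => ?_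
  have h1 : NIN_sig α β γ (MvPolynomial.C (c s * ∏ l, u (e s l))) =
      MvPolynomial.C (c s * ∏ l, u (e s l)) := by
    rw [NIN_sig, MvPolynomial.aeval_C, MvPolynomial.algebraMap_eq]
  rw [map_mul, h1, map_prod]
  congr 1
  refine Finset.prod_congr rfl fun l _ => ?_
  exact NIN_lf D0 D2 α β γ (a s l)

theorem NIN_comp {K : Type} [Field K] (α β γ α' β' γ' : K) (h1 : α * α' = 1) (h2 : γ * γ' = 1)
    (h3 : β * α' + γ * β' = 0) (p : MvPolynomial (Fin 2) K) :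
    NIN_psi α' β' γ' (NIN_sig α β γ p) = NIN_psi 1 0 1 p := by
  have h : (NIN_psi α' β' γ').comp (NIN_sig α β γ) = NIN_psi 1 0 1 := by
    apply MvPolynomial.algHom_ext
    intro l
    fin_cases l
    · simp only [AlgHom.comp_apply, NIN_sig, NIN_psi, MvPolynomial.aeval_X, map_mul,
        MvPolynomial.aeval_C, Fin.zero_eta, Matrix.cons_val_zero, algebraMap_eq]
      rw [← C_mul, h1]
    · simp only [AlgHom.comp_apply, NIN_sig, NIN_psi, MvPolynomial.aeval_X, map_mul, map_add,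
        MvPolynomial.aeval_C, Fin.mk_one, Matrix.cons_val_zero, Matrix.cons_val_one, algebraMap_eq]
      have e1 : C β * C α' + C γ * (C γ' * X + C β') =
          (C (γ * γ') * X + C (β * α' + γ * β') : K[X]) := by
        rw [C_add, C_mul, C_mul, C_mul]
        ring
      rw [e1, h2, h3]
  exact DFunLike.congr_fun h p

theorem NIN_psi_pol {K : Type} [Field K] (α β γ : K) (i : ℕ) (G : ℕ → K) :
    NIN_psi α β γ (pol i G) = ∑ b ∈ Finset.range (i + 1), C (G b * α ^ b) * (C γ * X + C β) ^ (i - b) := by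
  unfold pol NIN_psi
  rw [map_sum]
  refine Finset.sum_congr rfl fun b _ => ?_
  rw [map_mul, map_mul, map_pow, map_pow, MvPolynomial.aeval_C, MvPolynomial.aeval_X,
    MvPolynomial.aeval_X, C_mul, C_pow, algebraMap_eq]
  rfl

theorem NIN_psi_one {K : Type} [Field K] (i : ℕ) (G : ℕ → K) (a : ℕ) (ha : a ≤ i) :
    (NIN_psi 1 0 1 (pol i G)).coeff (i - a) = G a := by
  rw [NIN_psi_pol, finsetSum_coeff]
  have h : ∀ b ∈ Finset.range (i + 1), (C (G b * 1 ^ b) * (C 1 * X + C 0) ^ (i - b) : K[X]).coeff (i - a)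
      = if a = b then G b else 0 := by
    intro b hb
    rw [Finset.mem_range] at hb
    rw [C_0, C_1, one_mul, add_zero, one_pow, mul_one, coeff_C_mul, coeff_X_pow]
    by_cases hab : a = b
    · rw [if_pos (by rw [hab]), if_pos hab, mul_one]
    · rw [if_neg (by omega), if_neg hab, mul_zero]
  rw [Finset.sum_congr rfl h, Finset.sum_ite_eq, if_pos (Finset.mem_range.2 (by omega))]

/-- the coefficients of the powers of `s^(-d) X + s w` -/
theorem NIN_lin {K : Type} [Field K] (V : ValuationSubring K) (s w γ : K) (d : ℕ) (hs : s ∈ V)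
    (hw : w ∈ V) (hγ : s ^ d * γ = 1) (n : ℕ) :
    ∀ e : ℕ, ∃ v ∈ V, s ^ ((d + 1) * e) * ((C γ * X + C (s * w) : K[X]) ^ n).coeff e = s ^ n * v := by
  induction n with
  | zero =>
    intro e
    refine ⟨s ^ ((d + 1) * e) * (1 : K[X]).coeff e, V.mul_mem _ _ (pow_mem hs _) ?_, by simp⟩
    rw [coeff_one]
    split_ifs
    · exact V.one_mem
    · exact V.zero_mem
  | succ n ih =>
    intro e
    have hexp : (C γ * X + C (s * w) : K[X]) ^ (n + 1) =
        C γ * ((C γ * X + C (s * w) : K[X]) ^ n * X) + C (s * w) * (C γ * X + C (s * w) : K[X]) ^ n := by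
      rw [pow_succ]
      ring
    obtain ⟨v, hv, h1⟩ := ih e
    cases e with
    | zero =>
      refine ⟨w * v, V.mul_mem _ _ hw hv, ?_⟩
      rw [hexp, coeff_add, coeff_C_mul, coeff_C_mul, coeff_mul_X_zero]
      simp only [mul_zero, zero_add, pow_zero, one_mul] at h1 ⊢
      rw [mul_assoc, mul_left_comm, h1] 
      ring
    | succ e =>
      obtain ⟨v', hv', h2⟩ := ih e
      refine ⟨v' + w * v, V.add_mem _ _ hv' (V.mul_mem _ _ hw hv), ?_⟩
      rw [hexp, coeff_add, coeff_C_mul, coeff_C_mul, coeff_mul_X]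
      have h3 : s ^ ((d + 1) * (e + 1)) = s ^ ((d + 1) * e) * (s ^ d * s) := by
        rw [← pow_succ, ← pow_add]
        congr 1
      have h4 : s ^ ((d + 1) * (e + 1)) * (γ * ((C γ * X + C (s * w) : K[X]) ^ n).coeff e) =
          s ^ n * v' * s := by
        rw [h3, ← h2]
        linear_combination (s ^ ((d + 1) * e) * s * ((C γ * X + C (s * w) : K[X]) ^ n).coeff e) * hγ
      rw [mul_add, h4]
      have h5 : s ^ ((d + 1) * (e + 1)) * (s * w * ((C γ * X + C (s * w) : K[X]) ^ n).coeff (e + 1)) =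
          s ^ n * v * s * w := by
        rw [← h1]
        ring
      rw [h5]
      ring

theorem NIN_sum {K ι : Type} [Field K] (V : ValuationSubring K) (p : K) (m : ℕ) (s : Finset ι)
    (f : ι → K) (h : ∀ x ∈ s, ∃ w ∈ V, f x = p ^ m * w) : ∃ w ∈ V, ∑ x ∈ s, f x = p ^ m * w := by
  classical
  induction s using Finset.induction_on with
  | empty => exact ⟨0, zero_mem _, by simp⟩
  | insert a s ha ih =>
    obtain ⟨w, hw, h1⟩ := ih fun x hx => h x (Finset.mem_insert_of_mem hx)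
    obtain ⟨v, hv, h2⟩ := h a (Finset.mem_insert_self a s)
    exact ⟨v + w, add_mem hv hw, by rw [Finset.sum_insert ha, h1, h2, mul_add]⟩

theorem NIN_nunit (k : Type) [Field k] : ¬ (TT k ∣ (1 : P2 k)) := by
  intro h
  have h1 : IsUnit (TT k) := isUnit_of_dvd_one h
  unfold TT at h1
  rw [Polynomial.isUnit_C] at h1
  exact Polynomial.not_isUnit_X h1

/-- The constants are in the valuation ring. -/
theorem NIN_const (k K : Type) [Field k] [Field K] [Algebra k K] (t x y : K) (c : k) :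
    algebraMap k K c ∈ VG k t x y :=
  ⟨1, C (C c), 0, NIN_nunit k, by simp [rr, ev]⟩

theorem NIN_t (k K : Type) [Field k] [Field K] [Algebra k K] (t x y : K) : t ∈ VG k t x y :=
  ⟨1, C X, 0, NIN_nunit k, by simp [rr, ev]⟩

theorem NIN_y (k K : Type) [Field k] [Field K] [Algebra k K] (t x y : K) : y ∈ VG k t x y :=
  ⟨1, 0, 1, NIN_nunit k, by simp [rr, ev]⟩

/-- `x / y` is in the valuation ring. -/
theorem NIN_rho (k K : Type) [Field k] [Field K] [Algebra k K] (t x y : K) (A B : k[X])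
    (hW : W1 k K t x y A B) (hy : y ≠ 0) : x / y ∈ VG k t x y := by
  refine ⟨WP A B, 0, X, ?_, ?_⟩
  · intro h
    unfold TT at h
    have h1 := (C_dvd_iff_dvd_coeff _ _).1 h 3
    have h2 : (WP A B).coeff 3 = 1 := by
      simp [WP]
    rw [h2] at h1
    exact Polynomial.not_isUnit_X (isUnit_of_dvd_one h1)
  · have h1 : ev t x (WP A B) = y ^ 2 := by
      rw [hW.rel]
      simp [WP, ev]
    rw [h1]
    have h2 : rr t x y (0 : P2 k) X = x * y := by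
      simp [rr, ev]
    rw [h2]
    field_simp

/-- divisibility of the leading coefficient -/
theorem NIN_lead (k : Type) [Field k] (e : ℕ) (Q S : P2 k) (h1 : TT k ^ e ∣ Q) (h2 : TT k ^ e ∣ S) :
    (X : k[X]) ^ e ∣ (lam Q S).leadingCoeff := by
  have hTe : TT k ^ e = C ((X : k[X]) ^ e) := by
    simp [TT]
  rw [hTe] at h1 h2
  have h6 := map_dvd (expand k[X] 2) h1
  have h7 := map_dvd (expand k[X] 2) h2
  rw [expand_C] at h6 h7
  have h5 : (C ((X : k[X]) ^ e) : P2 k) ∣ lam Q S := by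
    unfold lam
    exact dvd_add h6 (Dvd.dvd.mul_left h7 _)
  exact (C_dvd_iff_dvd_coeff _ _).1 h5 _

theorem p_NIN (hUNQ : Stmt_UNQ1) (hPOL : Stmt_POL) (hVVA : Stmt_VVA1) (hVCM : Stmt_VCM1) (hVD0 : Stmt_VD0)
    (hLAT : Stmt_LAT) (hINV : Stmt_INV1) (hINP : Stmt_INP) (hUHO : Stmt_UHO1) : Stmt_NIN := by
  classical
  intro k K _ _ _ _ t x y A B hW D0 D2 hD d hdA hdB N u H h0 e0 h1 Z hCD i j Ψ g Q S hNN a ha hla
  obtain ⟨-, -, -, hy0, hx0, ht0, -⟩ := hUNQ k K t x y A B hW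
  obtain ⟨hW', hDD'⟩ := hINV k K t x y A B hW d hdA hdB
  have hD' := hDD' D0 D2 hD
  obtain ⟨V, hV⟩ := hVVA k K _ _ _ _ _ hW'
  have hmem : ∀ z, z ∈ V ↔ z ∈ VG k t⁻¹ (x / t ^ (2 * d)) (y / t ^ (3 * d)) := by
    intro z
    rw [← hV]
    rfl
  have hk : ∀ c : k, algebraMap k K c ∈ V := fun c => (hmem _).2 (NIN_const k K _ _ _ c)
  have hs : t⁻¹ ∈ V := (hmem _).2 (NIN_t k K _ _ _)
  have hy'0 : y / t ^ (3 * d) ≠ 0 := div_ne_zero hy0 (pow_ne_zero _ ht0)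
  have hy' : y / t ^ (3 * d) ∈ V := (hmem _).2 (NIN_y k K _ _ _)
  have hρ : x / t ^ (2 * d) / (y / t ^ (3 * d)) ∈ V := (hmem _).2 (NIN_rho k K _ _ _ _ _ hW' hy'0)
  have hpres : ∀ z ∈ V, (-(t ^ 2) • D0 + (-(2 * d * t * (x / y))) • D2) z ∈ V ∧ ((t ^ d)⁻¹ • D2) z ∈ V := by
    intro z hz
    have h := hVD0 k K _ _ _ _ _ hW' _ _ hD' z ((hmem z).1 hz)
    exact ⟨(hmem _).2 h.1, (hmem _).2 h.2⟩
  -- the form in the frame at infinity
  have hI := NIN_InT D0 D2 (-(t ^ 2)) (-(2 * d * t * (x / y))) ((t ^ d)⁻¹) (V : Set K) u i j (pol i Ψ)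
    (hNN.sec V hk)
  have hw : (t⁻¹ ^ h1 * H) ^ j ∈ V := pow_mem ((hmem _).2 hCD.Hi) j
  obtain ⟨l1, l2, l3, -⟩ := hLAT k K (-(t ^ 2) • D0 + (-(2 * d * t * (x / y))) • D2) ((t ^ d)⁻¹ • D2) V i j
  have hL := l3 N u _ _ (t⁻¹ ^ h1) hw (fun s => (hmem _).2 (hCD.ui s)) hI
  have hhom := l1 _ hL
  have hco := l2 _ hpres hL
  obtain ⟨G, hG, hGc⟩ := (hPOL K i).2.2.2 _ hhom
  have hGV : ∀ b ≤ i, G b ∈ V := fun b hb => by rw [hGc b hb]; exact hco _
  -- the inverse substitution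
  have hα : -(t ^ 2) * -(t⁻¹ ^ 2) = 1 := by
    rw [neg_mul_neg, ← mul_pow, mul_inv_cancel₀ ht0, one_pow]
  have hγ : (t ^ d)⁻¹ * t ^ d = 1 := inv_mul_cancel₀ (pow_ne_zero _ ht0)
  have hβ : -(2 * d * t * (x / y)) * -(t⁻¹ ^ 2) +
      (t ^ d)⁻¹ * (t⁻¹ * -(2 * d * (x / t ^ (2 * d) / (y / t ^ (3 * d))))) = 0 := by
    have e1 : x / t ^ (2 * d) / (y / t ^ (3 * d)) = x / y * t ^ d := by
      have e2 : t ^ (3 * d) = t ^ (2 * d) * t ^ d := by
        rw [← pow_add]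
        congr 1
        ring
      rw [e2]
      have e3 : t ^ (2 * d) ≠ 0 := pow_ne_zero _ ht0
      have e4 : t ^ d ≠ 0 := pow_ne_zero _ ht0
      field_simp
    rw [e1]
    have e4 : t ^ d ≠ 0 := pow_ne_zero _ ht0
    field_simp
    ring
  have hcomp := NIN_comp _ _ _ _ _ _ hα hγ hβ (pol i Ψ)
  have hco1 := NIN_psi_one i Ψ a ha
  have hκ : ((t⁻¹ ^ h1 * H) ^ j * (t⁻¹ ^ h1) ^ j) * Ψ a =
      ∑ b ∈ Finset.range (i + 1), G b * (-(t⁻¹ ^ 2)) ^ b *
        ((C (t ^ d) * X + C (t⁻¹ * -(2 * d * (x / t ^ (2 * d) / (y / t ^ (3 * d))))) : K[X]) ^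
          (i - b)).coeff (i - a) := by
    have e1 := NIN_psi_pol (-(t⁻¹ ^ 2)) (t⁻¹ * -(2 * d * (x / t ^ (2 * d) / (y / t ^ (3 * d))))) (t ^ d) i G
    rw [← hG, map_mul, hcomp] at e1
    have e2 := congrArg (fun p : K[X] => p.coeff (i - a)) e1
    rw [finsetSum_coeff] at e2
    have e3 : NIN_psi (-(t⁻¹ ^ 2)) (t⁻¹ * -(2 * d * (x / t ^ (2 * d) / (y / t ^ (3 * d))))) (t ^ d)
        (MvPolynomial.C ((t⁻¹ ^ h1 * H) ^ j * (t⁻¹ ^ h1) ^ j)) = C ((t⁻¹ ^ h1 * H) ^ j * (t⁻¹ ^ h1) ^ j) := by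
      rw [NIN_psi, MvPolynomial.aeval_C, algebraMap_eq]
    rw [e3, coeff_C_mul, hco1] at e2
    rw [e2]
    refine Finset.sum_congr rfl fun b _ => ?_
    rw [coeff_C_mul]
  have hmain : ∃ v ∈ V, t⁻¹ ^ ((d + 1) * (i - a)) * (((t⁻¹ ^ h1 * H) ^ j * (t⁻¹ ^ h1) ^ j) * Ψ a) =
      t⁻¹ ^ i * v := by
    rw [hκ, Finset.mul_sum]
    apply NIN_sum
    intro b hb
    rw [Finset.mem_range] at hb
    have hwV : -(2 * d * (x / t ^ (2 * d) / (y / t ^ (3 * d)))) ∈ V := by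
      apply neg_mem
      refine V.mul_mem _ _ ?_ hρ
      have := hk (2 * (d : k))
      rwa [map_mul, map_ofNat, map_natCast] at this
    obtain ⟨v, hv, h2⟩ := NIN_lin V t⁻¹ _ (t ^ d) d hs hwV
      (by rw [← mul_pow, inv_mul_cancel₀ ht0, one_pow]) (i - b) (i - a)
    refine ⟨G b * (-1) ^ b * t⁻¹ ^ b * v, V.mul_mem _ _ (V.mul_mem _ _ (V.mul_mem _ _ (hGV b (by omega))
      (pow_mem (neg_mem V.one_mem) _)) (pow_mem hs _)) hv, ?_⟩
    have e5 : (-(t⁻¹ ^ 2)) ^ b = (-1) ^ b * (t⁻¹ ^ b * t⁻¹ ^ b) := by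
      rw [neg_pow, ← pow_mul, ← pow_add]
      congr 2
      ring
    have e6 : t⁻¹ ^ i = t⁻¹ ^ (i - b) * t⁻¹ ^ b := by
      rw [← pow_add]
      congr 1
      omega
    rw [e5, e6]
    linear_combination (G b * ((-1) ^ b * (t⁻¹ ^ b * t⁻¹ ^ b))) * h2
  obtain ⟨v, hv, hvm⟩ := hmain
  have hg1 : t⁻¹ ^ g.natDegree * aeval t g ∈ V :=
    (hmem _).2 ((hUHO k K t x y A B hW).2 g _ _)
  -- the numerators at infinity
  obtain ⟨n0, hn0⟩ := hINP k K t x y ht0 d (Q a) (S a)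
  obtain ⟨E0, hE0⟩ : ∃ E0, E0 = g.natDegree + j * (2 * h1) + (d + 1) * (i - a) + 3 * d * a := ⟨_, rfl⟩
  obtain ⟨Q', S', q1, -, q3⟩ := hn0 (n0 + E0) (Nat.le_add_right _ _)
  obtain ⟨q4, q5⟩ := q3 hla
  have hrr : rr t⁻¹ (x / t ^ (2 * d)) (y / t ^ (3 * d)) Q' S' = t⁻¹ ^ (n0 + i) *
      ((t⁻¹ ^ g.natDegree * aeval t g) * (y / t ^ (3 * d)) ^ a * v) := by
    rw [q1, hNN.num a ha, hE0]
    have e7 : (y / t ^ (3 * d)) ^ a = y ^ a * t⁻¹ ^ (3 * d * a) := by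
      rw [div_pow, ← pow_mul, inv_pow, div_eq_mul_inv]
    have e8 : (t⁻¹ ^ h1 * H) ^ j * (t⁻¹ ^ h1) ^ j = t⁻¹ ^ (j * (2 * h1)) * H ^ j := by
      rw [mul_pow, ← pow_mul]
      have : j * (2 * h1) = h1 * j + h1 * j := by ring
      rw [this, pow_add]
      ring
    rw [e8] at hvm
    rw [e7, pow_add, pow_add, pow_add, pow_add, pow_add t⁻¹ n0 i]
    linear_combination (t⁻¹ ^ n0 * t⁻¹ ^ g.natDegree * aeval t g * y ^ a * t⁻¹ ^ (3 * d * a)) * hvm
  have hz : (t⁻¹ ^ g.natDegree * aeval t g) * (y / t ^ (3 * d)) ^ a * v ∈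
      VG k t⁻¹ (x / t ^ (2 * d)) (y / t ^ (3 * d)) :=
    (hmem _).1 (V.mul_mem _ _ (V.mul_mem _ _ hg1 (pow_mem hy' _)) hv)
  obtain ⟨c1, c2⟩ := hVCM k K _ _ _ _ _ hW' Q' S' (n0 + i) _ hz hrr
  have c3 := q5 _ (NIN_lead k _ _ _ c1 c2)
  omega

end Pool.IE
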