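import Pool.Agent.Work.MP_bf99ce_ie.Interface4

set_option autoImplicit false

open Polynomial

namespace Pool.IE

theorem NMN_coeff {K : Type} [Field K] (i : ℕ) (G : ℕ → K) (e : ℕ) :
    (∑ a ∈ Finset.range (i + 1), C (G a) * X ^ (i - a) : K[X]).coeff e = if e ≤ i then G (i - e) else 0 := by
  rw [finsetSum_coeff]
  simp only [coeff_C_mul_X_pow]
  by_cases he : e ≤ i
  · rw [if_pos he, Finset.sum_eq_single (i - e)]
    · rw [if_pos (by omega)]
    · intro b hb hbe
      rw [Finset.mem_range] at hb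
      rw [if_neg (by omega)]
    · intro h
      exact absurd (Finset.mem_range.2 (by omega)) h
  · rw [if_neg he]
    refine Finset.sum_eq_zero fun b hb => ?_
    rw [if_neg]
    rw [Finset.mem_range] at hb
    omega

theorem NMN_arith (i j D c1 ε T : ℕ) (hT1 : 1 ≤ T) (hD : i ≤ D * T + j * c1)
    (hi : (2 * c1 + 16 * D ^ 2 * ε + 4 * D * ε) * j < i)
    (hT : T * T ≤ (j * ε) * (j * ε) + 2 * i * (j * ε)) : False := by
  rcases Nat.eq_zero_or_pos j with hj | hj
  · subst hj
    have : T * T ≤ 0 := by simpa using hT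
    nlinarith
  · have h1 : 2 * c1 * j ≤ i := by nlinarith [Nat.zero_le (D ^ 2 * ε * j), Nat.zero_le (D * ε * j)]
    have h2 : 16 * D ^ 2 * ε * j ≤ i := by nlinarith [Nat.zero_le (c1 * j), Nat.zero_le (D * ε * j)]
    have h3 : 4 * D * ε * j ≤ i := by nlinarith [Nat.zero_le (c1 * j), Nat.zero_le (D ^ 2 * ε * j)]
    have h4 : i ≤ 2 * (D * T) := by nlinarith
    have h5 : i * i ≤ 4 * (D * T) * (D * T) := by nlinarith
    have h6 : (D * T) * (D * T) ≤ D * D * ((j * ε) * (j * ε) + 2 * i * (j * ε)) := by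
      calc (D * T) * (D * T) = D * D * (T * T) := by ring
        _ ≤ _ := Nat.mul_le_mul_left _ hT
    have h7 : (4 * D * ε * j) * (4 * D * ε * j) ≤ i * i := Nat.mul_le_mul h3 h3
    have h8 : 16 * D ^ 2 * ε * j * i ≤ i * i := Nat.mul_le_mul_right i h2
    have h9 : 0 < i := by omega
    nlinarith

theorem p_NMN (hUNQ : Stmt_UNQ1) (hLMM : Stmt_LMM) (hVO : Stmt_VO1) (hVOZ : Stmt_VOZ) (hACO : Stmt_ACO1) (hAGN : Stmt_AGN)
    (hNFP : Stmt_NFP) (hNIN : Stmt_NIN) (hNAR : Stmt_NAR) (hRFR : Stmt_RFR) (hZES : Stmt_ZES) : Stmt_NMN := by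
  classical
  intro k K _ _ _ _ _ t x y A B hW hne hκ D0 D2 hD N u
  set d := A.natDegree + B.natDegree with hd
  have hA : A.natDegree ≤ 4 * d := by omega
  have hB : B.natDegree ≤ 6 * d := by omega
  obtain ⟨H, h0, e0, h1, Z, hCD⟩ := hACO k K t x y A B hW d hA hB N u
  obtain ⟨-, -, hev, hy0, hx0, ht0, hp0⟩ := hUNQ k K t x y A B hW
  obtain ⟨-, -, hlam0, -⟩ := hLMM k A B
  obtain ⟨⟨VV, hVV⟩, hVp, -, -, -⟩ := hVO k K t x y A B hW
  obtain ⟨hz, hz', hord⟩ := hVOZ k K t x y A B hW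
  rw [← hVV] at hz hz'
  simp only [← hVV] at hVp hord
  set z := x / y with hzdef
  have hz0 : z ≠ 0 := div_ne_zero hx0 hy0
  set c1 := Z.card * h0 + 2 * h1 + 4 * e0 with hc1
  refine ⟨2 * c1 + 16 * (d + 1) ^ 2 * (4 * e0) + 4 * (d + 1) * (4 * e0), fun i j hij Φ hΦ => ?_⟩
  by_contra hne0
  obtain ⟨Ψ, g, Q, S, hG, hNN, hJ, a0, ha0, hΨ0⟩ := hAGN k K t x y A B hW hne D0 D2 hD N u d H h0 e0 h1 Z hCD i j Φ hne0 hΦ
  set P : K[X] := ∑ a ∈ Finset.range (i + 1), C (H ^ j * Ψ a) * X ^ (i - a) with hP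
  have hco : ∀ e, P.coeff e = if e ≤ i then H ^ j * Ψ (i - e) else 0 := fun e => NMN_coeff i (fun a => H ^ j * Ψ a) e
  have hHj : H ^ j ≠ 0 := pow_ne_zero _ hCD.H0
  have hP0 : P ≠ 0 := by
    intro h
    have h2 := hco (i - a0)
    rw [h, coeff_zero, if_pos (by omega), show i - (i - a0) = a0 by omega] at h2
    exact mul_ne_zero hHj hΨ0 h2.symm
  have hdeg : P.natDegree ≤ i := by
    rw [natDegree_le_iff_coeff_eq_zero]
    intro e he
    rw [hco, if_neg (by omega)]
  have hi1 : j * c1 < i := by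
    have : c1 * j ≤ (2 * c1 + 16 * (d + 1) ^ 2 * (4 * e0) + 4 * (d + 1) * (4 * e0)) * j :=
      Nat.mul_le_mul_right j (by omega)
    rw [mul_comm]
    omega
  set T := (i - j * c1 + d) / (d + 1) with hT
  have hT1 : 1 ≤ T := by
    rw [hT, Nat.le_div_iff_mul_le (by omega)]
    omega
  have hT2 : i ≤ (d + 1) * T + j * c1 := by
    have h3 := Nat.div_add_mod (i - j * c1 + d) (d + 1)
    have h4 := Nat.mod_lt (i - j * c1 + d) (show 0 < d + 1 by omega)
    rw [← hT] at h3
    omega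
  -- unit facts
  have hVmem : ∀ w : K, w ∈ (VV : Set K) ↔ w ∈ VV := fun w => Iff.rfl
  have hy3 : z ^ 3 * y ∈ VV ∧ (z ^ 3 * y)⁻¹ ∈ VV := by
    have h3 : lam (0 : P2 k) 1 = X ^ 3 := by
      unfold lam
      simp
    have h4 := hord 0 1 (by rw [h3]; exact pow_ne_zero _ X_ne_zero)
    have h5 : (lam (0 : P2 k) 1).natDegree = 3 := by rw [h3, natDegree_X_pow]
    have h6 : rr t x y (0 : P2 k) 1 = y := by
      unfold rr
      simp
    rw [h5, h6] at h4
    exact h4
  have hJz : ∀ e, z ^ (j * (4 * e0)) * P.coeff e ∈ (VV : Set K) := by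
    intro e
    rw [hco]
    by_cases he : e ≤ i
    · rw [if_pos he, hVV]
      exact hJ _ (by omega)
    · rw [if_neg he, mul_zero]
      exact VV.zero_mem
  have hTz : ∀ e, ∃ v ∈ (VV : Set K), z ^ e * P.coeff e = z ^ T * v := by
    intro e
    by_cases hPe : P.coeff e = 0
    · exact ⟨0, VV.zero_mem, by rw [hPe, mul_zero, mul_zero]⟩
    · have he : e ≤ i := by
        by_contra h
        exact hPe (by rw [hco, if_neg h])
      obtain ⟨a, hai, hea⟩ : ∃ a, a ≤ i ∧ i - a = e := ⟨i - e, by omega, by omega⟩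
      have hPa : P.coeff e = H ^ j * Ψ a := by
        rw [hco, if_pos he, show i - e = a by omega]
      have hΨa : Ψ a ≠ 0 := by
        intro h
        exact hPe (by rw [hPa, h, mul_zero])
      have hnum := hNN.num a hai
      have hgt := hp0 g hNN.g0
      have hrr : rr t x y (Q a) (S a) ≠ 0 := by
        rw [hnum]
        exact mul_ne_zero hgt (mul_ne_zero (mul_ne_zero (pow_ne_zero _ hy0) hHj) hΨa)
      have hl : lam (Q a) (S a) ≠ 0 := by
        intro h
        obtain ⟨hq, hs⟩ := hlam0 _ _ h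
        apply hrr
        rw [hq, hs]
        unfold rr
        simp
      obtain ⟨q1, q2⟩ := hNFP k K t x y A B hW D0 D2 hD N u d H h0 e0 h1 Z hCD i j Ψ g Q S hNN a hai hl
      have q3 := hNAR k _ g Z (j * h0) (leadingCoeff_ne_zero.2 hl) hNN.g0 q1 q2
      have q4 := hNIN k K t x y A B hW D0 D2 hD d hA hB N u H h0 e0 h1 Z hCD i j Ψ g Q S hNN a hai hl
      set m := (lam (Q a) (S a)).natDegree with hm
      obtain ⟨r1, r2⟩ := hord _ _ hl
      rw [← hm, hnum] at r1 r2
      obtain ⟨g1, g2⟩ := hVp g hNN.g0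
      -- the unit w
      set w := (z ^ m * (aeval t g * (y ^ a * H ^ j * Ψ a))) * (aeval t g)⁻¹ * ((z ^ 3 * y)⁻¹) ^ a with hw
      have hwV : w ∈ VV := VV.mul_mem _ _ (VV.mul_mem _ _ r1 g2) (pow_mem hy3.2 a)
      have hwi : w⁻¹ ∈ VV := by
        have : w⁻¹ = (z ^ m * (aeval t g * (y ^ a * H ^ j * Ψ a)))⁻¹ * aeval t g * (z ^ 3 * y) ^ a := by
          rw [hw, mul_inv, mul_inv, inv_inv, ← inv_pow, inv_inv]
        rw [this]
        exact VV.mul_mem _ _ (VV.mul_mem _ _ r2 g1) (pow_mem hy3.1 a)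
      have hw0 : w ≠ 0 := by
        rw [hw]
        refine mul_ne_zero (mul_ne_zero (mul_ne_zero (pow_ne_zero _ hz0) ?_) (inv_ne_zero hgt)) (pow_ne_zero _ (inv_ne_zero ?_))
        · exact mul_ne_zero hgt (mul_ne_zero (mul_ne_zero (pow_ne_zero _ hy0) hHj) hΨa)
        · exact mul_ne_zero (pow_ne_zero _ hz0) hy0
      have hrel : z ^ (3 * a) * w = z ^ m * P.coeff e := by
        rw [hPa, hw, inv_pow, mul_pow, ← pow_mul]
        have hzp : z ^ (3 * a) ≠ 0 := pow_ne_zero _ hz0
        have hyp : y ^ a ≠ 0 := pow_ne_zero _ hy0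
        field_simp
      -- m ≤ 3 a + J
      have hmJ : m ≤ 3 * a + j * (4 * e0) := by
        by_contra hcon
        have h3 := hJz e
        have h4 : z ^ (m - (3 * a + j * (4 * e0))) * (z ^ (j * (4 * e0)) * P.coeff e) = w := by
          have h5 : z ^ (3 * a) * (z ^ (m - (3 * a + j * (4 * e0))) * (z ^ (j * (4 * e0)) * P.coeff e)) =
              z ^ (3 * a) * w := by
            rw [hrel]
            have h6 : z ^ m = z ^ (3 * a) * z ^ (m - (3 * a + j * (4 * e0))) * z ^ (j * (4 * e0)) := by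
              rw [← pow_add, ← pow_add]
              congr 1
              omega
            rw [h6]
            ring
          exact mul_left_cancel₀ (pow_ne_zero _ hz0) h5
        apply hz'
        have h7 : z⁻¹ = z ^ (m - (3 * a + j * (4 * e0)) - 1) * (z ^ (j * (4 * e0)) * P.coeff e) * w⁻¹ := by
          rw [eq_mul_inv_iff_mul_eq₀ hw0, ← h4]
          have h8 : z ^ (m - (3 * a + j * (4 * e0))) = z * z ^ (m - (3 * a + j * (4 * e0)) - 1) := by
            rw [← pow_succ']
            congr 1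
            omega
          rw [h8]
          field_simp
        rw [hVmem, h7]
        exact VV.mul_mem _ _ (VV.mul_mem _ _ (pow_mem hz _) h3) hwi
      have hkey : T + m ≤ e + 3 * a := by
        -- (d+1) (e + 3a - m) ≥ i - j c1
        have h5 : i + d * m ≤ Z.card * (j * h0) + j * (2 * h1) + (d + 1) * e + 3 * d * a := by
          rw [hea] at q4
          omega
        have h6 : i + (d + 1) * m ≤ j * c1 + (d + 1) * (e + 3 * a) := by
          have h7 : j * c1 = Z.card * (j * h0) + j * (2 * h1) + j * (4 * e0) := by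
            rw [hc1]
            ring
          rw [h7]
          nlinarith
        by_contra hcon
        have h8 : e + 3 * a + 1 ≤ T + m := by omega
        have h9 : (d + 1) * T ≤ i - j * c1 + d := Nat.mul_div_le _ _
        have h10 : (d + 1) * (e + 3 * a + 1) ≤ (d + 1) * (T + m) := Nat.mul_le_mul_left _ h8
        have h11 : (d + 1) * (T + m) = (d + 1) * T + (d + 1) * m := by ring
        have h12 : (d + 1) * (e + 3 * a + 1) = (d + 1) * (e + 3 * a) + (d + 1) := by ring
        omega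
      refine ⟨z ^ (e + 3 * a - m - T) * w, VV.mul_mem _ _ (pow_mem hz _) hwV, ?_⟩
      have h5 : z ^ m * (z ^ e * P.coeff e) = z ^ m * (z ^ T * (z ^ (e + 3 * a - m - T) * w)) := by
        have h6 : z ^ m * (z ^ e * P.coeff e) = z ^ e * (z ^ (3 * a) * w) := by
          rw [hrel]
          ring
        rw [h6]
        have h7 : z ^ e * z ^ (3 * a) = z ^ m * z ^ T * z ^ (e + 3 * a - m - T) := by
          rw [← pow_add, ← pow_add, ← pow_add]
          congr 1
          omega
        calc z ^ e * (z ^ (3 * a) * w) = (z ^ e * z ^ (3 * a)) * w := by ring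
          _ = (z ^ m * z ^ T * z ^ (e + 3 * a - m - T)) * w := by rw [h7]
          _ = _ := by ring
      exact mul_left_cancel₀ (pow_ne_zero _ hz0) h5
  rw [hVV] at hJz hTz
  have hfin := hZES k K t x y A B hW hne hκ P (j * (4 * e0)) T hP0 hJz hTz
    (hRFR k K t x y A B hW hne D0 D2 hD N u d H h0 e0 h1 Z hCD i j Ψ g Q S hNN)
  have hfin2 : T * T ≤ j * (4 * e0) * (j * (4 * e0)) + 2 * i * (j * (4 * e0)) :=
    hfin.trans (by
      have := Nat.mul_le_mul_right (j * (4 * e0)) (Nat.mul_le_mul_left 2 hdeg)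
      omega)
  exact NMN_arith i j (d + 1) c1 (4 * e0) T hT1 hT2 hij hfin2

end Pool.IE
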