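import Pool.Agent.Work.MP_bf99ce_ie.Interface4

/-!
# THEOREM EM (MP_bf99ce_ag): block NRM
-/

set_option autoImplicit false

open Polynomial

noncomputable section

namespace Pool.IE

theorem NRM_even {k : Type} [Field k] (Q S : P2 k) (n : ℕ) :
    (lam Q S).coeff (2 * n) = Q.coeff n := by
  rw [lam, coeff_add, coeff_expand (by norm_num : 0 < 2), if_pos (dvd_mul_right 2 n),
    Nat.mul_div_cancel_left n (by norm_num), coeff_X_pow_mul']
  split_ifs with h
  · rw [coeff_expand (by norm_num : 0 < 2), if_neg (by omega), add_zero]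
  · rw [add_zero]

theorem NRM_odd {k : Type} [Field k] (Q S : P2 k) (n : ℕ) :
    (lam Q S).coeff (2 * n + 3) = S.coeff n := by
  rw [lam, coeff_add, coeff_expand (by norm_num : 0 < 2), if_neg (by omega), zero_add,
    coeff_X_pow_mul, coeff_expand (by norm_num : 0 < 2), if_pos (dvd_mul_right 2 n),
    Nat.mul_div_cancel_left n (by norm_num)]

theorem NRM_degS {k : Type} [Field k] (Q S : P2 k) (hS : S ≠ 0) :
    2 * S.natDegree + 3 ≤ (lam Q S).natDegree := by
  apply le_natDegree_of_ne_zero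
  rw [NRM_odd]
  exact leadingCoeff_ne_zero.2 hS

theorem NRM_degQ {k : Type} [Field k] (Q S : P2 k) : 2 * Q.natDegree ≤ (lam Q S).natDegree := by
  by_cases hQ : Q = 0
  · rw [hQ, natDegree_zero]
    exact Nat.zero_le _
  apply le_natDegree_of_ne_zero
  rw [NRM_even]
  exact leadingCoeff_ne_zero.2 hQ

theorem NRM_degW {k : Type} [Field k] (A B : k[X]) : (WP A B).natDegree ≤ 3 := by
  unfold WP
  compute_degree

theorem NRM_degn {k : Type} [Field k] (A B : k[X]) (Q S : P2 k) (M : ℕ)
    (hM : (lam Q S).natDegree ≤ M) : (Q * Q + S * -S * WP A B).natDegree ≤ M := by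
  refine (natDegree_add_le _ _).trans (max_le ?_ ?_)
  · refine natDegree_mul_le.trans ?_
    have := NRM_degQ Q S
    omega
  · by_cases hS : S = 0
    · rw [hS, zero_mul, zero_mul, natDegree_zero]
      exact Nat.zero_le _
    refine (natDegree_mul_le_of_le (natDegree_mul_le_of_le le_rfl le_rfl) (NRM_degW A B)).trans ?_
    rw [natDegree_neg]
    have := NRM_degS Q S hS
    omega

/-- The key lemma on a polynomial ring over a field: a valuation trivial on the constants. -/
theorem NRM_val {F K Γ : Type} [Field F] [Field K] [LinearOrderedCommGroupWithZero Γ]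
    (v : Valuation K Γ) (E : F[X] →+* K) (hE : Function.Injective E)
    (h1 : ∀ h : F[X], v (E h) ≤ 1) (hC : ∀ c : F, c ≠ 0 → v (E (C c)) = 1) (p : F[X]) (hp : p ≠ 0)
    (hp1 : v (E p) < 1) :
    ∃ r : Γ, r < 1 ∧ r ≠ 0 ∧ ∀ h : F[X], h ≠ 0 → ∃ j : ℕ, j ≤ h.natDegree ∧ v (E h) = r ^ j := by
  let I : Ideal F[X] :=
    { carrier := {h | v (E h) < 1}
      add_mem' := by
        intro a b ha hb
        show v (E (a + b)) < 1
        rw [map_add]
        exact lt_of_le_of_lt (v.map_add _ _) (max_lt ha hb)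
      zero_mem' := by
        show v (E 0) < 1
        rw [map_zero, map_zero]
        exact zero_lt_one
      smul_mem' := by
        intro c x hx
        show v (E (c * x)) < 1
        rw [map_mul, map_mul]
        exact lt_of_le_of_lt (mul_le_of_le_one_left' (h1 c)) hx }
  have memI : ∀ h : F[X], h ∈ I ↔ v (E h) < 1 := fun h => Iff.rfl
  set g := Submodule.IsPrincipal.generator I with hg
  have hdvd : ∀ h : F[X], h ∈ I ↔ g ∣ h := fun h => Submodule.IsPrincipal.mem_iff_generator_dvd I
  have hg0 : g ≠ 0 := by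
    intro h0
    have := (hdvd p).mp hp1
    rw [h0, zero_dvd_iff] at this
    exact hp this
  have hgI : g ∈ I := (hdvd g).mpr dvd_rfl
  have hgdeg : 1 ≤ g.natDegree := by
    by_contra hlt
    have h2 : g.natDegree = 0 := by omega
    obtain ⟨c, hc⟩ := natDegree_eq_zero.mp h2
    have hc0 : c ≠ 0 := by
      rintro rfl
      rw [map_zero] at hc
      exact hg0 hc.symm
    have := hC c hc0
    rw [hc] at this
    exact absurd ((memI g).mp hgI) (by rw [this]; exact lt_irrefl _)
  refine ⟨v (E g), (memI g).mp hgI, ?_, ?_⟩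
  · rw [Valuation.ne_zero_iff]
    intro h0
    exact hg0 (hE (by rw [h0, map_zero]))
  · intro h hh
    have hnu : ¬ IsUnit g := by
      intro hu
      have := natDegree_eq_zero_of_isUnit hu
      omega
    obtain ⟨h', hfac, hnd⟩ :=
      (FiniteMultiplicity.of_not_isUnit hnu hh).exists_eq_pow_mul_and_not_dvd
    refine ⟨multiplicity g h, ?_, ?_⟩
    · have h2 : (g ^ multiplicity g h).natDegree ≤ h.natDegree :=
        natDegree_le_of_dvd ⟨h', hfac⟩ hh
      rw [natDegree_pow] at h2
      exact (Nat.le_mul_of_pos_right _ hgdeg).trans h2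
    · have h3 : v (E h') = 1 := by
        by_contra hne
        exact hnd ((hdvd h').mp ((memI h').mpr (lt_of_le_of_ne (h1 h') hne)))
      conv_lhs => rw [hfac]
      rw [map_mul, map_mul, map_pow, map_pow, h3, mul_one]

theorem NRM_quad {k K : Type} [Field k] [CharZero k] [Field K] [Algebra k K] {t x y : K}
    {A B : k[X]} (hW : W1 k K t x y A B) (hU : Stmt_UNQ1) {Γ : Type}
    [LinearOrderedCommGroupWithZero Γ] (v : Valuation K Γ) (a : K) (ha : a ≠ 0) :
    ∃ p q : P2 k, p ≠ 0 ∧ q ≠ 0 ∧ v a ^ 2 * v (ev t x q) = v (ev t x p) := by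
  obtain ⟨hmul, hzero, hev, hy, -, -, -⟩ := hU k K t x y A B hW
  obtain ⟨P0, Q0, S0, hP0, hgen⟩ := hW.gen a
  have hevP := hev P0 hP0
  have hr : rr t x y Q0 S0 ≠ 0 := by
    rw [← hgen]
    exact mul_ne_zero ha hevP
  have hr' : rr t x y Q0 (-S0) ≠ 0 := by
    intro h0
    obtain ⟨h1, h2⟩ := hzero _ _ h0
    rw [neg_eq_zero] at h2
    apply hr
    rw [h1, h2]
    simp [rr]
  -- the norm
  have hnorm : rr t x y Q0 S0 * rr t x y Q0 (-S0) = ev t x (Q0 * Q0 + S0 * -S0 * WP A B) := by
    rw [hmul]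
    have : Q0 * -S0 + S0 * Q0 = 0 := by ring
    rw [this]
    simp [rr]
  set c0 : P2 k := Q0 * Q0 + S0 * -S0 * WP A B with hc0
  have hc0e : ev t x c0 ≠ 0 := by
    rw [← hnorm]
    exact mul_ne_zero hr hr'
  have hc0' : c0 ≠ 0 := by
    intro h0
    rw [h0, map_zero] at hc0e
    exact hc0e rfl
  -- the quadratic equation
  have hquad : a ^ 2 * ev t x (P0 ^ 2) + a * ev t x (-(2 * P0 * Q0)) + ev t x c0 = 0 := by
    rw [← hnorm]
    have h1 : rr t x y Q0 S0 = a * ev t x P0 := hgen.symm
    have h2 : rr t x y Q0 (-S0) = 2 * ev t x Q0 - a * ev t x P0 := by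
      have : rr t x y Q0 S0 + rr t x y Q0 (-S0) = 2 * ev t x Q0 := by
        simp only [rr, map_neg]
        ring
      rw [h1] at this
      linear_combination this
    rw [h1, h2]
    simp only [map_pow, map_neg, map_mul, map_ofNat]
    ring
  set c1 : P2 k := -(2 * P0 * Q0) with hc1
  set c2 : P2 k := P0 ^ 2 with hc2
  have hc2' : c2 ≠ 0 := pow_ne_zero 2 hP0
  have hc2e : ev t x c2 ≠ 0 := hev c2 hc2'
  clear_value c2 c1 c0
  by_cases h20 : v (a ^ 2 * ev t x c2) = v (ev t x c0)
  · refine ⟨c0, c2, hc0', hc2', ?_⟩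
    rw [← h20, map_mul, map_pow]
  · have hsum : v (a * ev t x c1) = max (v (a ^ 2 * ev t x c2)) (v (ev t x c0)) := by
      have h3 : a * ev t x c1 = -(a ^ 2 * ev t x c2 + ev t x c0) := by
        linear_combination hquad
      rw [h3, Valuation.map_neg, Valuation.map_add_of_distinct_val v h20]
    have hva : v a ≠ 0 := (Valuation.ne_zero_iff v).mpr ha
    rcases le_total (v (a ^ 2 * ev t x c2)) (v (ev t x c0)) with hle | hle
    · -- v (a c1) = v c0
      rw [max_eq_right hle] at hsum
      have hc1' : c1 ≠ 0 := by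
        intro h0
        rw [h0, map_zero, mul_zero, map_zero] at hsum
        exact (Valuation.ne_zero_iff v).mpr hc0e hsum.symm
      refine ⟨c0 ^ 2, c1 ^ 2, pow_ne_zero 2 hc0', pow_ne_zero 2 hc1', ?_⟩
      rw [map_mul] at hsum
      rw [map_pow, map_pow, map_pow, map_pow, ← mul_pow, hsum]
    · rw [max_eq_left hle] at hsum
      have hc1' : c1 ≠ 0 := by
        intro h0
        rw [h0, map_zero, mul_zero, map_zero] at hsum
        exact (Valuation.ne_zero_iff v).mpr (mul_ne_zero (pow_ne_zero 2 ha) hc2e) hsum.symm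
      have h4 : v (ev t x c1) = v a * v (ev t x c2) := by
        have h5 : v a * v (ev t x c1) = v a * (v a * v (ev t x c2)) := by
          rw [map_mul, map_mul, map_pow] at hsum
          rw [hsum, pow_two, mul_assoc]
        exact mul_left_cancel₀ hva h5
      refine ⟨c1 ^ 2, c2 ^ 2, pow_ne_zero 2 hc1', pow_ne_zero 2 hc2', ?_⟩
      rw [map_pow, map_pow, map_pow, map_pow, h4, mul_pow]

theorem p_NRM (hUNQ1 : Stmt_UNQ1) : Stmt_NRM := by
  intro k K _ _ _ _ t x y A B hW V hk ht hx hy hinv a haV haV' ha0 Q S M e hlam hM hrr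
  obtain ⟨hmul, hzero, hev, -, -, -, haev⟩ := hUNQ1 k K t x y A B hW
  set v := V.valuation with hv
  have mem : ∀ z : K, z ∈ V ↔ v z ≤ 1 := fun z => (ValuationSubring.valuation_le_one_iff V z).symm
  -- `k[T]` and its fraction field in `K`
  have hinj : Function.Injective ((aeval t : k[X] →ₐ[k] K) : k[X] →+* K) := by
    rw [injective_iff_map_eq_zero]
    intro p hp
    by_contra hne
    exact haev p hne hp
  let φ : FractionRing k[X] →+* K := IsFractionRing.lift (K := FractionRing k[X]) hinj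
  have hφ : ∀ p : k[X], φ (algebraMap k[X] (FractionRing k[X]) p) = aeval t p :=
    fun p => IsFractionRing.lift_algebraMap hinj p
  let E : (FractionRing k[X])[X] →+* K := eval₂RingHom φ x
  have hE : ∀ P : P2 k, E (P.map (algebraMap k[X] (FractionRing k[X]))) = ev t x P := by
    intro P
    show eval₂ φ x (P.map _) = eval₂ _ x P
    rw [eval₂_map]
    congr 1
    ext p
    · simp [hφ]
    · simp [hφ]
  have hpV : ∀ p : k[X], aeval t p ∈ V := by
    intro p
    rw [aeval_eq_sum_range]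
    refine V.toSubring.sum_mem (fun i _ => ?_)
    rw [Algebra.smul_def]
    exact V.toSubring.mul_mem (hk _) (V.toSubring.pow_mem ht i)
  have hφV : ∀ c : FractionRing k[X], φ c ∈ V := by
    intro c
    obtain ⟨p, q, hq, rfl⟩ := IsFractionRing.div_surjective (A := k[X]) c
    rw [map_div₀, hφ, hφ, div_eq_mul_inv]
    exact V.toSubring.mul_mem (hpV p) (hinv q (nonZeroDivisors.ne_zero hq))
  have hEV : ∀ h : (FractionRing k[X])[X], E h ∈ V := by
    intro h
    show eval₂ φ x h ∈ V
    rw [eval₂_eq_sum_range]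
    exact V.toSubring.sum_mem (fun i _ => V.toSubring.mul_mem (hφV _) (V.toSubring.pow_mem hx i))
  have hEinj : Function.Injective E := by
    rw [injective_iff_map_eq_zero]
    intro h hh
    obtain ⟨b, hbM, hb⟩ := IsLocalization.integerNormalization_spec (nonZeroDivisors k[X]) h
    have h1 : ev t x (IsLocalization.integerNormalization (nonZeroDivisors k[X]) h) = 0 := by
      rw [← hE, hb, ← algebraMap_smul (FractionRing k[X]) b h, smul_eq_C_mul, map_mul, hh,
        mul_zero]
    have h2 := hW.ind _ h1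
    exact (IsLocalization.integerNormalization_eq_zero_iff le_rfl h).mp h2
  have hva0 : v a ≠ 0 := (Valuation.ne_zero_iff v).mpr ha0
  have hva1 : v a < 1 := by
    refine lt_of_le_of_ne ((mem a).mp haV) ?_
    intro h1
    apply haV'
    rw [mem, map_inv₀, h1, inv_one]
  obtain ⟨p, q, hp, hq, hpq⟩ := NRM_quad hW hUNQ1 v a ha0
  have hmap : ∀ P : P2 k, P ≠ 0 → P.map (algebraMap k[X] (FractionRing k[X])) ≠ 0 := by
    intro P hP
    exact (Polynomial.map_ne_zero_iff (IsFractionRing.injective _ _)).mpr hP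
  have hva2 : v a ^ 2 < 1 := pow_lt_one₀ zero_le hva1 two_ne_zero
  have hp1 : v (E (p.map (algebraMap k[X] (FractionRing k[X])))) < 1 := by
    rw [hE, ← hpq, ← hE q]
    exact lt_of_le_of_lt (mul_le_of_le_one_right' ((mem _).mp (hEV _))) hva2
  obtain ⟨r, hr1, hr0, hr⟩ := NRM_val v E hEinj (fun h => (mem _).mp (hEV h))
    (by
      intro c hc
      have h1 : E (C c) = φ c := by
        show eval₂ φ x (C c) = φ c
        rw [eval₂_C]
      rw [h1]
      have h2 := (mem _).mp (hφV c)
      have h3 := (mem _).mp (hφV c⁻¹)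
      rw [map_inv₀, map_inv₀] at h3
      have h4 : v (φ c) ≠ 0 := (Valuation.ne_zero_iff v).mpr ((map_ne_zero φ).mpr hc)
      exact le_antisymm h2 ((inv_le_one₀ (zero_lt_iff.mpr h4)).mp h3)) _ (hmap p hp) hp1
  have hr0' : 0 < r := zero_lt_iff.mpr hr0
  obtain ⟨jp, -, hjp⟩ := hr _ (hmap p hp)
  obtain ⟨jq, -, hjq⟩ := hr _ (hmap q hq)
  rw [hE] at hjp hjq
  rw [hjp, hjq] at hpq
  have hlt : jq < jp := by
    by_contra hle
    have h1 : r ^ jq ≤ r ^ jp := pow_le_pow_right_of_le_one' hr1.le (not_lt.mp hle)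
    rw [← hpq] at h1
    have h2 : v a ^ 2 * r ^ jq < r ^ jq := by
      have := mul_lt_mul_of_pos_right hva2 (pow_pos hr0' jq)
      rwa [one_mul] at this
    exact absurd h1 (not_le.mpr h2)
  have har : v a ^ 2 ≤ r := by
    obtain ⟨m, rfl⟩ := Nat.exists_eq_add_of_lt hlt
    have h1 : v a ^ 2 * r ^ jq = r ^ (m + 1) * r ^ jq := by
      rw [hpq, ← pow_add]
      congr 1
      ring
    have h2 := mul_right_cancel₀ (pow_ne_zero jq hr0) h1
    rw [h2, pow_succ]
    exact mul_le_of_le_one_left' (pow_le_one₀ zero_le hr1.le)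
  -- the norm
  have hQS : rr t x y Q S ≠ 0 := by
    intro h0
    obtain ⟨h1, h2⟩ := hzero _ _ h0
    apply hlam
    rw [h1, h2]
    simp [lam]
  have hQS' : rr t x y Q (-S) ≠ 0 := by
    intro h0
    obtain ⟨h1, h2⟩ := hzero _ _ h0
    rw [neg_eq_zero] at h2
    apply hlam
    rw [h1, h2]
    simp [lam]
  set n : P2 k := Q * Q + S * -S * WP A B with hn
  have hnorm : rr t x y Q S * rr t x y Q (-S) = ev t x n := by
    rw [hmul]
    have : Q * -S + S * Q = 0 := by ring
    rw [this]
    simp [rr, hn]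
  have hn0 : n ≠ 0 := by
    intro h0
    rw [h0, map_zero] at hnorm
    exact mul_ne_zero hQS hQS' hnorm
  obtain ⟨j, hj, hjn⟩ := hr _ (hmap n hn0)
  rw [hE] at hjn
  have hjM : j ≤ M := hj.trans (natDegree_map_le.trans (NRM_degn A B Q S M hM))
  obtain ⟨w, hw, hrw⟩ := hrr
  have hev' : ∀ P : P2 k, ev t x P ∈ V := by
    intro P
    rw [← hE]
    exact hEV _
  have hrV : rr t x y Q (-S) ∈ V :=
    V.toSubring.add_mem (hev' _) (V.toSubring.mul_mem (hev' _) hy)
  have hle : v (ev t x n) ≤ v a ^ e := by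
    rw [← hnorm, hrw, map_mul, map_mul, map_pow, mul_assoc]
    exact mul_le_of_le_one_right' (mul_le_one' ((mem w).mp hw) ((mem _).mp hrV))
  have hfin : r ^ (2 * j) ≤ r ^ e := by
    calc r ^ (2 * j) = v (ev t x n) ^ 2 := by rw [hjn, ← pow_mul, mul_comm]
      _ ≤ (v a ^ e) ^ 2 := pow_le_pow_left₀ zero_le hle 2
      _ = (v a ^ 2) ^ e := by rw [← pow_mul, ← pow_mul, mul_comm]
      _ ≤ r ^ e := pow_le_pow_left₀ zero_le har e
  by_contra hcon
  have hlt2 : 2 * j < e := by omega
  exact absurd hfin (not_le.mpr (pow_lt_pow_right_of_lt_one₀ hr0' hr1 hlt2))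

end Pool.IE
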