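import Pool.Agent.Work.MP_bf99ce_ie.Interface4

set_option autoImplicit false

open Polynomial

noncomputable section

namespace Pool.IE

theorem NSP_coeff {K : Type} [Field K] (N : K[X]) (m : ℕ) (hN : N.Monic)
    (hm : N.natDegree = m + 1) (c : K) :
    (N.comp (X + C c)).coeff m = N.coeff m + ((m + 1 : ℕ) : K) * c := by
  have hl : N.coeff (m + 1) = 1 := by rw [← hm]; exact hN
  rw [comp, eval₂_eq_sum_range, finset_sum_coeff, hm, Finset.sum_range_succ,
    Finset.sum_range_succ, Finset.sum_eq_zero]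
  · rw [coeff_C_mul, coeff_C_mul, coeff_X_add_C_pow, coeff_X_add_C_pow, hl]
    simp
    ring
  · intro i hi
    rw [coeff_C_mul, coeff_X_add_C_pow, Nat.choose_eq_zero_of_lt (Finset.mem_range.1 hi)]
    simp

theorem NSP_lam0 {k : Type} [Field k] (Q S : P2 k) (h : lam Q S = 0) : Q = 0 ∧ S = 0 := by
  constructor
  · ext1 m
    have h1 : (lam Q S).coeff (2 * m) = 0 := by rw [h, coeff_zero]
    have h2 : (lam Q S).coeff (2 * m) = Q.coeff m := by
      unfold lam
      rw [coeff_add, coeff_expand (by norm_num), if_pos (Dvd.intro m rfl), coeff_X_pow_mul']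
      rw [Nat.mul_div_cancel_left m (by norm_num)]
      split_ifs with h3
      · rw [coeff_expand (by norm_num), if_neg (by omega), add_zero]
      · rw [add_zero]
    rw [← h2, h1, coeff_zero]
  · ext1 m
    have h1 : (lam Q S).coeff (2 * m + 3) = 0 := by rw [h, coeff_zero]
    have h2 : (lam Q S).coeff (2 * m + 3) = S.coeff m := by
      unfold lam
      rw [coeff_add, coeff_expand (by norm_num), if_neg (by omega), zero_add,
        coeff_X_pow_mul', if_pos (by omega), Nat.add_sub_cancel, coeff_expand (by norm_num),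
        if_pos (Dvd.intro m rfl), Nat.mul_div_cancel_left m (by norm_num)]
    rw [← h2, h1, coeff_zero]

theorem NSP_lam1 {k : Type} [Field k] (Q S : P2 k) : (lam Q S).natDegree ≠ 1 := by
  intro h
  have h1 : (lam Q S).coeff 1 = 0 := by
    unfold lam
    rw [coeff_add, coeff_expand (by norm_num), if_neg (by norm_num), coeff_X_pow_mul',
      if_neg (by norm_num), add_zero]
  have h2 : (lam Q S).leadingCoeff = 0 := by
    rw [leadingCoeff, h, h1]
  rw [leadingCoeff_eq_zero] at h2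
  rw [h2] at h
  simp at h

theorem NSP_lamQ {k : Type} [Field k] (a b c d : k[X]) (ha : a ≠ 0) :
    lam (C a * X ^ 3 + C b * X ^ 2 + C c * X + C d : P2 k) 0 ≠ 0 ∧
    (lam (C a * X ^ 3 + C b * X ^ 2 + C c * X + C d : P2 k) 0).natDegree = 6 := by
  have h1 : (lam (C a * X ^ 3 + C b * X ^ 2 + C c * X + C d : P2 k) 0).natDegree = 6 := by
    unfold lam
    rw [map_zero, mul_zero, add_zero, natDegree_expand, natDegree_cubic ha]
  refine ⟨fun h => ?_, h1⟩
  rw [h] at h1
  simp at h1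

theorem p_NSP (hUNQ1 : Stmt_UNQ1) (hVO1 : Stmt_VO1) (hVOZ : Stmt_VOZ) : Stmt_NSP := by
  intro k K _ _ _ _ t x y A B hW hΔ hκ N hN hn ⟨hR, hV⟩
  obtain ⟨u1, u2, u3, hy, hx, ht, u7⟩ := hUNQ1 k K t x y A B hW
  obtain ⟨⟨V, hVV⟩, v2, -, -, -⟩ := hVO1 k K t x y A B hW
  obtain ⟨z1, z2, z3⟩ := hVOZ k K t x y A B hW
  have mem : ∀ a, a ∈ VO k t x y ↔ V.valuation a ≤ 1 := by
    intro a
    rw [ValuationSubring.valuation_le_one_iff, ← hVV]
    rfl
  have unit : ∀ a, a ≠ 0 → a ∈ VO k t x y → a⁻¹ ∈ VO k t x y → V.valuation a = 1 := by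
    intro a ha h1 h2
    rw [mem] at h1 h2
    rw [map_inv₀] at h2
    have h3 : 0 < V.valuation a := by
      rw [pos_iff_ne_zero]
      exact (_root_.map_ne_zero _).2 ha
    exact le_antisymm h1 ((inv_le_one₀ h3).1 h2)
  obtain ⟨z, hz⟩ : ∃ z, z = x / y := ⟨_, rfl⟩
  obtain ⟨c, hc⟩ : ∃ c, c = pp t x A B / y := ⟨_, rfl⟩
  rw [← hz] at z1 z2 z3
  have hz0 : z ≠ 0 := by rw [hz]; exact div_ne_zero hx hy
  have vz0 : 0 < V.valuation z := by
    rw [pos_iff_ne_zero]
    exact (_root_.map_ne_zero _).2 hz0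
  have vz1 : V.valuation z < 1 := by
    rw [mem, map_inv₀, inv_le_one₀ vz0, not_le] at z2
    exact z2
  have hD : dsc A B ≠ 0 := hΔ
  have hD0 : aeval t (dsc A B) ≠ 0 := u7 _ hD
  -- the value of `z c`
  have h3κ : 3 * kap A B ≠ 0 := by
    refine mul_ne_zero ?_ hκ
    have h3 : ((3 : ℕ) : k) ≠ 0 := Nat.cast_ne_zero.2 (by norm_num)
    have h4 : (C ((3 : ℕ) : k) : k[X]) ≠ 0 := C_ne_zero.2 h3
    rw [map_natCast] at h4
    exact_mod_cast h4
  obtain ⟨n1, n2⟩ := NSP_lamQ (3 * kap A B) (C (6⁻¹ : k) * derivative (dsc A B))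
    (2 * (A * kap A B)) 0 h3κ
  obtain ⟨m1, m2⟩ := NSP_lamQ (dsc A B) 0 (dsc A B * A) (dsc A B * B) hD
  have hev : ∀ a b c d : k[X], rr t x y (C a * X ^ 3 + C b * X ^ 2 + C c * X + C d : P2 k) 0 =
      aeval t a * x ^ 3 + aeval t b * x ^ 2 + aeval t c * x + aeval t d := by
    intro a b c d
    unfold rr ev
    simp
  have w1 := z3 _ _ n1
  have w2 := z3 _ _ m1
  rw [n2] at w1
  rw [m2] at w2
  have hnum := hev (3 * kap A B) (C (6⁻¹ : k) * derivative (dsc A B)) (2 * (A * kap A B)) 0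
  have hden := hev (dsc A B) 0 (dsc A B * A) (dsc A B * B)
  set num := rr t x y (C (3 * kap A B) * X ^ 3 + C (C (6⁻¹ : k) * derivative (dsc A B)) * X ^ 2 +
    C (2 * (A * kap A B)) * X + C 0 : P2 k) 0 with hnum'
  set den := rr t x y (C (dsc A B) * X ^ 3 + C 0 * X ^ 2 + C (dsc A B * A) * X +
    C (dsc A B * B) : P2 k) 0 with hden'
  have hrel := hW.rel
  have hden2 : den = aeval t (dsc A B) * y ^ 2 := by
    rw [hden, hrel]
    simp only [map_mul, map_zero]
    ring
  have hden0 : den ≠ 0 := by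
    rw [hden2]
    exact mul_ne_zero hD0 (pow_ne_zero 2 hy)
  have hzc : z * c * den = num := by
    rw [hden2, hnum, hz, hc, pp]
    simp only [map_mul, map_zero, aeval_C, map_ofNat, map_inv₀]
    field_simp
    ring
  have hnum0 : num ≠ 0 := by
    intro h0
    have : rr t x y (C (3 * kap A B) * X ^ 3 + C (C (6⁻¹ : k) * derivative (dsc A B)) * X ^ 2 +
      C (2 * (A * kap A B)) * X + C 0 : P2 k) 0 = 0 := h0
    obtain ⟨h1, -⟩ := u2 _ _ this
    rw [h1] at n1
    apply n1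
    simp [lam]
  have e1 : V.valuation z ^ 6 * V.valuation num = 1 := by
    rw [← map_pow, ← map_mul]
    exact unit _ (mul_ne_zero (pow_ne_zero 6 hz0) hnum0) w1.1 w1.2
  have e2 : V.valuation z ^ 6 * V.valuation den = 1 := by
    rw [← map_pow, ← map_mul]
    exact unit _ (mul_ne_zero (pow_ne_zero 6 hz0) hden0) w2.1 w2.2
  have vz6 : V.valuation z ^ 6 ≠ 0 := pow_ne_zero 6 vz0.ne'
  have e3 : V.valuation num = V.valuation den := mul_left_cancel₀ vz6 (e1.trans e2.symm)
  have vden : V.valuation den ≠ 0 := (_root_.map_ne_zero _).2 hden0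
  have e4 : V.valuation (z * c) = 1 := by
    have h1 : V.valuation (z * c) * V.valuation den = 1 * V.valuation den := by
      rw [← map_mul, hzc, e3, one_mul]
    exact mul_right_cancel₀ vden h1
  -- the coefficient
  obtain ⟨m, hm⟩ : ∃ m, N.natDegree = m + 1 := ⟨N.natDegree - 1, by omega⟩
  have hco := NSP_coeff N m hN hm c
  obtain ⟨g, Q, S, hg, hgr⟩ := hR m
  rw [← hc, hco] at hgr
  set r := N.coeff m + ((m + 1 : ℕ) : K) * c with hr
  have hNm : V.valuation (N.coeff m) ≤ 1 := (mem _).1 (hV m)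
  have hm1 : V.valuation ((m + 1 : ℕ) : K) = 1 := by
    have hk : (((m + 1 : ℕ) : k)) ≠ 0 := Nat.cast_ne_zero.2 (Nat.succ_ne_zero m)
    have h1 : aeval t (C (((m + 1 : ℕ) : k)) : k[X]) = ((m + 1 : ℕ) : K) := by
      rw [aeval_C, map_natCast]
    have h2 := v2 (C (((m + 1 : ℕ) : k))) (C_ne_zero.2 hk)
    rw [h1] at h2
    refine unit _ ?_ h2.1 h2.2
    rw [← h1]
    exact u7 _ (C_ne_zero.2 hk)
  have e5 : V.valuation (z * r) = 1 := by
    have h1 : z * r = z * N.coeff m + ((m + 1 : ℕ) : K) * (z * c) := by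
      rw [hr]; ring
    have h2 : V.valuation (((m + 1 : ℕ) : K) * (z * c)) = 1 := by
      rw [map_mul, hm1, e4, one_mul]
    have h3 : V.valuation (z * N.coeff m) < V.valuation (((m + 1 : ℕ) : K) * (z * c)) := by
      rw [h2, map_mul]
      exact mul_lt_one_of_lt_of_le vz1 hNm
    rw [h1, Valuation.map_add_eq_of_lt_right _ h3, h2]
  have hr0 : r ≠ 0 := by
    intro h0
    rw [h0, mul_zero, map_zero] at e5
    exact zero_ne_one e5
  have hg0 : aeval t g ≠ 0 := u7 g hg
  have vg : V.valuation (aeval t g) = 1 := unit _ hg0 (v2 g hg).1 (v2 g hg).2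
  have hrr0 : rr t x y Q S ≠ 0 := by
    rw [← hgr]
    exact mul_ne_zero hg0 hr0
  have hlam : lam Q S ≠ 0 := by
    intro h0
    obtain ⟨h1, h2⟩ := NSP_lam0 Q S h0
    apply hrr0
    rw [h1, h2]
    simp [rr]
  have e6 := z3 Q S hlam
  set M := (lam Q S).natDegree with hM
  have e7 : V.valuation z ^ M * V.valuation r = 1 := by
    have := unit _ (mul_ne_zero (pow_ne_zero M hz0) hrr0) e6.1 e6.2
    rw [← hgr, map_mul, map_mul, map_pow, vg, one_mul] at this
    exact this
  rw [map_mul] at e5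
  have vr : V.valuation r ≠ 0 := (_root_.map_ne_zero _).2 hr0
  have e8 : V.valuation z ^ M = V.valuation z := mul_right_cancel₀ vr (e7.trans e5.symm)
  have hM1 : M ≠ 1 := NSP_lam1 Q S
  rcases Nat.lt_or_ge M 1 with h | h
  · have : M = 0 := by omega
    rw [this, pow_zero] at e8
    exact vz1.ne e8.symm
  · obtain ⟨j, hj⟩ : ∃ j, M = j + 2 := ⟨M - 2, by omega⟩
    rw [hj, show j + 2 = (j + 1) + 1 by omega, pow_succ] at e8
    have h1 : V.valuation z ^ (j + 1) = 1 := by
      have h2 : V.valuation z ^ (j + 1) * V.valuation z = 1 * V.valuation z := by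
        rw [e8, one_mul]
      exact mul_right_cancel₀ vz0.ne' h2
    exact (pow_lt_one₀ zero_le vz1 (Nat.succ_ne_zero j)).ne h1

end Pool.IE
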