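import Pool.Agent.Work.MP_bf99ce_ie.Interface

/-!
# Block POL: homogeneous polynomials in two variables
-/

set_option autoImplicit false

open Polynomial AlgebraicGeometry CategoryTheory

noncomputable section

namespace Pool.IE

theorem POL_mon {K : Type} [Field K] (g : K) (a b : ℕ) :
    (MvPolynomial.C g * MvPolynomial.X 0 ^ a * MvPolynomial.X 1 ^ b : MvPolynomial (Fin 2) K) =
      MvPolynomial.monomial (Finsupp.single 0 a + Finsupp.single 1 b) g := by
  rw [MvPolynomial.X_pow_eq_monomial, MvPolynomial.X_pow_eq_monomial, MvPolynomial.C_mul_monomial,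
    MvPolynomial.monomial_mul, mul_one, mul_one]

theorem POL_exp (m : Fin 2 →₀ ℕ) (a b : ℕ) :
    Finsupp.single 0 a + Finsupp.single 1 b = m ↔ a = m 0 ∧ b = m 1 := by
  constructor
  · intro h
    rw [← h]
    simp
  · rintro ⟨rfl, rfl⟩
    ext j
    fin_cases j <;> simp

theorem POL_coeff {K : Type} [Field K] (i : ℕ) (G : ℕ → K) (m : Fin 2 →₀ ℕ) :
    (pol i G).coeff m = if m 0 + m 1 = i then G (m 0) else 0 := by
  unfold pol
  rw [MvPolynomial.coeff_sum]
  simp only [POL_mon, MvPolynomial.coeff_monomial, POL_exp]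
  by_cases h : m 0 + m 1 = i
  · rw [if_pos h, Finset.sum_eq_single (m 0)]
    · rw [if_pos ⟨rfl, by omega⟩]
    · intro a _ ha
      rw [if_neg (fun h1 => ha h1.1)]
    · intro h1
      exfalso
      apply h1
      rw [Finset.mem_range]
      omega
  · rw [if_neg h]
    refine Finset.sum_eq_zero fun a ha => ?_
    rw [Finset.mem_range] at ha
    rw [if_neg]
    rintro ⟨h1, h2⟩
    apply h
    omega

theorem POL_coeff' {K : Type} [Field K] (i : ℕ) (G : ℕ → K) (a : ℕ) (ha : a ≤ i) :
    (pol i G).coeff (Finsupp.single 0 a + Finsupp.single 1 (i - a)) = G a := by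
  rw [POL_coeff]
  have h0 : (Finsupp.single 0 a + Finsupp.single 1 (i - a) : Fin 2 →₀ ℕ) 0 = a := by simp
  have h1 : (Finsupp.single 0 a + Finsupp.single 1 (i - a) : Fin 2 →₀ ℕ) 1 = i - a := by simp
  rw [h0, h1, if_pos (by omega)]

theorem p_POL : Stmt_POL := by
  intro K _ i
  refine ⟨?_, ?_, ?_, ?_⟩
  · intro G G' h a ha
    rw [← POL_coeff' i G a ha, ← POL_coeff' i G' a ha, h]
  · intro G G' h
    unfold pol
    refine Finset.sum_congr rfl fun a ha => ?_
    rw [Finset.mem_range] at ha
    rw [h a (by omega)]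
  · intro c G
    unfold pol
    rw [Finset.mul_sum]
    refine Finset.sum_congr rfl fun a _ => ?_
    rw [map_mul]
    ring
  · intro Φ hΦ
    refine ⟨fun a => Φ.coeff (Finsupp.single 0 a + Finsupp.single 1 (i - a)), ?_, fun a _ => rfl⟩
    ext m
    rw [POL_coeff]
    by_cases h : m 0 + m 1 = i
    · rw [if_pos h]
      congr 1
      symm
      rw [POL_exp]
      exact ⟨rfl, by omega⟩
    · rw [if_neg h]
      by_contra hc
      apply h
      have h1 := hΦ hc
      rw [Finsupp.weight_apply, Finsupp.sum_fintype _ _ (by simp)] at h1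
      simpa using h1

end Pool.IE
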