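import Pool.Agent.Work.MP_bf99ce_ie.Interface4
import Pool.Agent.Work.MP_bf99ce_ie.B_LMM

/-!
# Block PWB: bound of the powers dividing a polynomial of bounded pole order
-/

set_option autoImplicit false

open Polynomial

noncomputable section

namespace Pool.IE

/-- coefficients in `V`, one of them a unit -/
def PWB_Prim {K : Type} [Field K] (V : ValuationSubring K) (p : K[X]) : Prop :=
  (∀ n, p.coeff n ∈ V) ∧ ∃ n, p.coeff n ≠ 0 ∧ (p.coeff n)⁻¹ ∈ V

theorem PWB_unit {K : Type} [Field K] (V : ValuationSubring K) (a : V) :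
    IsUnit a ↔ (a : K) ≠ 0 ∧ (a : K)⁻¹ ∈ V := by
  constructor
  · rintro ⟨u, rfl⟩
    have h1 : ((u : V) : K) * (((u⁻¹ : Vˣ) : V) : K) = 1 :=
      congrArg (Subtype.val) (u.mul_inv)
    have h0 : ((u : V) : K) ≠ 0 := left_ne_zero_of_mul_eq_one h1
    refine ⟨h0, ?_⟩
    have h2 : ((u : V) : K)⁻¹ = (((u⁻¹ : Vˣ) : V) : K) := inv_eq_of_mul_eq_one_right h1
    rw [h2]
    exact ((u⁻¹ : Vˣ) : V).2
  · rintro ⟨h0, h1⟩
    refine IsUnit.of_mul_eq_one ⟨(a : K)⁻¹, h1⟩ ?_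
    apply Subtype.ext
    simp [h0]

theorem PWB_mul {K : Type} [Field K] (V : ValuationSubring K) (p q : K[X]) (hp : PWB_Prim V p)
    (hq : PWB_Prim V q) : PWB_Prim V (p * q) := by
  have key : ∀ r : K[X], PWB_Prim V r → ∃ r' : V[X], r'.map (algebraMap V K) = r ∧
      r'.map (IsLocalRing.residue V) ≠ 0 := by
    intro r hr
    have h1 : r ∈ lifts (algebraMap V K) := by
      rw [lifts_iff_coeff_lifts]
      intro n
      exact ⟨⟨r.coeff n, hr.1 n⟩, rfl⟩
    obtain ⟨r', hr'⟩ := (mem_lifts _).1 h1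
    refine ⟨r', hr', ?_⟩
    obtain ⟨n, hn0, hn1⟩ := hr.2
    intro h0
    have h2 := congrArg (fun s => coeff s n) h0
    simp only [coeff_map, coeff_zero] at h2
    have h3 : ((r'.coeff n : V) : K) = r.coeff n := by
      rw [← hr', coeff_map]
      rfl
    have h4 : IsUnit (r'.coeff n) := by
      rw [PWB_unit, h3]
      exact ⟨hn0, hn1⟩
    exact (IsLocalRing.residue_ne_zero_iff_isUnit _).2 h4 h2
  obtain ⟨p', hp1, hp2⟩ := key p hp
  obtain ⟨q', hq1, hq2⟩ := key q hq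
  have h1 : (p' * q').map (IsLocalRing.residue V) ≠ 0 := by
    rw [Polynomial.map_mul]
    exact mul_ne_zero hp2 hq2
  have h2 : (p' * q').map (algebraMap V K) = p * q := by
    rw [Polynomial.map_mul, hp1, hq1]
  have h3 : ∀ n, (p * q).coeff n = (((p' * q').coeff n : V) : K) := by
    intro n
    rw [← h2, coeff_map]
    rfl
  refine ⟨fun n => by rw [h3]; exact ((p' * q').coeff n).2, ?_⟩
  by_contra hcon
  push Not at hcon
  apply h1
  ext n
  rw [coeff_map, coeff_zero]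
  by_contra h4
  have h5 := (IsLocalRing.residue_ne_zero_iff_isUnit _).1 h4
  rw [PWB_unit, ← h3] at h5
  exact hcon n h5.1 h5.2

theorem PWB_pow {K : Type} [Field K] (V : ValuationSubring K) (p : K[X]) (hp : PWB_Prim V p) (e : ℕ) :
    PWB_Prim V (p ^ e) := by
  induction e with
  | zero =>
    rw [pow_zero]
    refine ⟨fun n => ?_, 0, ?_, ?_⟩
    · rw [coeff_one]
      split_ifs
      · exact V.one_mem
      · exact V.zero_mem
    · rw [coeff_one_zero]
      exact one_ne_zero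
    · rw [coeff_one_zero, inv_one]
      exact V.one_mem
  | succ e ih =>
    rw [pow_succ]
    exact PWB_mul V _ _ ih hp

/-- scaling of a monic polynomial -/
theorem PWB_scale {K : Type} [Field K] (V : ValuationSubring K) (N : K[X]) (hN : N.Monic) :
    ∃ a ∈ V, a ≠ 0 ∧ PWB_Prim V (C a * N) ∧ (a⁻¹ ∈ V → ∀ n, N.coeff n ∈ V) := by
  have hN0 : N ≠ 0 := hN.ne_zero
  obtain ⟨m, hm, hmax⟩ := Finset.exists_max_image N.support (fun n => V.valuation (N.coeff n))
    (nonempty_support_iff.2 hN0)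
  have hc0 : N.coeff m ≠ 0 := mem_support_iff.1 hm
  have hdiv : ∀ n, (N.coeff m)⁻¹ * N.coeff n ∈ V := by
    intro n
    rw [← V.valuation_le_one_iff, map_mul, map_inv₀]
    have hv0 : V.valuation (N.coeff m) ≠ 0 := (Valuation.ne_zero_iff _).2 hc0
    by_cases hn : N.coeff n = 0
    · rw [hn, map_zero, mul_zero]
      exact zero_le_one
    · have h1 := hmax n (mem_support_iff.2 hn)
      calc (V.valuation (N.coeff m))⁻¹ * V.valuation (N.coeff n)
          ≤ (V.valuation (N.coeff m))⁻¹ * V.valuation (N.coeff m) := by gcongr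
        _ = 1 := inv_mul_cancel₀ hv0
  refine ⟨(N.coeff m)⁻¹, ?_, inv_ne_zero hc0, ⟨?_, m, ?_, ?_⟩, ?_⟩
  · have h1 := hdiv N.natDegree
    rwa [hN.coeff_natDegree, mul_one] at h1
  · intro n
    rw [coeff_C_mul]
    exact hdiv n
  · rw [coeff_C_mul, inv_mul_cancel₀ hc0]
    exact one_ne_zero
  · rw [coeff_C_mul, inv_mul_cancel₀ hc0, inv_one]
    exact V.one_mem
  · intro h n
    rw [inv_inv] at h
    have h1 := V.mul_mem _ _ h (hdiv n)
    rwa [mul_inv_cancel_left₀ hc0] at h1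

/-- the Gauss lemma -/
theorem PWB_gauss {K : Type} [Field K] (V : ValuationSubring K) (P N : K[X]) (e : ℕ) (ζ : K)
    (hP : P ≠ 0) (hN : N.Monic) (hd : N ^ e ∣ P) (hNV : ∃ n, N.coeff n ∉ V)
    (hPV : ∀ n, ζ * P.coeff n ∈ V) :
    ∃ a ∈ V, a ≠ 0 ∧ a⁻¹ ∉ V ∧ ∃ v ∈ V, ζ * P.leadingCoeff = a ^ e * v := by
  obtain ⟨q, hq⟩ := hd
  have hq0 : q ≠ 0 := by
    rintro rfl
    rw [mul_zero] at hq
    exact hP hq
  have hlead : P.leadingCoeff = q.leadingCoeff := by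
    rw [hq, leadingCoeff_mul, (hN.pow e).leadingCoeff, one_mul]
  have hg0 : q.leadingCoeff ≠ 0 := leadingCoeff_ne_zero.2 hq0
  have hh : (C q.leadingCoeff⁻¹ * q).Monic := by
    unfold Monic
    rw [leadingCoeff_mul, leadingCoeff_C, inv_mul_cancel₀ hg0]
  obtain ⟨a, haV, ha0, haP, haN⟩ := PWB_scale V N hN
  obtain ⟨b, hbV, hb0, hbP, -⟩ := PWB_scale V _ hh
  have hprim := PWB_mul V _ _ (PWB_pow V _ haP e) hbP
  obtain ⟨-, n, hn0, hn1⟩ := hprim
  have e1 : (C a * N) ^ e * (C b * (C q.leadingCoeff⁻¹ * q)) =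
      C (a ^ e * b * q.leadingCoeff⁻¹) * P := by
    rw [hq, mul_pow, C_mul, C_mul, C_pow]
    ring
  rw [e1, coeff_C_mul] at hn0 hn1
  refine ⟨a, haV, ha0, ?_, b * (ζ * P.coeff n) * (a ^ e * b * q.leadingCoeff⁻¹ * P.coeff n)⁻¹,
    V.mul_mem _ _ (V.mul_mem _ _ hbV (hPV n)) hn1, ?_⟩
  · intro h
    obtain ⟨m, hm⟩ := hNV
    exact hm (haN h m)
  · rw [hlead]
    have h1 : P.coeff n ≠ 0 := by
      intro h
      apply hn0
      rw [h, mul_zero]
    have h2 : a ^ e ≠ 0 := pow_ne_zero _ ha0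
    field_simp

/-- the elements of `RI` are in the valuation rings over the affine part of the generic fibre -/
theorem PWB_RI {k K : Type} [Field k] [Field K] [Algebra k K] (t x y : K) (V : ValuationSubring K)
    (hk : ∀ c : k, algebraMap k K c ∈ V) (ht : t ∈ V) (hx : x ∈ V) (hy : y ∈ V)
    (hinv : ∀ p : k[X], p ≠ 0 → (aeval t p)⁻¹ ∈ V) (haev : ∀ p : k[X], p ≠ 0 → aeval t p ≠ 0) (z : K)
    (hz : z ∈ RI k t x y) : z ∈ V := by
  have hae : ∀ p : k[X], aeval t p ∈ V := by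
    intro p
    induction p using Polynomial.induction_on' with
    | add p q hp hq =>
      rw [map_add]
      exact V.add_mem _ _ hp hq
    | monomial n a =>
      rw [aeval_monomial]
      exact V.mul_mem _ _ (hk a) (pow_mem ht n)
  have hev : ∀ P : P2 k, ev t x P ∈ V := by
    intro P
    induction P using Polynomial.induction_on' with
    | add p q hp hq =>
      rw [map_add]
      exact V.add_mem _ _ hp hq
    | monomial n a =>
      have h1 : ev t x (monomial n a) = aeval t a * x ^ n := by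
        simp [ev, eval₂_monomial]
      rw [h1]
      exact V.mul_mem _ _ (hae a) (pow_mem hx n)
  obtain ⟨g, Q, S, hg, h⟩ := hz
  have h1 : z = (aeval t g)⁻¹ * rr t x y Q S := by
    rw [← h, inv_mul_cancel_left₀ (haev g hg)]
  rw [h1]
  exact V.mul_mem _ _ (hinv g hg) (V.add_mem _ _ (hev Q) (V.mul_mem _ _ (hev S) hy))

/-- negative powers of a nonunit -/
theorem PWB_neg {K : Type} [Field K] (V : ValuationSubring K) (z : K) (hz : z ∈ V) (hz' : z⁻¹ ∉ V)
    (hz0 : z ≠ 0) (m n : ℕ) (u v : K) (hu : u⁻¹ ∈ V) (hu0 : u ≠ 0) (hv : v ∈ V) (h : z ^ m * u = z ^ n * v) :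
    n ≤ m := by
  by_contra hcon
  push Not at hcon
  apply hz'
  have h1 : n = (n - m - 1) + 1 + m := by omega
  have h2 : 1 = z * (z ^ (n - m - 1) * v * u⁻¹) := by
    have h3 : z ^ m * u = z ^ m * (z * (z ^ (n - m - 1) * v)) := by
      rw [h]
      nth_rewrite 1 [h1]
      rw [pow_add, pow_succ]
      ring
    have h4 := mul_left_cancel₀ (pow_ne_zero m hz0) h3
    have h5 : u * u⁻¹ = 1 := mul_inv_cancel₀ hu0
    rw [← h5]
    nth_rewrite 1 [h4]
    ring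
  have h6 : z⁻¹ = z ^ (n - m - 1) * v * u⁻¹ := by
    rw [inv_eq_iff_eq_inv]
    exact (inv_eq_of_mul_eq_one_left h2.symm).symm
  rw [h6]
  exact V.mul_mem _ _ (V.mul_mem _ _ (pow_mem hz _) hv) hu

theorem PWB_q1 {K : Type} [Field K] (z a E : K) (hz : z ≠ 0) (ha : a ≠ 0) (hE : E ≠ 0) (m n : ℕ)
    (h : n ≤ m) : a⁻¹ = z ^ (m - n) * (z ^ n * E) * (z ^ m * (a * E))⁻¹ := by
  have h1 : z ^ m = z ^ (m - n) * z ^ n := by
    rw [← pow_add]
    congr 1
    omega
  have e1 : z ^ (m - n) ≠ 0 := pow_ne_zero _ hz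
  have e2 : z ^ n ≠ 0 := pow_ne_zero _ hz
  rw [h1]
  generalize z ^ (m - n) = b1 at *
  generalize z ^ n = b2 at *
  field_simp

theorem PWB_q2 {K : Type} [Field K] (z a E : K) (hz : z ≠ 0) (hE : E ≠ 0) (m n : ℕ)
    (h : m < n) : a = z * (z ^ (n - m - 1) * (z ^ m * (a * E)) * (z ^ n * E)⁻¹) := by
  have h1 : z ^ n = z ^ (n - m - 1) * z * z ^ m := by
    rw [← pow_succ, ← pow_add]
    congr 1
    omega
  have e1 : z ^ (n - m - 1) ≠ 0 := pow_ne_zero _ hz
  have e2 : z ^ m ≠ 0 := pow_ne_zero _ hz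
  rw [h1]
  generalize z ^ (n - m - 1) = b1 at *
  generalize z ^ m = b2 at *
  field_simp

theorem p_PWB (hUNQ : Stmt_UNQ1) (hVO : Stmt_VO1) (hVOZ : Stmt_VOZ) (_hRIC : Stmt_RIC1) (hINC : Stmt_INC1)
    (hNRM : Stmt_NRM) (hNSP : Stmt_NSP) : Stmt_PWB := by
  classical
  intro k K _ _ _ _ t x y A B hW hD hκ P J hP0 hPO hPR N e hN hN1 hNP
  obtain ⟨-, hU2, hne, hy0, hx0, ht0, haev⟩ := hUNQ k K t x y A B hW
  obtain ⟨⟨V, hV⟩, hVp, -, -, -⟩ := hVO k K t x y A B hW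
  obtain ⟨hz1, hz2, hz3⟩ := hVOZ k K t x y A B hW
  obtain ⟨-, -, hL3, -⟩ := p_LMM k A B
  have hm : ∀ z : K, z ∈ VO k t x y ↔ z ∈ V := fun z => by
    rw [← hV]
    exact SetLike.mem_coe
  have hz0 : x / y ≠ 0 := div_ne_zero hx0 hy0
  have hrr0 : ∀ Q S : P2 k, rr t x y Q S ≠ 0 → lam Q S ≠ 0 := by
    intro Q S h h0
    obtain ⟨h1, h2⟩ := hL3 Q S h0
    apply h
    rw [h1, h2]
    simp [rr]
  have hg0 : P.leadingCoeff ≠ 0 := leadingCoeff_ne_zero.2 hP0
  have hlc : (P.comp (X + C (pp t x A B / y))).leadingCoeff = P.leadingCoeff := by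
    rw [leadingCoeff_comp (by rw [natDegree_X_add_C]; exact one_ne_zero), leadingCoeff_X_add_C, one_pow,
      mul_one]
  have hcomp0 : P.comp (X + C (pp t x A B / y)) ≠ 0 := by
    intro h
    rw [h, leadingCoeff_zero] at hlc
    exact hg0 hlc.symm
  -- the leading coefficient
  have hgR : P.leadingCoeff ∈ RI k t x y := by
    rw [← hlc]
    exact hPR _
  obtain ⟨g0, Q, S, hg00, hgQ⟩ := hgR
  have hrrg : rr t x y Q S ≠ 0 := by
    rw [← hgQ]
    exact mul_ne_zero (haev g0 hg00) hg0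
  have hlam := hrr0 Q S hrrg
  obtain ⟨hu1, hu2⟩ := hz3 Q S hlam
  have hgO : (x / y) ^ J * P.leadingCoeff ∈ V := (hm _).1 (hPO P.natDegree)
  have hu0 : (x / y) ^ (lam Q S).natDegree * rr t x y Q S ≠ 0 := mul_ne_zero (pow_ne_zero _ hz0) hrrg
  have hMJ : (lam Q S).natDegree ≤ J := by
    refine PWB_neg V (x / y) ((hm _).1 hz1) (fun h => hz2 ((hm _).2 h)) hz0 J (lam Q S).natDegree
      ((x / y) ^ (lam Q S).natDegree * rr t x y Q S)
      (aeval t g0 * ((x / y) ^ J * P.leadingCoeff)) ((hm _).1 hu2) hu0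
      (V.mul_mem _ _ ((hm _).1 (hVp g0 hg00).1) hgO) ?_
    rw [← hgQ]
    ring
  by_cases hcase : ∀ n, N.coeff n ∈ VO k t x y
  · -- second case
    have hns := hNSP k K t x y A B hW hD hκ N hN hN1
    have h1 : ¬ ∀ n, (N.comp (X + C (pp t x A B / y))).coeff n ∈ RI k t x y := fun h => hns ⟨h, hcase⟩
    push Not at h1
    obtain ⟨n, hn⟩ := h1
    have h2 : ∃ V : ValuationSubring K, (∀ c : k, algebraMap k K c ∈ V) ∧ t ∈ V ∧ x ∈ V ∧ y ∈ V ∧
        (∀ p : k[X], p ≠ 0 → (aeval t p)⁻¹ ∈ V) ∧ (N.comp (X + C (pp t x A B / y))).coeff n ∉ V := by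
      by_contra hcon
      push Not at hcon
      exact hn (hINC k K t x y A B hW hD _ fun V h1 h2 h3 h4 h5 => hcon V h1 h2 h3 h4 h5)
    obtain ⟨V', hk, ht, hx, hy, hinv, hnV⟩ := h2
    have hd : (N.comp (X + C (pp t x A B / y))) ^ e ∣ P.comp (X + C (pp t x A B / y)) := by
      obtain ⟨q, hq⟩ := hNP
      refine ⟨q.comp (X + C (pp t x A B / y)), ?_⟩
      rw [hq, mul_comp, pow_comp]
    obtain ⟨a, haV, ha0, hainv, v, hv, hav⟩ := PWB_gauss V' (P.comp (X + C (pp t x A B / y)))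
      (N.comp (X + C (pp t x A B / y))) e 1 hcomp0 (hN.comp_X_add_C _) hd ⟨n, hnV⟩ (fun m => by
        rw [one_mul]
        exact PWB_RI t x y V' hk ht hx hy hinv haev _ (hPR m))
    rw [hlc, one_mul] at hav
    have hae : aeval t g0 ∈ V' := by
      refine PWB_RI t x y V' hk ht hx hy hinv haev _ ⟨1, C g0, 0, one_ne_zero, ?_⟩
      simp [rr, ev]
    refine hNRM k K t x y A B hW V' hk ht hx hy hinv a haV hainv ha0 Q S J e hlam hMJ
      ⟨aeval t g0 * v, V'.mul_mem _ _ hae hv, ?_⟩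
    rw [← hgQ, hav]
    ring
  · push Not at hcase
    obtain ⟨n, hn⟩ := hcase
    obtain ⟨a, haV, ha0, hainv, v, hv, hav⟩ := PWB_gauss V P N e ((x / y) ^ J) hP0 hN hNP
      ⟨n, fun h => hn ((hm _).2 h)⟩ (fun m => (hm _).1 (hPO m))
    -- `a` is divisible by `x / y`
    obtain ⟨Pa, Qa, Sa, hPa, hgen⟩ := hW.gen a
    have hevP : ev t x Pa ≠ 0 := hne Pa hPa
    have hrP : rr t x y Pa 0 = ev t x Pa := by simp [rr]
    have hlP : lam Pa 0 ≠ 0 := hrr0 _ _ (by rw [hrP]; exact hevP)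
    have hlQ : lam Qa Sa ≠ 0 := hrr0 _ _ (by rw [← hgen]; exact mul_ne_zero ha0 hevP)
    obtain ⟨p1, p2⟩ := hz3 Pa 0 hlP
    obtain ⟨q1, q2⟩ := hz3 Qa Sa hlQ
    rw [hrP, hm] at p1 p2
    rw [← hgen, hm] at q1 q2
    have hlt : (lam Qa Sa).natDegree < (lam Pa 0).natDegree := by
      by_contra hcon
      push Not at hcon
      apply hainv
      rw [PWB_q1 (x / y) a (ev t x Pa) hz0 ha0 hevP _ _ hcon]
      exact V.mul_mem _ _ (V.mul_mem _ _ (pow_mem ((hm _).1 hz1) _) p1) q2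
    obtain ⟨w, hw, haw⟩ : ∃ w ∈ V, a = (x / y) * w := by
      refine ⟨(x / y) ^ ((lam Pa 0).natDegree - (lam Qa Sa).natDegree - 1) *
        ((x / y) ^ (lam Qa Sa).natDegree * (a * ev t x Pa)) *
        ((x / y) ^ (lam Pa 0).natDegree * ev t x Pa)⁻¹, V.mul_mem _ _ (V.mul_mem _ _
          (pow_mem ((hm _).1 hz1) _) q1) p2, ?_⟩
      exact PWB_q2 (x / y) a (ev t x Pa) hz0 hevP _ _ hlt
    have hle : e + (lam Q S).natDegree ≤ J := by
      refine PWB_neg V (x / y) ((hm _).1 hz1) (fun h => hz2 ((hm _).2 h)) hz0 J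
        (e + (lam Q S).natDegree)
        ((x / y) ^ (lam Q S).natDegree * rr t x y Q S)
        (aeval t g0 * (w ^ e * v)) ((hm _).1 hu2) hu0
        (V.mul_mem _ _ ((hm _).1 (hVp g0 hg00).1) (V.mul_mem _ _ (pow_mem hw _) hv)) ?_
      rw [haw, mul_pow] at hav
      rw [← hgQ, pow_add]
      linear_combination ((x / y) ^ (lam Q S).natDegree * aeval t g0) * hav
    omega

end Pool.IE
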