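import Pool.Agent.Work.MP_bf99ce_ie.Interface4

/-! # Block RFR (helper25): the regular frame -/

set_option autoImplicit false

open Polynomial

noncomputable section

namespace Pool.IE

theorem RFR_aeval {k K : Type} [Field k] [Field K] [Algebra k K] (V : ValuationSubring K) (t : K)
    (hk : ∀ c : k, algebraMap k K c ∈ V) (ht : t ∈ V) (p : k[X]) : aeval t p ∈ V := by
  induction p using Polynomial.induction_on' with
  | add p q hp hq =>
    rw [map_add]
    exact V.add_mem _ _ hp hq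
  | monomial n a =>
    rw [aeval_monomial]
    exact V.mul_mem _ _ (hk a) (pow_mem ht n)

/-- the value of the new derivation at `y` -/
theorem RFR_y {K : Type} [Field K] [CharZero K] (x y a b a' b' DE DE' ka p z : K)
    (hy : y ^ 2 = x ^ 3 + a * x + b) (hy0 : y ≠ 0) (hDE : DE = 4 * a ^ 3 + 27 * b ^ 2)
    (hDE' : DE' = 12 * a ^ 2 * a' + 54 * b * b') (hka : ka = 3 * a' * b - 2 * a * b')
    (h0 : DE ≠ 0) (hp : p = (3 * ka * x ^ 2 + DE' / 6 * x + 2 * (a * ka)) / DE)
    (hz : 2 * y * z = (3 * x ^ 2 + a) * p + (a' * x + b') * 1) :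
    z = 3 / 2 * y * ((DE' / 6 + 3 * ka * x) * DE⁻¹) := by
  have h1 : DE * p = 3 * ka * x ^ 2 + DE' / 6 * x + 2 * (a * ka) := by
    rw [hp]
    field_simp
  have h2 : DE * (2 * y * z) = DE * (2 * y * (3 / 2 * y * ((DE' / 6 + 3 * ka * x) * DE⁻¹))) := by
    have h3 : DE * (2 * y * (3 / 2 * y * ((DE' / 6 + 3 * ka * x) * DE⁻¹)))
        = 3 * y ^ 2 * (DE' / 6 + 3 * ka * x) := by
      field_simp
    rw [h3, hy, hz]
    have h4 : DE * a' = 9 * b * ka + a * DE' / 3 := by
      rw [hDE, hDE', hka]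
      ring
    have h5 : DE * b' = b * DE' / 2 - 2 * a ^ 2 * ka := by
      rw [hDE, hDE', hka]
      ring
    linear_combination (3 * x ^ 2 + a) * h1 + x * h4 + h5
  exact mul_left_cancel₀ (mul_ne_zero two_ne_zero hy0) (mul_left_cancel₀ h0 h2)

theorem RFR_pres (hUNQ : Stmt_UNQ1) (hDYF : Stmt_DYF1) (hDVP : Stmt_DVP1) {k K : Type} [Field k]
    [CharZero k] [Field K] [Algebra k K] (t x y : K) (A B : k[X]) (hW : W1 k K t x y A B)
    (hD : 4 * A ^ 3 + 27 * B ^ 2 ≠ 0) (D0 D2 : Derivation k K K) (hDD : D0D t x y D0 D2)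
    (V : ValuationSubring K) (hk : ∀ c : k, algebraMap k K c ∈ V) (ht : t ∈ V) (hx : x ∈ V)
    (hy : y ∈ V) (hinv : ∀ p : k[X], p ≠ 0 → (aeval t p)⁻¹ ∈ V) :
    ∀ z ∈ V, D0 z + pp t x A B / y * D2 z ∈ V ∧ D2 z ∈ V := by
  have hcz : CharZero K := charZero_of_injective_algebraMap (algebraMap k K).injective
  obtain ⟨-, -, -, hy0, hx0, ht0, haev⟩ := hUNQ k K t x y A B hW
  have hdy := hDYF k K t x y A B hW
  have hae := RFR_aeval V t hk ht
  have hnat : ∀ n : ℕ, (n : K) ∈ V := fun n => by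
    have := hk (n : k)
    rwa [map_natCast] at this
  have hninv : ∀ n : ℕ, ((n : K))⁻¹ ∈ V := fun n => by
    have := hk ((n : k)⁻¹)
    rwa [map_inv₀, map_natCast] at this
  have m2 : (2 : K) ∈ V := by simpa using hnat 2
  have m3 : (3 : K) ∈ V := by simpa using hnat 3
  have i2 : (2 : K)⁻¹ ∈ V := by simpa using hninv 2
  have i6 : (6 : K)⁻¹ ∈ V := by simpa using hninv 6
  have hDE : aeval t (dsc A B) ≠ 0 := haev _ hD
  have hDEi : (aeval t (dsc A B))⁻¹ ∈ V := hinv _ hD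
  have e1 : aeval t (dsc A B) = 4 * (aeval t A) ^ 3 + 27 * (aeval t B) ^ 2 := by
    unfold dsc
    simp only [map_add, map_mul, map_pow, map_ofNat]
  have e2 : aeval t (derivative (dsc A B)) = 12 * (aeval t A) ^ 2 * aeval t (derivative A)
      + 54 * aeval t B * aeval t (derivative B) := by
    have h : derivative (dsc A B) = 12 * A ^ 2 * derivative A + 54 * B * derivative B := by
      unfold dsc
      rw [derivative_add, derivative_mul, derivative_mul, derivative_pow, derivative_pow,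
        derivative_ofNat, derivative_ofNat]
      simp only [map_natCast]
      push_cast
      ring
    rw [h]
    simp only [map_add, map_mul, map_pow, map_ofNat]
  have e3 : aeval t (kap A B) = 3 * aeval t (derivative A) * aeval t B
      - 2 * aeval t A * aeval t (derivative B) := by
    unfold kap
    simp only [map_sub, map_mul, map_ofNat]
  have e4 : pp t x A B = (3 * aeval t (kap A B) * x ^ 2
      + aeval t (derivative (dsc A B)) / 6 * x + 2 * (aeval t A * aeval t (kap A B)))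
        / aeval t (dsc A B) := by
    unfold pp
    rw [map_mul (aeval t) A]
  have hd : ∀ z, (D0 + (pp t x A B / y) • D2) z = D0 z + pp t x A B / y * D2 z := fun z => rfl
  have hp : pp t x A B ∈ V := by
    rw [e4, div_eq_mul_inv, div_eq_mul_inv]
    refine V.mul_mem _ _ (V.add_mem _ _ (V.add_mem _ _ ?_ ?_) ?_) hDEi
    · exact V.mul_mem _ _ (V.mul_mem _ _ m3 (hae _)) (pow_mem hx 2)
    · exact V.mul_mem _ _ (V.mul_mem _ _ (hae _) i6) hx
    · exact V.mul_mem _ _ m2 (V.mul_mem _ _ (hae _) (hae _))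
  have h1t : (D0 + (pp t x A B / y) • D2) t = 1 := by
    rw [hd, hDD.t1, hDD.t2, mul_zero, add_zero]
  have h1x : (D0 + (pp t x A B / y) • D2) x = pp t x A B := by
    rw [hd, hDD.x1, hDD.x2, zero_add, div_mul_cancel₀ _ hy0]
  have h1y : (D0 + (pp t x A B / y) • D2) y ∈ V := by
    have h2 := hdy (D0 + (pp t x A B / y) • D2)
    rw [h1t, h1x] at h2
    rw [RFR_y x y _ _ _ _ _ _ _ _ _ hW.rel hy0 e1 e2 e3 hDE e4 h2, div_eq_mul_inv,
      div_eq_mul_inv]
    refine V.mul_mem _ _ (V.mul_mem _ _ (V.mul_mem _ _ m3 i2) hy) (V.mul_mem _ _ ?_ hDEi)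
    exact V.add_mem _ _ (V.mul_mem _ _ (hae _) i6) (V.mul_mem _ _ (V.mul_mem _ _ m3 (hae _)) hx)
  have h2y : D2 y ∈ V := by
    have h2 := hdy D2
    rw [hDD.t2, hDD.x2] at h2
    have h3 : D2 y = (2 : K)⁻¹ * (3 * x ^ 2 + aeval t A) := by
      have h4 : 2 * y * D2 y = 2 * y * ((2 : K)⁻¹ * (3 * x ^ 2 + aeval t A)) := by
        rw [h2]
        field_simp
        ring
      exact mul_left_cancel₀ (mul_ne_zero two_ne_zero hy0) h4
    rw [h3]
    exact V.mul_mem _ _ i2 (V.add_mem _ _ (V.mul_mem _ _ m3 (pow_mem hx 2)) (hae A))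
  intro z hz
  refine ⟨?_, ?_⟩
  · rw [← hd]
    exact hDVP k K t x y A B hW hD V hk ht hx hy hinv _ (by rw [h1t]; exact V.one_mem)
      (by rw [h1x]; exact hp) h1y z hz
  · exact hDVP k K t x y A B hW hD V hk ht hx hy hinv D2 (by rw [hDD.t2]; exact V.zero_mem)
      (by rw [hDD.x2]; exact hy) h2y z hz

theorem RFR_lift {k K : Type} [Field k] [Field K] [Algebra k K] (D0 D2 : Derivation k K K)
    (V : ValuationSubring K) (i : ℕ) (Φ : MvPolynomial (Fin 2) K) (c : K)
    (h : ∀ z ∈ V, D0 z + c * D2 z ∈ V ∧ D2 z ∈ V) (hΦ : InL D0 D2 (V : Set K) i Φ) (e : ℕ) :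
    (MvPolynomial.aeval ![1, X + C c] Φ : K[X]).coeff e ∈ V := by
  obtain ⟨n, b, a, hb, ha, rfl⟩ := hΦ
  have hC : ∀ z ∈ V, (C z : K[X]) ∈ lifts V.subtype := fun z hz =>
    C'_mem_lifts ⟨⟨z, hz⟩, rfl⟩
  have h1 : (MvPolynomial.aeval ![1, X + C c]
      (∑ s, MvPolynomial.C (b s) * ∏ l, lf D0 D2 (a s l)) : K[X]) ∈ lifts V.subtype := by
    rw [map_sum]
    refine sum_mem fun s _ => ?_
    rw [map_mul, map_prod, MvPolynomial.aeval_C]
    refine mul_mem (hC _ (hb s)) (prod_mem fun l _ => ?_)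
    have h2 : (MvPolynomial.aeval ![1, X + C c] (lf D0 D2 (a s l)) : K[X])
        = C (D0 (a s l) + c * D2 (a s l)) + C (D2 (a s l)) * X := by
      unfold lf
      rw [map_add, map_mul, map_mul, MvPolynomial.aeval_C, MvPolynomial.aeval_C,
        MvPolynomial.aeval_X, MvPolynomial.aeval_X]
      simp only [Matrix.cons_val_zero, Matrix.cons_val_one, algebraMap_eq, map_add, map_mul]
      ring
    rw [h2]
    have h3 := h (a s l) (ha s l)
    exact add_mem (hC _ h3.1) (mul_mem (hC _ h3.2) (X_mem_lifts _))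
  rw [lifts_iff_coeff_lifts] at h1
  obtain ⟨v, hv⟩ := h1 e
  rw [← hv]
  exact v.2

theorem p_RFR (hUNQ : Stmt_UNQ1) (hDYF : Stmt_DYF1) (_hPOL : Stmt_POL) (hLAT : Stmt_LAT)
    (hINC : Stmt_INC1) (hDVP : Stmt_DVP1) : Stmt_RFR := by
  intro k K _ _ _ _ t x y A B hW hD D0 D2 hDD N u d H h0 e0 h1 Z hCD i j Ψ g Q S hNN e
  refine hINC k K t x y A B hW hD _ ?_
  intro V hk ht hx hy hinv
  have hpres := RFR_pres hUNQ hDYF hDVP t x y A B hW hD D0 D2 hDD V hk ht hx hy hinv
  obtain ⟨-, -, hl3, -⟩ := hLAT k K D0 D2 V i j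
  have h2 := hl3 N u (pol i Ψ) 1 H V.one_mem (fun s => hCD.HV V hk ht hx hy s) (hNN.sec V hk)
  have h3 := RFR_lift D0 D2 V i _ (pp t x A B / y) hpres h2 e
  have h4 : (MvPolynomial.aeval ![1, X + C (pp t x A B / y)]
      (MvPolynomial.C (1 * H ^ j) * pol i Ψ) : K[X])
      = (∑ a ∈ Finset.range (i + 1), C (H ^ j * Ψ a) * X ^ (i - a) : K[X]).comp
        (X + C (pp t x A B / y)) := by
    unfold pol
    rw [map_mul, MvPolynomial.aeval_C, map_sum, Polynomial.sum_comp, Finset.mul_sum]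
    refine Finset.sum_congr rfl fun a _ => ?_
    simp only [map_mul, map_pow, MvPolynomial.aeval_C, MvPolynomial.aeval_X, mul_comp, C_comp,
      X_comp, pow_comp, Matrix.cons_val_zero, Matrix.cons_val_one, algebraMap_eq, one_mul,
      one_pow, mul_one]
    try ring
  rw [h4] at h3
  exact h3

end Pool.IE
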