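import Pool.Agent.Work.MP_bf99ce_ie.Interface4

set_option autoImplicit false

open Polynomial AlgebraicGeometry CategoryTheory

noncomputable section

namespace Pool.IE

theorem RIC1_evC {k K : Type} [Field k] [Field K] [Algebra k K] (t x : K) (p : k[X]) :
    ev t x (C p) = aeval t p := by
  simp [ev]

theorem RIC1_evX {k K : Type} [Field k] [Field K] [Algebra k K] (t x : K) :
    ev t x (X : P2 k) = x := by
  simp [ev]

/-- `b² W ∈ R`, `W` squarefree in a principal ideal domain `R`: `b ∈ R`. -/
theorem RIC1_sqf {R E : Type} [CommRing R] [IsDomain R] [IsPrincipalIdealRing R] [Field E]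
    [Algebra R E] [IsFractionRing R E] (b : E) (W β : R) (hW : Squarefree W)
    (h : b ^ 2 * algebraMap R E W = algebraMap R E β) : ∃ b' : R, b = algebraMap R E b' := by
  classical
  obtain ⟨m, n, hrel, hb⟩ := IsFractionRing.exists_reduced_fraction (A := R) b
  have hn0 : (n : R) ≠ 0 := nonZeroDivisors.coe_ne_zero n
  have hn0' : algebraMap R E (n : R) ≠ 0 := by
    intro h0
    exact hn0 ((IsFractionRing.injective R E) (by rw [h0, map_zero]))
  have hb' : b * algebraMap R E (n : R) = algebraMap R E m := by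
    rw [← hb]
    exact IsLocalization.mk'_spec E m n
  have h1 : m ^ 2 * W = β * (n : R) ^ 2 := by
    apply IsFractionRing.injective R E
    rw [map_mul, map_mul, map_pow, map_pow, ← hb', ← h]
    ring
  have hcop : IsCoprime (n : R) m := (hrel.symm).isCoprime
  have hdvd : (n : R) ^ 2 ∣ W := by
    have h2 : (n : R) ^ 2 ∣ m ^ 2 * W := ⟨β, by rw [h1]; ring⟩
    exact (hcop.pow).dvd_of_dvd_mul_left h2
  have hu : IsUnit (n : R) := hW (n : R) (by rwa [← sq])
  obtain ⟨u, hu'⟩ := hu
  refine ⟨m * (↑u⁻¹ : R), ?_⟩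
  have h3 : algebraMap R E (n : R) * algebraMap R E (↑u⁻¹ : R) = 1 := by
    rw [← map_mul, ← hu', Units.mul_inv, map_one]
  rw [map_mul, ← hb', mul_assoc, h3, mul_one]

/-- the discriminant and separability of a cubic -/
theorem RIC1_sep {F : Type} [Field F] (a b : F) (h : 4 * a ^ 3 + 27 * b ^ 2 ≠ 0) :
    Squarefree (X ^ 3 + C a * X + C b : F[X]) := by
  apply Separable.squarefree
  have hd : derivative (X ^ 3 + C a * X + C b : F[X]) = 3 * X ^ 2 + C a := by
    simp
    rw [show (C (2 : F) : F[X]) = 2 from map_ofNat C 2]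
    norm_num
  rw [Polynomial.separable_def, hd]
  set D : F := 4 * a ^ 3 + 27 * b ^ 2 with hD
  have hC : (C D⁻¹ : F[X]) * (4 * C a ^ 3 + 27 * C b ^ 2) = 1 := by
    have : (4 * C a ^ 3 + 27 * C b ^ 2 : F[X]) = C D := by
      rw [hD]
      simp only [map_add, map_mul, map_pow]
      congr 1
    rw [this, ← C_mul, inv_mul_cancel₀ h, C_1]
  refine ⟨C D⁻¹ * (-18 * C a * X + 27 * C b), C D⁻¹ * (6 * C a * X ^ 2 - 9 * C b * X + 4 * C a ^ 2), ?_⟩
  rw [← hC]
  ring

theorem p_RIC1 (hUNQ : Stmt_UNQ1) : Stmt_RIC1 := by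
  classical
  intro k K _ _ _ _ t x y A B h hdisc
  obtain ⟨hmul, hzero, hev, hy0, hx0, ht0, hae⟩ := hUNQ k K t x y A B h
  -- the field `F = k(t)`
  let φ : k[X] →ₐ[k] K := aeval t
  have hφinj : Function.Injective φ := by
    rw [injective_iff_map_eq_zero]
    intro p hp
    by_contra hp0
    exact hae p hp0 hp
  let F := FractionRing k[X]
  let ψ : F →+* K := IsFractionRing.lift (A := k[X]) (g := (φ : k[X] →+* K)) hφinj
  have hψ : ∀ p : k[X], ψ (algebraMap k[X] F p) = aeval t p := fun p =>
    IsFractionRing.lift_algebraMap (A := k[X]) (K := F) (g := (φ : k[X] →+* K)) hφinj p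
  letI algF : Algebra F K := ψ.toAlgebra
  have hψ' : ∀ p : k[X], algebraMap F K (algebraMap k[X] F p) = aeval t p := hψ
  -- `F[X] → K`
  let χ : F[X] →+* K := eval₂RingHom ψ x
  have hχ : ∀ P : P2 k, χ (P.map (algebraMap k[X] F)) = ev t x P := by
    intro P
    show eval₂ ψ x (P.map (algebraMap k[X] F)) = eval₂ _ x P
    rw [eval₂_map]
    congr 1
    ext p
    · simp [hψ]
    · simp [hψ]
  have hclear : ∀ Q : F[X], ∃ (g : k[X]) (P : P2 k), g ≠ 0 ∧ C (algebraMap k[X] F g) * Q = P.map (algebraMap k[X] F) := by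
    intro Q
    obtain ⟨b, hb⟩ := IsLocalization.integerNormalization_map_to_map (nonZeroDivisors k[X]) Q
    refine ⟨b, IsLocalization.integerNormalization (nonZeroDivisors k[X]) Q, nonZeroDivisors.coe_ne_zero b, ?_⟩
    rw [hb]
    ext n
    simp [Algebra.smul_def]
  have hFinj : Function.Injective (algebraMap k[X] F) := IsFractionRing.injective k[X] F
  have hF0 : ∀ g : k[X], g ≠ 0 → algebraMap k[X] F g ≠ 0 := by
    intro g hg h0
    exact hg (hFinj (by rw [h0, map_zero]))
  have hclear2 : ∀ Q S : F[X], ∃ (g : k[X]) (P1 P2' : P2 k), g ≠ 0 ∧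
      C (algebraMap k[X] F g) * Q = P1.map (algebraMap k[X] F) ∧
      C (algebraMap k[X] F g) * S = P2'.map (algebraMap k[X] F) := by
    intro Q S
    obtain ⟨g1, P1, hg1, h1⟩ := hclear Q
    obtain ⟨g2, P2', hg2, h2⟩ := hclear S
    refine ⟨g1 * g2, C g2 * P1, C g1 * P2', mul_ne_zero hg1 hg2, ?_, ?_⟩
    · rw [Polynomial.map_mul, map_C, ← h1, map_mul, C_mul]; ring
    · rw [Polynomial.map_mul, map_C, ← h2, map_mul, C_mul]; ring
  have hχC : ∀ g : k[X], χ (C (algebraMap k[X] F g)) = aeval t g := by
    intro g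
    rw [← map_C, hχ, RIC1_evC]
  have hχinj : Function.Injective χ := by
    rw [injective_iff_map_eq_zero]
    intro Q hQ
    obtain ⟨g, P, hg, hP⟩ := hclear Q
    have h1 : ev t x P = 0 := by
      rw [← hχ, ← hP, map_mul, hQ, mul_zero]
    have h2 : P = 0 := h.ind P h1
    rw [h2, Polynomial.map_zero, mul_eq_zero] at hP
    rcases hP with h3 | h3
    · exfalso
      rw [C_eq_zero] at h3
      exact hF0 g hg h3
    · exact h3
  have hχzero : ∀ Q S : F[X], χ Q + χ S * y = 0 → Q = 0 ∧ S = 0 := by
    intro Q S h0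
    obtain ⟨g, P1, P2', hg, h1, h2⟩ := hclear2 Q S
    have h3 : rr t x y P1 P2' = 0 := by
      show ev t x P1 + ev t x P2' * y = 0
      rw [← hχ, ← hχ, ← h1, ← h2, map_mul, map_mul]
      linear_combination (χ (C (algebraMap k[X] F g))) * h0
    obtain ⟨h4, h5⟩ := hzero _ _ h3
    have hCg : (C (algebraMap k[X] F g) : F[X]) ≠ 0 := by
      rw [Ne, C_eq_zero]; exact hF0 g hg
    rw [h4, Polynomial.map_zero] at h1
    rw [h5, Polynomial.map_zero] at h2
    exact ⟨(mul_eq_zero.mp h1).resolve_left hCg, (mul_eq_zero.mp h2).resolve_left hCg⟩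
  -- the polynomial `W`
  let W : F[X] := X ^ 3 + C (algebraMap k[X] F A) * X + C (algebraMap k[X] F B)
  have hWsq : Squarefree W := by
    apply RIC1_sep
    have h1 : 4 * algebraMap k[X] F A ^ 3 + 27 * algebraMap k[X] F B ^ 2 = algebraMap k[X] F (4 * A ^ 3 + 27 * B ^ 2) := by
      simp only [map_add, map_mul, map_pow, map_ofNat]
    rw [h1]
    exact hF0 _ hdisc
  have hW : χ W = y ^ 2 := by
    have h1 : W = (WP A B).map (algebraMap k[X] F) := by
      simp [W, WP]
    rw [h1, hχ, h.rel]
    simp only [WP, map_add, map_mul, map_pow, RIC1_evC, RIC1_evX]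
  -- the ring `R`
  let R : Subring K :=
    { carrier := {z | ∃ Q S : F[X], z = χ Q + χ S * y}
      mul_mem' := by
        rintro z w ⟨Q, S, rfl⟩ ⟨Q', S', rfl⟩
        refine ⟨Q * Q' + S * S' * W, Q * S' + S * Q', ?_⟩
        simp only [map_add, map_mul, hW]
        ring
      one_mem' := ⟨1, 0, by simp⟩
      add_mem' := by
        rintro z w ⟨Q, S, rfl⟩ ⟨Q', S', rfl⟩
        refine ⟨Q + Q', S + S', ?_⟩
        simp only [map_add]
        ring
      zero_mem' := ⟨0, 0, by simp⟩
      neg_mem' := by
        rintro z ⟨Q, S, rfl⟩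
        refine ⟨-Q, -S, ?_⟩
        simp only [map_neg]
        ring }
  have hRmem : ∀ z : K, z ∈ R ↔ ∃ Q S : F[X], z = χ Q + χ S * y := fun z => Iff.rfl
  refine ⟨R, ?_, ?_⟩
  · ext z
    rw [SetLike.mem_coe, hRmem]
    constructor
    · rintro ⟨Q, S, rfl⟩
      obtain ⟨g, P1, P2', hg, h1, h2⟩ := hclear2 Q S
      refine ⟨g, P1, P2', hg, ?_⟩
      show _ = ev t x P1 + ev t x P2' * y
      rw [← hχ, ← hχ, ← h1, ← h2, map_mul, map_mul, hχC]
      ring
    · rintro ⟨g, Q, S, hg, h1⟩
      refine ⟨C (algebraMap k[X] F g)⁻¹ * Q.map (algebraMap k[X] F),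
        C (algebraMap k[X] F g)⁻¹ * S.map (algebraMap k[X] F), ?_⟩
      have h2 : χ (C (algebraMap k[X] F g)⁻¹) * aeval t g = 1 := by
        rw [← hχC, ← map_mul, ← C_mul, inv_mul_cancel₀ (hF0 g hg), C_1, map_one]
      rw [map_mul, map_mul, hχ, hχ]
      have h3 : aeval t g * z = ev t x Q + ev t x S * y := h1
      linear_combination χ (C (algebraMap k[X] F g)⁻¹) * h3 - z * h2
  · intro z hz
    letI algA : Algebra F[X] K := χ.toAlgebra
    have hχ' : ∀ Q : F[X], algebraMap F[X] K Q = χ Q := fun _ => rfl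
    haveI : FaithfulSMul F[X] K := (faithfulSMul_iff_algebraMap_injective F[X] K).mpr hχinj
    let E := FractionRing F[X]
    letI algE : Algebra E K := FractionRing.liftAlgebra F[X] K
    haveI tow : IsScalarTower F[X] E K := FractionRing.isScalarTower_liftAlgebra F[X] K
    have hEK : ∀ Q : F[X], algebraMap E K (algebraMap F[X] E Q) = χ Q := by
      intro Q
      rw [← IsScalarTower.algebraMap_apply F[X] E K, hχ']
    have hEinj : Function.Injective (algebraMap E K) := (algebraMap E K).injective
    -- `z` is integral over `F[X]`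
    have hyint : IsIntegral F[X] y := by
      apply IsIntegral.of_pow (n := 2) (by norm_num)
      rw [← hW, ← hχ']
      exact isIntegral_algebraMap
    have hRint : ∀ w ∈ R, w ∈ integralClosure F[X] K := by
      rintro w ⟨Q, S, rfl⟩
      rw [mem_integralClosure_iff]
      rw [← hχ', ← hχ']
      exact isIntegral_algebraMap.add (isIntegral_algebraMap.mul hyint)
    have hzC : IsIntegral (integralClosure F[X] K) z := by
      obtain ⟨q, hq, hqz⟩ := hz
      let θ : R →+* integralClosure F[X] K := (R.subtype).codRestrict (integralClosure F[X] K) (fun w => hRint w w.2)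
      refine ⟨q.map θ, hq.map _, ?_⟩
      rw [eval₂_map]
      exact hqz
    have hzA : IsIntegral F[X] z := isIntegral_trans z hzC
    -- `z = a + b y`
    obtain ⟨P, Q, S, hP, hPQS⟩ := h.gen z
    have hPF : P.map (algebraMap k[X] F) ≠ 0 := by
      intro h0
      exact hP ((Polynomial.map_injective _ hFinj) (by rw [h0, Polynomial.map_zero]))
    have hPE : algebraMap F[X] E (P.map (algebraMap k[X] F)) ≠ 0 := by
      intro h0
      exact hPF ((IsFractionRing.injective F[X] E) (by rw [h0, map_zero]))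
    obtain ⟨a, ha⟩ : ∃ a : E, a * algebraMap F[X] E (P.map (algebraMap k[X] F)) =
        algebraMap F[X] E (Q.map (algebraMap k[X] F)) :=
      ⟨algebraMap F[X] E (Q.map (algebraMap k[X] F)) / algebraMap F[X] E (P.map (algebraMap k[X] F)),
        div_mul_cancel₀ _ hPE⟩
    obtain ⟨b, hb⟩ : ∃ b : E, b * algebraMap F[X] E (P.map (algebraMap k[X] F)) =
        algebraMap F[X] E (S.map (algebraMap k[X] F)) :=
      ⟨algebraMap F[X] E (S.map (algebraMap k[X] F)) / algebraMap F[X] E (P.map (algebraMap k[X] F)),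
        div_mul_cancel₀ _ hPE⟩
    have ha' := congrArg (algebraMap E K) ha
    have hb' := congrArg (algebraMap E K) hb
    rw [map_mul, hEK, hEK, hχ, hχ] at ha' hb'
    have hzab : z = algebraMap E K a + algebraMap E K b * y := by
      apply mul_right_cancel₀ (hev P hP)
      rw [hPQS]
      show ev t x Q + ev t x S * y = _
      rw [← ha', ← hb']
      ring
    have hyE : ∀ e : E, y ≠ algebraMap E K e := by
      intro e he
      obtain ⟨m, n, hn, hmn⟩ := IsFractionRing.div_surjective (A := F[X]) e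
      have hn0 : n ≠ 0 := nonZeroDivisors.ne_zero hn
      have hnE : algebraMap F[X] E n ≠ 0 := by
        intro h0
        exact hn0 ((IsFractionRing.injective F[X] E) (by rw [h0, map_zero]))
      have h1 : e * algebraMap F[X] E n = algebraMap F[X] E m := by
        rw [← hmn]; exact div_mul_cancel₀ _ hnE
      have h2 := congrArg (algebraMap E K) h1
      rw [map_mul, hEK, hEK, ← he] at h2
      have h3 := hχzero m (-n) (by rw [map_neg]; linear_combination -h2)
      exact hn0 (neg_eq_zero.mp h3.2)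
    have key : ∃ α β : F[X], a = algebraMap F[X] E α ∧ b = algebraMap F[X] E β := by
      by_cases hb0 : b = 0
      · have h1 : z = algebraMap E K a := by rw [hzab, hb0, map_zero, zero_mul, add_zero]
        rw [h1, isIntegral_algebraMap_iff hEinj] at hzA
        obtain ⟨α, hα⟩ := IsIntegrallyClosed.isIntegral_iff.mp hzA
        exact ⟨α, 0, hα.symm, by rw [hb0, map_zero]⟩
      · let p : E[X] := X ^ 2 + C (-(2 * a)) * X + C (a ^ 2 - b ^ 2 * algebraMap F[X] E W)
        have hpdeg : p.natDegree = 2 := by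
          simp only [p]
          compute_degree!
        have hpmon : p.Monic := by
          simp only [p]
          monicity!
        have hpz : aeval z p = 0 := by
          have h1 : algebraMap E K (algebraMap F[X] E W) = y ^ 2 := by rw [hEK, hW]
          simp only [p, map_add, map_mul, map_pow, aeval_X, aeval_C, map_neg, map_sub, h1, map_ofNat]
          rw [hzab]
          ring
        have hzE : IsIntegral E z := ⟨p, hpmon, hpz⟩
        have hdvd : minpoly E z ∣ p := minpoly.dvd E z hpz
        have hmon : (minpoly E z).Monic := minpoly.monic hzE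
        have hpos : 0 < (minpoly E z).natDegree := minpoly.natDegree_pos hzE
        have hne1 : (minpoly E z).natDegree ≠ 1 := by
          rw [Ne, minpoly.natDegree_eq_one_iff]
          rintro ⟨e, he⟩
          have hbK : algebraMap E K b ≠ 0 := by
            rw [Ne, map_eq_zero]; exact hb0
          apply hyE ((e - a) / b)
          rw [map_div₀, map_sub, he, eq_div_iff hbK]
          rw [hzab]
          ring
        have heq : p = minpoly E z :=
          Polynomial.eq_of_monic_of_dvd_of_natDegree_le hmon hpmon hdvd (by omega)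
        have hmin := minpoly.isIntegrallyClosed_eq_field_fractions' E hzA
        rw [← heq] at hmin
        have hc1 := congrArg (fun q : E[X] => q.coeff 1) hmin
        have hc0 := congrArg (fun q : E[X] => q.coeff 0) hmin
        simp only [p, coeff_map, coeff_add, coeff_X_pow, coeff_C_mul, coeff_C, coeff_X] at hc1 hc0
        norm_num at hc1 hc0
        have h2F : (2 : F) ≠ 0 := by
          have h3 := hF0 (2 : k[X]) two_ne_zero
          rwa [map_ofNat] at h3
        have h2E : algebraMap F[X] E (C (2 : F)⁻¹) * 2 = 1 := by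
          have h3 : (C (2 : F)⁻¹ : F[X]) * 2 = 1 := by
            rw [show (2 : F[X]) = C (2 : F) from (map_ofNat C 2).symm, ← C_mul, inv_mul_cancel₀ h2F, C_1]
          have h4 := congrArg (algebraMap F[X] E) h3
          rwa [map_mul, map_ofNat, map_one] at h4
        have haα : a = algebraMap F[X] E (-(C (2 : F)⁻¹ * (minpoly F[X] z).coeff 1)) := by
          rw [map_neg, map_mul, ← hc1]
          linear_combination -a * h2E
        obtain ⟨β, hβ⟩ := RIC1_sqf b W ((-(C (2 : F)⁻¹ * (minpoly F[X] z).coeff 1)) ^ 2 - (minpoly F[X] z).coeff 0) hWsq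
          (by rw [map_sub, map_pow, ← haα, ← hc0]; ring)
        exact ⟨_, β, haα, hβ⟩
    obtain ⟨α, β, hα, hβ⟩ := key
    rw [hRmem]
    refine ⟨α, β, ?_⟩
    rw [hzab, hα, hβ, hEK, hEK]

end Pool.IE
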