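import Pool.Agent.Work.MP_bf99ce_ie.Interface3

/-!
# Block SYI (THEOREM IEM): pull back of symmetric forms to the generic line
-/

set_option autoImplicit false

open Polynomial

noncomputable section

namespace Pool.IE

/-- the elements of `K` whose differential lies in a given subspace -/
def SYI_L {k K : Type} [Field k] [Field K] [Algebra k K] (N : Submodule K (Ω[K⁄k])) :
    Subalgebra k K where
  carrier := {z | KaehlerDifferential.D k K z ∈ N}
  mul_mem' := by
    intro a b ha hb
    simp only [Set.mem_ofPred_eq] at ha hb ⊢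
    rw [Derivation.leibniz]
    exact N.add_mem (N.smul_mem _ hb) (N.smul_mem _ ha)
  add_mem' := by
    intro a b ha hb
    simp only [Set.mem_ofPred_eq] at ha hb ⊢
    rw [map_add]
    exact N.add_mem ha hb
  algebraMap_mem' := by
    intro c
    simp only [Set.mem_ofPred_eq, Derivation.map_algebraMap]
    exact N.zero_mem

lemma SYI_mem {k K : Type} [Field k] [Field K] [Algebra k K] (N : Submodule K (Ω[K⁄k])) (z : K) :
    z ∈ SYI_L N ↔ KaehlerDifferential.D k K z ∈ N := Iff.rfl

lemma SYI_quot {k K : Type} [Field k] [Field K] [Algebra k K] (N : Submodule K (Ω[K⁄k])) (z a : K)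
    (ha0 : a ≠ 0) (ha : a ∈ SYI_L N) (hza : z * a ∈ SYI_L N) : z ∈ SYI_L N := by
  rw [SYI_mem] at *
  rw [Derivation.leibniz] at hza
  have h1 : a • KaehlerDifferential.D k K z ∈ N := by
    have h2 := N.sub_mem hza (N.smul_mem z ha)
    rwa [add_sub_cancel_left] at h2
  have h3 := N.smul_mem a⁻¹ h1
  rwa [smul_smul, inv_mul_cancel₀ ha0, one_smul] at h3

lemma SYI_aeval {k K : Type} [Field k] [Field K] [Algebra k K] {m : ℕ}
    (N : Submodule K (Ω[K⁄k])) (t : Fin m → K) (ht : ∀ l, t l ∈ SYI_L N)
    (p : MvPolynomial (Fin m) k) : MvPolynomial.aeval t p ∈ SYI_L N := by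
  induction p using MvPolynomial.induction_on with
  | C a =>
    rw [MvPolynomial.aeval_C]
    exact (SYI_L N).algebraMap_mem a
  | add p q hp hq => rw [map_add]; exact add_mem hp hq
  | mul_X p i hp => rw [map_mul, MvPolynomial.aeval_X]; exact mul_mem hp (ht i)

lemma SYI_evm {k K : Type} [Field k] [Field K] [Algebra k K] {m : ℕ}
    (N : Submodule K (Ω[K⁄k])) (t : Fin m → K) (x : K) (ht : ∀ l, t l ∈ SYI_L N)
    (hx : x ∈ SYI_L N) (P : Polynomial (MvPolynomial (Fin m) k)) : evm t x P ∈ SYI_L N := by
  induction P using Polynomial.induction_on' with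
  | add p q hp hq => rw [map_add]; exact add_mem hp hq
  | monomial n a =>
    have h1 : evm t x (monomial n a) = MvPolynomial.aeval t a * x ^ n := by simp [evm]
    rw [h1]
    exact mul_mem (SYI_aeval N t ht a) (pow_mem hx n)

lemma SYI_span {k K : Type} [Field k] [CharZero k] [Field K] [Algebra k K] {m : ℕ}
    {t : Fin m → K} {x y : K} {A B : MvPolynomial (Fin m) k} (hWM : WM k K t x y A B)
    (hy0 : y ≠ 0) (N : Submodule K (Ω[K⁄k]))
    (ht : ∀ l, KaehlerDifferential.D k K (t l) ∈ N) (hx : KaehlerDifferential.D k K x ∈ N) :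
    N = ⊤ := by
  have htN : ∀ l, t l ∈ SYI_L N := fun l => ht l
  have hxN : x ∈ SYI_L N := hx
  have hyN : y ∈ SYI_L N := by
    have hy2 : y ^ 2 ∈ SYI_L N := by
      rw [hWM.rel]
      exact add_mem (add_mem (pow_mem hxN 3) (mul_mem (SYI_aeval N t htN A) hxN))
        (SYI_aeval N t htN B)
    rw [SYI_mem, pow_two, Derivation.leibniz] at hy2
    rw [SYI_mem]
    have h3 : (2 * y) • KaehlerDifferential.D k K y ∈ N := by
      rw [two_mul, add_smul]; exact hy2
    have h4 : (2 * y) ≠ 0 := by
      have : CharZero K := charZero_of_injective_algebraMap (algebraMap k K).injective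
      exact mul_ne_zero two_ne_zero hy0
    have h5 := N.smul_mem (2 * y)⁻¹ h3
    rwa [smul_smul, inv_mul_cancel₀ h4, one_smul] at h5
  have hall : ∀ z : K, z ∈ SYI_L N := by
    intro z
    obtain ⟨P, Q, S, hP, hz⟩ := hWM.gen z
    refine SYI_quot N z (evm t x P) (fun h => hP (hWM.ind P h)) (SYI_evm N t x htN hxN P) ?_
    rw [hz]
    exact add_mem (SYI_evm N t x htN hxN Q) (mul_mem (SYI_evm N t x htN hxN S) hyN)
  rw [eq_top_iff, ← KaehlerDifferential.span_range_derivation k K, Submodule.span_le]
  rintro _ ⟨z, rfl⟩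
  exact hall z

/-- the derivation into the polynomial ring -/
def SYI_D {k K k' K' : Type} [Field k] [Field K] [Algebra k K] [Field k'] [Field K']
    [Algebra k' K'] [Algebra k k'] [Algebra K K'] [Algebra k K'] [IsScalarTower k K K']
    (h : ∀ c : k, algebraMap k K' c = algebraMap k' K' (algebraMap k k' c))
    (D1 D2 : Derivation k' K' K') : Derivation k K (MvPolynomial (Fin 2) K') :=
  Derivation.mk'
    { toFun := fun a => lf D1 D2 (algebraMap K K' a)
      map_add' := by
        intro a b
        simp only [lf, map_add]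
        ring
      map_smul' := by
        intro c a
        have h1 : algebraMap K K' (c • a) = algebraMap k k' c • algebraMap K K' a := by
          rw [Algebra.smul_def, map_mul, ← IsScalarTower.algebraMap_apply, h, Algebra.smul_def]
        rw [h1]
        simp only [lf, RingHom.id_apply]
        rw [Derivation.map_smul, Derivation.map_smul, Algebra.smul_def (algebraMap k k' c) (D1 _),
          Algebra.smul_def (algebraMap k k' c) (D2 _),
          Algebra.smul_def c, MvPolynomial.algebraMap_apply, h, map_mul, map_mul]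
        ring }
    (by
      intro a b
      simp only [LinearMap.coe_mk, AddHom.coe_mk, lf, map_mul, Derivation.leibniz, map_add,
        smul_eq_mul, Algebra.smul_def, MvPolynomial.algebraMap_apply]
      ring)

theorem SYI_D_apply {k K k' K' : Type} [Field k] [Field K] [Algebra k K] [Field k'] [Field K']
    [Algebra k' K'] [Algebra k k'] [Algebra K K'] [Algebra k K'] [IsScalarTower k K K']
    (h : ∀ c : k, algebraMap k K' c = algebraMap k' K' (algebraMap k k' c))
    (D1 D2 : Derivation k' K' K') (a : K) : SYI_D h D1 D2 a = lf D1 D2 (algebraMap K K' a) := rfl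

theorem p_SYI : Stmt_SYI := by
  intro k K k' K' _ _ _ _ _ _ _ _ m t x y A B β α s x' y' hWM hy'0 j hj1 hj2 hjx hjy hH D1 D2
    hD1s hD2s hD2x
  let _ : Algebra K K' := j.toAlgebra
  let _ : Algebra k K' := (j.comp (algebraMap k K)).toAlgebra
  have _ : IsScalarTower k K K' := IsScalarTower.of_algebraMap_eq fun _ => rfl
  have hjj : ∀ a : K, algebraMap K K' a = j a := fun _ => rfl
  have hk : ∀ c : k, algebraMap k K' c = algebraMap k' K' (algebraMap k k' c) := fun c => hj1 c
  have hy0 : y ≠ 0 := by
    rintro rfl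
    exact hy'0 (by rw [← hjy, map_zero])
  set Lin : Ω[K⁄k] →ₗ[K] MvPolynomial (Fin 2) K' := (SYI_D hk D1 D2).liftKaehlerDifferential
    with hLin
  have hLinD : ∀ a, Lin (KaehlerDifferential.D k K a) = lf D1 D2 (j a) := fun a =>
    Derivation.liftKaehlerDifferential_comp_D (SYI_D hk D1 D2) a
  set ε : SymmetricAlgebra K (Ω[K⁄k]) →ₐ[K] MvPolynomial (Fin 2) K' := SymmetricAlgebra.lift Lin
    with hε
  have hει : ∀ a : K, ε (SymmetricAlgebra.ι K (Ω[K⁄k]) (KaehlerDifferential.D k K a)) =
      lf D1 D2 (j a) := by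
    intro a
    rw [hε, SymmetricAlgebra.lift_ι_apply, hLinD]
  have hεC : ∀ c : K, ε (algebraMap K _ c) = MvPolynomial.C (j c) := by
    intro c
    rw [AlgHom.commutes, MvPolynomial.algebraMap_apply, hjj]
  -- the surjection from the polynomial ring
  set π : MvPolynomial (Option (Fin m)) K →ₐ[K] SymmetricAlgebra K (Ω[K⁄k]) :=
    MvPolynomial.aeval fun o : Option (Fin m) =>
      SymmetricAlgebra.ι K (Ω[K⁄k]) (KaehlerDifferential.D k K (o.elim x t)) with hπ
  have hπX : ∀ o : Option (Fin m), π (MvPolynomial.X o) =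
      SymmetricAlgebra.ι K (Ω[K⁄k]) (KaehlerDifferential.D k K (o.elim x t)) := fun o => by
    rw [hπ, MvPolynomial.aeval_X]
  have hsurj : Function.Surjective π := by
    have hN : Submodule.comap (SymmetricAlgebra.ι K (Ω[K⁄k]))
        (Subalgebra.toSubmodule π.range) = ⊤ := by
      refine SYI_span hWM hy0 _ (fun l => ?_) ?_
      · rw [Submodule.mem_comap]
        exact ⟨MvPolynomial.X (some l), hπX (some l)⟩
      · rw [Submodule.mem_comap]
        exact ⟨MvPolynomial.X none, hπX none⟩
    intro z
    have hz : z ∈ π.range := by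
      induction z using SymmetricAlgebra.induction with
      | algebraMap r => exact π.range.algebraMap_mem r
      | ι w =>
        have h1 : w ∈ Submodule.comap (SymmetricAlgebra.ι K (Ω[K⁄k]))
            (Subalgebra.toSubmodule π.range) := by rw [hN]; trivial
        exact h1
      | mul a b ha hb => exact mul_mem ha hb
      | add a b ha hb => exact add_mem ha hb
    exact hz
  -- evaluation at `X0 = 1`
  set ψ : MvPolynomial (Fin 2) K' →+* K'[X] := MvPolynomial.eval₂Hom C
    ![1, C y'⁻¹ * (X - C (D1 x'))] with hψ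
  set g1 : MvPolynomial (Option (Fin m)) K →+* K'[X] :=
    (ψ.comp (ε : SymmetricAlgebra K (Ω[K⁄k]) →+* MvPolynomial (Fin 2) K')).comp
      (π : MvPolynomial (Option (Fin m)) K →+* SymmetricAlgebra K (Ω[K⁄k])) with hg1
  set e2 : MvPolynomial (Fin m) K →+* K' :=
    MvPolynomial.eval₂Hom j (fun l => algebraMap k' K' (β l)) with he2
  set g2 : MvPolynomial (Option (Fin m)) K →+* K'[X] :=
    (Polynomial.mapRingHom e2).comp
      ((MvPolynomial.optionEquivLeft K (Fin m)) : MvPolynomial (Option (Fin m)) K →+*
        Polynomial (MvPolynomial (Fin m) K)) with hg2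
  have hψlf : ∀ a : K', ψ (lf D1 D2 a) = C (D1 a) + C (D2 a) * (C y'⁻¹ * (X - C (D1 x'))) := by
    intro a
    rw [lf, map_add, map_mul, map_mul, hψ]
    simp
  have hgg : g1 = g2 := by
    refine MvPolynomial.ringHom_ext (fun c => ?_) (fun o => ?_)
    · have h1 : π (MvPolynomial.C c) = algebraMap K _ c := by
        rw [hπ, MvPolynomial.aeval_C]
      have h2 : g1 (MvPolynomial.C c) = ψ (ε (π (MvPolynomial.C c))) := rfl
      have h3 : g2 (MvPolynomial.C c) =
          Polynomial.map e2 (MvPolynomial.optionEquivLeft K (Fin m) (MvPolynomial.C c)) := rfl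
      rw [h2, h3, h1, hεC, MvPolynomial.optionEquivLeft_C, Polynomial.map_C, he2, hψ]
      simp
    · have h2 : g1 (MvPolynomial.X o) = ψ (ε (π (MvPolynomial.X o))) := rfl
      have h3 : g2 (MvPolynomial.X o) =
          Polynomial.map e2 (MvPolynomial.optionEquivLeft K (Fin m) (MvPolynomial.X o)) := rfl
      rw [h2, h3, hπX, hει, hψlf]
      cases o with
      | none =>
        rw [MvPolynomial.optionEquivLeft_X_none, Polynomial.map_X]
        show C (D1 (j x)) + C (D2 (j x)) * (C y'⁻¹ * (X - C (D1 x'))) = X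
        rw [hjx, hD2x, ← mul_assoc, ← C_mul, mul_inv_cancel₀ hy'0, C_1, one_mul]
        ring
      | some l =>
        rw [MvPolynomial.optionEquivLeft_X_some, Polynomial.map_C]
        show C (D1 (j (t l))) + C (D2 (j (t l))) * (C y'⁻¹ * (X - C (D1 x'))) = _
        have h4 : ∀ D : Derivation k' K' K', D (j (t l)) = algebraMap k' K' (β l) * D s := by
          intro D
          rw [hj2, map_add, Derivation.map_algebraMap, zero_add, Derivation.leibniz,
            Derivation.map_algebraMap, smul_zero, add_zero, smul_eq_mul]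
        rw [h4, h4, hD1s, hD2s, mul_one, mul_zero, C_0, zero_mul, add_zero, he2]
        simp
  have hinj2 : Function.Injective g2 := by
    have h1 : Function.Injective e2 := by
      rw [injective_iff_map_eq_zero]
      intro P hP
      exact hH P hP
    have h2 := Polynomial.map_injective e2 h1
    exact h2.comp (MvPolynomial.optionEquivLeft K (Fin m)).injective
  refine ⟨(ε : SymmetricAlgebra K (Ω[K⁄k]) →+* MvPolynomial (Fin 2) K'), ?_, hεC, hει⟩
  intro a b hab
  obtain ⟨p, rfl⟩ := hsurj a
  obtain ⟨q, rfl⟩ := hsurj b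
  have h1 : g1 p = g1 q := congrArg ψ hab
  rw [hgg] at h1
  rw [hinj2 h1]

end Pool.IE
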