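import Pool.Agent.Work.MP_bf99ce_ie.Interface4

set_option autoImplicit false

open Polynomial

noncomputable section

namespace Pool.IE

theorem SYV_sum (S : Finset ℕ) : S.card * S.card ≤ 2 * ∑ x ∈ S, x + S.card := by
  induction S using Finset.induction_on_max with
  | empty => simp
  | insert a s ha ih =>
    have hns : a ∉ s := fun h => lt_irrefl _ (ha a h)
    rw [Finset.sum_insert hns, Finset.card_insert_of_notMem hns]
    have h1 : s.card ≤ a := by
      have h2 : s ⊆ Finset.range a := fun x hx => Finset.mem_range.2 (ha x hx)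
      simpa using Finset.card_le_card h2
    nlinarith

theorem SYV_sumFin (n : ℕ) (A : Finset (Fin n)) :
    A.card * A.card ≤ 2 * ∑ j ∈ A, (j : ℕ) + A.card := by
  have h := SYV_sum (A.image Fin.val)
  have hc : (A.image Fin.val).card = A.card := Finset.card_image_of_injective _ Fin.val_injective
  have hs : ∑ x ∈ A.image Fin.val, x = ∑ j ∈ A, (j : ℕ) :=
    Finset.sum_image (fun a _ b _ hab => Fin.val_injective hab)
  rw [hc, hs] at h
  exact h

theorem SYV_part (K : Type) [Field K] (V : ValuationSubring K) (z : K) (n T T' : ℕ)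
    (r : Fin n → ℕ) (m : Fin n → K) (hV : ∀ j, m j ∈ V)
    (h : ∀ j : Fin n, ∃ v ∈ V, z ^ r j * m j = z ^ (T' + (j : ℕ)) * v) :
    ∃ v ∈ V, z ^ (∑ j ∈ Finset.univ.filter (fun j => r j < T), r j) * ∏ j, m j =
      z ^ (∑ j ∈ Finset.univ.filter (fun j => r j < T), (T' + (j : ℕ))) * v := by
  choose w hw hwz using h
  refine ⟨(∏ j ∈ Finset.univ.filter (fun j => r j < T), w j) *
    ∏ j ∈ Finset.univ.filter (fun j => ¬ r j < T), m j,
    V.mul_mem _ _ (V.toSubring.prod_mem fun j _ => hw j) (V.toSubring.prod_mem fun j _ => hV j), ?_⟩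
  rw [← Finset.prod_filter_mul_prod_filter_not Finset.univ (fun j => r j < T) m,
    ← Finset.prod_pow_eq_pow_sum, ← Finset.prod_pow_eq_pow_sum, ← mul_assoc, ← mul_assoc,
    ← Finset.prod_mul_distrib, ← Finset.prod_mul_distrib]
  congr 1
  exact Finset.prod_congr rfl fun j _ => hwz j

theorem SYV_count (n T : ℕ) (hT : T ≤ n + n) (σ : Equiv.Perm (Fin (n + n))) (f : ℕ → ℕ) :
    ∑ j ∈ Finset.univ.filter (fun j : Fin n => (σ (Fin.castAdd n j) : ℕ) < T),
        f (σ (Fin.castAdd n j)) +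
      ∑ j ∈ Finset.univ.filter (fun j : Fin n => (σ (Fin.natAdd n j) : ℕ) < T),
        f (σ (Fin.natAdd n j)) = ∑ c ∈ Finset.range T, f c := by
  rw [Finset.sum_filter, Finset.sum_filter,
    ← Fin.sum_univ_add (fun i : Fin (n + n) => if (σ i : ℕ) < T then f (σ i) else 0),
    Equiv.sum_comp σ (fun i : Fin (n + n) => if (i : ℕ) < T then f i else 0),
    Fin.sum_univ_eq_sum_range (fun c => if c < T then f c else 0) (n + n), ← Finset.sum_filter]
  congr 1
  ext c
  simp only [Finset.mem_filter, Finset.mem_range]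
  omega

theorem SYV_arith (n1 n2 T1 T2 s1 s2 S : ℕ) (h : n1 + n2 = T1 + T2) (h1 : n1 * n1 ≤ 2 * s1 + n1)
    (h2 : n2 * n2 ≤ 2 * s2 + n2) (hS : 2 * S + (T1 + T2) = (T1 + T2) * (T1 + T2)) :
    S + T1 * T2 ≤ (n2 * T2 + s2) + (n1 * T1 + s1) := by
  zify at *
  have hn2 : (n2 : ℤ) = T1 + T2 - n1 := by linarith
  rw [hn2] at h2 ⊢
  nlinarith [sq_nonneg ((n1 : ℤ) - T2)]

theorem SYV_term (K : Type) [Field K] (V : ValuationSubring K) (z : K) (hz : z ∈ V) (hz0 : z ≠ 0)
    (n T1 T2 : ℕ) (hT : T1 + T2 ≤ n + n) (M : Matrix (Fin (n + n)) (Fin (n + n)) K)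
    (hV : ∀ i j, M i j ∈ V)
    (h1 : ∀ (i : Fin (n + n)) (j : Fin n), ∃ v ∈ V, z ^ (i : ℕ) * M i (Fin.castAdd n j) = z ^ (T2 + (j : ℕ)) * v)
    (h2 : ∀ (i : Fin (n + n)) (j : Fin n), ∃ v ∈ V, z ^ (i : ℕ) * M i (Fin.natAdd n j) = z ^ (T1 + (j : ℕ)) * v)
    (σ : Equiv.Perm (Fin (n + n))) : ∃ v ∈ V, ∏ i, M (σ i) i = z ^ (T1 * T2) * v := by
  obtain ⟨v2, hv2, e2⟩ := SYV_part K V z n (T1 + T2) T2 (fun j => (σ (Fin.castAdd n j) : ℕ))
    (fun j => M (σ (Fin.castAdd n j)) (Fin.castAdd n j)) (fun j => hV _ _) (fun j => h1 _ j)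
  obtain ⟨v1, hv1, e1⟩ := SYV_part K V z n (T1 + T2) T1 (fun j => (σ (Fin.natAdd n j) : ℕ))
    (fun j => M (σ (Fin.natAdd n j)) (Fin.natAdd n j)) (fun j => hV _ _) (fun j => h2 _ j)
  have hc := SYV_count n (T1 + T2) hT σ (fun _ => 1)
  have hs := SYV_count n (T1 + T2) hT σ (fun c => c)
  simp only [Finset.sum_const, smul_eq_mul, mul_one, Finset.card_range] at hc
  simp only [Finset.sum_add_distrib, Finset.sum_const, smul_eq_mul] at e1 e2
  have hA1 := SYV_sumFin n (Finset.univ.filter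
    (fun j : Fin n => (σ (Fin.natAdd n j) : ℕ) < T1 + T2))
  have hA2 := SYV_sumFin n (Finset.univ.filter
    (fun j : Fin n => (σ (Fin.castAdd n j) : ℕ) < T1 + T2))
  have hS : 2 * (∑ c ∈ Finset.range (T1 + T2), c) + (T1 + T2) = (T1 + T2) * (T1 + T2) := by
    have h3 := Finset.sum_range_id_mul_two (T1 + T2)
    rcases Nat.eq_zero_or_pos (T1 + T2) with h0 | h0
    · rw [h0]; simp
    · have : (T1 + T2) * (T1 + T2 - 1) + (T1 + T2) = (T1 + T2) * (T1 + T2) := by
        conv_rhs => rw [show (T1 + T2) * (T1 + T2) = (T1 + T2) * ((T1 + T2 - 1) + 1) by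
          rw [Nat.sub_add_cancel h0]]
        ring
      linarith
  have hle := SYV_arith _ _ T1 T2 _ _ _ (by rw [add_comm]; exact hc) hA1 hA2 hS
  obtain ⟨d, hd⟩ := Nat.exists_eq_add_of_le hle
  refine ⟨z ^ d * (v2 * v1), V.mul_mem _ _ (V.toSubring.pow_mem hz d) (V.mul_mem _ _ hv2 hv1), ?_⟩
  rw [Fin.prod_univ_add]
  apply mul_left_cancel₀ (pow_ne_zero (∑ c ∈ Finset.range (T1 + T2), c) hz0)
  have hL : z ^ (∑ c ∈ Finset.range (T1 + T2), c) *
      ((∏ j : Fin n, M (σ (Fin.castAdd n j)) (Fin.castAdd n j)) *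
        ∏ j : Fin n, M (σ (Fin.natAdd n j)) (Fin.natAdd n j)) =
      (z ^ (∑ j ∈ Finset.univ.filter (fun j : Fin n => (σ (Fin.castAdd n j) : ℕ) < T1 + T2),
        (σ (Fin.castAdd n j) : ℕ)) * ∏ j : Fin n, M (σ (Fin.castAdd n j)) (Fin.castAdd n j)) *
      (z ^ (∑ j ∈ Finset.univ.filter (fun j : Fin n => (σ (Fin.natAdd n j) : ℕ) < T1 + T2),
        (σ (Fin.natAdd n j) : ℕ)) * ∏ j : Fin n, M (σ (Fin.natAdd n j)) (Fin.natAdd n j)) := by
    rw [← hs, pow_add]; ring
  rw [hL, e1, e2, show ∀ a b c d : K, a * b * (c * d) = (a * c) * (b * d) from fun a b c d => by ring,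
    ← pow_add, hd, pow_add, pow_add]
  ring

theorem p_SYV : Stmt_SYV := by
  intro K _ V z hz hz0 n T1 T2 hT P P' hP hP'
  have hT' : T1 + T2 ≤ n + n := by omega
  have hM : ∀ i j, sylvester P P' n n i j ∈ V := by
    intro i j
    induction j using Fin.addCases with
    | left j =>
      simp only [sylvester, Matrix.of_apply, Fin.addCases_left]
      split_ifs
      · exact (hP' _).1
      · exact V.zero_mem
    | right j =>
      simp only [sylvester, Matrix.of_apply, Fin.addCases_right]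
      split_ifs
      · exact (hP _).1
      · exact V.zero_mem
  have h1 : ∀ (i : Fin (n + n)) (j : Fin n), ∃ v ∈ V,
      z ^ (i : ℕ) * sylvester P P' n n i (Fin.castAdd n j) = z ^ (T2 + (j : ℕ)) * v := by
    intro i j
    simp only [sylvester, Matrix.of_apply, Fin.addCases_left]
    split_ifs with h
    · obtain ⟨v, hv, e⟩ := (hP' ((i : ℕ) - j)).2
      refine ⟨v, hv, ?_⟩
      have hi : (i : ℕ) = j + (i - j) := by have := h.1; omega
      conv_lhs => rw [hi]
      rw [pow_add, Nat.add_sub_cancel_left, mul_assoc, e, pow_add]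
      ring
    · exact ⟨0, V.zero_mem, by simp⟩
  have h2 : ∀ (i : Fin (n + n)) (j : Fin n), ∃ v ∈ V,
      z ^ (i : ℕ) * sylvester P P' n n i (Fin.natAdd n j) = z ^ (T1 + (j : ℕ)) * v := by
    intro i j
    simp only [sylvester, Matrix.of_apply, Fin.addCases_right]
    split_ifs with h
    · obtain ⟨v, hv, e⟩ := (hP ((i : ℕ) - j)).2
      refine ⟨v, hv, ?_⟩
      have hi : (i : ℕ) = j + (i - j) := by have := h.1; omega
      conv_lhs => rw [hi]
      rw [pow_add, Nat.add_sub_cancel_left, mul_assoc, e, pow_add]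
      ring
    · exact ⟨0, V.zero_mem, by simp⟩
  choose w hw hwe using SYV_term K V z hz hz0 n T1 T2 hT' (sylvester P P' n n) hM h1 h2
  refine ⟨∑ σ : Equiv.Perm (Fin (n + n)), ((Equiv.Perm.sign σ : ℤ) : K) * w σ,
    V.toSubring.sum_mem fun σ _ => V.mul_mem _ _ (intCast_mem V.toSubring _) (hw σ), ?_⟩
  rw [resultant, Matrix.det_apply', Finset.mul_sum]
  refine Finset.sum_congr rfl fun σ _ => ?_
  rw [hwe σ]
  ring

end Pool.IE
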