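import Pool.Agent.Work.MP_bf99ce_ie.Interface

/-!
# Block TRL: translation
-/

set_option autoImplicit false

open Polynomial AlgebraicGeometry CategoryTheory

noncomputable section

namespace Pool.IE

/-- The translation of polynomials in `T`. -/
def TRL_t {k : Type} [Field k] (c : k) : k[X] →+* k[X] := compRingHom (X + C c)

theorem TRL_t_apply {k : Type} [Field k] (c : k) (p : k[X]) : TRL_t c p = p.comp (X + C c) := rfl

theorem TRL_inv {k : Type} [Field k] (c : k) (p : k[X]) : TRL_t (-c) (TRL_t c p) = p := by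
  rw [TRL_t_apply, TRL_t_apply, comp_assoc]
  have : (X + C c : k[X]).comp (X + C (-c)) = X := by
    rw [add_comp, X_comp, C_comp, C_neg]
    ring
  rw [this, comp_X]

theorem TRL_inj {k : Type} [Field k] (c : k) : Function.Injective (TRL_t c) := by
  intro p q h
  rw [← TRL_inv c p, h, TRL_inv]

theorem TRL_aeval {k K : Type} [Field k] [Field K] [Algebra k K] (t : K) (c : k) (p : k[X]) :
    aeval (t - algebraMap k K c) (TRL_t c p) = aeval t p := by
  rw [TRL_t_apply, aeval_comp]
  congr 2
  rw [map_add, aeval_X, aeval_C, sub_add_cancel]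

/-- The translation of polynomials in `T` and `X`. -/
def TRL_m {k : Type} [Field k] (c : k) : P2 k →+* P2 k := mapRingHom (TRL_t c)

theorem TRL_m_apply {k : Type} [Field k] (c : k) (P : P2 k) : TRL_m c P = P.map (TRL_t c) := rfl

theorem TRL_m_inv {k : Type} [Field k] (c : k) (P : P2 k) : TRL_m (-c) (TRL_m c P) = P := by
  rw [TRL_m_apply, TRL_m_apply, Polynomial.map_map]
  have : (TRL_t (-c)).comp (TRL_t c) = RingHom.id k[X] := RingHom.ext fun p => TRL_inv c p
  rw [this, Polynomial.map_id]

theorem TRL_ev {k K : Type} [Field k] [Field K] [Algebra k K] (t x : K) (c : k) (P : P2 k) :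
    ev (t - algebraMap k K c) x (TRL_m c P) = ev t x P := by
  unfold ev
  rw [TRL_m_apply, coe_eval₂RingHom, coe_eval₂RingHom, eval₂_map]
  congr 1
  exact RingHom.ext fun p => TRL_aeval t c p

theorem TRL_der {k : Type} [Field k] (c : k) (p : k[X]) :
    derivative (p.comp (X + C c)) = TRL_t c (derivative p) := by
  rw [derivative_comp, derivative_add, derivative_X, derivative_C, add_zero, one_mul, TRL_t_apply]

theorem TRL_lam {k : Type} [Field k] (c : k) (Q S : P2 k) :
    lam (TRL_m c Q) (TRL_m c S) = TRL_m c (lam Q S) := by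
  unfold lam
  rw [map_add, map_mul, map_pow]
  simp only [TRL_m_apply, map_expand, Polynomial.map_X]

/-- Block TRL. -/
theorem p_TRL : Stmt_TRL := by
  intro k K _ _ _ t x y A B f r hW c
  refine ⟨⟨?_, ?_, ?_, ?_, ?_, ?_, hW.r0⟩, ?_, ?_⟩
  · have h1 := TRL_aeval (K := K) t c A
    have h2 := TRL_aeval (K := K) t c B
    rw [TRL_t_apply] at h1 h2
    rw [h1, h2]
    exact hW.rel
  · intro P hP
    have h1 : TRL_m c (TRL_m (-c) P) = P := by
      have h := TRL_m_inv (-c) P
      rwa [neg_neg] at h
    rw [← h1, TRL_ev] at hP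
    rw [← h1, hW.ind _ hP, map_zero]
  · intro z
    obtain ⟨P, Q, S, hP, hz⟩ := hW.gen z
    refine ⟨TRL_m c P, TRL_m c Q, TRL_m c S, ?_, ?_⟩
    · intro h
      apply hP
      rw [← TRL_m_inv c P, h, map_zero]
    · unfold rr
      rw [TRL_ev, TRL_ev, TRL_ev]
      exact hz
  · have h := congrArg (TRL_t c) hW.flA
    rw [TRL_der, TRL_der]
    simpa only [map_mul, map_natCast, map_ofNat, TRL_t_apply] using h
  · have h := congrArg (TRL_t c) hW.flB
    rw [TRL_der, TRL_der]
    simpa only [map_mul, map_natCast, map_ofNat, TRL_t_apply] using h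
  · intro h
    apply hW.f0
    apply TRL_inj c
    rw [map_zero]
    exact h
  · intro D1 D2 hD
    refine ⟨?_, ?_, ?_, hD.x2⟩
    · rw [map_sub, Derivation.map_algebraMap, sub_zero]
      exact hD.t1
    · rw [TRL_der]
      have h1 := TRL_aeval (K := K) t c f
      rw [TRL_t_apply] at h1
      rw [h1, TRL_aeval]
      exact hD.x1
    · rw [map_sub, Derivation.map_algebraMap, sub_zero]
      exact hD.t2
  · intro Q S
    refine ⟨TRL_m c Q, TRL_m c S, ?_, ?_, ?_, ?_⟩
    · unfold rr
      rw [TRL_ev, TRL_ev]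
    · rw [TRL_lam, TRL_m_apply, natDegree_map_eq_of_injective (TRL_inj c)]
    · rw [TRL_lam, TRL_m_apply, leadingCoeff_map_of_injective (TRL_inj c), TRL_t_apply]
    · intro h h'
      apply h
      rw [TRL_lam] at h'
      rw [← TRL_m_inv c (lam Q S), h', map_zero]

end Pool.IE
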