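import Pool.Agent.Work.MP_bf99ce_ie.Interface4
import Pool.Agent.Work.MP_bf99ce_ie.B_TRL

/-!
# Block TRL1: translation (the lemmas are those of block TRL)
-/

set_option autoImplicit false

open Polynomial

noncomputable section

namespace Pool.IE

/-- Block TRL1. -/
theorem p_TRL1 : Stmt_TRL1 := by
  intro k K _ _ _ t x y A B hW c
  refine ⟨⟨?_, ?_, ?_⟩, ?_, ?_⟩
  · have h1 := TRL_aeval (K := K) t c A
    have h2 := TRL_aeval (K := K) t c B
    rw [TRL_t_apply] at h1 h2
    rw [h1, h2]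
    exact hW.rel
  · intro P hP
    have h1 : TRL_m c (TRL_m (-c) P) = P := by
      have h := TRL_m_inv (-c) P
      rwa [neg_neg] at h
    rw [← h1, TRL_ev] at hP
    rw [← h1, hW.ind _ hP, map_zero]
  · intro z
    obtain ⟨P, Q, S, hP, hz⟩ := hW.gen z
    refine ⟨TRL_m c P, TRL_m c Q, TRL_m c S, ?_, ?_⟩
    · intro h
      apply hP
      rw [← TRL_m_inv c P, h, map_zero]
    · unfold rr
      rw [TRL_ev, TRL_ev, TRL_ev]
      exact hz
  · intro D0 D2 hD
    refine ⟨?_, hD.x1, ?_, hD.x2⟩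
    · rw [map_sub, Derivation.map_algebraMap, sub_zero]
      exact hD.t1
    · rw [map_sub, Derivation.map_algebraMap, sub_zero]
      exact hD.t2
  · intro Q S
    refine ⟨TRL_m c Q, TRL_m c S, ?_, ?_, ?_, ?_⟩
    · unfold rr
      rw [TRL_ev, TRL_ev]
    · rw [TRL_lam, TRL_m_apply, natDegree_map_eq_of_injective (TRL_inj c)]
    · rw [TRL_lam, TRL_m_apply, leadingCoeff_map_of_injective (TRL_inj c), TRL_t_apply]
    · intro h h'
      apply h
      rw [TRL_lam] at h'
      rw [← TRL_m_inv c (lam Q S), h', map_zero]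

end Pool.IE
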