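import Pool.Agent.Work.MP_bf99ce_ie.Interface

/-!
# Block UFZ: an element of the function field is integral at almost all fibres
-/

set_option autoImplicit false

open Polynomial AlgebraicGeometry CategoryTheory

noncomputable section

namespace Pool.IE

theorem UFZ_ev {k K : Type} [Field k] [Field K] [Algebra k K] (t x : K) (c : k) (P : P2 k) :
    ev (t - algebraMap k K c) x (P.map (compRingHom (X + C c))) = ev t x P := by
  have h : ((aeval (t - algebraMap k K c) : k[X] →ₐ[k] K) : k[X] →+* K).comp
      (compRingHom (X + C c)) = ((aeval t : k[X] →ₐ[k] K) : k[X] →+* K) := by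
    apply Polynomial.ringHom_ext
    · intro a
      simp
    · simp
  unfold ev
  rw [coe_eval₂RingHom, coe_eval₂RingHom, eval₂_map, h]

theorem UFZ_rr {k K : Type} [Field k] [Field K] [Algebra k K] (t x y : K) (c : k) (Q S : P2 k) :
    rr (t - algebraMap k K c) x y (Q.map (compRingHom (X + C c)))
      (S.map (compRingHom (X + C c))) = rr t x y Q S := by
  unfold rr
  rw [UFZ_ev, UFZ_ev]

theorem p_UFZ (_hU : Stmt_UNQ) : Stmt_UFZ := by
  intro k K _ _ _ t x y A B f r hW
  classical
  refine ⟨?_, ?_, ?_⟩
  · intro u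
    obtain ⟨P, Q, S, hP, hu⟩ := hW.gen u
    obtain ⟨n, hn⟩ : ∃ n, P.coeff n ≠ 0 := by
      by_contra hcon
      push Not at hcon
      exact hP (Polynomial.ext fun n => by simpa using hcon n)
    refine ⟨(P.coeff n).roots.toFinset, fun c hc => ?_⟩
    refine ⟨P.map (compRingHom (X + C c)), Q.map (compRingHom (X + C c)),
      S.map (compRingHom (X + C c)), ?_, ?_⟩
    · intro hdvd
      apply hc
      rw [Multiset.mem_toFinset, mem_roots hn]
      have h1 := (C_dvd_iff_dvd_coeff _ _).1 hdvd n
      rw [coeff_map, coe_compRingHom_apply, X_dvd_iff, coeff_zero_eq_eval_zero, eval_comp] at h1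
      simpa using h1
    · rw [UFZ_ev, UFZ_rr]
      exact hu
  · intro q c
    refine ⟨1, q.map (compRingHom (X + C c)), 0, ?_, ?_⟩
    · intro hdvd
      have h1 := (C_dvd_iff_dvd_coeff _ _).1 hdvd 0
      rw [coeff_one_zero, X_dvd_iff] at h1
      simp at h1
    · unfold rr
      rw [UFZ_ev]
      simp
  · intro N u
    have h := fun s => hW.gen (u s)
    choose P Q S hP hu using h
    refine ⟨∏ s, P s, Finset.prod_ne_zero_iff.2 fun s _ => hP s, fun s => ?_⟩
    refine ⟨(∏ s' ∈ Finset.univ.erase s, P s') * Q s, (∏ s' ∈ Finset.univ.erase s, P s') * S s, ?_⟩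
    rw [← Finset.mul_prod_erase Finset.univ P (Finset.mem_univ s), map_mul]
    unfold rr
    rw [map_mul, map_mul]
    have h1 := hu s
    unfold rr at h1
    linear_combination (ev t x (∏ s' ∈ Finset.univ.erase s, P s')) * h1

end Pool.IE
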