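import Pool.Agent.Work.MP_bf99ce_ie.Interface4

/-! Block UHO1: poles at `t = 0` and at `t = ∞` -/

set_option autoImplicit false

open Polynomial

noncomputable section

namespace Pool.IE

theorem p_UHO1 (hUNQ : Stmt_UNQ1) (_hVVA : Stmt_VVA1) : Stmt_UHO1 := by
  intro k K _ _ _ t x y A B hW
  obtain ⟨-, -, -, -, -, ht, -⟩ := hUNQ k K t x y A B hW
  have hT : Prime (TT k) := Polynomial.prime_C_iff.2 Polynomial.prime_X
  refine ⟨fun u => ?_, fun p x' y' => ?_⟩
  · obtain ⟨P, Q, S, hP, hu⟩ := hW.gen u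
    have hf : FiniteMultiplicity (TT k) P := FiniteMultiplicity.of_not_isUnit hT.not_isUnit hP
    obtain ⟨P', hP1, hP2⟩ := hf.exists_eq_pow_mul_and_not_dvd
    refine ⟨multiplicity (TT k) P, P', Q, S, hP2, ?_⟩
    have hevT : ev t x (TT k) = t := by simp [ev, TT]
    rw [← hu]
    conv_rhs => rw [hP1, map_mul, map_pow, hevT]
    ring
  · refine ⟨1, C (reverse p), 0, fun h => hT.not_isUnit (isUnit_of_dvd_one h), ?_⟩
    let _ : Invertible t := invertibleOfNonzero ht
    have h1 := eval₂_reverse_mul_pow (algebraMap k K) t p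
    rw [invOf_eq_inv] at h1
    have h2 : rr t⁻¹ x' y' (C (reverse p)) 0 = eval₂ (algebraMap k K) t⁻¹ (reverse p) := by
      simp [rr, ev, aeval_def]
    rw [h2, map_one, mul_one, aeval_def, ← h1, inv_pow]
    have h3 : t ^ p.natDegree ≠ 0 := pow_ne_zero _ ht
    field_simp

end Pool.IE
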