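import Pool.Agent.Work.MP_bf99ce_ie.Interface

/-! Block VDB: the Gauss valuation at `t = 0` in the bad case. -/

set_option autoImplicit false

open Polynomial AlgebraicGeometry CategoryTheory

noncomputable section

namespace Pool.IE

/-- elements of `V` with derivative in `V` -/
def VDB_S {k K : Type} [Field k] [Field K] [Algebra k K] (V : ValuationSubring K)
    (D : Derivation k K K) : Subring K where
  carrier := {z | z ∈ V ∧ D z ∈ V}
  mul_mem' := by
    rintro a b ⟨ha, ha'⟩ ⟨hb, hb'⟩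
    refine ⟨mul_mem ha hb, ?_⟩
    rw [Derivation.leibniz]
    exact add_mem (mul_mem ha hb') (mul_mem hb ha')
  one_mem' := ⟨one_mem V, by rw [Derivation.map_one_eq_zero]; exact zero_mem V⟩
  add_mem' := by
    rintro a b ⟨ha, ha'⟩ ⟨hb, hb'⟩
    refine ⟨add_mem ha hb, ?_⟩
    rw [map_add]
    exact add_mem ha' hb'
  zero_mem' := ⟨zero_mem V, by rw [map_zero]; exact zero_mem V⟩
  neg_mem' := by
    rintro a ⟨ha, ha'⟩
    refine ⟨neg_mem ha, ?_⟩
    rw [map_neg]
    exact neg_mem ha'

theorem VDB_ev_mem {k K : Type} [Field k] [Field K] [Algebra k K] (S : Subring K) {t x : K}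
    (hk : ∀ c : k, algebraMap k K c ∈ S) (ht : t ∈ S) (hx : x ∈ S) (P : P2 k) : ev t x P ∈ S := by
  have h1 : ∀ p : k[X], aeval t p ∈ S := by
    intro p
    induction p using Polynomial.induction_on' with
    | add p q hp hq => rw [map_add]; exact add_mem hp hq
    | monomial n a =>
      rw [aeval_monomial]
      exact mul_mem (hk a) (pow_mem ht n)
  induction P using Polynomial.induction_on' with
  | add p q hp hq => rw [map_add]; exact add_mem hp hq
  | monomial n a =>
    have : ev t x (monomial n a) = aeval t a * x ^ n := by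
      show eval₂ _ x (monomial n a) = _
      rw [eval₂_monomial]
      rfl
    rw [this]
    exact mul_mem (h1 a) (pow_mem hx n)

theorem VDB_one {k : Type} [Field k] : ¬ (TT k ∣ (1 : P2 k)) := by
  unfold TT
  rw [C_dvd_iff_dvd_coeff]
  intro h
  have h0 := h 0
  rw [coeff_one_zero] at h0
  exact not_isUnit_X (isUnit_of_dvd_one h0)

theorem VDB_W {k : Type} [Field k] (A B : k[X]) : ¬ (TT k ∣ WP A B) := by
  unfold TT
  rw [C_dvd_iff_dvd_coeff]
  intro h
  have h0 := h 3
  have : (WP A B).coeff 3 = 1 := by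
    unfold WP
    simp [coeff_C, coeff_X]
  rw [this] at h0
  exact not_isUnit_X (isUnit_of_dvd_one h0)

theorem VDB_C {k K : Type} [Field k] [Field K] [Algebra k K] (t x : K) (p : k[X]) :
    ev t x (C p) = aeval t p := by
  show eval₂ _ x (C p) = _
  rw [eval₂_C]
  rfl

theorem VDB_X {k K : Type} [Field k] [Field K] [Algebra k K] (t x : K) :
    ev t x (X : P2 k) = x := by
  show eval₂ _ x X = _
  rw [eval₂_X]

/-- A derivation with `D t, D x, D y ∈ V` preserves `V = VG`. -/
theorem VDB_pres {k K : Type} [Field k] [CharZero k] [Field K] [Algebra k K] {t x y : K}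
    {A B f : k[X]} {r : ℕ} (h : WD k K t x y A B f r) (hU : Stmt_UNQ)
    {V : ValuationSubring K} (hV : (V : Set K) = VG k t x y) (D : Derivation k K K)
    (ht : D t ∈ V) (hx : D x ∈ V) (hy : D y ∈ V) : ∀ z ∈ V, D z ∈ V := by
  obtain ⟨-, -, hev, -⟩ := hU k K t x y A B f r h
  have hmem : ∀ z : K, z ∈ V ↔ z ∈ VG k t x y := fun z => by
    rw [← hV]; exact Iff.rfl
  have hrr : ∀ Q S : P2 k, rr t x y Q S ∈ V := fun Q S =>
    (hmem _).2 ⟨1, Q, S, VDB_one, by rw [map_one, mul_one]⟩
  have evV : ∀ P : P2 k, ev t x P ∈ V := fun P => by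
    have := hrr P 0
    unfold rr at this
    rwa [map_zero, zero_mul, add_zero] at this
  have hy0 : y ∈ V := by
    have := hrr 0 1
    unfold rr at this
    rwa [map_zero, map_one, one_mul, zero_add] at this
  let S := VDB_S V D
  have hS : ∀ z : K, z ∈ S ↔ z ∈ V ∧ D z ∈ V := fun z => Iff.rfl
  have hk : ∀ c : k, algebraMap k K c ∈ S := fun c => by
    refine (hS _).2 ⟨?_, ?_⟩
    · have := evV (C (C c))
      rwa [VDB_C, aeval_C] at this
    · rw [Derivation.map_algebraMap]; exact zero_mem V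
  have htS : t ∈ S := (hS _).2 ⟨by
    have := evV (C X)
    rwa [VDB_C, aeval_X] at this, ht⟩
  have hxS : x ∈ S := (hS _).2 ⟨by
    have := evV X
    rwa [VDB_X] at this, hx⟩
  have hyS : y ∈ S := (hS _).2 ⟨hy0, hy⟩
  have hevS : ∀ P, ev t x P ∈ S := VDB_ev_mem S hk htS hxS
  intro z hz
  obtain ⟨P, Q, S', hP, e⟩ := (hmem z).1 hz
  have hP0 : P ≠ 0 := by
    rintro rfl
    exact hP (dvd_zero _)
  have hevP := hev P hP0
  have hinv : (ev t x P)⁻¹ ∈ V := (hmem _).2 ⟨P, 1, 0, hP, by
    rw [inv_mul_cancel₀ hevP]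
    unfold rr
    rw [map_one, map_zero, zero_mul, add_zero]⟩
  have hrS : rr t x y Q S' ∈ S := add_mem (hevS Q) (mul_mem (hevS S') hyS)
  have hD1 : D (rr t x y Q S') ∈ V := ((hS _).1 hrS).2
  have hD2 : D (ev t x P) ∈ V := ((hS _).1 (hevS P)).2
  have e2 : D z * ev t x P = D (rr t x y Q S') - z * D (ev t x P) := by
    rw [← e, Derivation.leibniz, smul_eq_mul, smul_eq_mul]
    ring
  have e3 : D z = (D (rr t x y Q S') - z * D (ev t x P)) * (ev t x P)⁻¹ := by
    rw [← e2, mul_assoc, mul_inv_cancel₀ hevP, mul_one]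
  rw [e3]
  exact mul_mem (sub_mem hD1 (mul_mem hz hD2)) hinv

theorem p_VDB (hA : Stmt_UNQ) (hB : Stmt_DYF) (hC : Stmt_VVA) : Stmt_VDB := by
  intro k K _ _ _ _ t x y A B f r h n f1 hf hf1 D1 D2 hD z hz
  obtain ⟨V, hV⟩ := hC k K t x y A B f r h
  obtain ⟨-, -, hev, hy, hx, ht, hae⟩ := hA k K t x y A B f r h
  obtain ⟨hyf, hyf2⟩ := hB k K t x y A B f r h
  obtain ⟨-, hD2y⟩ := hyf2 D1 D2 hD
  have hchar : CharZero K := charZero_of_injective_algebraMap (algebraMap k K).injective
  have hmem : ∀ z : K, z ∈ V ↔ z ∈ VG k t x y := fun z => by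
    rw [← hV]; exact Iff.rfl
  have hrr : ∀ Q S : P2 k, rr t x y Q S ∈ V := fun Q S =>
    (hmem _).2 ⟨1, Q, S, VDB_one, by rw [map_one, mul_one]⟩
  have evV : ∀ P : P2 k, ev t x P ∈ V := fun P => by
    have := hrr P 0
    unfold rr at this
    rwa [map_zero, zero_mul, add_zero] at this
  have hyV : y ∈ V := by
    have := hrr 0 1
    unfold rr at this
    rwa [map_zero, map_one, one_mul, zero_add] at this
  have hxV : x ∈ V := by
    have := evV X
    rwa [VDB_X] at this
  have aeV : ∀ p : k[X], aeval t p ∈ V := fun p => by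
    have := evV (C p)
    rwa [VDB_C] at this
  have hW : ev t x (WP A B) = y ^ 2 := by
    unfold WP
    rw [map_add, map_add, map_pow, map_mul, VDB_C, VDB_C, VDB_X, h.rel]
  have hyinv : (y ^ 2)⁻¹ ∈ V := (hmem _).2 ⟨WP A B, 1, 0, VDB_W A B, by
    rw [hW, inv_mul_cancel₀ (pow_ne_zero 2 hy)]
    unfold rr
    rw [map_one, map_zero, zero_mul, add_zero]⟩
  have h2 : (2 : K)⁻¹ ∈ V := by
    have := aeV (C (2⁻¹ : k))
    rw [aeval_C, map_inv₀, map_ofNat] at this
    exact this
  have hr : (r : K) ≠ 0 := by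
    have := h.r0
    exact_mod_cast (by omega : r ≠ 0)
  have hf1ne : f1 ≠ 0 := by
    rintro rfl
    simp at hf1
  have hf1t : aeval t f1 ≠ 0 := hae f1 hf1ne
  set ν : k[X] := (n : k[X]) * f1 + X * derivative f1 with hν
  -- `t f'(t) = ν(t) t^n`
  have hder : X * derivative f = ν * X ^ n := by
    rw [hf, derivative_mul, derivative_X_pow, hν]
    rcases n with _ | n
    · simp
    · simp only [Nat.add_sub_cancel]
      push_cast
      rw [map_add, map_natCast, map_one]
      ring
  have hder' : t * aeval t (derivative f) = aeval t ν * t ^ n := by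
    have := congrArg (aeval t) hder
    rwa [map_mul, map_mul, map_pow, aeval_X] at this
  have hft : aeval t f = t ^ n * aeval t f1 := by
    rw [hf, map_mul, map_pow, aeval_X]
  have hD1x : (r : K) * aeval t f1 * t * D1 x = 2 * aeval t ν * x := by
    have e1 := hD.x1
    rw [hft] at e1
    have e2 : t ^ n * ((r : K) * aeval t f1 * t * D1 x) = t ^ n * (2 * aeval t ν * x) := by
      calc t ^ n * ((r : K) * aeval t f1 * t * D1 x)
          = t * ((r : K) * (t ^ n * aeval t f1) * D1 x) := by ring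
        _ = t * (2 * aeval t (derivative f) * x) := by rw [e1]
        _ = 2 * (t * aeval t (derivative f)) * x := by ring
        _ = t ^ n * (2 * aeval t ν * x) := by rw [hder']; ring
    exact mul_left_cancel₀ (pow_ne_zero n ht) e2
  have hc0 : (r : K) * aeval t f1 * t ≠ 0 := mul_ne_zero (mul_ne_zero hr hf1t) ht
  -- the derivation `D0`
  let c : K := 2 * aeval t ν * (x / y) / ((r : K) * aeval t f1 * t)
  let D0 : Derivation k K K := D1 - c • D2
  have hD0 : ∀ z, D0 z = D1 z - c * D2 z := fun z => rfl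
  have hD0t : D0 t = 1 := by
    rw [hD0, hD.t1, hD.t2, mul_zero, sub_zero]
  have hcy : c * y = D1 x := by
    show 2 * aeval t ν * (x / y) / ((r : K) * aeval t f1 * t) * y = D1 x
    rw [div_mul_eq_mul_div, div_eq_iff hc0]
    calc 2 * aeval t ν * (x / y) * y = 2 * aeval t ν * (x / y * y) := by ring
      _ = 2 * aeval t ν * x := by rw [div_mul_cancel₀ x hy]
      _ = D1 x * ((r : K) * aeval t f1 * t) := by rw [← hD1x]; ring
  have hD0x : D0 x = 0 := by
    rw [hD0, hD.x2, hcy, sub_self]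
  have h2K : (2 : K) ≠ 0 := two_ne_zero
  have hD0y : D0 y = (aeval t (derivative A) * x + aeval t (derivative B)) * y * 2⁻¹ * (y ^ 2)⁻¹ := by
    have e1 := hyf D0
    rw [hD0t, hD0x, mul_zero, zero_add, mul_one] at e1
    rw [← e1]
    field_simp
  have hD0yV : D0 y ∈ V := by
    rw [hD0y]
    exact mul_mem (mul_mem (mul_mem (add_mem (mul_mem (aeV _) hxV) (aeV _)) hyV) h2) hyinv
  have hpres0 := VDB_pres h hA hV D0 (by rw [hD0t]; exact one_mem V)
    (by rw [hD0x]; exact zero_mem V) hD0yV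
  -- the derivation `F`
  let F : Derivation k K K := (x / y) • D2
  have hF : ∀ z, F z = (x / y) * D2 z := fun z => rfl
  have hFt : F t = 0 := by rw [hF, hD.t2, mul_zero]
  have hFx : F x = x := by rw [hF, hD.x2, div_mul_cancel₀ x hy]
  have hFy : F y = x * (3 * x ^ 2 + aeval t A) * y * 2⁻¹ * (y ^ 2)⁻¹ := by
    rw [hF, ← hD2y]
    field_simp
  have hFyV : F y ∈ V := by
    rw [hFy]
    have h3 : (3 : K) * x ^ 2 + aeval t A ∈ V := by
      refine add_mem (mul_mem ?_ (pow_mem hxV 2)) (aeV _)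
      exact ofNat_mem V 3
    exact mul_mem (mul_mem (mul_mem (mul_mem hxV h3) hyV) h2) hyinv
  have hpresF := VDB_pres h hA hV F (by rw [hFt]; exact zero_mem V)
    (by rw [hFx]; exact hxV) hFyV
  have hzV : z ∈ V := (hmem z).2 hz
  refine ⟨⟨(r : K) * aeval t f1 * D0 z, ?_, ?_⟩, ?_⟩
  · rw [← hmem]
    refine mul_mem (mul_mem ?_ (aeV _)) (hpres0 z hzV)
    exact natCast_mem V r
  · rw [hD0]
    show (r : K) * aeval t f1 * t * D1 z + -(2 * aeval t ν * (x / y)) * D2 z =
      t * ((r : K) * aeval t f1 * (D1 z - c * D2 z))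
    have e : (r : K) * aeval t f1 * t * c = 2 * aeval t ν * (x / y) := by
      show (r : K) * aeval t f1 * t * (2 * aeval t ν * (x / y) / ((r : K) * aeval t f1 * t)) = _
      rw [mul_div_cancel₀ _ hc0]
    calc (r : K) * aeval t f1 * t * D1 z + -(2 * aeval t ν * (x / y)) * D2 z
        = (r : K) * aeval t f1 * t * D1 z - ((r : K) * aeval t f1 * t * c) * D2 z := by
          rw [e]; ring
      _ = _ := by ring
  · rw [← hmem, ← hF]
    exact hpresF z hzV

end Pool.IE
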