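import Pool.Agent.Work.MP_bf99ce_ie.Interface

/-! # Block VDG: the derivations `D1`, `D2` preserve the Gauss valuation ring at a good place
(helper56) -/

set_option autoImplicit false

open Polynomial AlgebraicGeometry CategoryTheory

noncomputable section

namespace Pool.IE

section

variable {k K : Type} [Field k] [Field K] [Algebra k K] {t x y : K}

theorem VDG_TT : ¬ (TT k ∣ (1 : P2 k)) := by
  intro h
  have h1 : IsUnit (C (X : k[X]) : P2 k) := isUnit_of_dvd_one h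
  rw [Polynomial.isUnit_C] at h1
  exact Polynomial.not_isUnit_X h1

theorem VDG_rr (Q S : P2 k) : rr t x y Q S ∈ VG k t x y :=
  ⟨1, Q, S, VDG_TT, by rw [map_one, mul_one]⟩

theorem VDG_ev (Q : P2 k) : ev t x Q ∈ VG k t x y := by
  have h := VDG_rr (t := t) (x := x) (y := y) Q 0
  rwa [show rr t x y Q 0 = ev t x Q by unfold rr; rw [map_zero, zero_mul, add_zero]] at h

theorem VDG_evC (p : k[X]) : ev t x (C p) = aeval t p := by
  unfold ev
  rw [coe_eval₂RingHom, eval₂_C]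
  rfl

theorem VDG_evX : ev t x (X : P2 k) = x := by
  unfold ev
  rw [coe_eval₂RingHom, eval₂_X]

theorem VDG_p (p : k[X]) : aeval t p ∈ VG k t x y := by
  rw [← VDG_evC (t := t) (x := x) p]
  exact VDG_ev _

theorem VDG_x : x ∈ VG k t x y := by
  have h := VDG_ev (t := t) (x := x) (y := y) (X : P2 k)
  rwa [VDG_evX (k := k) (t := t) (x := x)] at h

theorem VDG_y : y ∈ VG k t x y := by
  have h := VDG_rr (t := t) (x := x) (y := y) (0 : P2 k) 1
  rwa [show rr t x y (0 : P2 k) 1 = y by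
    unfold rr; rw [map_zero, map_one, one_mul, zero_add]] at h

theorem VDG_c (c : k) : algebraMap k K c ∈ VG k t x y := by
  have h := VDG_p (t := t) (x := x) (y := y) (C c)
  rwa [aeval_C] at h

theorem VDG_inv (hu : ∀ P : P2 k, P ≠ 0 → ev t x P ≠ 0) {P : P2 k} (hP : ¬ (TT k ∣ P)) :
    (ev t x P)⁻¹ ∈ VG k t x y := by
  have h0 : P ≠ 0 := fun h => hP (h ▸ dvd_zero _)
  refine ⟨P, 1, 0, hP, ?_⟩
  rw [inv_mul_cancel₀ (hu P h0)]
  unfold rr
  rw [map_one, map_zero, zero_mul, add_zero]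

theorem VDG_finv (hu : ∀ P : P2 k, P ≠ 0 → ev t x P ≠ 0) {f : k[X]} (hf : f.eval 0 ≠ 0) :
    (aeval t f)⁻¹ ∈ VG k t x y := by
  rw [← VDG_evC (t := t) (x := x) f]
  refine VDG_inv hu fun h => hf ?_
  have h1 : (X : k[X]) ∣ f := by
    have h2 : (C (X : k[X]) : P2 k) ∣ C f := h
    rw [Polynomial.C_dvd_iff_dvd_coeff] at h2
    have h3 := h2 0
    rwa [Polynomial.coeff_C_zero] at h3
  obtain ⟨g, rfl⟩ := h1
  rw [eval_mul, eval_X, zero_mul]

/-- A derivation which maps `t`, `x`, `y` to the valuation ring preserves it. -/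
theorem VDG_der (hu : ∀ P : P2 k, P ≠ 0 → ev t x P ≠ 0) (V : ValuationSubring K)
    (hV : (V : Set K) = VG k t x y) (D : Derivation k K K) (ht : D t ∈ V) (hx : D x ∈ V)
    (hy : D y ∈ V) {z : K} (hz : z ∈ V) : D z ∈ V := by
  have hm : ∀ z : K, z ∈ VG k t x y → z ∈ V := fun z hz => by
    rw [← hV] at hz
    exact hz
  have hev : ∀ P : P2 k, D (ev t x P) ∈ V := by
    intro P
    induction P using Polynomial.induction_on with
    | C p =>
      rw [VDG_evC, Derivation.map_aeval, smul_eq_mul]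
      exact mul_mem (hm _ (VDG_p _)) ht
    | add p q hp hq =>
      rw [map_add, map_add]
      exact add_mem hp hq
    | monomial n a h =>
      rw [pow_succ, ← mul_assoc, map_mul, VDG_evX, Derivation.leibniz, smul_eq_mul, smul_eq_mul]
      exact add_mem (mul_mem (hm _ (VDG_ev _)) hx) (mul_mem (hm _ VDG_x) h)
  have hz' : z ∈ VG k t x y := by
    rw [← hV]
    exact hz
  obtain ⟨P, Q, S, hP, e⟩ := hz'
  have h0 : P ≠ 0 := fun h => hP (h ▸ dvd_zero _)
  have h1 : D (rr t x y Q S) ∈ V := by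
    unfold rr
    rw [map_add, Derivation.leibniz, smul_eq_mul, smul_eq_mul]
    exact add_mem (hev Q) (add_mem (mul_mem (hm _ (VDG_ev _)) hy) (mul_mem (hm _ VDG_y) (hev S)))
  rw [← e, Derivation.leibniz, smul_eq_mul, smul_eq_mul] at h1
  have h2 : ev t x P * D z ∈ V := by
    have h3 := sub_mem h1 (mul_mem hz (hev P))
    rwa [add_sub_cancel_left] at h3
  have h4 := mul_mem (hm _ (VDG_inv hu hP)) h2
  rwa [← mul_assoc, inv_mul_cancel₀ (hu P h0), one_mul] at h4

end

theorem VDG_solve {K : Type} [Field K] {a b c d : K} (ha : a ≠ 0) (hb : b ≠ 0)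
    (h : a * b * c = d) : c = a⁻¹ * (b⁻¹ * d) := by
  rw [← h]
  field_simp

theorem p_VDG (hUNQ : Stmt_UNQ) (hDYF : Stmt_DYF) (hVVA : Stmt_VVA) : Stmt_VDG := by
  intro k K _ _ _ _ t x y A B f r w hf D1 D2 hD z hz
  obtain ⟨V, hV⟩ := hVVA k K t x y A B f r w
  obtain ⟨-, -, hu, -, -, -, hp⟩ := hUNQ k K t x y A B f r w
  obtain ⟨hy1, hy2⟩ := (hDYF k K t x y A B f r w).2 D1 D2 hD
  have hm : ∀ z : K, z ∈ VG k t x y → z ∈ V := fun z hz => by
    rw [← hV] at hz
    exact hz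
  have hm' : ∀ z : K, z ∈ V → z ∈ VG k t x y := fun z hz => by
    rw [← hV]
    exact hz
  have hr : (r : k) ≠ 0 := Nat.cast_ne_zero.2 (by have := w.r0; omega)
  have hrK : (r : K) ≠ 0 := by
    have h := (map_ne_zero (algebraMap k K)).2 hr
    rwa [map_natCast] at h
  have hrV : (r : K)⁻¹ ∈ V := by
    have h := hm _ (VDG_c (t := t) (x := x) (y := y) ((r : k)⁻¹))
    rwa [map_inv₀, map_natCast] at h
  have h2K : (2 : K) ≠ 0 := by
    have h := (map_ne_zero (algebraMap k K)).2 (two_ne_zero : (2 : k) ≠ 0)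
    rwa [map_ofNat] at h
  have h2V : (2 : K)⁻¹ ∈ V := by
    have h := hm _ (VDG_c (t := t) (x := x) (y := y) ((2 : k)⁻¹))
    rwa [map_inv₀, map_ofNat] at h
  have hnV : ∀ n : ℕ, (n : K) ∈ V := fun n => natCast_mem V n
  have h2V' : (2 : K) ∈ V := by exact_mod_cast hnV 2
  have h3V : (3 : K) ∈ V := by exact_mod_cast hnV 3
  have hfK : aeval t f ≠ 0 := hp f w.f0
  have hfV : (aeval t f)⁻¹ ∈ V := hm _ (VDG_finv hu hf)
  have hxV : x ∈ V := hm _ VDG_x
  have hyV : y ∈ V := hm _ VDG_y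
  have hpV : ∀ p : k[X], aeval t p ∈ V := fun p => hm _ (VDG_p p)
  have hzV : z ∈ V := hm z hz
  constructor
  · refine hm' _ (VDG_der hu V hV D1 ?_ ?_ ?_ hzV)
    · rw [hD.t1]
      exact one_mem V
    · rw [VDG_solve hrK hfK hD.x1]
      exact mul_mem hrV (mul_mem hfV (mul_mem (mul_mem h2V' (hpV _)) hxV))
    · rw [VDG_solve hrK hfK hy1]
      exact mul_mem hrV (mul_mem hfV (mul_mem (mul_mem h3V (hpV _)) hyV))
  · refine hm' _ (VDG_der hu V hV D2 ?_ ?_ ?_ hzV)
    · rw [hD.t2]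
      exact zero_mem V
    · rw [hD.x2]
      exact hyV
    · have h : D2 y = 2⁻¹ * (3 * x ^ 2 + aeval t A) := by
        rw [← hy2, ← mul_assoc, inv_mul_cancel₀ h2K, one_mul]
      rw [h]
      exact mul_mem h2V (add_mem (mul_mem h3V (pow_mem hxV 2)) (hpV A))

end Pool.IE

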