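import Pool.Agent.Work.MP_bf99ce_ie.Interface

/-! # VOO: the valuation at the point `O` -/

set_option autoImplicit false

open Polynomial

noncomputable section

namespace Pool.IE

section VOOsec

variable {k K : Type} [Field k] [Field K] [Algebra k K]

/-- the value of a pair -/
def VOO_R (t x y : K) (p : P2 k × P2 k) : K := rr t x y p.1 p.2

/-- the polynomial of a pair -/
def VOO_L (p : P2 k × P2 k) : P2 k := lam p.1 p.2

/-- the product of pairs -/
def VOO_mu (A B : k[X]) (p q : P2 k × P2 k) : P2 k × P2 k :=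
  (p.1 * q.1 + p.2 * q.2 * WP A B, p.1 * q.2 + p.2 * q.1)

theorem VOO_mem (t x y z : K) : z ∈ VO k t x y ↔ ∃ p q : P2 k × P2 k, VOO_L q ≠ 0 ∧
    z * VOO_R t x y q = VOO_R t x y p ∧ (VOO_L p).natDegree ≤ (VOO_L q).natDegree := by
  constructor
  · rintro ⟨Q, S, Q', S', h1, h2, h3⟩
    exact ⟨(Q, S), (Q', S'), h1, h2, h3⟩
  · rintro ⟨⟨Q, S⟩, ⟨Q', S'⟩, h1, h2, h3⟩
    exact ⟨Q, S, Q', S', h1, h2, h3⟩

theorem VOO_R_add (t x y : K) (p q : P2 k × P2 k) :
    VOO_R t x y (p + q) = VOO_R t x y p + VOO_R t x y q := by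
  simp only [VOO_R, rr, Prod.fst_add, Prod.snd_add, map_add]
  ring

theorem VOO_R_sub (t x y : K) (p q : P2 k × P2 k) :
    VOO_R t x y (p - q) = VOO_R t x y p - VOO_R t x y q := by
  simp only [VOO_R, rr, Prod.fst_sub, Prod.snd_sub, map_sub]
  ring

theorem VOO_R_neg (t x y : K) (p : P2 k × P2 k) :
    VOO_R t x y (-p) = -VOO_R t x y p := by
  simp only [VOO_R, rr, Prod.fst_neg, Prod.snd_neg, map_neg]
  ring

theorem VOO_L_add (p q : P2 k × P2 k) : VOO_L (p + q) = VOO_L p + VOO_L q := by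
  simp only [VOO_L, lam, Prod.fst_add, Prod.snd_add, map_add]
  ring

theorem VOO_L_sub (p q : P2 k × P2 k) : VOO_L (p - q) = VOO_L p - VOO_L q := by
  simp only [VOO_L, lam, Prod.fst_sub, Prod.snd_sub, map_sub]
  ring

theorem VOO_L_neg (p : P2 k × P2 k) : VOO_L (-p) = -VOO_L p := by
  simp only [VOO_L, lam, Prod.fst_neg, Prod.snd_neg, map_neg]
  ring

theorem VOO_ev_C (t x : K) (c : k[X]) : ev t x (C c) = aeval t c := by
  simp [ev]

theorem VOO_ev_X (t x : K) : ev (k := k) t x X = x := by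
  simp [ev]

theorem VOO_R_fst (t x y : K) (P : P2 k) : VOO_R t x y (P, 0) = ev t x P := by
  simp [VOO_R, rr]

theorem VOO_L_fst (P : P2 k) : VOO_L (P, 0) = expand k[X] 2 P := by
  simp [VOO_L, lam]

theorem VOO_L_fst_ne (P : P2 k) (h : P ≠ 0) : VOO_L (P, 0) ≠ 0 := by
  rw [VOO_L_fst]
  intro h1
  exact h ((expand_eq_zero (by norm_num)).1 h1)

/-- the facts on pairs -/
structure VOO_F (t x y : K) (A B : k[X]) : Prop where
  mul : ∀ p q : P2 k × P2 k, VOO_R t x y (VOO_mu A B p q) = VOO_R t x y p * VOO_R t x y q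
  inj : ∀ p : P2 k × P2 k, VOO_R t x y p = 0 → p = 0
  Lz : ∀ p : P2 k × P2 k, VOO_L p = 0 → p = 0
  Lm : ∀ (p q : P2 k × P2 k) (M M' : ℕ), (VOO_L p).natDegree ≤ M → (VOO_L q).natDegree ≤ M' →
    (VOO_L (VOO_mu A B p q)).natDegree ≤ M + M' ∧
    (VOO_L (VOO_mu A B p q)).coeff (M + M') = (VOO_L p).coeff M * (VOO_L q).coeff M'

variable {t x y : K} {A B : k[X]}

theorem VOO_Lmul (F : VOO_F t x y A B) (p q : P2 k × P2 k) (hp : VOO_L p ≠ 0)
    (hq : VOO_L q ≠ 0) : VOO_L (VOO_mu A B p q) ≠ 0 ∧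
    (VOO_L (VOO_mu A B p q)).natDegree = (VOO_L p).natDegree + (VOO_L q).natDegree := by
  obtain ⟨h1, h2⟩ := F.Lm p q _ _ le_rfl le_rfl
  have h3 : (VOO_L (VOO_mu A B p q)).coeff ((VOO_L p).natDegree + (VOO_L q).natDegree) ≠ 0 := by
    rw [h2]
    exact mul_ne_zero (leadingCoeff_ne_zero.2 hp) (leadingCoeff_ne_zero.2 hq)
  refine ⟨fun h => h3 (by rw [h, coeff_zero]), le_antisymm h1 (le_natDegree_of_ne_zero h3)⟩

theorem VOO_Rne (F : VOO_F t x y A B) (p : P2 k × P2 k) (hp : VOO_L p ≠ 0) :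
    VOO_R t x y p ≠ 0 := by
  intro h
  apply hp
  rw [F.inj p h]
  simp [VOO_L, lam]

theorem VOO_eq (F : VOO_F t x y A B) (p q : P2 k × P2 k)
    (h : VOO_R t x y p = VOO_R t x y q) : p = q := by
  have h1 := F.inj (p - q) (by rw [VOO_R_sub, h, sub_self])
  exact sub_eq_zero.1 h1

theorem VOO_natDegree_add_le {a b : P2 k} {n : ℕ} (ha : a.natDegree ≤ n) (hb : b.natDegree ≤ n) :
    (a + b).natDegree ≤ n := (natDegree_add_le a b).trans (max_le ha hb)

theorem VOO_natDegree_sub_le {a b : P2 k} {n : ℕ} (ha : a.natDegree ≤ n) (hb : b.natDegree ≤ n) :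
    (a - b).natDegree ≤ n := (natDegree_sub_le a b).trans (max_le ha hb)

/-- the valuation ring -/
def VOO_V (F : VOO_F t x y A B)
    (gen : ∀ z : K, ∃ P Q S : P2 k, P ≠ 0 ∧ z * ev t x P = rr t x y Q S) :
    ValuationSubring K where
  carrier := VO k t x y
  mul_mem' := by
    intro z z' hz hz'
    rw [VOO_mem] at hz hz' ⊢
    obtain ⟨a, b, hb, h1, h2⟩ := hz
    obtain ⟨a', b', hb', h1', h2'⟩ := hz'
    obtain ⟨h3, h4⟩ := VOO_Lmul F b b' hb hb'
    refine ⟨VOO_mu A B a a', VOO_mu A B b b', h3, ?_, ?_⟩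
    · rw [F.mul, F.mul, ← h1, ← h1']
      ring
    · rw [h4]
      exact (F.Lm a a' _ _ h2 h2').1
  one_mem' := by
    rw [VOO_mem]
    exact ⟨(1, 0), (1, 0), VOO_L_fst_ne 1 one_ne_zero, one_mul _, le_rfl⟩
  add_mem' := by
    intro z z' hz hz'
    rw [VOO_mem] at hz hz' ⊢
    obtain ⟨a, b, hb, h1, h2⟩ := hz
    obtain ⟨a', b', hb', h1', h2'⟩ := hz'
    obtain ⟨h3, h4⟩ := VOO_Lmul F b b' hb hb'
    refine ⟨VOO_mu A B a b' + VOO_mu A B b a', VOO_mu A B b b', h3, ?_, ?_⟩
    · rw [VOO_R_add, F.mul, F.mul, F.mul, ← h1, ← h1']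
      ring
    · rw [h4, VOO_L_add]
      exact VOO_natDegree_add_le (F.Lm a b' _ _ h2 le_rfl).1 (F.Lm b a' _ _ le_rfl h2').1
  zero_mem' := by
    rw [VOO_mem]
    refine ⟨0, (1, 0), VOO_L_fst_ne 1 one_ne_zero, ?_, ?_⟩
    · simp [VOO_R, rr]
    · simp [VOO_L, lam]
  neg_mem' := by
    intro z hz
    rw [VOO_mem] at hz ⊢
    obtain ⟨a, b, hb, h1, h2⟩ := hz
    refine ⟨-a, b, hb, ?_, ?_⟩
    · rw [VOO_R_neg, ← h1]
      ring
    · rw [VOO_L_neg, natDegree_neg]
      exact h2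
  mem_or_inv_mem' := by
    intro z
    obtain ⟨P, Q, S, hP, hz⟩ := gen z
    have hL := VOO_L_fst_ne P hP
    have hz' : z * VOO_R t x y (P, 0) = VOO_R t x y (Q, S) := by
      rw [VOO_R_fst]
      exact hz
    rcases le_or_gt (VOO_L (Q, S)).natDegree (VOO_L (P, 0)).natDegree with h | h
    · left
      exact (VOO_mem t x y z).2 ⟨(Q, S), (P, 0), hL, hz', h⟩
    · right
      have hQ : VOO_L (Q, S) ≠ 0 := by
        intro h1
        rw [h1, natDegree_zero] at h
        exact absurd h (Nat.not_lt_zero _)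
      have hz0 : z ≠ 0 := by
        intro h1
        rw [h1, zero_mul] at hz'
        exact VOO_Rne F _ hQ hz'.symm
      refine (VOO_mem t x y z⁻¹).2 ⟨(P, 0), (Q, S), hQ, ?_, h.le⟩
      rw [← hz', inv_mul_cancel_left₀ hz0]

/-! ### Derivations -/

/-- the derivative of the coefficients -/
def VOO_dT : P2 k →ₗ[k] P2 k :=
  Polynomial.lsum fun n => ((Polynomial.monomial n : k[X] →ₗ[k[X]] P2 k).restrictScalars k).comp
    (Polynomial.derivative : k[X] →ₗ[k] k[X])

theorem VOO_dT_monomial (n : ℕ) (c : k[X]) :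
    VOO_dT (monomial n c : P2 k) = monomial n (derivative c) := by
  simp [VOO_dT, Polynomial.lsum_apply, sum_monomial_index]

theorem VOO_dT_coeff (P : P2 k) (n : ℕ) : (VOO_dT P).coeff n = derivative (P.coeff n) := by
  induction P using Polynomial.induction_on' with
  | add p q hp hq => rw [map_add, coeff_add, coeff_add, hp, hq, derivative_add]
  | monomial m c =>
    rw [VOO_dT_monomial, coeff_monomial, coeff_monomial]
    split_ifs
    · rfl
    · rw [derivative_zero]

theorem VOO_D_ev (D : Derivation k K K) (P : P2 k) :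
    D (ev t x P) = ev t x (VOO_dT P) * D t + ev t x (derivative P) * D x := by
  induction P using Polynomial.induction_on' with
  | add p q hp hq =>
    simp only [map_add, hp, hq]
    ring
  | monomial n c =>
    rw [VOO_dT_monomial, derivative_monomial]
    have h1 : ∀ (m : ℕ) (d : k[X]), ev t x (monomial m d) = aeval t d * x ^ m := by
      intro m d
      simp [ev]
    rw [h1, h1, h1, Derivation.leibniz, Derivation.leibniz_pow, Derivation.map_aeval, map_mul,
      map_natCast]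
    simp only [smul_eq_mul, nsmul_eq_mul]
    ring

/-- the pair of `r f D1` -/
def VOO_d1 (f : k[X]) (r : ℕ) (p : P2 k × P2 k) : P2 k × P2 k :=
  (C ((r : k[X]) * f) * VOO_dT p.1 + C (2 * derivative f) * (X * derivative p.1),
    C ((r : k[X]) * f) * VOO_dT p.2 + C (2 * derivative f) * (X * derivative p.2) +
      C (3 * derivative f) * p.2)

/-- the pair of `2 D2` -/
def VOO_d2 (A B : k[X]) (p : P2 k × P2 k) : P2 k × P2 k :=
  (2 * derivative p.2 * WP A B + p.2 * (3 * X ^ 2 + C A), 2 * derivative p.1)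

theorem VOO_d1_R (f : k[X]) (r : ℕ) (D : Derivation k K K) (h1 : D t = 1)
    (h2 : (r : K) * aeval t f * D x = 2 * aeval t (derivative f) * x)
    (h3 : (r : K) * aeval t f * D y = 3 * aeval t (derivative f) * y) (p : P2 k × P2 k) :
    (r : K) * aeval t f * D (VOO_R t x y p) = VOO_R t x y (VOO_d1 f r p) := by
  simp only [VOO_R, rr, VOO_d1]
  rw [map_add, Derivation.leibniz, VOO_D_ev, VOO_D_ev, h1]
  simp only [map_add, map_mul, VOO_ev_C, VOO_ev_X, smul_eq_mul, map_natCast, map_ofNat]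
  linear_combination (ev t x (derivative p.1) + ev t x (derivative p.2) * y) * h2 +
    ev t x p.2 * h3

theorem VOO_d2_R (D : Derivation k K K) (h0 : y ^ 2 = x ^ 3 + aeval t A * x + aeval t B)
    (h1 : D t = 0) (h2 : D x = y) (h3 : 2 * D y = 3 * x ^ 2 + aeval t A) (p : P2 k × P2 k) :
    2 * D (VOO_R t x y p) = VOO_R t x y (VOO_d2 A B p) := by
  simp only [VOO_R, rr, VOO_d2]
  rw [map_add, Derivation.leibniz, VOO_D_ev, VOO_D_ev, h1, h2]
  simp only [map_add, map_mul, WP, VOO_ev_C, VOO_ev_X, smul_eq_mul, map_ofNat, map_pow]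
  linear_combination (2 * ev t x (derivative p.2)) * h0 + ev t x p.2 * h3

/-- degrees in terms of the coefficients -/
theorem VOO_deg (p : P2 k × P2 k) (M : ℕ) : (VOO_L p).natDegree ≤ M ↔
    (∀ n, M < 2 * n → p.1.coeff n = 0) ∧ ∀ n, M < 2 * n + 3 → p.2.coeff n = 0 := by
  have hc : ∀ n, (VOO_L p).coeff n = (if 2 ∣ n then p.1.coeff (n / 2) else 0) +
      if 3 ≤ n then (if 2 ∣ n - 3 then p.2.coeff ((n - 3) / 2) else 0) else 0 := by
    intro n
    rw [VOO_L, lam, coeff_add, coeff_X_pow_mul', coeff_expand (by norm_num)]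
    split_ifs with h1 h2 h3 h3 <;> simp_all [coeff_expand]
  rw [natDegree_le_iff_coeff_eq_zero]
  constructor
  · intro h
    constructor
    · intro n hn
      have h1 := h (2 * n) hn
      rw [hc, if_pos (Dvd.intro n rfl), Nat.mul_div_cancel_left n (by norm_num)] at h1
      by_cases h3 : 3 ≤ 2 * n
      · rw [if_pos h3, if_neg (by omega), add_zero] at h1
        exact h1
      · rw [if_neg h3, add_zero] at h1
        exact h1
    · intro n hn
      have h1 := h (2 * n + 3) hn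
      rw [hc, if_neg (by omega), if_pos (by omega), Nat.add_sub_cancel,
        if_pos (Dvd.intro n rfl), Nat.mul_div_cancel_left n (by norm_num), zero_add] at h1
      exact h1
  · rintro ⟨h1, h2⟩ n hn
    rw [hc]
    have e1 : (if 2 ∣ n then p.1.coeff (n / 2) else 0) = 0 := by
      split_ifs with h
      · exact h1 _ (by omega)
      · rfl
    have e2 : (if 3 ≤ n then (if 2 ∣ n - 3 then p.2.coeff ((n - 3) / 2) else 0) else 0) = 0 := by
      split_ifs with h h'
      · exact h2 _ (by omega)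
      · rfl
      · rfl
    rw [e1, e2, add_zero]

theorem VOO_XD (P : P2 k) (n : ℕ) : (X * derivative P).coeff n = P.coeff n * (n : k[X]) := by
  cases n with
  | zero => simp
  | succ n =>
    rw [coeff_X_mul, coeff_derivative]
    push_cast
    ring

theorem VOO_d1_deg (f : k[X]) (r : ℕ) (p : P2 k × P2 k) (M : ℕ) (h : (VOO_L p).natDegree ≤ M) :
    (VOO_L (VOO_d1 f r p)).natDegree ≤ M := by
  rw [VOO_deg] at h ⊢
  obtain ⟨h1, h2⟩ := h
  constructor
  · intro n hn
    simp only [VOO_d1]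
    rw [coeff_add, coeff_C_mul, coeff_C_mul, VOO_dT_coeff, VOO_XD, h1 n hn]
    simp
  · intro n hn
    simp only [VOO_d1]
    rw [coeff_add, coeff_add, coeff_C_mul, coeff_C_mul, coeff_C_mul, VOO_dT_coeff, VOO_XD,
      h2 n hn]
    simp

theorem VOO_d2_L (A B : k[X]) (p : P2 k × P2 k) : VOO_L (VOO_d2 A B p) =
    X ^ 2 * derivative (VOO_L p) +
      (2 * expand k[X] 2 (derivative p.2) * (C A * X ^ 2 + C B) + C A * expand k[X] 2 p.2) := by
  simp only [VOO_L, lam, VOO_d2, WP, map_add, map_mul, map_pow, expand_X, expand_C,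
    derivative_mul, derivative_expand, derivative_X_pow, map_ofNat]
  simp only [Nat.cast_ofNat, map_ofNat]
  ring

theorem VOO_d2_deg (A B : k[X]) (p : P2 k × P2 k) (M : ℕ) (h : (VOO_L p).natDegree ≤ M) :
    (VOO_L (VOO_d2 A B p)).natDegree ≤ M + 1 ∧
      (VOO_L (VOO_d2 A B p)).coeff (M + 1) = (VOO_L p).coeff M * (M : k[X]) := by
  have hE : (2 * expand k[X] 2 (derivative p.2) * (C A * X ^ 2 + C B) +
      C A * expand k[X] 2 p.2 : P2 k).natDegree ≤ M := by
    by_cases hS : p.2 = 0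
    · rw [hS]
      simp
    · have h1 : 2 * p.2.natDegree + 3 ≤ M := by
        by_contra h2
        exact leadingCoeff_ne_zero.2 hS (((VOO_deg p M).1 h).2 p.2.natDegree (by omega))
      have h2 : (expand k[X] 2 (derivative p.2)).natDegree ≤ 2 * p.2.natDegree := by
        rw [natDegree_expand]
        have h3 := natDegree_derivative_le p.2
        omega
      have h3 : (C A * X ^ 2 + C B : P2 k).natDegree ≤ 2 := by
        refine VOO_natDegree_add_le ?_ ?_
        · exact natDegree_C_mul_X_pow_le A 2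
        · rw [natDegree_C]
          norm_num
      have h4 : (2 * expand k[X] 2 (derivative p.2) : P2 k).natDegree ≤ 2 * p.2.natDegree := by
        refine natDegree_mul_le.trans ?_
        have h5 : (2 : P2 k).natDegree = 0 := natDegree_ofNat 2
        rw [h5, zero_add]
        exact h2
      refine VOO_natDegree_add_le ?_ ?_
      · refine natDegree_mul_le.trans ?_
        omega
      · refine natDegree_mul_le.trans ?_
        rw [natDegree_C, natDegree_expand]
        omega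
  have hz : ∀ N, M < N → (VOO_L p).coeff N = 0 := natDegree_le_iff_coeff_eq_zero.1 h
  have hc : ∀ N, (X ^ 2 * derivative (VOO_L p)).coeff (N + 1) = (VOO_L p).coeff N * (N : k[X]) := by
    intro N
    rw [coeff_X_pow_mul']
    cases N with
    | zero => simp
    | succ N =>
      rw [if_pos (by omega)]
      have e1 : N + 1 + 1 - 2 = N := by omega
      rw [e1, coeff_derivative]
      push_cast
      ring
  rw [VOO_d2_L]
  constructor
  · refine VOO_natDegree_add_le ?_ (hE.trans (Nat.le_succ M))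
    rw [natDegree_le_iff_coeff_eq_zero]
    intro N hN
    obtain ⟨N', rfl⟩ : ∃ N', N = N' + 1 := ⟨N - 1, by omega⟩
    rw [hc, hz N' (by omega), zero_mul]
  · rw [coeff_add, hc, natDegree_le_iff_coeff_eq_zero.1 hE (M + 1) (by omega), add_zero]

theorem VOO_der (F : VOO_F t x y A B) (D : Derivation k K K) (u : K)
    (δ : P2 k × P2 k → P2 k × P2 k)
    (hδ : ∀ p, u * D (VOO_R t x y p) = VOO_R t x y (δ p)) (z : K) (a b : P2 k × P2 k)
    (hb : VOO_L b ≠ 0) (hz : z * VOO_R t x y b = VOO_R t x y a)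
    (hd : (VOO_L (VOO_mu A B (δ a) b - VOO_mu A B a (δ b))).natDegree ≤
      (VOO_L b).natDegree + (VOO_L b).natDegree) : u * D z ∈ VO k t x y := by
  rw [VOO_mem]
  obtain ⟨h1, h2⟩ := VOO_Lmul F b b hb hb
  refine ⟨VOO_mu A B (δ a) b - VOO_mu A B a (δ b), VOO_mu A B b b, h1, ?_, ?_⟩
  · rw [VOO_R_sub, F.mul, F.mul, F.mul, ← hδ, ← hδ]
    have h3 := congrArg D hz
    rw [Derivation.leibniz, smul_eq_mul, smul_eq_mul] at h3
    linear_combination (u * VOO_R t x y b) * h3 - u * D (VOO_R t x y b) * hz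
  · rw [h2]
    exact hd

end VOOsec

theorem p_VOO (hUNQ : Stmt_UNQ) (hDYF : Stmt_DYF) (hLMM : Stmt_LMM) : Stmt_VOO := by
  intro k K _ _ _ _ t x y A B f r hW
  obtain ⟨u1, u2, u3, uy, ux, ut, u4⟩ := hUNQ k K t x y A B f r hW
  obtain ⟨l1, l2, l3, l4⟩ := hLMM k A B
  have F : VOO_F t x y A B := by
    refine ⟨fun p q => ?_, fun p hp => ?_, fun p hp => ?_, fun p q M M' h h' => ?_⟩
    · exact (u1 p.1 p.2 q.1 q.2).symm
    · obtain ⟨h1, h2⟩ := u2 p.1 p.2 hp
      exact Prod.ext h1 h2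
    · obtain ⟨h1, h2⟩ := l3 p.1 p.2 hp
      exact Prod.ext h1 h2
    · exact l4 p.1 p.2 q.1 q.2 M M' h h'
  have hV : ((VOO_V F hW.gen : ValuationSubring K) : Set K) = VO k t x y := rfl
  have h2 : ∀ p : k[X], p ≠ 0 → aeval t p ∈ VO k t x y ∧ (aeval t p)⁻¹ ∈ VO k t x y := by
    intro p hp
    have e1 : VOO_R t x y (C p, 0) = aeval t p := by rw [VOO_R_fst, VOO_ev_C]
    have e2 : VOO_R (k := k) t x y (1, 0) = 1 := by rw [VOO_R_fst, map_one]
    have e3 : (VOO_L (C p, 0) : P2 k).natDegree = 0 := by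
      rw [VOO_L_fst, expand_C, natDegree_C]
    have e4 : (VOO_L (1, 0) : P2 k).natDegree = 0 := by
      rw [VOO_L_fst, map_one, natDegree_one]
    constructor
    · rw [VOO_mem]
      exact ⟨(C p, 0), (1, 0), VOO_L_fst_ne 1 one_ne_zero, by rw [e1, e2, mul_one],
        by rw [e3, e4]⟩
    · rw [VOO_mem]
      exact ⟨(1, 0), (C p, 0), VOO_L_fst_ne _ (C_ne_zero.2 hp),
        by rw [e1, e2, inv_mul_cancel₀ (u4 p hp)], by rw [e3, e4]⟩
  have hmul : ∀ a b : K, a ∈ VO k t x y → b ∈ VO k t x y → a * b ∈ VO k t x y := by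
    intro a b ha hb
    exact (VOO_V F hW.gen).mul_mem a b ha hb
  refine ⟨⟨VOO_V F hW.gen, hV⟩, h2, ?_, ?_, ?_⟩
  · intro D1 D2 hD z hz
    obtain ⟨y1, y2⟩ := (hDYF k K t x y A B f r hW).2 D1 D2 hD
    rw [VOO_mem] at hz
    obtain ⟨a, b, hb, h3, h4⟩ := hz
    constructor
    · have h5 : (r : K) * aeval t f * D1 z ∈ VO k t x y := by
        refine VOO_der F D1 _ (VOO_d1 f r) (VOO_d1_R f r D1 hD.t1 hD.x1 y1) z a b hb h3 ?_
        rw [VOO_L_sub]
        exact VOO_natDegree_sub_le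
          (F.Lm _ b _ _ (VOO_d1_deg f r a _ h4) le_rfl).1
          (F.Lm a _ _ _ h4 (VOO_d1_deg f r b _ le_rfl)).1
      have hr : (r : k[X]) * f ≠ 0 :=
        mul_ne_zero (Nat.cast_ne_zero.2 (by have := hW.r0; omega)) hW.f0
      have h6 := (h2 _ hr).2
      have h7 := u4 _ hr
      rw [map_mul, map_natCast] at h6 h7
      have h8 := hmul _ _ h6 h5
      rwa [inv_mul_cancel_left₀ h7] at h8
    · have h5 : 2 * D2 z ∈ VO k t x y := by
        refine VOO_der F D2 _ (VOO_d2 A B) (VOO_d2_R D2 hW.rel hD.t2 hD.x2 y2) z a b hb h3 ?_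
        set M := (VOO_L b).natDegree with hM
        obtain ⟨a1, a2⟩ := VOO_d2_deg A B a M h4
        obtain ⟨b1, b2⟩ := VOO_d2_deg A B b M le_rfl
        obtain ⟨c1, c2⟩ := F.Lm (VOO_d2 A B a) b _ _ a1 (le_refl M)
        obtain ⟨d1, d2⟩ := F.Lm a (VOO_d2 A B b) _ _ h4 b1
        have e0 : M + 1 + M = M + (M + 1) := by omega
        rw [e0] at c1 c2
        have e1 : (VOO_L (VOO_mu A B (VOO_d2 A B a) b - VOO_mu A B a (VOO_d2 A B b))).natDegree
            ≤ M + (M + 1) := by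
          rw [VOO_L_sub]
          exact VOO_natDegree_sub_le c1 d1
        have e2 : (VOO_L (VOO_mu A B (VOO_d2 A B a) b - VOO_mu A B a (VOO_d2 A B b))).coeff
            (M + (M + 1)) = 0 := by
          rw [VOO_L_sub, coeff_sub, c2, d2, a2, b2]
          ring
        rw [natDegree_le_iff_coeff_eq_zero]
        intro N hN
        rcases (by omega : N = M + (M + 1) ∨ M + (M + 1) < N) with h | h
        · rw [h, e2]
        · exact natDegree_le_iff_coeff_eq_zero.1 e1 N h
      have h20 : (2 : k[X]) ≠ 0 := two_ne_zero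
      have h6 := (h2 _ h20).2
      have h7 := u4 _ h20
      rw [map_ofNat] at h6 h7
      have h8 := hmul _ _ h6 h5
      rwa [inv_mul_cancel_left₀ h7] at h8
  · intro Q S e z hz he
    rw [VOO_mem] at hz
    obtain ⟨a, b, hb, h3, h4⟩ := hz
    by_cases hQ : VOO_L (Q, S) = 0
    · have h5 : lam Q S = 0 := hQ
      rw [h5, natDegree_zero]
      exact Nat.zero_le _
    · have h5 : VOO_mu A B (Q, S) b = VOO_mu A B (X ^ e, 0) a := by
        apply VOO_eq F
        rw [F.mul, F.mul, VOO_R_fst, map_pow, VOO_ev_X, ← h3]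
        have h6 : VOO_R t x y (Q, S) = x ^ e * z := he
        rw [h6]
        ring
      obtain ⟨h6, h7⟩ := VOO_Lmul F (Q, S) b hQ hb
      have h8 : (VOO_L (X ^ e, 0) : P2 k).natDegree ≤ 2 * e := by
        rw [VOO_L_fst, natDegree_expand, natDegree_X_pow, mul_comm]
      have h9 := (F.Lm (X ^ e, 0) a _ _ h8 h4).1
      rw [← h5, h7] at h9
      have h10 : (lam Q S).natDegree = (VOO_L (Q, S)).natDegree := rfl
      omega
  · intro z
    obtain ⟨P, Q, S, hP, hz⟩ := hW.gen z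
    refine ⟨(lam Q S).natDegree, z / x ^ (lam Q S).natDegree, ?_, ?_⟩
    · rw [VOO_mem]
      refine ⟨(Q, S), (X ^ (lam Q S).natDegree * P, 0),
        VOO_L_fst_ne _ (mul_ne_zero (pow_ne_zero _ X_ne_zero) hP), ?_, ?_⟩
      · rw [VOO_R_fst, map_mul, map_pow, VOO_ev_X]
        have h3 : VOO_R t x y (Q, S) = z * ev t x P := hz.symm
        rw [h3]
        have h4 : x ^ (lam Q S).natDegree ≠ 0 := pow_ne_zero _ ux
        field_simp
      · rw [VOO_L_fst, natDegree_expand, natDegree_mul (pow_ne_zero _ X_ne_zero) hP,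
          natDegree_X_pow]
        have h3 : (VOO_L (Q, S)).natDegree = (lam Q S).natDegree := rfl
        omega
    · rw [mul_div_cancel₀]
      exact pow_ne_zero _ ux

end Pool.IE
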