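import Pool.Agent.Work.MP_bf99ce_ie.Interface4
import Pool.Agent.Work.MP_bf99ce_ie.B_VOO

/-! # VO1: the valuation at the point `O`, without flatness -/

set_option autoImplicit false

open Polynomial

noncomputable section

namespace Pool.IE

section VO1sec

variable {k K : Type} [Field k] [Field K] [Algebra k K] {t x y : K} {A B : k[X]}

/-- the pair of `2 W D0` -/
def VO1_d0 (A B : k[X]) (p : P2 k × P2 k) : P2 k × P2 k :=
  (2 * WP A B * VOO_dT p.1,
    2 * WP A B * VOO_dT p.2 + p.2 * (C (derivative A) * X + C (derivative B)))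

theorem VO1_evW (t x : K) (A B : k[X]) :
    ev t x (WP A B) = x ^ 3 + aeval t A * x + aeval t B := by
  simp only [WP, map_add, map_mul, map_pow, VOO_ev_C, VOO_ev_X]

theorem VO1_d0_R (D : Derivation k K K) (h1 : D t = 1) (h2 : D x = 0)
    (h3 : 2 * ev t x (WP A B) * D y = (aeval t (derivative A) * x + aeval t (derivative B)) * y)
    (p : P2 k × P2 k) :
    2 * ev t x (WP A B) * D (VOO_R t x y p) = VOO_R t x y (VO1_d0 A B p) := by
  simp only [VOO_R, rr, VO1_d0]
  rw [map_add, Derivation.leibniz, VOO_D_ev, VOO_D_ev, h1, h2]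
  simp only [map_add, map_mul, VOO_ev_C, VOO_ev_X, smul_eq_mul, map_ofNat]
  linear_combination ev t x p.2 * h3

theorem VO1_LW [CharZero k] (A B : k[X]) : VOO_L (2 * WP A B, 0) ≠ 0 ∧
    (VOO_L (2 * WP A B, 0)).natDegree = 6 := by
  have h1 : VOO_L (2 * WP A B, 0) = 2 * (X ^ 6 + C A * X ^ 2 + C B : P2 k) := by
    rw [VOO_L_fst, WP]
    simp only [map_add, map_mul, map_pow, expand_X, expand_C, map_ofNat]
    ring
  have h2 : (X ^ 6 + C A * X ^ 2 + C B : P2 k).natDegree = 6 := by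
    compute_degree!
  have h20 : (2 : P2 k) ≠ 0 := two_ne_zero
  have h3 : (X ^ 6 + C A * X ^ 2 + C B : P2 k) ≠ 0 := by
    intro h
    rw [h, natDegree_zero] at h2
    omega
  refine ⟨?_, ?_⟩
  · rw [h1]
    exact mul_ne_zero h20 h3
  · rw [h1, natDegree_mul h20 h3, h2, natDegree_ofNat]

theorem VO1_d0_deg [CharZero k] (F : VOO_F t x y A B) (p : P2 k × P2 k) (M : ℕ)
    (h : (VOO_L p).natDegree ≤ M) : (VOO_L (VO1_d0 A B p)).natDegree ≤ M + 6 := by
  have e1 : VO1_d0 A B p = VOO_mu A B (2 * WP A B, 0) (VOO_dT p.1, VOO_dT p.2) +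
      (0, p.2 * (C (derivative A) * X + C (derivative B))) := by
    simp only [VO1_d0, VOO_mu, Prod.mk_add_mk]
    ext1 <;> simp
  have e2 : (VOO_L (VOO_dT p.1, VOO_dT p.2)).natDegree ≤ M := by
    rw [VOO_deg] at h ⊢
    refine ⟨fun n hn => ?_, fun n hn => ?_⟩
    · show (VOO_dT p.1).coeff n = 0
      rw [VOO_dT_coeff, h.1 n hn, derivative_zero]
    · show (VOO_dT p.2).coeff n = 0
      rw [VOO_dT_coeff, h.2 n hn, derivative_zero]
  have e3 : (VOO_L ((0 : P2 k), p.2 * (C (derivative A) * X + C (derivative B)))).natDegree ≤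
      M + 6 := by
    rw [VOO_deg] at h ⊢
    refine ⟨fun n _ => ?_, fun n hn => ?_⟩
    · show (0 : P2 k).coeff n = 0
      rw [coeff_zero]
    · show (p.2 * (C (derivative A) * X + C (derivative B))).coeff n = 0
      obtain ⟨m, rfl⟩ : ∃ m, n = m + 1 := ⟨n - 1, by omega⟩
      rw [mul_add, ← mul_assoc, coeff_add, coeff_mul_X, coeff_mul_C, coeff_mul_C,
        h.2 m (by omega), h.2 (m + 1) (by omega), zero_mul, zero_mul, add_zero]
  rw [e1, VOO_L_add]
  refine VOO_natDegree_add_le ?_ e3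
  have e4 := (F.Lm (2 * WP A B, 0) (VOO_dT p.1, VOO_dT p.2) _ _ (VO1_LW A B).2.le e2).1
  exact e4.trans (by omega)

end VO1sec

theorem p_VO1 (hUNQ : Stmt_UNQ1) (hDYF : Stmt_DYF1) (hLMM : Stmt_LMM) : Stmt_VO1 := by
  intro k K _ _ _ _ t x y A B hW
  obtain ⟨u1, u2, u3, uy, ux, ut, u4⟩ := hUNQ k K t x y A B hW
  obtain ⟨l1, l2, l3, l4⟩ := hLMM k A B
  have F : VOO_F t x y A B := by
    refine ⟨fun p q => ?_, fun p hp => ?_, fun p hp => ?_, fun p q M M' h h' => ?_⟩
    · exact (u1 p.1 p.2 q.1 q.2).symm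
    · obtain ⟨h1, h2⟩ := u2 p.1 p.2 hp
      exact Prod.ext h1 h2
    · obtain ⟨h1, h2⟩ := l3 p.1 p.2 hp
      exact Prod.ext h1 h2
    · exact l4 p.1 p.2 q.1 q.2 M M' h h'
  have hV : ((VOO_V F hW.gen : ValuationSubring K) : Set K) = VO k t x y := rfl
  have h2 : ∀ p : k[X], p ≠ 0 → aeval t p ∈ VO k t x y ∧ (aeval t p)⁻¹ ∈ VO k t x y := by
    intro p hp
    have e1 : VOO_R t x y (C p, 0) = aeval t p := by rw [VOO_R_fst, VOO_ev_C]
    have e2 : VOO_R (k := k) t x y (1, 0) = 1 := by rw [VOO_R_fst, map_one]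
    have e3 : (VOO_L (C p, 0) : P2 k).natDegree = 0 := by
      rw [VOO_L_fst, expand_C, natDegree_C]
    have e4 : (VOO_L (1, 0) : P2 k).natDegree = 0 := by
      rw [VOO_L_fst, map_one, natDegree_one]
    constructor
    · rw [VOO_mem]
      exact ⟨(C p, 0), (1, 0), VOO_L_fst_ne 1 one_ne_zero, by rw [e1, e2, mul_one],
        by rw [e3, e4]⟩
    · rw [VOO_mem]
      exact ⟨(1, 0), (C p, 0), VOO_L_fst_ne _ (C_ne_zero.2 hp),
        by rw [e1, e2, inv_mul_cancel₀ (u4 p hp)], by rw [e3, e4]⟩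
  have hmul : ∀ a b : K, a ∈ VO k t x y → b ∈ VO k t x y → a * b ∈ VO k t x y := by
    intro a b ha hb
    exact (VOO_V F hW.gen).mul_mem a b ha hb
  refine ⟨⟨VOO_V F hW.gen, hV⟩, h2, ?_, ?_, ?_⟩
  · intro D0 D2 hD z hz
    have y1 : 2 * ev t x (WP A B) * D0 y =
        (aeval t (derivative A) * x + aeval t (derivative B)) * y := by
      have h := hDYF k K t x y A B hW D0
      rw [hD.x1, hD.t1] at h
      rw [VO1_evW, ← hW.rel]
      linear_combination y * h
    have y2 : 2 * D2 y = 3 * x ^ 2 + aeval t A := by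
      have h := hDYF k K t x y A B hW D2
      rw [hD.x2, hD.t2] at h
      apply mul_left_cancel₀ uy
      linear_combination h
    rw [VOO_mem] at hz
    obtain ⟨a, b, hb, h3, h4⟩ := hz
    constructor
    · rw [VOO_mem]
      obtain ⟨h6, h7⟩ := VOO_Lmul F b b hb hb
      obtain ⟨h8, h9⟩ := VO1_LW (k := k) A B
      obtain ⟨h10, h11⟩ := VOO_Lmul F (2 * WP A B, 0) (VOO_mu A B b b) h8 h6
      refine ⟨VOO_mu A B (VO1_d0 A B a) b - VOO_mu A B a (VO1_d0 A B b),
        VOO_mu A B (2 * WP A B, 0) (VOO_mu A B b b), h10, ?_, ?_⟩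
      · rw [VOO_R_sub, F.mul, F.mul, F.mul, F.mul, VOO_R_fst, map_mul, map_ofNat,
          ← VO1_d0_R D0 hD.t1 hD.x1 y1, ← VO1_d0_R D0 hD.t1 hD.x1 y1]
        have h12 := congrArg D0 h3
        rw [Derivation.leibniz, smul_eq_mul, smul_eq_mul] at h12
        linear_combination (2 * ev t x (WP A B) * VOO_R t x y b) * h12 -
          2 * ev t x (WP A B) * D0 (VOO_R t x y b) * h3
      · rw [h11, h9, h7, VOO_L_sub]
        have e1 := (F.Lm (VO1_d0 A B a) b _ _ (VO1_d0_deg F a _ h4) le_rfl).1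
        have e2 := (F.Lm a (VO1_d0 A B b) _ _ h4 (VO1_d0_deg F b _ le_rfl)).1
        refine VOO_natDegree_sub_le (e1.trans ?_) (e2.trans ?_)
        · omega
        · omega
    · have h5 : 2 * D2 z ∈ VO k t x y := by
        refine VOO_der F D2 _ (VOO_d2 A B) (VOO_d2_R D2 hW.rel hD.t2 hD.x2 y2) z a b hb h3 ?_
        set M := (VOO_L b).natDegree with hM
        obtain ⟨a1, a2⟩ := VOO_d2_deg A B a M h4
        obtain ⟨b1, b2⟩ := VOO_d2_deg A B b M le_rfl
        obtain ⟨c1, c2⟩ := F.Lm (VOO_d2 A B a) b _ _ a1 (le_refl M)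
        obtain ⟨d1, d2⟩ := F.Lm a (VOO_d2 A B b) _ _ h4 b1
        have e0 : M + 1 + M = M + (M + 1) := by omega
        rw [e0] at c1 c2
        have e1 : (VOO_L (VOO_mu A B (VOO_d2 A B a) b - VOO_mu A B a (VOO_d2 A B b))).natDegree
            ≤ M + (M + 1) := by
          rw [VOO_L_sub]
          exact VOO_natDegree_sub_le c1 d1
        have e2 : (VOO_L (VOO_mu A B (VOO_d2 A B a) b - VOO_mu A B a (VOO_d2 A B b))).coeff
            (M + (M + 1)) = 0 := by
          rw [VOO_L_sub, coeff_sub, c2, d2, a2, b2]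
          ring
        rw [natDegree_le_iff_coeff_eq_zero]
        intro N hN
        rcases (by omega : N = M + (M + 1) ∨ M + (M + 1) < N) with h | h
        · rw [h, e2]
        · exact natDegree_le_iff_coeff_eq_zero.1 e1 N h
      have h20 : (2 : k[X]) ≠ 0 := two_ne_zero
      have h6 := (h2 _ h20).2
      have h7 := u4 _ h20
      rw [map_ofNat] at h6 h7
      have h8 := hmul _ _ h6 h5
      rwa [inv_mul_cancel_left₀ h7] at h8
  · intro Q S e z hz he
    rw [VOO_mem] at hz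
    obtain ⟨a, b, hb, h3, h4⟩ := hz
    by_cases hQ : VOO_L (Q, S) = 0
    · have h5 : lam Q S = 0 := hQ
      rw [h5, natDegree_zero]
      exact Nat.zero_le _
    · have h5 : VOO_mu A B (Q, S) b = VOO_mu A B (X ^ e, 0) a := by
        apply VOO_eq F
        rw [F.mul, F.mul, VOO_R_fst, map_pow, VOO_ev_X, ← h3]
        have h6 : VOO_R t x y (Q, S) = x ^ e * z := he
        rw [h6]
        ring
      obtain ⟨h6, h7⟩ := VOO_Lmul F (Q, S) b hQ hb
      have h8 : (VOO_L (X ^ e, 0) : P2 k).natDegree ≤ 2 * e := by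
        rw [VOO_L_fst, natDegree_expand, natDegree_X_pow, mul_comm]
      have h9 := (F.Lm (X ^ e, 0) a _ _ h8 h4).1
      rw [← h5, h7] at h9
      have h10 : (lam Q S).natDegree = (VOO_L (Q, S)).natDegree := rfl
      omega
  · intro z
    obtain ⟨P, Q, S, hP, hz⟩ := hW.gen z
    refine ⟨(lam Q S).natDegree, z / x ^ (lam Q S).natDegree, ?_, ?_⟩
    · rw [VOO_mem]
      refine ⟨(Q, S), (X ^ (lam Q S).natDegree * P, 0),
        VOO_L_fst_ne _ (mul_ne_zero (pow_ne_zero _ X_ne_zero) hP), ?_, ?_⟩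
      · rw [VOO_R_fst, map_mul, map_pow, VOO_ev_X]
        have h3 : VOO_R t x y (Q, S) = z * ev t x P := hz.symm
        rw [h3]
        have h4 : x ^ (lam Q S).natDegree ≠ 0 := pow_ne_zero _ ux
        field_simp
      · rw [VOO_L_fst, natDegree_expand, natDegree_mul (pow_ne_zero _ X_ne_zero) hP,
          natDegree_X_pow]
        have h3 : (VOO_L (Q, S)).natDegree = (lam Q S).natDegree := rfl
        omega
    · rw [mul_div_cancel₀]
      exact pow_ne_zero _ ux

end Pool.IE
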