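import Pool.Agent.Work.MP_bf99ce_ie.Interface4

/-!
# THEOREM EM (MP_bf99ce_ag): block VOZ, the order at the point `O`
-/

set_option autoImplicit false

open Polynomial

noncomputable section

namespace Pool.IE

theorem VOZ_rr_pow {k K : Type} [Field k] [Field K] [Algebra k K] (t x y : K) (Q S : P2 k) (M : ℕ) :
    rr t x y (X ^ M * Q) (X ^ M * S) = x ^ M * rr t x y Q S := by
  have h : ev t x (X : P2 k) = x := by simp [ev]
  simp only [rr, map_mul, map_pow, h]
  ring

theorem VOZ_lam_pow {k : Type} [Field k] (Q S : P2 k) (M : ℕ) :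
    lam (X ^ M * Q) (X ^ M * S) = X ^ (2 * M) * lam Q S := by
  simp only [lam, map_mul, map_pow, expand_X]
  ring

theorem VOZ_WPmonic {k : Type} [Field k] (A B : k[X]) : (WP A B).Monic ∧ (WP A B).natDegree = 3 := by
  have h : WP A B = X ^ 3 + (C A * X + C B) := by simp only [WP]; ring
  have hd : (C A * X + C B : P2 k).degree < (3 : ℕ) := by
    refine lt_of_le_of_lt (degree_linear_le) ?_
    norm_num
  constructor
  · rw [h]; exact monic_X_pow_add hd
  · rw [h]
    refine natDegree_eq_of_degree_eq_some ?_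
    rw [degree_add_eq_left_of_degree_lt (by rw [degree_X_pow]; exact hd), degree_X_pow]

theorem VOZ_ypow {k K : Type} [Field k] [Field K] [Algebra k K] (t x y : K) (A B : k[X])
    (hW : y ^ 2 = ev t x (WP A B)) (M : ℕ) : ∃ P R : P2 k, rr t x y P R = y ^ M ∧ lam P R ≠ 0 ∧
      (lam P R).natDegree = 3 * M := by
  obtain ⟨hm, hd⟩ := VOZ_WPmonic A B
  rcases Nat.even_or_odd' M with ⟨m, rfl | rfl⟩
  · refine ⟨WP A B ^ m, 0, ?_, ?_, ?_⟩
    · simp only [rr, map_pow, map_zero, zero_mul, add_zero]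
      rw [← hW, pow_mul]
    · simp only [lam, map_pow, map_zero, mul_zero, add_zero]
      exact pow_ne_zero _ ((expand_ne_zero (by norm_num)).2 hm.ne_zero)
    · simp only [lam, map_pow, map_zero, mul_zero, add_zero]
      rw [natDegree_pow, natDegree_expand, hd]; ring
  · refine ⟨0, WP A B ^ m, ?_, ?_, ?_⟩
    · simp only [rr, map_pow, map_zero, zero_add]
      rw [← hW, ← pow_mul, pow_succ]
    · simp only [lam, map_pow, map_zero, zero_add]
      exact mul_ne_zero (pow_ne_zero _ X_ne_zero) (pow_ne_zero _ ((expand_ne_zero (by norm_num)).2 hm.ne_zero))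
    · simp only [lam, map_pow, map_zero, zero_add]
      rw [natDegree_mul (pow_ne_zero _ X_ne_zero)
        (pow_ne_zero _ ((expand_ne_zero (by norm_num)).2 hm.ne_zero)), natDegree_X_pow, natDegree_pow, natDegree_expand, hd]
      ring

theorem p_VOZ (hUNQ1 : Stmt_UNQ1) (_hLMM : Stmt_LMM) (hVO1 : Stmt_VO1) : Stmt_VOZ := by
  intro k K _ _ _ _ t x y A B h
  obtain ⟨hmul, hzero, hev, hy, hx, ht, haev⟩ := hUNQ1 k K t x y A B h
  obtain ⟨-, -, -, hdeg, -⟩ := hVO1 k K t x y A B h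
  have hW : y ^ 2 = ev t x (WP A B) := by
    have := h.rel
    rw [this]
    simp [WP, ev]
  have hX : rr t x y (X : P2 k) 0 = x := by simp [rr, ev]
  have hY : rr t x y (0 : P2 k) 1 = y := by simp [rr]
  have hlX : lam (X : P2 k) 0 = X ^ 2 := by simp [lam]
  have hlY : lam (0 : P2 k) 1 = X ^ 3 := by simp [lam]
  refine ⟨⟨X, 0, 0, 1, ?_, ?_, ?_⟩, ?_, ?_⟩
  · rw [hlY]; exact pow_ne_zero _ X_ne_zero
  · rw [hX, hY, div_mul_cancel₀ _ hy]
  · rw [hlX, hlY, natDegree_X_pow, natDegree_X_pow]; norm_num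
  · intro hv
    have h1 := hdeg 0 1 1 _ hv (by rw [hY]; field_simp)
    rw [hlY, natDegree_X_pow] at h1
    omega
  · intro Q S hl
    set M := (lam Q S).natDegree with hM
    have hr : rr t x y Q S ≠ 0 := by
      intro h0
      obtain ⟨h1, h2⟩ := hzero Q S h0
      apply hl
      rw [h1, h2]; simp [lam]
    obtain ⟨P, R, hPR, hlPR, hdPR⟩ := VOZ_ypow t x y A B hW M
    have hl2 : lam (X ^ M * Q) (X ^ M * S) ≠ 0 := by
      rw [VOZ_lam_pow]; exact mul_ne_zero (pow_ne_zero _ X_ne_zero) hl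
    have hd2 : (lam (X ^ M * Q) (X ^ M * S)).natDegree = 3 * M := by
      rw [VOZ_lam_pow, natDegree_mul (pow_ne_zero _ X_ne_zero) hl, natDegree_X_pow, ← hM]; ring
    have hxy : (x / y) ^ M * rr t x y Q S * y ^ M = x ^ M * rr t x y Q S := by
      rw [div_pow]; field_simp
    have hu : (x / y) ^ M * rr t x y Q S ≠ 0 := mul_ne_zero (pow_ne_zero _ (div_ne_zero hx hy)) hr
    constructor
    · refine ⟨X ^ M * Q, X ^ M * S, P, R, hlPR, ?_, ?_⟩
      · rw [hPR, VOZ_rr_pow, hxy]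
      · rw [hd2, hdPR]
    · refine ⟨P, R, X ^ M * Q, X ^ M * S, hl2, ?_, ?_⟩
      · rw [hPR, VOZ_rr_pow, ← hxy, ← mul_assoc, inv_mul_cancel₀ hu, one_mul]
      · rw [hd2, hdPR]

end Pool.IE
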