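import Pool.Agent.Work.MP_bf99ce_ie.Interface

/-! Block VVA: the Gauss valuation ring at `t = 0` is a valuation ring -/

set_option autoImplicit false

open Polynomial AlgebraicGeometry CategoryTheory

noncomputable section

namespace Pool.IE

theorem VVA_prime (k : Type) [Field k] : Prime (TT k) := Polynomial.prime_C_iff.2 Polynomial.prime_X

theorem VVA_evT {k K : Type} [Field k] [Field K] [Algebra k K] (t x : K) : ev t x (TT k) = t := by
  simp [ev, TT]

theorem VVA_rr_mul {k K : Type} [Field k] [Field K] [Algebra k K] (t x y : K) (R Q S : P2 k) :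
    rr t x y (R * Q) (R * S) = ev t x R * rr t x y Q S := by
  unfold rr
  rw [map_mul, map_mul]
  ring

theorem VVA_rr_add {k K : Type} [Field k] [Field K] [Algebra k K] (t x y : K) (Q S Q' S' : P2 k) :
    rr t x y (Q + Q') (S + S') = rr t x y Q S + rr t x y Q' S' := by
  unfold rr
  rw [map_add, map_add]
  ring

/-- take out powers of `T` -/
theorem VVA_fac (k : Type) [Field k] (P : P2 k) (hP : P ≠ 0) :
    ∃ (a : ℕ) (P' : P2 k), P = TT k ^ a * P' ∧ ¬ TT k ∣ P' := by
  have hf : FiniteMultiplicity (TT k) P :=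
    FiniteMultiplicity.of_not_isUnit (VVA_prime k).not_isUnit hP
  obtain ⟨c, hc1, hc2⟩ := hf.exists_eq_pow_mul_and_not_dvd
  exact ⟨_, c, hc1, hc2⟩

theorem VVA_pair (k : Type) [Field k] (Q S : P2 k) (h : Q ≠ 0 ∨ S ≠ 0) :
    ∃ (b : ℕ) (Q' S' : P2 k), Q = TT k ^ b * Q' ∧ S = TT k ^ b * S' ∧
      ¬ (TT k ∣ Q' ∧ TT k ∣ S') := by
  by_cases hQ : Q = 0
  · obtain ⟨b, S', h1, h2⟩ := VVA_fac k S (h.resolve_left fun h => h hQ)
    exact ⟨b, 0, S', by rw [hQ, mul_zero], h1, fun h => h2 h.2⟩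
  · obtain ⟨a, Q', h1, h2⟩ := VVA_fac k Q hQ
    by_cases hS : S = 0
    · exact ⟨a, Q', 0, h1, by rw [hS, mul_zero], fun h => h2 h.1⟩
    · obtain ⟨b, S', h3, h4⟩ := VVA_fac k S hS
      rcases le_total a b with hab | hab
      · refine ⟨a, Q', TT k ^ (b - a) * S', h1, ?_, fun h => h2 h.1⟩
        rw [← mul_assoc, ← pow_add, Nat.add_sub_cancel' hab]
        exact h3
      · refine ⟨b, TT k ^ (a - b) * Q', S', ?_, h3, fun h => h4 h.2⟩
        rw [← mul_assoc, ← pow_add, Nat.add_sub_cancel' hab]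
        exact h1

/-- reduction modulo `T` -/
def VVA_red (k : Type) [Field k] : P2 k →+* k[X] := mapRingHom (evalRingHom (0 : k))

theorem VVA_red_zero (k : Type) [Field k] (P : P2 k) : VVA_red k P = 0 ↔ TT k ∣ P := by
  unfold TT
  rw [C_dvd_iff_dvd_coeff]
  constructor
  · intro h i
    rw [X_dvd_iff, coeff_zero_eq_eval_zero]
    have h1 := congrArg (fun p => p.coeff i) h
    simp only [VVA_red, coe_mapRingHom, coeff_map, coeff_zero, coe_evalRingHom] at h1
    exact h1
  · intro h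
    ext i
    have h1 := h i
    rw [X_dvd_iff, coeff_zero_eq_eval_zero] at h1
    simp only [VVA_red, coe_mapRingHom, coeff_map, coeff_zero, coe_evalRingHom]
    exact h1

theorem VVA_norm (k : Type) [Field k] (A B : k[X]) (Q S : P2 k) (h : ¬ (TT k ∣ Q ∧ TT k ∣ S)) :
    ¬ TT k ∣ Q * Q + S * (-S) * WP A B := by
  intro hd
  rw [← VVA_red_zero] at hd
  have hW : VVA_red k (WP A B) = X ^ 3 + C (A.eval 0) * X + C (B.eval 0) := by
    simp [VVA_red, WP]
  rw [map_add, map_mul, map_mul, map_mul, map_neg, hW] at hd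
  set q := VVA_red k Q with hq
  set s := VVA_red k S with hs
  have h1 : q * q = s * s * (X ^ 3 + C (A.eval 0) * X + C (B.eval 0)) := by
    linear_combination hd
  have hWd : (X ^ 3 + C (A.eval 0) * X + C (B.eval 0) : k[X]).natDegree = 3 := by
    compute_degree!
  have hW0 : (X ^ 3 + C (A.eval 0) * X + C (B.eval 0) : k[X]) ≠ 0 := by
    intro h0
    rw [h0, natDegree_zero] at hWd
    omega
  by_cases hs0 : s = 0
  · rw [hs0, mul_zero, zero_mul] at h1
    have hq0 : q = 0 := mul_self_eq_zero.1 h1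
    exact h ⟨(VVA_red_zero k Q).1 hq0, (VVA_red_zero k S).1 hs0⟩
  · have hq0 : q ≠ 0 := by
      intro hq0
      rw [hq0, mul_zero] at h1
      exact mul_ne_zero (mul_ne_zero hs0 hs0) hW0 h1.symm
    have h2 := congrArg natDegree h1
    rw [natDegree_mul hq0 hq0, natDegree_mul (mul_ne_zero hs0 hs0) hW0, natDegree_mul hs0 hs0,
      hWd] at h2
    omega

theorem p_VVA (hUNQ : Stmt_UNQ) : Stmt_VVA := by
  intro k K _ _ _ t x y A B f r hW
  obtain ⟨hmul, hrr, hev, hy, hx, ht, -⟩ := hUNQ k K t x y A B f r hW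
  have hT := VVA_prime k
  have h1 : ¬ TT k ∣ 1 := fun h => hT.not_isUnit (isUnit_of_dvd_one h)
  have hpow : ∀ n : ℕ, ev t x (TT k ^ n) = t ^ n := fun n => by rw [map_pow, VVA_evT]
  refine ⟨{
    carrier := VG k t x y
    mul_mem' := ?_
    one_mem' := ?_
    add_mem' := ?_
    zero_mem' := ?_
    neg_mem' := ?_
    mem_or_inv_mem' := ?_ }, rfl⟩
  · rintro z z' ⟨P, Q, S, hP, hz⟩ ⟨P', Q', S', hP', hz'⟩
    refine ⟨P * P', _, _, fun h => (hT.dvd_or_dvd h).elim hP hP',
      Eq.trans ?_ (hmul Q S Q' S')⟩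
    rw [map_mul, ← hz, ← hz']
    ring
  · exact ⟨1, 1, 0, h1, by simp [rr]⟩
  · rintro z z' ⟨P, Q, S, hP, hz⟩ ⟨P', Q', S', hP', hz'⟩
    refine ⟨P * P', P' * Q + P * Q', P' * S + P * S', fun h => (hT.dvd_or_dvd h).elim hP hP', ?_⟩
    rw [VVA_rr_add, VVA_rr_mul, VVA_rr_mul, ← hz, ← hz', map_mul]
    ring
  · exact ⟨1, 0, 0, h1, by simp [rr]⟩
  · rintro z ⟨P, Q, S, hP, hz⟩
    refine ⟨P, -Q, -S, hP, ?_⟩
    unfold rr at hz ⊢
    rw [map_neg, map_neg]
    linear_combination -hz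
  · intro z
    by_cases hz0 : z = 0
    · left
      exact ⟨1, 0, 0, h1, by simp [rr, hz0]⟩
    obtain ⟨P, Q, S, hP, hz⟩ := hW.gen z
    have hQS : Q ≠ 0 ∨ S ≠ 0 := by
      by_contra hcon
      push Not at hcon
      rw [hcon.1, hcon.2] at hz
      have h0 : rr t x y (0 : P2 k) 0 = 0 := by simp [rr]
      rw [h0] at hz
      exact mul_ne_zero hz0 (hev P hP) hz
    obtain ⟨a, P', hPa, hP'⟩ := VVA_fac k P hP
    obtain ⟨b, Q', S', hQb, hSb, hQS'⟩ := VVA_pair k Q S hQS
    have hz1 : z * (t ^ a * ev t x P') = t ^ b * rr t x y Q' S' := by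
      rw [hPa, hQb, hSb, VVA_rr_mul, map_mul, hpow, hpow] at hz
      exact hz
    rcases le_or_gt a b with hab | hab
    · left
      refine ⟨P', TT k ^ (b - a) * Q', TT k ^ (b - a) * S', hP', ?_⟩
      rw [VVA_rr_mul, hpow]
      have h2 : t ^ b = t ^ a * t ^ (b - a) := by rw [← pow_add, Nat.add_sub_cancel' hab]
      rw [h2] at hz1
      exact mul_left_cancel₀ (pow_ne_zero a ht) (by linear_combination hz1)
    · right
      have h2 : t ^ a = t ^ b * t ^ (a - b) := by rw [← pow_add, Nat.add_sub_cancel' hab.le]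
      have hz2 : z * (t ^ (a - b) * ev t x P') = rr t x y Q' S' := by
        rw [h2] at hz1
        exact mul_left_cancel₀ (pow_ne_zero b ht) (by linear_combination hz1)
      have hN : ev t x (Q' * Q' + S' * (-S') * WP A B) = rr t x y Q' S' * rr t x y Q' (-S') := by
        rw [hmul]
        unfold rr
        rw [show Q' * (-S') + S' * Q' = 0 by ring, map_zero, zero_mul, add_zero]
      refine ⟨Q' * Q' + S' * (-S') * WP A B, TT k ^ (a - b) * P' * Q', TT k ^ (a - b) * P' * (-S'),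
        VVA_norm k A B Q' S' hQS', ?_⟩
      rw [hN, VVA_rr_mul, map_mul, hpow, ← hz2]
      field_simp

end Pool.IE
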