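import Pool.Agent.Work.MP_bf99ce_ie.Interface3

/-!
# THEOREM IEM, block GLD: the degree on the generic line
-/

set_option autoImplicit false

open Polynomial

noncomputable section

namespace Pool.IE

theorem GLD_eval {k k' : Type} [Field k] [Field k'] [Algebra k k'] {m : ℕ} (α β : Fin m → k')
    (D : MvPolynomial (Fin m) k) (c : k') :
    (lin k α β D).eval c = MvPolynomial.aeval (fun l => α l + β l * c) D := by
  induction D using MvPolynomial.induction_on with
  | C a =>
    rw [lin, MvPolynomial.aeval_C, MvPolynomial.aeval_C]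
    rw [IsScalarTower.algebraMap_apply k k' k'[X], Polynomial.algebraMap_eq, eval_C]
  | add p q hp hq => rw [map_add, eval_add, hp, hq, map_add]
  | mul_X p i hp =>
    have h1 : lin k α β (MvPolynomial.X i) = C (α i) + C (β i) * X := by
      rw [lin, MvPolynomial.aeval_X]
    rw [map_mul, eval_mul, hp, map_mul, h1, MvPolynomial.aeval_X]
    simp

theorem p_GLD : Stmt_GLD := by
  intro k k' _ _ _ m α β hAI D
  have h0 : (lin k α β D).eval 0 = MvPolynomial.aeval (Sum.elim α β) (MvPolynomial.rename Sum.inl D) := by
    rw [GLD_eval, MvPolynomial.aeval_rename]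
    congr 2
    funext l
    simp
  refine ⟨fun hD hlin => ?_, fun hC => ?_⟩
  · rw [hlin, eval_zero] at h0
    have h1 := hAI _ h0.symm
    apply hD
    apply MvPolynomial.rename_injective Sum.inl Sum.inl_injective
    rw [h1, map_zero]
  · by_contra hdeg
    have hd : (lin k α β D).natDegree = 0 := by omega
    obtain ⟨e, he⟩ := Polynomial.natDegree_eq_zero.1 hd
    have h1 : (lin k α β D).eval 0 = (lin k α β D).eval 1 := by
      rw [← he, eval_C, eval_C]
    let S : MvPolynomial (Fin m ⊕ Fin m) k :=
      MvPolynomial.aeval (fun l : Fin m => (MvPolynomial.X (Sum.inl l) + MvPolynomial.X (Sum.inr l) :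
        MvPolynomial (Fin m ⊕ Fin m) k)) D
    have h2 : MvPolynomial.aeval (Sum.elim α β) S = (lin k α β D).eval 1 := by
      rw [GLD_eval]
      have h3 : (MvPolynomial.aeval (Sum.elim α β)).comp
          (MvPolynomial.aeval (fun l : Fin m => (MvPolynomial.X (Sum.inl l) +
            MvPolynomial.X (Sum.inr l) : MvPolynomial (Fin m ⊕ Fin m) k))) =
          (MvPolynomial.aeval (fun l => α l + β l * 1) : MvPolynomial (Fin m) k →ₐ[k] k') := by
        apply MvPolynomial.algHom_ext
        intro l
        simp
      exact DFunLike.congr_fun h3 D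
    have h4 : MvPolynomial.rename Sum.inl D - S = 0 := by
      apply hAI
      rw [map_sub, ← h0, h2, h1, sub_self]
    have h5 : MvPolynomial.rename Sum.inl D = S := sub_eq_zero.1 h4
    let ψ : MvPolynomial (Fin m ⊕ Fin m) k →ₐ[k] MvPolynomial (Fin m) k :=
      MvPolynomial.aeval (Sum.elim (fun _ => 0) MvPolynomial.X)
    have h6 : ψ (MvPolynomial.rename Sum.inl D) =
        MvPolynomial.C (MvPolynomial.constantCoeff D) := by
      show MvPolynomial.aeval _ _ = _
      rw [MvPolynomial.aeval_rename]
      have h7 : (Sum.elim (fun _ => 0) MvPolynomial.X ∘ Sum.inl :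
          Fin m → MvPolynomial (Fin m) k) = 0 := by
        funext l
        simp
      rw [h7, MvPolynomial.aeval_zero]
      rfl
    have h8 : ψ S = D := by
      have h9 : ψ.comp (MvPolynomial.aeval (fun l : Fin m => (MvPolynomial.X (Sum.inl l) +
            MvPolynomial.X (Sum.inr l) : MvPolynomial (Fin m ⊕ Fin m) k))) =
          AlgHom.id k (MvPolynomial (Fin m) k) := by
        apply MvPolynomial.algHom_ext
        intro l
        simp [ψ]
      exact DFunLike.congr_fun h9 D
    apply hC (MvPolynomial.constantCoeff D)
    rw [← h6, h5, h8]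

end Pool.IE
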