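import Pool.Agent.Work.MP_bf99ce_ie.Interface

/-!
# Block INP: inversion of polynomials
-/

set_option autoImplicit false

open Polynomial AlgebraicGeometry CategoryTheory

noncomputable section

namespace Pool.IE

theorem INP_even {k : Type} [Field k] (Q S : P2 k) (n : ℕ) : (lam Q S).coeff (2 * n) = Q.coeff n := by
  unfold lam
  rw [coeff_add, coeff_expand (by norm_num), if_pos (dvd_mul_right 2 n),
    Nat.mul_div_cancel_left n (by norm_num), coeff_X_pow_mul']
  split_ifs with h
  · rw [coeff_expand (by norm_num), if_neg (by omega), add_zero]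
  · rw [add_zero]

theorem INP_odd {k : Type} [Field k] (Q S : P2 k) (n : ℕ) :
    (lam Q S).coeff (2 * n + 3) = S.coeff n := by
  unfold lam
  rw [coeff_add, coeff_expand (by norm_num), if_neg (by omega), zero_add, coeff_X_pow_mul,
    coeff_expand (by norm_num), if_pos (dvd_mul_right 2 n),
    Nat.mul_div_cancel_left n (by norm_num)]

theorem INP_one {k : Type} [Field k] (Q S : P2 k) : (lam Q S).coeff 1 = 0 := by
  unfold lam
  rw [coeff_add, coeff_expand (by norm_num), if_neg (by omega), zero_add, coeff_X_pow_mul',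
    if_neg (by omega)]

/-- Reflection of the coefficients. -/
def INP_R {k : Type} [Field k] (N d : ℕ) (P : P2 k) : P2 k :=
  ∑ n ∈ P.support, monomial n (reflect (N - d * n) (P.coeff n))

theorem INP_R_coeff {k : Type} [Field k] (N d : ℕ) (P : P2 k) (n : ℕ) :
    (INP_R N d P).coeff n = reflect (N - d * n) (P.coeff n) := by
  unfold INP_R
  rw [finsetSum_coeff]
  simp only [coeff_monomial]
  rw [Finset.sum_ite_eq' P.support n]
  split_ifs with h
  · rfl
  · rw [notMem_support_iff.1 h, reflect_zero]

theorem INP_eval {k K : Type} [Field k] [Field K] [Algebra k K] (t : K) (ht : t ≠ 0) (N : ℕ)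
    (p : k[X]) (hp : p.natDegree ≤ N) : aeval t⁻¹ (reflect N p) * t ^ N = aeval t p := by
  let _ := invertibleOfNonzero ht
  have h := eval₂_reflect_mul_pow (algebraMap k K) t N p hp
  rw [invOf_eq_inv] at h
  rw [aeval_def, aeval_def]
  exact h

theorem INP_ev {k K : Type} [Field k] [Field K] [Algebra k K] (t x : K) (ht : t ≠ 0) (N d : ℕ)
    (P : P2 k) (hP : ∀ n ∈ P.support, d * n + (P.coeff n).natDegree ≤ N) :
    ev t⁻¹ (x / t ^ d) (INP_R N d P) = t⁻¹ ^ N * ev t x P := by
  have h1 : ev t x P = ∑ n ∈ P.support, aeval t (P.coeff n) * x ^ n := by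
    unfold ev
    rw [coe_eval₂RingHom, eval₂_eq_sum, sum_def]
    rfl
  rw [h1, Finset.mul_sum]
  unfold INP_R
  rw [map_sum]
  refine Finset.sum_congr rfl fun n hn => ?_
  have h2 : ev t⁻¹ (x / t ^ d) (monomial n (reflect (N - d * n) (P.coeff n))) =
      aeval t⁻¹ (reflect (N - d * n) (P.coeff n)) * (x / t ^ d) ^ n := by
    unfold ev
    rw [coe_eval₂RingHom, eval₂_monomial]
    rfl
  have h3 := hP n hn
  have h4 := INP_eval (K := K) t ht (N - d * n) (P.coeff n) (by omega)
  have h5 : t ^ N = t ^ (N - d * n) * t ^ (d * n) := by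
    rw [← pow_add]
    congr 1
    omega
  rw [h2, ← h4, inv_pow, h5, div_pow, ← pow_mul]
  have h6 : t ^ (N - d * n) ≠ 0 := pow_ne_zero _ ht
  have h7 : t ^ (d * n) ≠ 0 := pow_ne_zero _ ht
  field_simp

/-- Block INP. -/
theorem p_INP : Stmt_INP := by
  intro k K _ _ _ t x y ht d Q S
  refine ⟨(∑ n ∈ Q.support, (2 * d * n + (Q.coeff n).natDegree)) +
    ∑ n ∈ S.support, (3 * d + 2 * d * n + (S.coeff n).natDegree) + 3 * d, ?_⟩
  intro N hN
  have hQ : ∀ n ∈ Q.support, 2 * d * n + (Q.coeff n).natDegree ≤ N := by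
    intro n hn
    have h := Finset.single_le_sum (f := fun n => 2 * d * n + (Q.coeff n).natDegree)
      (fun _ _ => Nat.zero_le _) hn
    have h' : 2 * d * n + (Q.coeff n).natDegree ≤
      ∑ n ∈ Q.support, (2 * d * n + (Q.coeff n).natDegree) := h
    omega
  have hS : ∀ n ∈ S.support, 3 * d + 2 * d * n + (S.coeff n).natDegree ≤ N := by
    intro n hn
    have h := Finset.single_le_sum (f := fun n => 3 * d + 2 * d * n + (S.coeff n).natDegree)
      (fun _ _ => Nat.zero_le _) hn
    have h' : 3 * d + 2 * d * n + (S.coeff n).natDegree ≤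
      ∑ n ∈ S.support, (3 * d + 2 * d * n + (S.coeff n).natDegree) := h
    omega
  have hN3 : 3 * d ≤ N := by omega
  refine ⟨INP_R N (2 * d) Q, INP_R (N - 3 * d) (2 * d) S, ?_⟩
  -- the coefficients
  have hco : ∀ m, (lam (INP_R N (2 * d) Q) (INP_R (N - 3 * d) (2 * d) S)).coeff m =
      reflect (N - d * m) ((lam Q S).coeff m) := by
    intro m
    rcases Nat.even_or_odd' m with ⟨n, rfl | rfl⟩
    · rw [INP_even, INP_even, INP_R_coeff]
      congr 1
      have : 2 * d * n = d * (2 * n) := by ring
      rw [this]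
    · rcases n with _ | n
      · have e : 2 * 0 + 1 = 1 := rfl
        rw [e, INP_one, INP_one, reflect_zero]
      · have e : 2 * (n + 1) + 1 = 2 * n + 3 := by ring
        rw [e, INP_odd, INP_odd, INP_R_coeff]
        congr 1
        have : d * (2 * n + 3) = 3 * d + 2 * d * n := by ring
        rw [this]
        omega
  have hbd : ∀ m, (lam Q S).coeff m ≠ 0 → d * m + ((lam Q S).coeff m).natDegree ≤ N := by
    intro m hm
    rcases Nat.even_or_odd' m with ⟨n, rfl | rfl⟩
    · rw [INP_even] at hm ⊢
      have h := hQ n (mem_support_iff.2 hm)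
      have : d * (2 * n) = 2 * d * n := by ring
      omega
    · rcases n with _ | n
      · have e : 2 * 0 + 1 = 1 := rfl
        rw [e, INP_one] at hm
        exact absurd rfl hm
      · have e : 2 * (n + 1) + 1 = 2 * n + 3 := by ring
        rw [e] at hm ⊢
        rw [INP_odd] at hm ⊢
        have h := hS n (mem_support_iff.2 hm)
        have : d * (2 * n + 3) = 3 * d + 2 * d * n := by ring
        omega
  have hz : ∀ m, (lam (INP_R N (2 * d) Q) (INP_R (N - 3 * d) (2 * d) S)).coeff m = 0 ↔
      (lam Q S).coeff m = 0 := by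
    intro m
    rw [hco m]
    exact reflect_eq_zero_iff
  have hdeg : (lam (INP_R N (2 * d) Q) (INP_R (N - 3 * d) (2 * d) S)).natDegree =
      (lam Q S).natDegree := by
    refine le_antisymm ?_ ?_
    · rw [natDegree_le_iff_coeff_eq_zero]
      intro m hm
      rw [hz]
      exact coeff_eq_zero_of_natDegree_lt hm
    · rw [natDegree_le_iff_coeff_eq_zero]
      intro m hm
      rw [← hz]
      exact coeff_eq_zero_of_natDegree_lt hm
  refine ⟨?_, hdeg, ?_⟩
  · unfold rr
    rw [INP_ev t x ht N (2 * d) Q hQ, INP_ev t x ht (N - 3 * d) (2 * d) S (by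
      intro n hn
      have := hS n hn
      omega)]
    have h5 : t ^ N = t ^ (N - 3 * d) * t ^ (3 * d) := by
      rw [← pow_add]
      congr 1
      omega
    have h6 : t ^ (N - 3 * d) ≠ 0 := pow_ne_zero _ ht
    have h7 : t ^ (3 * d) ≠ 0 := pow_ne_zero _ ht
    rw [inv_pow, inv_pow, h5]
    field_simp
  · intro hne
    have hl : (lam Q S).leadingCoeff ≠ 0 := leadingCoeff_ne_zero.2 hne
    constructor
    · intro h0
      apply hl
      have h1 := (hz (lam Q S).natDegree).1 (by rw [h0, coeff_zero])
      exact h1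
    · intro e he
      have h1 : (lam (INP_R N (2 * d) Q) (INP_R (N - 3 * d) (2 * d) S)).leadingCoeff =
          reflect (N - d * (lam Q S).natDegree) (lam Q S).leadingCoeff := by
        unfold leadingCoeff
        rw [hdeg, hco]
      rw [h1, X_pow_dvd_iff] at he
      have h2 := hbd (lam Q S).natDegree hl
      have h2' : d * (lam Q S).natDegree + ((lam Q S).leadingCoeff).natDegree ≤ N := h2
      by_contra hcon
      have h3 : N - d * (lam Q S).natDegree - (lam Q S).leadingCoeff.natDegree < e := by omega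
      have h4 := he _ h3
      rw [coeff_reflect, revAt_le (by omega)] at h4
      have h5 : N - d * (lam Q S).natDegree -
          (N - d * (lam Q S).natDegree - (lam Q S).leadingCoeff.natDegree) =
          (lam Q S).leadingCoeff.natDegree := by omega
      rw [h5] at h4
      exact hl (leadingCoeff_eq_zero.1 h4)

end Pool.IE
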