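import Pool.Agent.Work.MP_bf99ce_ie.Interface

/-!
# Block SYM (THEOREM IE): the symmetric algebra of the differentials
-/

set_option autoImplicit false

open Polynomial AlgebraicGeometry CategoryTheory

noncomputable section

namespace Pool.IE

/-- the elements of `K` whose differential lies in a given subspace -/
def SYM_L {k K : Type} [Field k] [Field K] [Algebra k K] (N : Submodule K (Ω[K⁄k])) : Subalgebra k K where
  carrier := {z | KaehlerDifferential.D k K z ∈ N}
  mul_mem' := by
    intro a b ha hb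
    simp only [Set.mem_ofPred_eq] at ha hb ⊢
    rw [Derivation.leibniz]
    exact N.add_mem (N.smul_mem _ hb) (N.smul_mem _ ha)
  add_mem' := by
    intro a b ha hb
    simp only [Set.mem_ofPred_eq] at ha hb ⊢
    rw [map_add]
    exact N.add_mem ha hb
  algebraMap_mem' := by
    intro c
    simp only [Set.mem_ofPred_eq, Derivation.map_algebraMap]
    exact N.zero_mem

lemma SYM_mem {k K : Type} [Field k] [Field K] [Algebra k K] (N : Submodule K (Ω[K⁄k])) (z : K) :
    z ∈ SYM_L N ↔ KaehlerDifferential.D k K z ∈ N := Iff.rfl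

lemma SYM_quot {k K : Type} [Field k] [Field K] [Algebra k K] (N : Submodule K (Ω[K⁄k])) (z a : K)
    (ha0 : a ≠ 0) (ha : a ∈ SYM_L N) (hza : z * a ∈ SYM_L N) : z ∈ SYM_L N := by
  rw [SYM_mem] at *
  rw [Derivation.leibniz] at hza
  have h1 : a • KaehlerDifferential.D k K z ∈ N := by
    have h2 := N.sub_mem hza (N.smul_mem z ha)
    rwa [add_sub_cancel_left] at h2
  have h3 := N.smul_mem a⁻¹ h1
  rwa [smul_smul, inv_mul_cancel₀ ha0, one_smul] at h3

lemma SYM_aeval {k K : Type} [Field k] [Field K] [Algebra k K] (N : Submodule K (Ω[K⁄k])) (t : K)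
    (ht : t ∈ SYM_L N) (p : k[X]) : aeval t p ∈ SYM_L N := by
  have h1 : aeval t p ∈ Algebra.adjoin k {t} := aeval_mem_adjoin_singleton k t
  exact Algebra.adjoin_le (Set.singleton_subset_iff.2 ht) h1

lemma SYM_ev {k K : Type} [Field k] [Field K] [Algebra k K] (N : Submodule K (Ω[K⁄k])) (t x : K)
    (ht : t ∈ SYM_L N) (hx : x ∈ SYM_L N) (P : P2 k) : ev t x P ∈ SYM_L N := by
  induction P using Polynomial.induction_on' with
  | add p q hp hq => rw [map_add]; exact add_mem hp hq
  | monomial n a =>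
    rw [← C_mul_X_pow_eq_monomial, map_mul, map_pow]
    have h1 : ev t x (C a) = aeval t a := by simp [ev]
    have h2 : ev t x (X : P2 k) = x := by simp [ev]
    rw [h1, h2]
    exact mul_mem (SYM_aeval N t ht a) (pow_mem hx n)

theorem p_SYM (hUNQ : Stmt_UNQ) (_hDYF : Stmt_DYF) : Stmt_SYM := by
  intro k K _ _ _ _ t x y A B f r hWD D1 D2 hDD
  obtain ⟨_, _, hne, hy0, _, _, _⟩ := hUNQ k K t x y A B f r hWD
  -- the two linear forms
  let φ1 : Ω[K⁄k] →ₗ[K] K := D1.liftKaehlerDifferential
  let φ2 : Ω[K⁄k] →ₗ[K] K := D2.liftKaehlerDifferential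
  have h1D : ∀ a, φ1 (KaehlerDifferential.D k K a) = D1 a := fun a =>
    Derivation.liftKaehlerDifferential_comp_D D1 a
  have h2D : ∀ a, φ2 (KaehlerDifferential.D k K a) = D2 a := fun a =>
    Derivation.liftKaehlerDifferential_comp_D D2 a
  let dt : Ω[K⁄k] := KaehlerDifferential.D k K t
  let dx : Ω[K⁄k] := KaehlerDifferential.D k K x
  -- dt, dx span
  let N : Submodule K (Ω[K⁄k]) := Submodule.span K {dt, dx}
  have htN : t ∈ SYM_L N := (SYM_mem N t).2 (Submodule.subset_span (by simp [dt]))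
  have hxN : x ∈ SYM_L N := (SYM_mem N x).2 (Submodule.subset_span (by simp [dx]))
  have hyN : y ∈ SYM_L N := by
    have hy2 : y ^ 2 ∈ SYM_L N := by
      rw [hWD.rel]
      exact add_mem (add_mem (pow_mem hxN 3) (mul_mem (SYM_aeval N t htN A) hxN))
        (SYM_aeval N t htN B)
    rw [SYM_mem, pow_two, Derivation.leibniz] at hy2
    rw [SYM_mem]
    have h3 : (2 * y) • KaehlerDifferential.D k K y ∈ N := by
      rw [two_mul, add_smul]; exact hy2
    have h4 : (2 * y) ≠ 0 := by
      have : CharZero K := charZero_of_injective_algebraMap (algebraMap k K).injective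
      exact mul_ne_zero two_ne_zero hy0
    have h5 := N.smul_mem (2 * y)⁻¹ h3
    rwa [smul_smul, inv_mul_cancel₀ h4, one_smul] at h5
  have hall : ∀ z : K, z ∈ SYM_L N := by
    intro z
    obtain ⟨P, Q, S, hP, hz⟩ := hWD.gen z
    refine SYM_quot N z (ev t x P) (hne P hP) (SYM_ev N t x htN hxN P) ?_
    rw [hz]
    exact add_mem (SYM_ev N t x htN hxN Q) (mul_mem (SYM_ev N t x htN hxN S) hyN)
  have hN : N = ⊤ := by
    rw [eq_top_iff, ← KaehlerDifferential.span_range_derivation k K, Submodule.span_le]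
    rintro _ ⟨z, rfl⟩
    exact hall z
  have hspan : ∀ m : Ω[K⁄k], ∃ a b : K, a • dt + b • dx = m := by
    intro m
    have : m ∈ N := by rw [hN]; trivial
    exact Submodule.mem_span_pair.1 this
  -- the isomorphism with `K²`
  let φ : Ω[K⁄k] →ₗ[K] (Fin 2 → K) := LinearMap.pi ![φ1, φ2]
  have hφ0 : ∀ m, φ m 0 = φ1 m := fun m => rfl
  have hφ1 : ∀ m, φ m 1 = φ2 m := fun m => rfl
  have e1 : φ1 dt = 1 := by rw [← hDD.t1]; exact h1D t
  have e2 : φ1 dx = D1 x := h1D x
  have e3 : φ2 dt = 0 := by rw [← hDD.t2]; exact h2D t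
  have e4 : φ2 dx = y := by rw [← hDD.x2]; exact h2D x
  have hinj : Function.Injective φ := by
    rw [injective_iff_map_eq_zero]
    intro m hm
    obtain ⟨a, b, rfl⟩ := hspan m
    have h1 : φ1 (a • dt + b • dx) = 0 := by rw [← hφ0, hm]; rfl
    have h2 : φ2 (a • dt + b • dx) = 0 := by rw [← hφ1, hm]; rfl
    rw [map_add, map_smul, map_smul, e1, e2, smul_eq_mul, smul_eq_mul] at h1
    rw [map_add, map_smul, map_smul, e3, e4, smul_eq_mul, smul_eq_mul] at h2
    have hb : b = 0 := by
      have : b * y = 0 := by linear_combination h2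
      exact (mul_eq_zero.1 this).resolve_right hy0
    have ha : a = 0 := by
      rw [hb] at h1
      linear_combination h1
    rw [ha, hb]; simp
  have hsur : Function.Surjective φ := by
    intro w
    refine ⟨(w 0 - w 1 / y * D1 x) • dt + (w 1 / y) • dx, ?_⟩
    refine funext (Fin.forall_fin_two.2 ⟨?_, ?_⟩)
    · rw [hφ0, map_add, map_smul, map_smul, e1, e2, smul_eq_mul, smul_eq_mul]
      ring
    · rw [hφ1, map_add, map_smul, map_smul, e3, e4, smul_eq_mul, smul_eq_mul]
      field_simp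
      ring
  let e : Ω[K⁄k] ≃ₗ[K] (Fin 2 → K) := LinearEquiv.ofBijective φ ⟨hinj, hsur⟩
  let b : Module.Basis (Fin 2) K (Ω[K⁄k]) := Module.Basis.ofEquivFun e
  refine ⟨(SymmetricAlgebra.equivMvPolynomial b).toAlgHom,
    (SymmetricAlgebra.equivMvPolynomial b).injective, ?_⟩
  intro a
  have hb : KaehlerDifferential.D k K a = ∑ i, φ (KaehlerDifferential.D k K a) i • b i := by
    have h1 := b.sum_equivFun (KaehlerDifferential.D k K a)
    have h2 : b.equivFun = e := Module.Basis.equivFun_ofEquivFun e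
    rw [h2] at h1
    exact h1.symm
  conv_lhs => rw [hb]
  rw [map_sum, map_sum, Fin.sum_univ_two, map_smul, map_smul, map_smul, map_smul]
  have h5 : ∀ i, (SymmetricAlgebra.equivMvPolynomial b).toAlgHom (SymmetricAlgebra.ι K (Ω[K⁄k]) (b i))
      = MvPolynomial.X i := fun i => SymmetricAlgebra.equivMvPolynomial_ι_apply b i
  rw [h5, h5, hφ0, hφ1, h1D, h2D, MvPolynomial.smul_eq_C_mul, MvPolynomial.smul_eq_C_mul]
  rfl

end Pool.IE
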