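import Pool.Agent.Work.MP_bf99ce_ie.Interface

set_option autoImplicit false

open Polynomial AlgebraicGeometry CategoryTheory

noncomputable section

namespace Pool.IE

lemma VCM_evT {k K : Type} [Field k] [Field K] [Algebra k K] (t x : K) : ev t x (TT k) = t := by
  simp [ev, TT]

lemma VCM_prime (k : Type) [Field k] : Prime (TT k) := by
  unfold TT
  exact Polynomial.prime_C_iff.2 Polynomial.prime_X

theorem p_VCM (hU : Stmt_UNQ) : Stmt_VCM := by
  intro k K _ _ _ t x y A B f r wd Q S e z hz hQS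
  obtain ⟨P, Q1, S1, hP, hz⟩ := hz
  have h2 : rr t x y (Q * P - TT k ^ e * Q1) (S * P - TT k ^ e * S1) = 0 := by
    have e1 : rr t x y (Q * P - TT k ^ e * Q1) (S * P - TT k ^ e * S1) =
        rr t x y Q S * ev t x P - t ^ e * rr t x y Q1 S1 := by
      simp only [rr, map_sub, map_mul, map_pow, VCM_evT]
      ring
    rw [e1, hQS, ← hz]
    ring
  obtain ⟨h3, h4⟩ := (hU k K t x y A B f r wd).2.1 _ _ h2
  have h5 : Q * P = TT k ^ e * Q1 := sub_eq_zero.1 h3
  have h6 : S * P = TT k ^ e * S1 := sub_eq_zero.1 h4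
  exact ⟨(VCM_prime k).pow_dvd_of_dvd_mul_right e hP (Dvd.intro _ h5.symm),
    (VCM_prime k).pow_dvd_of_dvd_mul_right e hP (Dvd.intro _ h6.symm)⟩

end Pool.IE
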