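import Pool.Agent.Work.MP_bf99ce_ie.Interface4

/-! # Block VD0: `D0` and `D2` preserve the Gauss valuation ring (helper92)

Copy of the parts of `B_VDG.lean` (helper56) and `B_VDB.lean` needed for `W1`. -/

set_option autoImplicit false

open Polynomial

noncomputable section

namespace Pool.IE

section

variable {k K : Type} [Field k] [Field K] [Algebra k K] {t x y : K}

theorem VD0_TT : ¬ (TT k ∣ (1 : P2 k)) := by
  intro h
  have h1 : IsUnit (C (X : k[X]) : P2 k) := isUnit_of_dvd_one h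
  rw [Polynomial.isUnit_C] at h1
  exact Polynomial.not_isUnit_X h1

theorem VD0_W (A B : k[X]) : ¬ (TT k ∣ WP A B) := by
  unfold TT
  rw [C_dvd_iff_dvd_coeff]
  intro h
  have h0 := h 3
  have : (WP A B).coeff 3 = 1 := by
    unfold WP
    simp
  rw [this] at h0
  exact not_isUnit_X (isUnit_of_dvd_one h0)

theorem VD0_rr (Q S : P2 k) : rr t x y Q S ∈ VG k t x y :=
  ⟨1, Q, S, VD0_TT, by rw [map_one, mul_one]⟩

theorem VD0_ev (Q : P2 k) : ev t x Q ∈ VG k t x y := by
  have h := VD0_rr (t := t) (x := x) (y := y) Q 0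
  rwa [show rr t x y Q 0 = ev t x Q by unfold rr; rw [map_zero, zero_mul, add_zero]] at h

theorem VD0_evC (p : k[X]) : ev t x (C p) = aeval t p := by
  unfold ev
  rw [coe_eval₂RingHom, eval₂_C]
  rfl

theorem VD0_evX : ev t x (X : P2 k) = x := by
  unfold ev
  rw [coe_eval₂RingHom, eval₂_X]

theorem VD0_p (p : k[X]) : aeval t p ∈ VG k t x y := by
  rw [← VD0_evC (t := t) (x := x) p]
  exact VD0_ev _

theorem VD0_x : x ∈ VG k t x y := by
  have h := VD0_ev (t := t) (x := x) (y := y) (X : P2 k)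
  rwa [VD0_evX (k := k) (t := t) (x := x)] at h

theorem VD0_y : y ∈ VG k t x y := by
  have h := VD0_rr (t := t) (x := x) (y := y) (0 : P2 k) 1
  rwa [show rr t x y (0 : P2 k) 1 = y by
    unfold rr; rw [map_zero, map_one, one_mul, zero_add]] at h

theorem VD0_c (c : k) : algebraMap k K c ∈ VG k t x y := by
  have h := VD0_p (t := t) (x := x) (y := y) (C c)
  rwa [aeval_C] at h

theorem VD0_inv (hu : ∀ P : P2 k, P ≠ 0 → ev t x P ≠ 0) {P : P2 k} (hP : ¬ (TT k ∣ P)) :
    (ev t x P)⁻¹ ∈ VG k t x y := by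
  have h0 : P ≠ 0 := fun h => hP (h ▸ dvd_zero _)
  refine ⟨P, 1, 0, hP, ?_⟩
  rw [inv_mul_cancel₀ (hu P h0)]
  unfold rr
  rw [map_one, map_zero, zero_mul, add_zero]

/-- A derivation which maps `t`, `x`, `y` to the valuation ring preserves it. -/
theorem VD0_der (hu : ∀ P : P2 k, P ≠ 0 → ev t x P ≠ 0) (V : ValuationSubring K)
    (hV : (V : Set K) = VG k t x y) (D : Derivation k K K) (ht : D t ∈ V) (hx : D x ∈ V)
    (hy : D y ∈ V) {z : K} (hz : z ∈ V) : D z ∈ V := by
  have hm : ∀ z : K, z ∈ VG k t x y → z ∈ V := fun z hz => by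
    rw [← hV] at hz
    exact hz
  have hev : ∀ P : P2 k, D (ev t x P) ∈ V := by
    intro P
    induction P using Polynomial.induction_on with
    | C p =>
      rw [VD0_evC, Derivation.map_aeval, smul_eq_mul]
      exact mul_mem (hm _ (VD0_p _)) ht
    | add p q hp hq =>
      rw [map_add, map_add]
      exact add_mem hp hq
    | monomial n a h =>
      rw [pow_succ, ← mul_assoc, map_mul, VD0_evX, Derivation.leibniz, smul_eq_mul, smul_eq_mul]
      exact add_mem (mul_mem (hm _ (VD0_ev _)) hx) (mul_mem (hm _ VD0_x) h)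
  have hz' : z ∈ VG k t x y := by
    rw [← hV]
    exact hz
  obtain ⟨P, Q, S, hP, e⟩ := hz'
  have h0 : P ≠ 0 := fun h => hP (h ▸ dvd_zero _)
  have h1 : D (rr t x y Q S) ∈ V := by
    unfold rr
    rw [map_add, Derivation.leibniz, smul_eq_mul, smul_eq_mul]
    exact add_mem (hev Q) (add_mem (mul_mem (hm _ (VD0_ev _)) hy) (mul_mem (hm _ VD0_y) (hev S)))
  rw [← e, Derivation.leibniz, smul_eq_mul, smul_eq_mul] at h1
  have h2 : ev t x P * D z ∈ V := by
    have h3 := sub_mem h1 (mul_mem hz (hev P))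
    rwa [add_sub_cancel_left] at h3
  have h4 := mul_mem (hm _ (VD0_inv hu hP)) h2
  rwa [← mul_assoc, inv_mul_cancel₀ (hu P h0), one_mul] at h4

end

theorem p_VD0 (hUNQ1 : Stmt_UNQ1) (hDYF1 : Stmt_DYF1) (hVVA1 : Stmt_VVA1) : Stmt_VD0 := by
  intro k K _ _ _ _ t x y A B w D0 D2 hD z hz
  obtain ⟨V, hV⟩ := hVVA1 k K t x y A B w
  obtain ⟨-, -, hu, hy, -, -, -⟩ := hUNQ1 k K t x y A B w
  have hyf := hDYF1 k K t x y A B w
  have hm : ∀ z : K, z ∈ VG k t x y → z ∈ V := fun z hz => by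
    rw [← hV] at hz
    exact hz
  have hm' : ∀ z : K, z ∈ V → z ∈ VG k t x y := fun z hz => by
    rw [← hV]
    exact hz
  have h2K : (2 : K) ≠ 0 := by
    have h := (map_ne_zero (algebraMap k K)).2 (two_ne_zero : (2 : k) ≠ 0)
    rwa [map_ofNat] at h
  have h2V : (2 : K)⁻¹ ∈ V := by
    have h := hm _ (VD0_c (t := t) (x := x) (y := y) ((2 : k)⁻¹))
    rwa [map_inv₀, map_ofNat] at h
  have h3V : (3 : K) ∈ V := by exact_mod_cast natCast_mem V 3
  have hxV : x ∈ V := hm _ VD0_x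
  have hyV : y ∈ V := hm _ VD0_y
  have hpV : ∀ p : k[X], aeval t p ∈ V := fun p => hm _ (VD0_p p)
  have hzV : z ∈ V := hm z hz
  have hW : ev t x (WP A B) = y ^ 2 := by
    unfold WP
    rw [map_add, map_add, map_pow, map_mul, VD0_evC, VD0_evC, VD0_evX, w.rel]
  have hyinv : (y ^ 2)⁻¹ ∈ V := by
    rw [← hW]
    exact hm _ (VD0_inv hu (VD0_W A B))
  constructor
  · refine hm' _ (VD0_der hu V hV D0 ?_ ?_ ?_ hzV)
    · rw [hD.t1]
      exact one_mem V
    · rw [hD.x1]
      exact zero_mem V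
    · have h : D0 y = (aeval t (derivative A) * x + aeval t (derivative B)) * y * 2⁻¹ * (y ^ 2)⁻¹ := by
        have e1 := hyf D0
        rw [hD.t1, hD.x1, mul_zero, zero_add, mul_one] at e1
        rw [← e1]
        field_simp
      rw [h]
      exact mul_mem (mul_mem (mul_mem (add_mem (mul_mem (hpV _) hxV) (hpV _)) hyV) h2V) hyinv
  · refine hm' _ (VD0_der hu V hV D2 ?_ ?_ ?_ hzV)
    · rw [hD.t2]
      exact zero_mem V
    · rw [hD.x2]
      exact hyV
    · have h : D2 y = 2⁻¹ * (3 * x ^ 2 + aeval t A) := by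
        have e1 := hyf D2
        rw [hD.t2, hD.x2, mul_zero, add_zero] at e1
        have e2 : y * (2 * D2 y) = y * (3 * x ^ 2 + aeval t A) := by
          linear_combination e1
        have e3 := mul_left_cancel₀ hy e2
        rw [← e3, ← mul_assoc, inv_mul_cancel₀ h2K, one_mul]
      rw [h]
      exact mul_mem h2V (add_mem (mul_mem h3V (pow_mem hxV 2)) (hpV A))

end Pool.IE
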