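import Pool.Agent.Work.MP_bf99ce_ie.Interface4
import Pool.Agent.Work.MP_bf99ce_ie.B_LMM

/-! # ZES: the zero estimate -/

set_option autoImplicit false

open Polynomial

noncomputable section

namespace Pool.IE

/-- the resultant of two polynomials with coefficients in a subring -/
theorem ZES_res_mem {K : Type} [Field K] (S : Subring K) (f g : K[X]) (m n : ℕ)
    (hf : ∀ e, f.coeff e ∈ S) (hg : ∀ e, g.coeff e ∈ S) : resultant f g m n ∈ S := by
  rw [resultant, Matrix.det_apply']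
  refine S.sum_mem fun σ _ => S.mul_mem (intCast_mem S _) (S.prod_mem fun i _ => ?_)
  generalize σ i = a
  induction i using Fin.addCases with
  | left j =>
    simp only [sylvester, Matrix.of_apply, Fin.addCases_left]
    split_ifs
    · exact hg _
    · exact S.zero_mem
  | right j =>
    simp only [sylvester, Matrix.of_apply, Fin.addCases_right]
    split_ifs
    · exact hf _
    · exact S.zero_mem

/-- the coefficients of the Taylor expansion of Hasse derivatives -/
theorem ZES_taylor {K : Type} [Field K] (c : K) (P : K[X]) (l n : ℕ) :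
    (taylor c (hasseDeriv l P)).coeff n = ((n + l).choose l : K) * (taylor c P).coeff (n + l) := by
  rw [taylor_coeff, taylor_coeff]
  have h := congrArg (fun φ : K[X] →ₗ[K] K[X] => eval c (φ P)) (hasseDeriv_comp (R := K) n l)
  simp only [LinearMap.comp_apply, LinearMap.smul_apply, eval_smul] at h
  rw [h, Nat.choose_symm_add, nsmul_eq_mul]

/-- the coefficients of the combination of Hasse derivatives -/
def ZES_P2 {K : Type} [Field K] (b : K) (L : ℕ) (P : K[X]) : K[X] :=
  ∑ l ∈ Finset.range (L + 1), C (b ^ l) * hasseDeriv l P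

theorem ZES_P2_coeff {K : Type} [Field K] (b : K) (L : ℕ) (P : K[X]) (e : ℕ) :
    (ZES_P2 b L P).coeff e =
      ∑ l ∈ Finset.range (L + 1), b ^ l * (((e + l).choose l : K) * P.coeff (e + l)) := by
  rw [ZES_P2, finsetSum_coeff]
  refine Finset.sum_congr rfl fun l _ => ?_
  rw [coeff_C_mul, hasseDeriv_coeff]

theorem ZES_P2_taylor {K : Type} [Field K] (b c : K) (L : ℕ) (P : K[X]) (e : ℕ) :
    (taylor c (ZES_P2 b L P)).coeff e =
      ∑ l ∈ Finset.range (L + 1), b ^ l * (((e + l).choose l : K) * (taylor c P).coeff (e + l)) := by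
  rw [ZES_P2, map_sum, finsetSum_coeff]
  refine Finset.sum_congr rfl fun l _ => ?_
  rw [taylor_mul, taylor_C, coeff_C_mul, ZES_taylor]

theorem p_ZES (hUNQ : Stmt_UNQ1) (hVO : Stmt_VO1) (hVOZ : Stmt_VOZ) (hRIC : Stmt_RIC1)
    (hSYV : Stmt_SYV) (hCHC : Stmt_CHC) (hPWB : Stmt_PWB) : Stmt_ZES := by
  intro k K _ _ _ _ t x y A B hW hΔ hκ P J T hP h1 h2 h3
  obtain ⟨-, -, -, uy, ux, -, u4⟩ := hUNQ k K t x y A B hW
  obtain ⟨⟨V, hV⟩, hV2, -, -, -⟩ := hVO k K t x y A B hW
  obtain ⟨z1, z2, z3⟩ := hVOZ k K t x y A B hW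
  obtain ⟨R, hR, -⟩ := hRIC k K t x y A B hW hΔ
  obtain ⟨-, -, l3, -⟩ := p_LMM k A B
  have mV : ∀ w : K, w ∈ VO k t x y ↔ w ∈ V := fun w => by rw [← hV]; exact Iff.rfl
  have mR : ∀ w : K, w ∈ RI k t x y ↔ w ∈ R := fun w => by rw [← hR]; exact Iff.rfl
  simp only [mV] at h1 h2 z1 z2 z3 hV2
  simp only [mR] at h3
  obtain ⟨z, hz⟩ : ∃ z : K, z = x / y := ⟨_, rfl⟩
  rw [← hz] at z1 z2
  simp only [← hz] at h1 h2 z3
  have hz0 : z ≠ 0 := by rw [hz]; exact div_ne_zero ux uy
  -- the order at `O` of a regular element is not positive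
  have ord : ∀ (r v : K) (a b : ℕ), r ∈ R → r ≠ 0 → v ∈ V → z ^ a * r = z ^ b * v → b ≤ a := by
    intro r v a b hr hr0 hv hab
    by_contra hlt
    push Not at hlt
    obtain ⟨g, Q, S, hg, hgr⟩ := (mR r).2 hr
    have hlam : lam Q S ≠ 0 := by
      intro h
      obtain ⟨hQ, hS⟩ := l3 Q S h
      rw [hQ, hS] at hgr
      have : aeval t g * r = 0 := by
        rw [hgr]
        simp [rr]
      rcases mul_eq_zero.1 this with h' | h'
      · exact u4 g hg h'
      · exact hr0 h'
    obtain ⟨w1, w2⟩ := z3 Q S hlam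
    obtain ⟨M, hM⟩ : ∃ M, M = (lam Q S).natDegree := ⟨_, rfl⟩
    rw [← hM, ← hgr] at w1 w2
    have hg0 := u4 g hg
    have hu : (z ^ M * r)⁻¹ ∈ V := by
      have : (z ^ M * r)⁻¹ = aeval t g * (z ^ M * (aeval t g * r))⁻¹ := by
        field_simp
      rw [this]
      exact V.mul_mem _ _ (hV2 g hg).1 w2
    apply z2
    obtain ⟨d, rfl⟩ : ∃ d, b = a + (d + 1) := ⟨b - a - 1, by omega⟩
    have hr' : r = z ^ (d + 1) * v := by
      apply mul_left_cancel₀ (pow_ne_zero a hz0)
      rw [hab]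
      ring
    have : z⁻¹ = z ^ (d + M) * (v * (z ^ M * r)⁻¹) := by
      have hzMr : z ^ M * r ≠ 0 := mul_ne_zero (pow_ne_zero _ hz0) hr0
      rw [← mul_assoc, eq_mul_inv_iff_mul_eq₀ hzMr, inv_mul_eq_iff_eq_mul₀ hz0, hr']
      ring
    rw [this]
    exact V.mul_mem _ _ (V.pow_mem z1 _) (V.mul_mem _ _ hv hu)
  rcases le_or_gt T J with hTJ | hJT
  · have : T * T ≤ J * J := Nat.mul_le_mul hTJ hTJ
    omega
  -- `T ≤ n`
  obtain ⟨n, hn⟩ : ∃ n, n = P.natDegree := ⟨_, rfl⟩
  obtain ⟨c, hc⟩ : ∃ c : K, c = pp t x A B / y := ⟨_, rfl⟩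
  rw [← hc] at h3
  have h3' : ∀ e, (taylor c P).coeff e ∈ R := by
    intro e
    rw [taylor_apply]
    exact h3 e
  have hTn : T ≤ n := by
    have e1 : (taylor c P).coeff n = P.leadingCoeff := by
      rw [hn, ← leadingCoeff_taylor c P, leadingCoeff, natDegree_taylor]
    obtain ⟨v, hv, hv'⟩ := h2 n
    refine ord P.leadingCoeff v n T (e1 ▸ h3' n) (leadingCoeff_ne_zero.2 hP) hv ?_
    rw [← hv', hn]
    rfl
  obtain ⟨b, hcop, hdeg⟩ := hCHC k K P (2 * J) hP fun N e hN hirr hdvd =>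
    hPWB k K t x y A B hW hΔ hκ P J hP (fun e => by rw [mV, ← hz]; exact h1 e)
      (fun e => by rw [mR, ← hc]; exact h3 e) N e hN hirr.natDegree_pos hdvd
  obtain ⟨b', hb'⟩ : ∃ b' : K, b' = algebraMap k K b := ⟨_, rfl⟩
  rw [← hb'] at hcop hdeg
  have hbR : b' ∈ R := by
    rw [← mR, hb']
    refine ⟨1, C (C b), 0, one_ne_zero, ?_⟩
    simp [rr, ev]
  have hbV : b' ∈ V := by
    rw [hb']
    by_cases hb0 : b = 0
    · rw [hb0, map_zero]
      exact V.zero_mem
    · have := (hV2 (C b) (C_ne_zero.2 hb0)).1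
      rwa [aeval_C] at this
  have hnatV : ∀ m : ℕ, (m : K) ∈ V := fun m => by
    exact natCast_mem V m
  have hcop' : IsCoprime P (ZES_P2 b' (2 * J) P) := hcop
  have hdeg' : (ZES_P2 b' (2 * J) P).natDegree = P.natDegree := hdeg
  -- the resultant
  have hs := hSYV K V z z1 hz0 n (T + J) (T - J) (by omega) (C (z ^ J) * P)
    (C (z ^ J) * ZES_P2 b' (2 * J) P) ?_ ?_
  · obtain ⟨v, hv, hres⟩ := hs
    rw [resultant_C_mul_left, resultant_C_mul_right, ← mul_assoc, ← pow_mul, ← pow_add] at hres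
    have hne : resultant P (ZES_P2 b' (2 * J) P) n n ≠ 0 := by
      have := resultant_ne_zero P (ZES_P2 b' (2 * J) P) hcop'
      rw [hdeg', ← hn] at this
      exact this
    have hmem : resultant P (ZES_P2 b' (2 * J) P) n n ∈ R := by
      have e1 := resultant_taylor P (ZES_P2 b' (2 * J) P) c
      rw [natDegree_taylor, natDegree_taylor, hdeg', ← hn] at e1
      rw [← e1]
      refine ZES_res_mem R _ _ n n h3' fun e => ?_
      rw [ZES_P2_taylor]
      refine R.sum_mem fun l _ => ?_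
      exact R.mul_mem (R.pow_mem hbR _) (R.mul_mem (natCast_mem R _) (h3' _))
    have hfin := ord _ v _ _ hmem hne hv hres
    have e2 : (T + J) * (T - J) = T * T - J * J := by
      rw [Nat.mul_self_sub_mul_self_eq]
    rw [e2] at hfin
    have e3 : J * n + J * n = 2 * n * J := by ring
    have e4 : 2 * P.natDegree * J = 2 * n * J := by rw [hn]
    omega
  · intro e
    rw [coeff_C_mul]
    obtain ⟨v, hv, hv'⟩ := h2 e
    refine ⟨h1 e, v, hv, ?_⟩
    rw [pow_add]
    linear_combination z ^ J * hv'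
  · intro e
    rw [coeff_C_mul, ZES_P2_coeff, Finset.mul_sum]
    have key : ∀ l ∈ Finset.range (2 * J + 1), ∃ w ∈ V,
        z ^ e * (z ^ J * (b' ^ l * (((e + l).choose l : K) * P.coeff (e + l)))) =
          z ^ (T - J) * w := by
      intro l hl
      rw [Finset.mem_range] at hl
      obtain ⟨v, hv, hv'⟩ := h2 (e + l)
      refine ⟨z ^ (2 * J - l) * (b' ^ l * (((e + l).choose l : K) * v)),
        V.mul_mem _ _ (V.pow_mem z1 _) (V.mul_mem _ _ (V.pow_mem hbV _)
          (V.mul_mem _ _ (hnatV _) hv)), ?_⟩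
      apply mul_left_cancel₀ (pow_ne_zero l hz0)
      have e1 : z ^ l * (z ^ (T - J) * (z ^ (2 * J - l) *
          (b' ^ l * (((e + l).choose l : K) * v)))) =
          z ^ (T + J) * (b' ^ l * (((e + l).choose l : K) * v)) := by
        rw [← mul_assoc, ← mul_assoc, ← pow_add, ← pow_add]
        congr 2
        omega
      rw [e1, pow_add]
      rw [pow_add] at hv'
      linear_combination (z ^ J * b' ^ l * ((e + l).choose l : K)) * hv'
    choose! w hw1 hw2 using key
    refine ⟨V.toSubring.sum_mem fun l _ => ?_, ∑ l ∈ Finset.range (2 * J + 1), w l,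
      V.toSubring.sum_mem fun l hl => hw1 l hl, ?_⟩
    · have e1 : z ^ J * (b' ^ l * (((e + l).choose l : K) * P.coeff (e + l))) =
          b' ^ l * (((e + l).choose l : K) * (z ^ J * P.coeff (e + l))) := by ring
      rw [e1]
      exact V.mul_mem _ _ (V.pow_mem hbV _) (V.mul_mem _ _ (hnatV _) (h1 _))
    · rw [Finset.mul_sum, Finset.mul_sum]
      exact Finset.sum_congr rfl hw2

end Pool.IE
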