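import Mathlib

/-!
# THEOREM IE (MP_bf99ce_ag): definitions

Isotrivial elliptic surfaces with a section: the function field `K = k(t, x, y)`, `y² = x³ + A(t) x + B(t)`.
-/

set_option autoImplicit false

open Polynomial AlgebraicGeometry CategoryTheory

noncomputable section

namespace Pool.IE

/-- polynomials in `X` (outer variable) over `k[T]` (inner variable) -/
abbrev P2 (k : Type) [Field k] : Type := Polynomial (Polynomial k)

/-- the polynomial `T` in `k[T][X]` -/
def TT (k : Type) [Field k] : P2 k := C X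

/-- evaluation at `(t, x)` -/
def ev {k K : Type} [Field k] [Field K] [Algebra k K] (t x : K) : P2 k →+* K :=
  eval₂RingHom ((aeval t : k[X] →ₐ[k] K) : k[X] →+* K) x

/-- `X³ + A X + B` -/
def WP {k : Type} [Field k] (A B : k[X]) : P2 k := X ^ 3 + C A * X + C B

/-- the element `Q(t, x) + S(t, x) y` -/
def rr {k K : Type} [Field k] [Field K] [Algebra k K] (t x y : K) (Q S : P2 k) : K :=
  ev t x Q + ev t x S * y

/-- `K` is the function field of `y² = x³ + A(t) x + B(t)` over `k`; `(A, B)` is flat with respect to `f`, `r` -/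
structure WD (k K : Type) [Field k] [Field K] [Algebra k K] (t x y : K) (A B f : k[X]) (r : ℕ) : Prop where
  rel : y ^ 2 = x ^ 3 + aeval t A * x + aeval t B
  ind : ∀ P : P2 k, ev t x P = 0 → P = 0
  gen : ∀ z : K, ∃ P Q S : P2 k, P ≠ 0 ∧ z * ev t x P = rr t x y Q S
  flA : (r : k[X]) * f * derivative A = 4 * derivative f * A
  flB : (r : k[X]) * f * derivative B = 6 * derivative f * B
  f0 : f ≠ 0
  r0 : 1 ≤ r

/-- the Gauss valuation ring at `t = 0` -/
def VG (k : Type) {K : Type} [Field k] [Field K] [Algebra k K] (t x y : K) : Set K :=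
  {z | ∃ P Q S : P2 k, ¬ (TT k ∣ P) ∧ z * ev t x P = rr t x y Q S}

/-- the polynomial `Q(Z²) + Z³ S(Z²)`: its degree is the pole order of `Q(t, x) + S(t, x) y` at the point `O` of the elliptic curve
over `k(t)` and its leading coefficient the leading coefficient there -/
def lam {k : Type} [Field k] (Q S : P2 k) : P2 k := expand k[X] 2 Q + X ^ 3 * expand k[X] 2 S

/-- the valuation ring at `O` -/
def VO (k : Type) {K : Type} [Field k] [Field K] [Algebra k K] (t x y : K) : Set K :=
  {z | ∃ Q S Q' S' : P2 k, lam Q' S' ≠ 0 ∧ z * rr t x y Q' S' = rr t x y Q S ∧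
    (lam Q S).natDegree ≤ (lam Q' S').natDegree}

/-- the flat derivation `D1` and the vertical derivation `D2` -/
structure DD {k K : Type} [Field k] [Field K] [Algebra k K] (t x y : K) (f : k[X]) (r : ℕ)
    (D1 D2 : Derivation k K K) : Prop where
  t1 : D1 t = 1
  x1 : (r : K) * aeval t f * D1 x = 2 * aeval t (derivative f) * x
  t2 : D2 t = 0
  x2 : D2 x = y

/-- the linear form of `d a` -/
def lf {k K : Type} [Field k] [Field K] [Algebra k K] (D1 D2 : Derivation k K K) (a : K) : MvPolynomial (Fin 2) K :=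
  MvPolynomial.C (D1 a) * MvPolynomial.X 0 + MvPolynomial.C (D2 a) * MvPolynomial.X 1

/-- `Φ` is a sum of terms `c (d a_1) … (d a_i)` with `c` and all `a_l` in `V` -/
def InL {k K : Type} [Field k] [Field K] [Algebra k K] (D1 D2 : Derivation k K K) (V : Set K) (i : ℕ)
    (Φ : MvPolynomial (Fin 2) K) : Prop :=
  ∃ (n : ℕ) (c : Fin n → K) (a : Fin n → Fin i → K), (∀ s, c s ∈ V) ∧ (∀ s l, a s l ∈ V) ∧
    Φ = ∑ s, MvPolynomial.C (c s) * ∏ l, lf D1 D2 (a s l)

/-- the same with an additional factor, a product of `j` elements of the family `u` -/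
def InT {k K : Type} [Field k] [Field K] [Algebra k K] (D1 D2 : Derivation k K K) (V : Set K) {N : ℕ} (u : Fin N → K)
    (i j : ℕ) (Φ : MvPolynomial (Fin 2) K) : Prop :=
  ∃ (n : ℕ) (c : Fin n → K) (e : Fin n → Fin j → Fin N) (a : Fin n → Fin i → K), (∀ s, c s ∈ V) ∧ (∀ s l, a s l ∈ V) ∧
    Φ = ∑ s, MvPolynomial.C (c s * ∏ l, u (e s l)) * ∏ l, lf D1 D2 (a s l)

/-- the homogeneous polynomial with coefficients `G a` -/
def pol {K : Type} [Field K] (i : ℕ) (G : ℕ → K) : MvPolynomial (Fin 2) K :=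
  ∑ a ∈ Finset.range (i + 1), MvPolynomial.C (G a) * MvPolynomial.X 0 ^ a * MvPolynomial.X 1 ^ (i - a)

/-- The homomorphism from `k` to the function field of the integral `k`-scheme `s : X ⟶ Spec k`. -/
def str {k : Type} [Field k] {X : Scheme.{0}} (s : X ⟶ Spec (CommRingCat.of k)) [IsIntegral X] : k →+* X.functionField :=
  ((Scheme.ΓSpecIso (CommRingCat.of k)).inv ≫ s.appTop ≫ X.presheaf.germ ⊤ (genericPoint X) trivial).hom

end Pool.IE
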