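import Pool.Agent.Work.MP_bf99ce_ie.Defs

/-!
# THEOREM IE (MP_bf99ce_ag): the blocks

THEOREM IE. `K = k(t, x, y)`, `y² = x³ + A x + B` a nontrivial twist of a constant elliptic curve (flat with respect to `f`, `r`; the zeros of `f`
have multiplicity `< r`), `X` any proper model of `K`. For every finite family `u` in `K` there is `C` such that for `i > C j` there is no
nonzero section of `S^i Ω_X ⊗ U^j`. So `Ω_X` is not pseudoeffective and there are no symmetric differentials.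

Files `B_X.lean` in `Pool/Agent/Work/MP_bf99ce_ie`, `import Pool.Agent.Work.MP_bf99ce_ie.Interface`, namespace `Pool.IE`,
`theorem p_X (hA : Stmt_A) ... : Stmt_X` with exactly the blocks named after `uses` as hypotheses in that order. Auxiliary lemmas with the
prefix `X_`. All rings are in `Type`.

Notation: `P2 k = k[T][X]`, `TT k` is `T`, `ev t x P = P(t, x)`, `rr t x y Q S = Q(t, x) + S(t, x) y`, `VG` the Gauss valuation ring at `t = 0`, `VO`
the valuation ring at the point `O`, `lam Q S = Q(Z²) + Z³ S(Z²)`, `lf D1 D2 a = D1 a X0 + D2 a X1`.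
-/

set_option autoImplicit false

open Polynomial AlgebraicGeometry CategoryTheory

noncomputable section

namespace Pool.IE

/-! ## Part A: the field `K` -/

/-- **UNQ** (80). (1) `ev` is a ring homomorphism and `y² = ev W`. (2) If `ev Q + ev S y = 0` then `ev (Q² - S² W) = 0`, so `Q² = S² W` (`ind`); if `S ≠ 0` the
degrees in `X` are `2 deg Q` and `2 deg S + 3`, a contradiction; so `S = 0`, `Q = 0`. (3) `ev P ≠ 0` (`ind`). (4) `y ≠ 0`, `x ≠ 0`, `t ≠ 0` and
`aeval t p ≠ 0` for `p ≠ 0` (`ind` for `W`, `X`, `C X`, `C p`). -/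
def Stmt_UNQ : Prop := ∀ (k K : Type) [Field k] [Field K] [Algebra k K] (t x y : K) (A B f : k[X]) (r : ℕ),
  WD k K t x y A B f r →
  (∀ Q S Q' S' : P2 k, rr t x y Q S * rr t x y Q' S' = rr t x y (Q * Q' + S * S' * WP A B) (Q * S' + S * Q')) ∧
  (∀ Q S : P2 k, rr t x y Q S = 0 → Q = 0 ∧ S = 0) ∧
  (∀ P : P2 k, P ≠ 0 → ev t x P ≠ 0) ∧
  y ≠ 0 ∧ x ≠ 0 ∧ t ≠ 0 ∧ ∀ p : k[X], p ≠ 0 → aeval t p ≠ 0

/-- **DEX** (180). Existence of derivations. Let `φ : k[T][X] → K[ε]` (`TrivSqZeroExt K K` or `DualNumber K`) with `T ↦ t + a ε`, `X ↦ x + b ε`, and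
`η = y + c ε` with `2 y c = b ∂_x W + a ∂_t W`, so that `η² = φ W` (`char 0`, `y ≠ 0`). An element of `K[ε]` is a unit iff its first component is not zero. Every
`z` in `K` satisfies `z ev P = ev Q + ev S y`, `P ≠ 0` (`gen`); put `ψ z = (φ Q + φ S η) / φ P`; independent of the choice (uniqueness: `ev Q + ev S y = 0`
implies `Q = S = 0`, by the degrees in `X` of `Q² = S² W`), a ring homomorphism over `k` with first component the identity; `D` is the second
component. Other ways: `Ω` of a purely transcendental extension and étale extensions, `Derivation` on `FractionRing`. -/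
def Stmt_DEX : Prop := ∀ (k K : Type) [Field k] [CharZero k] [Field K] [Algebra k K] (t x y : K) (A B f : k[X]) (r : ℕ),
  WD k K t x y A B f r → ∀ a b : K, ∃ D : Derivation k K K, D t = a ∧ D x = b

/-- **DYF** (60). Differentiate `y² = x³ + A(t) x + B(t)`: `2 y D y = (3 x² + A(t)) D x + (A'(t) x + B'(t)) D t`. For `D2`: `D t = 0`, `D x = y`. For `D1` multiply
by `r f(t)` and use `flA`, `flB`: `r f · 2 y D1 y = (3 x² + A) 2 f' x + r f A' x + r f B' = f' (6 x³ + 6 A x + 6 B) = 6 f' y²`. (`y ≠ 0`.) -/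
def Stmt_DYF : Prop := ∀ (k K : Type) [Field k] [CharZero k] [Field K] [Algebra k K] (t x y : K) (A B f : k[X]) (r : ℕ),
  WD k K t x y A B f r →
  (∀ D : Derivation k K K, 2 * y * D y =
    (3 * x ^ 2 + aeval t A) * D x + (aeval t (derivative A) * x + aeval t (derivative B)) * D t) ∧
  ∀ D1 D2 : Derivation k K K, DD t x y f r D1 D2 →
    (r : K) * aeval t f * D1 y = 3 * aeval t (derivative f) * y ∧ 2 * D2 y = 3 * x ^ 2 + aeval t A

/-- **LMM** (150). `lam` is additive; no cancellation between `Q(Z²)` (even) and `Z³ S(Z²)` (odd), so `lam Q S = 0` only for `Q = S = 0` and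
`natDegree (expand 2 S) + 3 ≤ natDegree (lam Q S)` if `S ≠ 0`. The product: `lam (Q Q' + S S' W) (Q S' + S Q') = lam Q S * lam Q' S' + expand 2 (S S') *
(C A * X ^ 2 + C B)`, and the second term has degree `≤ M + M' - 4` (it is zero if `S = 0` or `S' = 0`). -/
def Stmt_LMM : Prop := ∀ (k : Type) [Field k] (A B : k[X]),
  (∀ Q S Q' S' : P2 k, lam (Q + Q') (S + S') = lam Q S + lam Q' S') ∧
  (∀ (c : k[X]) (Q S : P2 k), lam (C c * Q) (C c * S) = C c * lam Q S) ∧
  (∀ Q S : P2 k, lam Q S = 0 → Q = 0 ∧ S = 0) ∧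
  ∀ (Q S Q' S' : P2 k) (M M' : ℕ), (lam Q S).natDegree ≤ M → (lam Q' S').natDegree ≤ M' →
    (lam (Q * Q' + S * S' * WP A B) (Q * S' + S * Q')).natDegree ≤ M + M' ∧
    (lam (Q * Q' + S * S' * WP A B) (Q * S' + S * Q')).coeff (M + M') = (lam Q S).coeff M * (lam Q' S').coeff M'

/-! ## Part B: linear algebra of forms -/

/-- **POL** (80). The coefficients of `pol i G` at the monomials `X0^a X1^(i-a)` (exponents `Finsupp.single 0 a + Finsupp.single 1 (i - a)`) are the `G a`,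
and every homogeneous polynomial of degree `i` in two variables is of this form. -/
def Stmt_POL : Prop := ∀ (K : Type) [Field K] (i : ℕ),
  (∀ G G' : ℕ → K, pol i G = pol i G' → ∀ a ≤ i, G a = G' a) ∧
  (∀ G G' : ℕ → K, (∀ a ≤ i, G a = G' a) → pol i G = pol i G') ∧
  (∀ (c : K) (G : ℕ → K), MvPolynomial.C c * pol i G = pol i (fun a => c * G a)) ∧
  ∀ Φ : MvPolynomial (Fin 2) K, Φ.IsHomogeneous i → ∃ G : ℕ → K, Φ = pol i G ∧
    ∀ a ≤ i, G a = Φ.coeff (Finsupp.single 0 a + Finsupp.single 1 (i - a))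

/-- **LAT** (100). (1) a product of `i` linear forms is homogeneous of degree `i`; (2) if `D1`, `D2` preserve `V`, the coefficients of all products of the forms
`lf a`, `a ∈ V`, are in `V` (the polynomials with coefficients in a subring are closed under products). (3) `H` with `H u_s ∈ V`: the factor
`c ∏ u (e s l)` becomes `(w c) ∏ (H u (e s l))`. (4) the substitution `X0 ↦ α1 X0`, `X1 ↦ α2 X1` maps `lf D1 D2 a` to `lf (α1 • D1) (α2 • D2) a`. -/
def Stmt_LAT : Prop := ∀ (k K : Type) [Field k] [Field K] [Algebra k K] (D1 D2 : Derivation k K K) (V : ValuationSubring K) (i j : ℕ),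
  (∀ Φ, InL D1 D2 (V : Set K) i Φ → Φ.IsHomogeneous i) ∧
  (∀ Φ, (∀ z ∈ V, D1 z ∈ V ∧ D2 z ∈ V) → InL D1 D2 (V : Set K) i Φ → ∀ m, Φ.coeff m ∈ V) ∧
  (∀ (N : ℕ) (u : Fin N → K) (Φ : MvPolynomial (Fin 2) K) (w H : K), w ∈ V → (∀ s, H * u s ∈ V) →
    InT D1 D2 (V : Set K) u i j Φ → InL D1 D2 (V : Set K) i (MvPolynomial.C (w * H ^ j) * Φ)) ∧
  ∀ (N : ℕ) (u : Fin N → K) (G : ℕ → K) (α1 α2 : K), InT D1 D2 (V : Set K) u i j (pol i G) →
    InT (α1 • D1) (α2 • D2) (V : Set K) u i j (pol i (fun a => α1 ^ a * α2 ^ (i - a) * G a))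

/-- **LAS** (120). The substitution maps `lf D1 D2 a` to `C (α D1 a + β D2 a) + C (γ D2 a) X = C (π w) + C v X` with `w, v ∈ V`. By induction the coefficient of
`X^c` in a product of `i` such polynomials is in `π^(i-c) V` for `c ≤ i` (and zero for `c > i`). -/
def Stmt_LAS : Prop := ∀ (k K : Type) [Field k] [Field K] [Algebra k K] (D1 D2 : Derivation k K K) (V : ValuationSubring K) (i : ℕ)
  (Φ : MvPolynomial (Fin 2) K) (π α β γ : K), (∀ z ∈ V, ∃ w ∈ V, α * D1 z + β * D2 z = π * w) → (∀ z ∈ V, γ * D2 z ∈ V) →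
  InL D1 D2 (V : Set K) i Φ →
  ∀ c ≤ i, ∃ w ∈ V, (MvPolynomial.aeval ![C α, C β + C γ * X] Φ : K[X]).coeff c = π ^ (i - c) * w

/-- **LIN** (150). Let `Ψ = ∑ w_a (λ - 2ν)^(i-a)` in `k[T][λ]`; the hypothesis says that `T^(E-c)` divides the coefficient of `λ^c` (for `c > i` it is
zero). Let `b₁` be the least `i - a`, `a ∈ s`; `Ψ = (λ - 2ν)^(b₁) Ψ₁`. If `(λ - 2ν) Θ` has this divisibility then so has `Θ`: `-2ν θ_0 = ψ_0`,
`2ν θ_c = θ_(c-1) - ψ_c` and `T` does not divide `2ν` (`T` is prime). So `Ψ₁` has it; its degree is at most `D`; `w_a` is the coefficient of `μ^(i-a-b₁)` in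
`Ψ₁(μ + 2ν)` (`∑_c ψ_c choose(c, ·) (2ν)^(c-·)`, `c ≤ D`). -/
def Stmt_LIN : Prop := ∀ (k : Type) [Field k] [CharZero k] (i D E : ℕ) (s : Finset ℕ) (w : ℕ → k[X]) (ν : k[X]), ν.eval 0 ≠ 0 →
  (∀ a ∈ s, a ≤ i) → (∀ a ∈ s, ∀ a' ∈ s, a ≤ a' + D) →
  (∀ c ≤ i, (X : k[X]) ^ (E - c) ∣ ∑ a ∈ s, w a * ((i - a).choose c : k[X]) * (-(2 * ν)) ^ (i - a - c)) →
  ∀ a ∈ s, (X : k[X]) ^ (E - D) ∣ w a

/-! ## Part C: the Gauss valuation at `t = 0` -/

/-- **VVA** (150), uses UNQ. `T` is a prime element of `k[T][X]` (`Polynomial.prime_C_iff`, `Polynomial.prime_X`), so `VG` is closed under sums and products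
(denominator `P P'`). Let `z ≠ 0`, `z ev P = rr Q S` (`gen`). Take out powers of `T`: `P = T^a P'`, `(Q, S) = T^b (Q', S')`, `T ∤ P'`, not both `Q'`, `S'` divisible by
`T`. `N = Q'² - S'² W` is not divisible by `T`: modulo `T` it is `Q₀² - S₀² (X³ + A(0) X + B(0))` in `k[X]`, not zero by the parity of the degrees. `z' = t^(a-b) z`
satisfies `z' ev P' = rr Q' S'` and `z'⁻¹ ev N = ev P' rr Q' (-S')`, so `z'`, `z'⁻¹ ∈ VG`; so `z` or `z⁻¹` is in `VG` (`t ∈ VG`). -/
def Stmt_VVA : Prop := ∀ (k K : Type) [Field k] [Field K] [Algebra k K] (t x y : K) (A B f : k[X]) (r : ℕ),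
  WD k K t x y A B f r → ∃ V : ValuationSubring K, (V : Set K) = VG k t x y

/-- **VCM** (60), uses UNQ. `z ev P = rr Q₁ S₁`, `T ∤ P`: `rr (Q P) (S P) = rr (T^e Q₁) (T^e S₁)`, so `Q P = T^e Q₁`, `S P = T^e S₁` (UNQ (2)), and `T` is prime
(`Prime.pow_dvd_of_dvd_mul_right` or similar). -/
def Stmt_VCM : Prop := ∀ (k K : Type) [Field k] [Field K] [Algebra k K] (t x y : K) (A B f : k[X]) (r : ℕ),
  WD k K t x y A B f r → ∀ (Q S : P2 k) (e : ℕ), ∀ z ∈ VG k t x y, rr t x y Q S = t ^ e * z → TT k ^ e ∣ Q ∧ TT k ^ e ∣ S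

/-- **VDG** (120), uses UNQ DYF VVA. `f(0) ≠ 0`, so `f(t)⁻¹ ∈ VG` (denominator `C f`). `D1 t = 1`, `D1 x = 2 f'(t) x / (r f(t))`, `D1 y = 3 f'(t) y / (r f(t))`, `D2 t = 0`,
`D2 x = y`, `D2 y = (3 x² + A(t)) / 2` are in `VG`. For such a derivation `D (ev P) = ev (∂_T P) D t + ev (∂_X P) D x ∈ VG`, and `z ev P = rr Q S` gives
`D z ev P = D (rr Q S) - z D (ev P)`; `(ev P)⁻¹ ∈ VG` for `T ∤ P`. (`VG` is a ring by VVA.) -/
def Stmt_VDG : Prop := ∀ (k K : Type) [Field k] [CharZero k] [Field K] [Algebra k K] (t x y : K) (A B f : k[X]) (r : ℕ),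
  WD k K t x y A B f r → f.eval 0 ≠ 0 → ∀ D1 D2 : Derivation k K K, DD t x y f r D1 D2 →
  ∀ z ∈ VG k t x y, D1 z ∈ VG k t x y ∧ D2 z ∈ VG k t x y

/-- **VDB** (150), uses UNQ DYF VVA. Put `ν = n f1 + X f1'`, so `t f'(t) = ν(t) t^n`, `f(t) = t^n f1(t)` and `r f1(t) t D1 x = 2 ν(t) x`. The first expression is `E z` for the
derivation `E = (r f1(t) t) • D1 - (2 ν(t) x / y) • D2`: `E t = r f1(t) t`, `E x = 2 ν x - 2 ν (x/y) y = 0`. So `E = (r f1(t) t) • D0` with `D0 t = 1`, `D0 x = 0`,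
`2 y D0 y = A'(t) x + B'(t)` (DYF (1)), `D0 y = (A'(t) x + B'(t)) y / (2 ev W) ∈ VG` (`T ∤ W`, monic). As in VDG `D0` preserves `VG`. The second is `F z` with
`F = (x/y) • D2`: `F t = 0`, `F x = x`, `F y = x (3 x² + A(t)) y / (2 ev W) ∈ VG`. -/
def Stmt_VDB : Prop := ∀ (k K : Type) [Field k] [CharZero k] [Field K] [Algebra k K] (t x y : K) (A B f : k[X]) (r : ℕ),
  WD k K t x y A B f r → ∀ (n : ℕ) (f1 : k[X]), f = X ^ n * f1 → f1.eval 0 ≠ 0 →
  ∀ D1 D2 : Derivation k K K, DD t x y f r D1 D2 → ∀ z ∈ VG k t x y,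
    (∃ w ∈ VG k t x y, (r : K) * aeval t f1 * t * D1 z +
      -(2 * aeval t ((n : k[X]) * f1 + X * derivative f1) * (x / y)) * D2 z = t * w) ∧
    (x / y) * D2 z ∈ VG k t x y

/-- **LGD** (80), uses VVA VCM VDG POL LAT. The good place. By LAT (1), POL (4), LAT (2) `Λ = pol i G'` with `G' a ∈ VG`, so `t^E rr (Q a) (S a) = t^e G' a` (POL (3), (1)), that is
`rr (T^E Q) (T^E S) = t^e G' a`; VCM: `T^e` divides `T^E Q a` and `T^E S a`, so all coefficients of `T^E lam`. -/
def Stmt_LGD : Prop := ∀ (k K : Type) [Field k] [CharZero k] [Field K] [Algebra k K] (t x y : K) (A B f : k[X]) (r : ℕ),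
  WD k K t x y A B f r → f.eval 0 ≠ 0 → ∀ D1 D2 : Derivation k K K, DD t x y f r D1 D2 →
  ∀ (i E e : ℕ) (Q S : ℕ → P2 k) (Λ : MvPolynomial (Fin 2) K), InL D1 D2 (VG k t x y) i Λ →
    MvPolynomial.C (t ^ E) * pol i (fun a => rr t x y (Q a) (S a)) = MvPolynomial.C (t ^ e) * Λ →
    ∀ a ≤ i, ∀ M, (X : k[X]) ^ e ∣ X ^ E * (lam (Q a) (S a)).coeff M

/-- **LBD** (300), uses UNQ LMM LAS LIN VVA VCM VDB. The bad place. Write `f = X^n f1`, `f1(0) ≠ 0` (`n = rootMultiplicity 0 f ≥ 1`), `ν = n f1 + X f1'`, `ν(0) ≠ 0`, `ρ = x/y`. LAS with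
`π = t`, `α = r f1(t) t`, `β = -2 ν(t) ρ`, `γ = ρ` (VDB): for `c ≤ i` the coefficient of `λ^c` in `∑_a rr_a α^a (β + γ λ)^(i-a)` times `t^E`, that is
`t^E ∑_a rr_a (r f1(t) t)^a choose(i-a, c) (-2ν(t))^(i-a-c) ρ^(i-a)`, is in `t^(e+i-c) VG`. Multiply by `y^i ∈ VG`: `ρ^(i-a) y^i = x^(i-a) y^a`. Let `(Q'_a, S'_a)` be the pair with
`rr Q'_a S'_a = rr_a x^(i-a) y^a` (UNQ (1) for the pairs `(X, 0)`, `(0, 1)`); by LMM its `lam` has degree `≤ m_a + 2(i-a) + 3a = m_a + a + 2i ≤ M + 2i` (`m_a` the degree of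
`lam (Q a) (S a)`), with coefficient at `M + 2i` equal to the leading coefficient `l_a` if `m_a + a = M` and zero otherwise. By VCM `T^(e+i-c)` divides both components
of `T^E ∑_a (r f1 T)^a choose(i-a, c) (-2ν)^(i-a-c) (Q'_a, S'_a)`, so the coefficient at `M + 2i` of its `lam`. This is the hypothesis of LIN for `s` = the `a ≤ i` with
`lam ≠ 0` and `m_a + a = M`, `w_a = X^E l_a (r f1)^a X^a`, `E_LIN = e + i` (`a ≤ a' + D` since `m_a + a = m_a' + a'`, `m ≤ D`). LIN: `X^(e+i-D)` divides `X^(E+a) l_a (r f1)^a`, so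
`X^(E+a) l_a` (`f1(0) ≠ 0`, `r ≥ 1`), and cancel `X^a`. -/
def Stmt_LBD : Prop := ∀ (k K : Type) [Field k] [CharZero k] [Field K] [Algebra k K] (t x y : K) (A B f : k[X]) (r : ℕ),
  WD k K t x y A B f r → f.eval 0 = 0 → ∀ D1 D2 : Derivation k K K, DD t x y f r D1 D2 →
  ∀ (i E e D M : ℕ) (Q S : ℕ → P2 k) (Λ : MvPolynomial (Fin 2) K), InL D1 D2 (VG k t x y) i Λ →
    MvPolynomial.C (t ^ E) * pol i (fun a => rr t x y (Q a) (S a)) = MvPolynomial.C (t ^ e) * Λ →
    (∀ a ≤ i, lam (Q a) (S a) ≠ 0 → (lam (Q a) (S a)).natDegree + a ≤ M ∧ (lam (Q a) (S a)).natDegree ≤ D) →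
    ∀ a ≤ i, lam (Q a) (S a) ≠ 0 → (lam (Q a) (S a)).natDegree + a = M →
      (X : k[X]) ^ (e + (i - a)) ∣ X ^ (E + D) * (lam (Q a) (S a)).leadingCoeff

/-! ## Part D: the valuations over the generic fibre -/

/-- **VOO** (300), uses UNQ DYF LMM. The valuation at `O`. (1) sums and products: LMM, UNQ (1); `lam` of a product of nonzero pairs is not zero (LMM at the exact degrees); `z` or
`z⁻¹`: `z ev P = rr Q S` (`gen`), compare the degrees of `lam Q S` and `lam P 0`. (2) `lam (C p) 0 = C (C p)` has degree zero. (3) `D2 (rr Q S) = rr (S_X W + S (3X² + A)/2) (Q_X)`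
(`S_X` the derivative in `X`); its `lam` has degree `≤ M + 1` and coefficient `(M/2) (lam Q S).coeff M` at `M + 1` if `lam Q S` has degree `≤ M` (check `Q = X^n` and `S = X^n`).
`r f D1 (rr Q S) = rr (r f Q_T + 2 f' X Q_X) (r f S_T + 2 f' X S_X + 3 f' S)` (`Q_T` the derivative of the coefficients), `lam` of degree `≤ M`. For `z b = a`, `b = rr Q' S'`, `a = rr Q S`:
`D z b² = D a b - a D b`; for `D2` the coefficient at `2M' + 1` (`M'` = degree of `lam Q' S'`) is `(M'/2)(α β - α β) = 0`. (4) `z b = a` as before; if `lam Q S` had degree `m > 2e`, `rr Q S b = x^e a`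
would have a `lam` of degree `m + M'` (LMM) and of degree `≤ 2e + M'`. (5) `z b = a`, `e` = degree of `lam` of `a`. -/
def Stmt_VOO : Prop := ∀ (k K : Type) [Field k] [CharZero k] [Field K] [Algebra k K] (t x y : K) (A B f : k[X]) (r : ℕ),
  WD k K t x y A B f r →
  (∃ V : ValuationSubring K, (V : Set K) = VO k t x y) ∧
  (∀ p : k[X], p ≠ 0 → aeval t p ∈ VO k t x y ∧ (aeval t p)⁻¹ ∈ VO k t x y) ∧
  (∀ D1 D2 : Derivation k K K, DD t x y f r D1 D2 → ∀ z ∈ VO k t x y, D1 z ∈ VO k t x y ∧ D2 z ∈ VO k t x y) ∧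
  (∀ (Q S : P2 k) (e : ℕ), ∀ z ∈ VO k t x y, rr t x y Q S = x ^ e * z → (lam Q S).natDegree ≤ 2 * e) ∧
  ∀ z : K, ∃ e : ℕ, ∃ w ∈ VO k t x y, z = x ^ e * w

/-- **RIC** (200), uses UNQ. The ring `R = k(t)[x, y]` (the `z` with `g(t) z = Q(t, x) + S(t, x) y`) is integrally closed. `F = k(t)` inside `K`, `F[X] → K`, `X ↦ x`, is injective (`ind`), its
image `F[x]` is a principal ideal domain, integrally closed in `F(x)`. `z` integral over `R` is integral over `F[x]` (`y² ∈ F[x]`). `z = a + b y` with `a, b ∈ F(x)` (`gen`). If `b ≠ 0`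
the minimal polynomial of `z` over `F(x)` is `Z² - 2 a Z + (a² - b² W)`; its coefficients are in `F[x]` (`minpoly.isIntegrallyClosed_eq_field_fractions'` or
similar), so `a`, `b² W ∈ F[x]`; `W` is separable over `F` (`4A³ + 27B² ≠ 0`), so squarefree, so `b ∈ F[x]`. -/
def Stmt_RIC : Prop := ∀ (k K : Type) [Field k] [CharZero k] [Field K] [Algebra k K] (t x y : K) (A B f : k[X]) (r : ℕ),
  WD k K t x y A B f r → 4 * A ^ 3 + 27 * B ^ 2 ≠ 0 →
  ∃ R : Subring K, (∀ z : K, z ∈ R ↔ ∃ (g : k[X]) (Q S : P2 k), g ≠ 0 ∧ aeval t g * z = rr t x y Q S) ∧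
    ∀ z : K, IsIntegral R z → z ∈ R

/-- **INC** (60), uses UNQ RIC. `z` is in all valuation rings of `K` containing `R` (they satisfy the hypotheses), so integral over `R` (the integral closure is the intersection of
the valuation rings; see the block INT of `MP_bf99ce_sf`, `B_INT.lean`, for the Mathlib names), so in `R`. -/
def Stmt_INC : Prop := ∀ (k K : Type) [Field k] [CharZero k] [Field K] [Algebra k K] (t x y : K) (A B f : k[X]) (r : ℕ),
  WD k K t x y A B f r → 4 * A ^ 3 + 27 * B ^ 2 ≠ 0 → ∀ z : K,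
  (∀ V : ValuationSubring K, (∀ c : k, algebraMap k K c ∈ V) → t ∈ V → x ∈ V → y ∈ V →
    (∀ p : k[X], p ≠ 0 → (aeval t p)⁻¹ ∈ V) → z ∈ V) →
  ∃ (g : k[X]) (Q S : P2 k), g ≠ 0 ∧ aeval t g * z = rr t x y Q S

/-- **DVP** (200), uses UNQ RIC. `V` contains `R = k(t)[x, y]`. `R` is the integral closure of the principal ideal domain `F[x]` in the finite separable extension `K` of `F(x)` (RIC), so a
Dedekind domain (`integralClosure.isDedekindDomain` or directly). `𝔭 = 𝔪_V ∩ R` is prime, `R_𝔭 ⊆ V`; `R_𝔭` is `K` or a discrete valuation ring, so a maximal proper subring of `K`: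
`V = R_𝔭` or `V = K`. So every `z ∈ V`, `V ≠ K`, is `a / s` with `a, s ∈ R`, `s ∉ 𝔭`, that is `s⁻¹ ∈ V`. `D` maps `R` to `V` (`g(t) a = rr Q S`, `g(t)⁻¹ ∈ V`), and
`D (a/s) = D a / s - a D s / s²`. -/
def Stmt_DVP : Prop := ∀ (k K : Type) [Field k] [CharZero k] [Field K] [Algebra k K] (t x y : K) (A B f : k[X]) (r : ℕ),
  WD k K t x y A B f r → 4 * A ^ 3 + 27 * B ^ 2 ≠ 0 → ∀ V : ValuationSubring K, (∀ c : k, algebraMap k K c ∈ V) → t ∈ V → x ∈ V →
  y ∈ V → (∀ p : k[X], p ≠ 0 → (aeval t p)⁻¹ ∈ V) → ∀ D : Derivation k K K, D t ∈ V → D x ∈ V → D y ∈ V → ∀ z ∈ V, D z ∈ V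

/-! ## Part E: change of the place -/

/-- **TRL** (120). Translation `T ↦ T + c`: `aeval (t - c) (p.comp (X + C c)) = aeval t p`, `derivative (p.comp (X + C c)) = (derivative p).comp (X + C c)`. `Q' = Q.map (compRingHom (X + C c))`,
`S'` the same; `lam Q' S' = (lam Q S).map _` and the map is injective on `k[X]`, so the degree is the same. -/
def Stmt_TRL : Prop := ∀ (k K : Type) [Field k] [Field K] [Algebra k K] (t x y : K) (A B f : k[X]) (r : ℕ),
  WD k K t x y A B f r → ∀ c : k,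
  WD k K (t - algebraMap k K c) x y (A.comp (X + C c)) (B.comp (X + C c)) (f.comp (X + C c)) r ∧
  (∀ D1 D2 : Derivation k K K, DD t x y f r D1 D2 →
    DD (t - algebraMap k K c) x y (f.comp (X + C c)) r D1 D2) ∧
  ∀ Q S : P2 k, ∃ Q' S' : P2 k, rr (t - algebraMap k K c) x y Q' S' = rr t x y Q S ∧ (lam Q' S').natDegree = (lam Q S).natDegree ∧
    (lam Q' S').leadingCoeff = (lam Q S).leadingCoeff.comp (X + C c) ∧ (lam Q S ≠ 0 → lam Q' S' ≠ 0)

/-- **INV** (200), uses UNQ. Inversion, `s = t⁻¹`, `x' = x / t^(2d)`, `y' = y / t^(3d)`, `A' = reflect (4d) A`, `B' = reflect (6d) B`, `f' = reflect (rd) f` (`aeval s (reflect N p) = aeval t p / t^N` for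
`natDegree p ≤ N`). `natDegree A ≤ 4d`: if `A ≠ 0` compare the leading coefficients in `flA`: `r deg A = 4 deg f` (if `deg A = 0` nothing to show; if `derivative f = 0` then `A` is
constant), the same for `B`: `r deg B = 6 deg f`. The equations `flA`, `flB` for the reflected polynomials: `derivative (reflect N p)` at `s` is `N p(t)/t^(N-1) - p'(t)/t^(N-2)`, evaluate at `s`
(the evaluation at `s` is injective on polynomials), or coefficientwise. `ind`: `P(s, x') = 0` gives, multiplied by a power of `t`, a polynomial in `t`, `x` (of `X^n` the coefficient `P_n(1/t) t^(N - 2dn)`).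
`gen`: `k(s, x', y') = k(t, x, y)`: from `z ev P = rr Q S` divide by powers of `t`. Derivations: `(-(t²) • D1) s = 1`, `((t^d)⁻¹ • D2) x' = y / t^(3d)`, and
`D1 x' = (D1 x) / t^(2d) - 2d x / t^(2d+1)`. -/
def Stmt_INV : Prop := ∀ (k K : Type) [Field k] [CharZero k] [Field K] [Algebra k K] (t x y : K) (A B f : k[X]) (r : ℕ),
  WD k K t x y A B f r → ∀ d : ℕ, f.natDegree ≤ r * d →
  (∃ A' B' : k[X], WD k K t⁻¹ (x / t ^ (2 * d)) (y / t ^ (3 * d)) A' B' (reflect (r * d) f) r) ∧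
  ∀ D1 D2 : Derivation k K K, DD t x y f r D1 D2 →
    DD t⁻¹ (x / t ^ (2 * d)) (y / t ^ (3 * d)) (reflect (r * d) f) r (-(t ^ 2) • D1) ((t ^ d)⁻¹ • D2)

/-- **INP** (150). `Q = ∑ Q_n(T) X^n`: `Q' = ∑_n (reflect (N - 2dn) Q_n) X^n`, `S' = ∑_n (reflect (N - 2dn - 3d) S_n) X^n` for `N ≥ n0` large (all `2dn + 3d + deg ≤ N`). The coefficient of `Z^m` in `lam Q' S'` is
`reflect (N - d m)` of the coefficient of `lam Q S` (both for even and odd `m`), so not zero if that is not zero. `X^e ∣ reflect M l`, `l ≠ 0`, `deg l ≤ M`, implies `e + deg l ≤ M`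
(`natTrailingDegree`; the coefficient of `reflect M l` at `M - deg l` is the leading coefficient of `l`). -/
def Stmt_INP : Prop := ∀ (k K : Type) [Field k] [Field K] [Algebra k K] (t x y : K), t ≠ 0 → ∀ (d : ℕ) (Q S : P2 k),
  ∃ n0 : ℕ, ∀ N ≥ n0, ∃ Q' S' : P2 k,
    rr t⁻¹ (x / t ^ (2 * d)) (y / t ^ (3 * d)) Q' S' = t⁻¹ ^ N * rr t x y Q S ∧
    (lam Q' S').natDegree = (lam Q S).natDegree ∧
    (lam Q S ≠ 0 → lam Q' S' ≠ 0 ∧ ∀ e : ℕ, (X : k[X]) ^ e ∣ (lam Q' S').leadingCoeff →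
      e + d * (lam Q S).natDegree + (lam Q S).leadingCoeff.natDegree ≤ N)

/-- **UHO** (60), uses UNQ VVA. `u ev P = rr Q S`, `P = T^h P'` with `T ∤ P'` (finite multiplicity, `P ≠ 0`): `(t^h u) ev P' = rr Q S`. For `p ≠ 0` in `k[T]`: `s = t⁻¹`, `p(t) = s^(-deg p) (reflect p)(s)`, so
`s^(deg p) p(t)` is in the valuation ring at `s = 0` (any `x'`, `y'`). -/
def Stmt_UHO : Prop := ∀ (k K : Type) [Field k] [Field K] [Algebra k K] (t x y : K) (A B f : k[X]) (r : ℕ),
  WD k K t x y A B f r → (∀ u : K, ∃ h : ℕ, t ^ h * u ∈ VG k t x y) ∧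
  ∀ (p : k[X]) (x' y' : K), t⁻¹ ^ p.natDegree * aeval t p ∈ VG k t⁻¹ x' y'

/-- **UFZ** (100), uses UNQ. `u ev P = rr Q S`, `P ≠ 0`. In the variable `t - c` the polynomial `P` becomes `P.map (compRingHom (X + C c))`; it is divisible by `T` iff `X - C c` divides all coefficients of `P`, so
only for finitely many `c` (roots of one nonzero coefficient of `P`). The second part: `ev q` is in every `VG` (denominator `1`); `Z` = ∅ and `q(t, x)` for `q : P2 k`, and common denominator of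
a finite family (product of the `P`s). -/
def Stmt_UFZ : Prop := ∀ (k K : Type) [Field k] [Field K] [Algebra k K] (t x y : K) (A B f : k[X]) (r : ℕ),
  WD k K t x y A B f r → (∀ u : K, ∃ Z : Finset k, ∀ c ∉ Z, u ∈ VG k (t - algebraMap k K c) x y) ∧
  (∀ (q : P2 k) (c : k), ev t x q ∈ VG k (t - algebraMap k K c) x y) ∧
  ∀ (N : ℕ) (u : Fin N → K), ∃ q : P2 k, q ≠ 0 ∧ ∀ s, ∃ Q S : P2 k, ev t x q * u s = rr t x y Q S

/-! ## Part F: the conclusion -/

/-- **ARI** (200). `b = i - a`, `S` = the set of roots of `f` (`#S ≤ deg f`), `ε = 0` if `deg f = r d` and `1` otherwise. `k` is algebraically closed: `deg g = ∑ rootMultiplicity c g` over any finite set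
containing the roots of `g` (`Polynomial.splits_iff_card_roots`, `Multiset` sums), the same for `l`. Sum the first three hypotheses over `c` in (roots of `g`, `l`, `f`) `∪ Z`:
`deg g + b #S ≤ deg l + #Z h + #S (h + D)`. With the fourth: `b #S + 2a + ε b ≤ d b + h' + (#Z + #S)(h + D)`. All roots of `f` have multiplicity `≤ r - 1`: `deg f ≤ (r-1) #S`; if `deg f = r d` then
`#S > d` (`d ≥ 1`, `#S (r-1) ≥ r d`), otherwise `deg f > r (d-1)` gives `#S (r-1) ≥ r d - r + 1`, `#S ≥ d`. So `#S + ε ≥ d + 1` and `2a + b ≤ h' + (#Z + #S)(h + D)`. -/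
def Stmt_ARI : Prop := ∀ (k : Type) [Field k] [IsAlgClosed k] (f : k[X]) (r d : ℕ), 1 ≤ f.natDegree →
  (∀ c : k, f.rootMultiplicity c < r) → f.natDegree ≤ r * d → r * d < f.natDegree + r →
  ∀ (l g : k[X]) (Z : Finset k) (i a h D h' : ℕ), l ≠ 0 → g ≠ 0 → a ≤ i →
  (∀ c ∉ Z, f.eval c ≠ 0 → g.rootMultiplicity c ≤ l.rootMultiplicity c) →
  (∀ c : k, f.eval c ≠ 0 → g.rootMultiplicity c ≤ l.rootMultiplicity c + h) →
  (∀ c : k, f.eval c = 0 → g.rootMultiplicity c + (i - a) ≤ l.rootMultiplicity c + (h + D)) →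
  (l.natDegree + 2 * a + (if f.natDegree = r * d then 0 else i - a) ≤ g.natDegree + d * (i - a) + h') →
  i ≤ h' + (Z.card + f.natDegree) * (h + D)

/-- **SYM** (180), uses UNQ DYF. The derivations give linear forms `Ω[K⁄k] → K` (`Derivation.liftKaehlerDifferential`) and a `K`-algebra homomorphism `ε` (`SymmetricAlgebra.lift`) with
`ε (ι (D a)) = C (D1 a) X0 + C (D2 a) X1`. `Ω` is spanned by `dt`, `dx` (it is spanned by the `dz`, `z ev P = rr Q S` gives `dz` as a combination of `dt`, `dx`, `dy`, and `2 y dy` is a combination of `dt`, `dx`), and the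
matrix `(1, 0; D1 x, y)` of the two forms on `dt`, `dx` is invertible, so `dt`, `dx` is a basis and `Ω → K²` is an isomorphism; `ε` is the isomorphism of the symmetric algebra
with the polynomial ring (`SymmetricAlgebra.equivMvPolynomial` for the basis dual to the two forms). -/
def Stmt_SYM : Prop := ∀ (k K : Type) [Field k] [CharZero k] [Field K] [Algebra k K] (t x y : K) (A B f : k[X]) (r : ℕ),
  WD k K t x y A B f r → ∀ D1 D2 : Derivation k K K, DD t x y f r D1 D2 →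
  ∃ ε : SymmetricAlgebra K (Ω[K⁄k]) →ₐ[K] MvPolynomial (Fin 2) K, Function.Injective ε ∧
    ∀ a : K, ε (SymmetricAlgebra.ι K (Ω[K⁄k]) (KaehlerDifferential.D k K a)) = lf D1 D2 a

/-! ## Part G: the scheme -/

/-- **CEN** (150). The centre of a valuation on a proper scheme (valuative criterion). `V` is a local ring with fraction field `K = X.functionField`, the structure
homomorphism `str s : k → K` factors through `V` (hypothesis), so there is a commutative square `Spec K → X` (the generic point, `Scheme.fromSpecStalk` at `genericPoint X`;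
`X.functionField` is the stalk at the generic point), `Spec V → Spec k`. `s` is proper, so satisfies the valuative criterion (`IsProper.eq_valuativeCriterion`,
`ValuativeCriterion.Existence`): a lift `l : Spec V → X`. `p` = image of the closed point. The homomorphism of the stalk at `p` to `V` (for instance
`Scheme.stalkClosedPointTo`) followed by `V ⊆ K` is the canonical map `stalk p → X.functionField` (`Scheme.Spec_stalkClosedPointTo_fromSpecStalk`,
`X.presheaf.stalkSpecializes`; the morphism `Spec K → X` is the one of the generic point, both factor through `Spec (stalk p)`, which is a monomorphism). -/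
def Stmt_CEN : Prop := ∀ (k : Type) [Field k] (X : Scheme.{0}) [IsIntegral X] (s : X ⟶ Spec (CommRingCat.of k)) [IsProper s]
  (V : ValuationSubring X.functionField), (∀ c : k, str s c ∈ V) →
  ∃ p : X, ∀ a : X.presheaf.stalk p, algebraMap (X.presheaf.stalk p) X.functionField a ∈ V

end Pool.IE
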