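import Pool.Agent.Work.MP_bf99ce_ie.Interface

/-!
# THEOREM IE (MP_bf99ce_ag): the assembly blocks

Files `B_X.lean` in `Pool/Agent/Work/MP_bf99ce_ie`, `import Pool.Agent.Work.MP_bf99ce_ie.Interface2`, namespace `Pool.IE`,
`theorem p_X (hA : Stmt_A) ... : Stmt_X` with exactly the blocks named after `uses` as hypotheses in that order. Auxiliary lemmas with the
prefix `X_`.
-/

set_option autoImplicit false

open Polynomial

noncomputable section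

namespace Pool.IE

/-- Constants of the family `u`: `H` is a common denominator over `k(t)[x, y]`, `h0`, `h1`, `e0` bound the poles at the finite places, at `t = ∞` and at
`O`; outside `Z` there are no poles. -/
structure CD (k K : Type) [Field k] [Field K] [Algebra k K] (t x y : K) {N : ℕ} (u : Fin N → K) (d : ℕ) (H : K) (h0 e0 h1 : ℕ)
    (Z : Finset k) : Prop where
  H0 : H ≠ 0
  HV : ∀ V : ValuationSubring K, (∀ c : k, algebraMap k K c ∈ V) → t ∈ V → x ∈ V → y ∈ V → ∀ s, H * u s ∈ V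
  Hc : ∀ c : k, H ∈ VG k (t - algebraMap k K c) x y
  uc : ∀ (c : k) (s : Fin N), (t - algebraMap k K c) ^ h0 * u s ∈ VG k (t - algebraMap k K c) x y
  uz : ∀ c ∉ Z, ∀ s, u s ∈ VG k (t - algebraMap k K c) x y
  Hi : t⁻¹ ^ h1 * H ∈ VG k t⁻¹ (x / t ^ (2 * d)) (y / t ^ (3 * d))
  ui : ∀ s, t⁻¹ ^ h1 * u s ∈ VG k t⁻¹ (x / t ^ (2 * d)) (y / t ^ (3 * d))
  HO : x⁻¹ ^ e0 * H ∈ VO k t x y
  uO : ∀ s, x⁻¹ ^ e0 * u s ∈ VO k t x y

/-- The section `pol i G` with the numerators of its coefficients: `g(t) H^j G_a = Q_a(t, x) + S_a(t, x) y`. -/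
structure ND (k K : Type) [Field k] [Field K] [Algebra k K] (t x y : K) (D1 D2 : Derivation k K K) {N : ℕ} (u : Fin N → K) (H : K)
    (i j D : ℕ) (G : ℕ → K) (g : k[X]) (Q S : ℕ → P2 k) : Prop where
  sec : ∀ V : ValuationSubring K, (∀ c : k, algebraMap k K c ∈ V) → InT D1 D2 (V : Set K) u i j (pol i G)
  g0 : g ≠ 0
  num : ∀ a ≤ i, rr t x y (Q a) (S a) = aeval t g * H ^ j * G a
  deg : ∀ a ≤ i, (lam (Q a) (S a)).natDegree ≤ D

/-- **ACO** (200), uses UNQ VVA VOO TRL INV UHO UFZ. `H = ev q` of UFZ (3): `H u_s = rr Q S` is a polynomial in `t, x, y` over `k`, so in `V` (HV); `H0`: UNQ (3); `Hc`: UFZ (2).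
`Z` = union of the sets of UFZ (1) for the `u s`. For each `c ∈ Z` and `s` UHO (1) for the datum of TRL at `c` gives an exponent; `h0` = the maximum (`(t - c)^m ∈ VG`, which is a ring by
VVA for the datum of TRL); for `c ∉ Z` `uz`. `h1`: UHO (1) for the datum of INV (`H` and the `u s`, maximum). `e0`: VOO (5) for `H` and the `u s`, maximum; `x⁻¹ ∈ VO`
(`x⁻¹ rr X 0 = rr 1 0`), `VO` is a ring. -/
def Stmt_ACO : Prop := ∀ (k K : Type) [Field k] [CharZero k] [Field K] [Algebra k K] (t x y : K) (A B f : k[X]) (r : ℕ),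
  WD k K t x y A B f r → ∀ d : ℕ, f.natDegree ≤ r * d → ∀ (N : ℕ) (u : Fin N → K),
  ∃ (H : K) (h0 e0 h1 : ℕ) (Z : Finset k), CD k K t x y u d H h0 e0 h1 Z

/-- **AGD** (250), uses UNQ DYF LMM POL LAT VOO INC DVP. (1) `V = ⊤`: LAT (3) with `w = H = 1` and LAT (1): `Φ` is homogeneous of degree `i`, so `Φ = pol i G`, `G a` the
coefficients (POL (4)); `Φ ≠ 0`, so some `G a ≠ 0`, `a ≤ i`. (2) `V` as in INC: `D1`, `D2` of `t`, `x`, `y` are in `V` (`1`, `2 f'(t) x / (r f(t))`, `3 f'(t) y / (r f(t))`, `0`, `y`, `(3x² + A)/2`: DYF;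
`k ⊆ V`, `f(t)⁻¹ ∈ V`), so `D1`, `D2` preserve `V` (DVP). LAT (3) with `w = 1` and `H` (`CD.HV`), LAT (2): the coefficients of `C (1 * H^j) * Φ`, that is the `H^j G_a`, are in `V`. INC:
`g_a(t) H^j G_a = rr _ _`. `g = ∏_{a ≤ i} g_a`. (3) Degrees: `V_O` of VOO (1), (3). LAT (3) with `w = 1`, `H := x⁻¹^e0` (`CD.uO`), LAT (2): `(x⁻¹^e0)^j G_a ∈ VO`; also `g(t) ∈ VO` (VOO (2)) and
`(x⁻¹^e0 H)^j ∈ VO`. So `g(t) H^j G_a = x^(2 e0 j) z`, `z ∈ VO`, and VOO (4) gives degree `≤ 4 e0 j`. `lam (Q a) (S a) ≠ 0` if `G a ≠ 0` (`g(t) H^j G a ≠ 0`, LMM (3)). -/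
def Stmt_AGD : Prop := ∀ (k K : Type) [Field k] [CharZero k] [Field K] [Algebra k K] (t x y : K) (A B f : k[X]) (r : ℕ),
  WD k K t x y A B f r → 4 * A ^ 3 + 27 * B ^ 2 ≠ 0 → ∀ D1 D2 : Derivation k K K, DD t x y f r D1 D2 →
  ∀ (N : ℕ) (u : Fin N → K) (d : ℕ) (H : K) (h0 e0 h1 : ℕ) (Z : Finset k), CD k K t x y u d H h0 e0 h1 Z →
  ∀ (i j : ℕ) (Φ : MvPolynomial (Fin 2) K), Φ ≠ 0 →
  (∀ V : ValuationSubring K, (∀ c : k, algebraMap k K c ∈ V) → InT D1 D2 (V : Set K) u i j Φ) →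
  ∃ (G : ℕ → K) (g : k[X]) (Q S : ℕ → P2 k), Φ = pol i G ∧ ND k K t x y D1 D2 u H i j (j * (4 * e0)) G g Q S ∧
    ∃ a ≤ i, lam (Q a) (S a) ≠ 0

/-- **AFP** (200), uses POL VVA LAT LGD LBD TRL UFZ. The place `t = c`. TRL: datum for `t' = t - c`, `f' = f.comp (X + C c)`, `f'(0) = f(c)`, pairs `Q'_a`, `S'_a` with `rr t' x y Q'_a S'_a = rr t x y Q_a S_a`, the same
degrees of `lam` (also `lam Q'_a S'_a ≠ 0` only if `lam Q_a S_a ≠ 0`: choose `Q'_a = S'_a = 0` for `Q_a = S_a = 0`, or use LMM-type injectivity), leading coefficient `l.comp (X + C c)`. `V_c = VG k t' x y` (VVA),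
`k ⊆ V_c`. `g = (X - C c)^e g1`, `e = rootMultiplicity c g`, `g(t) = t'^e g1(t)`, `w = g1(t) H^j ∈ V_c` (UFZ (2) for `q = C g1`, `CD.Hc`). LAT (3) with `w` and `H := t'^h` (`h = h0`, `CD.uc`; for `c ∉ Z` and `f(c) ≠ 0` also
`h = 0`, `CD.uz`): `Λ = C (w * (t'^h)^j) * pol i G` satisfies `InL`, and `C (t'^(j h)) * pol i (rr Q'_a S'_a) = C (t'^e) * Λ` (`ND.num`, POL (3), (2)). LGD (`f(c) ≠ 0`) at `M` = the degree: `X^e ∣ X^(j h) * l.comp (X + C c)`,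
so `e ≤ j h + rootMultiplicity c l`. LBD (`f(c) = 0`, `h = h0`, `E = j h0`): `e + (i - a) ≤ j h0 + D + rootMultiplicity c l`. (`X^n ∣ l.comp (X + C c)` iff `(X - C c)^n ∣ l` iff `n ≤ rootMultiplicity c l`, `l ≠ 0`.) -/
def Stmt_AFP : Prop := ∀ (k K : Type) [Field k] [CharZero k] [Field K] [Algebra k K] (t x y : K) (A B f : k[X]) (r : ℕ),
  WD k K t x y A B f r → ∀ D1 D2 : Derivation k K K, DD t x y f r D1 D2 →
  ∀ (N : ℕ) (u : Fin N → K) (d : ℕ) (H : K) (h0 e0 h1 : ℕ) (Z : Finset k), CD k K t x y u d H h0 e0 h1 Z →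
  ∀ (i j D : ℕ) (G : ℕ → K) (g : k[X]) (Q S : ℕ → P2 k), ND k K t x y D1 D2 u H i j D G g Q S →
  ∀ M a : ℕ, (∀ a' ≤ i, lam (Q a') (S a') ≠ 0 → (lam (Q a') (S a')).natDegree + a' ≤ M) → a ≤ i → lam (Q a) (S a) ≠ 0 →
  (lam (Q a) (S a)).natDegree + a = M →
  (∀ c ∉ Z, f.eval c ≠ 0 → g.rootMultiplicity c ≤ (lam (Q a) (S a)).leadingCoeff.rootMultiplicity c) ∧
  (∀ c : k, f.eval c ≠ 0 → g.rootMultiplicity c ≤ (lam (Q a) (S a)).leadingCoeff.rootMultiplicity c + j * h0) ∧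
  ∀ c : k, f.eval c = 0 →
    g.rootMultiplicity c + (i - a) ≤ (lam (Q a) (S a)).leadingCoeff.rootMultiplicity c + (j * h0 + D)

/-- **AIN** (250), uses UNQ LMM POL VVA LAT LGD LBD INV INP UHO. The place `t = ∞`. Write `s = t⁻¹`, `x' = x/t^(2d)`, `y' = y/t^(3d)`, `f* = reflect (r d) f`; INV: datum for `s, x', y', f*` and `D1' = -(t²) • D1`,
`D2' = (t^d)⁻¹ • D2`. LAT (4): `pol i G'`, `G'_a = (-(t²))^a ((t^d)⁻¹)^(i-a) G_a`, satisfies `InT D1' D2'`. For `κ` large (`≥ 2 i`, `≥ deg g + 2 j h1 + D`, `≥` all `n0 + 2 i` of INP for `a ≤ i`) put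
`N_a = κ + d (i - a) - 2 a`; INP for the pair `((-1)^a Q_a, (-1)^a S_a)` (LMM (2): the same degrees) gives `Q'_a`, `S'_a` with `rr' Q'_a S'_a = s^(N_a) (-1)^a rr Q_a S_a = s^κ g(t) H^j G'_a`. `V = VG k s x' y'` (VVA).
`w = s^(deg g) g(t) (s^h1 H)^j ∈ V` (UHO (2), `CD.Hi`), LAT (3) with `w` and `H := s^h1` (`CD.ui`): `Λ = C (w * (s^h1)^j) * pol i G'` satisfies `InL D1' D2'`, and with `E = 2 j h1`, `e = κ - deg g`:
`C (s^E) * pol i (rr' Q'_a S'_a) = C (s^e) * Λ`. The `lam'` of the `Q'_a, S'_a` have the degrees of the `lam` and are nonzero exactly for the same `a` (if `lam = 0` then `rr = 0`, `rr' = 0`, `Q'_a = S'_a = 0` by UNQ (2) for the datum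
at `s`). If `deg f = r d` then `f*(0) ≠ 0` and LGD gives `X^(e - E) ∣ leadingCoeff lam'_a`, INP: `(κ - deg g - E) + d m_a + deg l ≤ κ + d (i-a) - 2a`. If `deg f < r d` then `f*(0) = 0` and LBD gives
`X^(e + (i - a) - (E + D)) ∣ leadingCoeff lam'_a`, INP: `(κ - deg g + (i - a) - E - D) + d m_a + deg l ≤ κ + d (i-a) - 2a`. -/
def Stmt_AIN : Prop := ∀ (k K : Type) [Field k] [CharZero k] [Field K] [Algebra k K] (t x y : K) (A B f : k[X]) (r : ℕ),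
  WD k K t x y A B f r → ∀ D1 D2 : Derivation k K K, DD t x y f r D1 D2 → ∀ d : ℕ, f.natDegree ≤ r * d →
  ∀ (N : ℕ) (u : Fin N → K) (H : K) (h0 e0 h1 : ℕ) (Z : Finset k), CD k K t x y u d H h0 e0 h1 Z →
  ∀ (i j D : ℕ) (G : ℕ → K) (g : k[X]) (Q S : ℕ → P2 k), ND k K t x y D1 D2 u H i j D G g Q S →
  ∀ M a : ℕ, (∀ a' ≤ i, lam (Q a') (S a') ≠ 0 → (lam (Q a') (S a')).natDegree + a' ≤ M) → a ≤ i → lam (Q a) (S a) ≠ 0 →
  (lam (Q a) (S a)).natDegree + a = M →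
  (lam (Q a) (S a)).leadingCoeff.natDegree + 2 * a + (if f.natDegree = r * d then 0 else i - a) ≤
    g.natDegree + d * (i - a) + (j * (2 * h1) + D)

/-- **AMN**, uses ACO AGD AFP AIN ARI. (helper72) -/
def Stmt_AMN : Prop := ∀ (k K : Type) [Field k] [CharZero k] [IsAlgClosed k] [Field K] [Algebra k K] (t x y : K) (A B f : k[X]) (r : ℕ),
  WD k K t x y A B f r → 4 * A ^ 3 + 27 * B ^ 2 ≠ 0 → 1 ≤ f.natDegree → (∀ c : k, f.rootMultiplicity c < r) →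
  ∀ D1 D2 : Derivation k K K, DD t x y f r D1 D2 → ∀ (N : ℕ) (u : Fin N → K), ∃ C : ℕ, ∀ i j : ℕ, C * j < i →
  ∀ Φ : MvPolynomial (Fin 2) K,
    (∀ V : ValuationSubring K, (∀ c : k, algebraMap k K c ∈ V) → InT D1 D2 (V : Set K) u i j Φ) → Φ = 0

end Pool.IE
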