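import Pool.Agent.Work.MP_bf99ce_ie.Interface

/-!
# THEOREM IEM (MP_bf99ce_ag): restriction to the generic line

THEOREM IEM: THEOREM IE for isotrivial elliptic fibrations with a section over a rational base of any dimension `m`. The function field
`K = k(t_1, …, t_m)(x, y)` is embedded in `K' = k'(s)(x, y)`, `k'` the algebraic closure of `k(α, β)`, by `t_l ↦ α_l + β_l s` (the generic
line), and THEOREM IE is applied to `K'` over `k'`.

Files `B_X.lean` in `Pool/Agent/Work/MP_bf99ce_ie`, `import Pool.Agent.Work.MP_bf99ce_ie.Interface3`, namespace `Pool.IE`,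
`theorem p_X (hA : Stmt_A) ... : Stmt_X` with exactly the blocks named after `uses` as hypotheses in that order. Auxiliary lemmas with the
prefix `X_`. All rings are in `Type`.
-/

set_option autoImplicit false

open Polynomial

noncomputable section

namespace Pool.IE

/-- evaluation of `k[T_1, …, T_m][X]` at `(t, x)` -/
def evm {k K : Type} [Field k] [Field K] [Algebra k K] {m : ℕ} (t : Fin m → K) (x : K) : Polynomial (MvPolynomial (Fin m) k) →+* K :=
  eval₂RingHom ((MvPolynomial.aeval t : MvPolynomial (Fin m) k →ₐ[k] K) : MvPolynomial (Fin m) k →+* K) x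

/-- `K` is the function field of `y² = x³ + A(t) x + B(t)` over `k`, `t = (t_1, …, t_m)`. -/
structure WM (k K : Type) [Field k] [Field K] [Algebra k K] {m : ℕ} (t : Fin m → K) (x y : K) (A B : MvPolynomial (Fin m) k) :
    Prop where
  rel : y ^ 2 = x ^ 3 + MvPolynomial.aeval t A * x + MvPolynomial.aeval t B
  ind : ∀ P : Polynomial (MvPolynomial (Fin m) k), evm t x P = 0 → P = 0
  gen : ∀ z : K, ∃ P Q S : Polynomial (MvPolynomial (Fin m) k), P ≠ 0 ∧ z * evm t x P = evm t x Q + evm t x S * y

/-- the same for one variable `s`, without flatness -/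
structure W1 (k K : Type) [Field k] [Field K] [Algebra k K] (s x y : K) (A B : k[X]) : Prop where
  rel : y ^ 2 = x ^ 3 + aeval s A * x + aeval s B
  ind : ∀ P : P2 k, ev s x P = 0 → P = 0
  gen : ∀ z : K, ∃ P Q S : P2 k, P ≠ 0 ∧ z * ev s x P = rr s x y Q S

/-- `α_1, …, α_m, β_1, …, β_m` are algebraically independent over `k`. -/
def AI (k : Type) {k' : Type} [Field k] [Field k'] [Algebra k k'] {m : ℕ} (α β : Fin m → k') : Prop :=
  ∀ P : MvPolynomial (Fin m ⊕ Fin m) k, MvPolynomial.aeval (Sum.elim α β) P = 0 → P = 0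

/-- the substitution `T_l ↦ α_l + β_l X` -/
def lin (k : Type) {k' : Type} [Field k] [Field k'] [Algebra k k'] {m : ℕ} (α β : Fin m → k') : MvPolynomial (Fin m) k →ₐ[k] k'[X] :=
  MvPolynomial.aeval (fun l => C (α l) + C (β l) * X)

/-- **GLK** (60). `k' = AlgebraicClosure (FractionRing (MvPolynomial (Fin m ⊕ Fin m) k))`, `α`, `β` the variables. -/
def Stmt_GLK : Prop := ∀ (k : Type) [Field k] [CharZero k] (m : ℕ),
  ∃ (k' : Type) (_ : Field k') (_ : CharZero k') (_ : IsAlgClosed k') (_ : Algebra k k') (α β : Fin m → k'), AI k α β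

/-- **GLD** (100). (1) Evaluate `lin D = 0` at `0`: `D(α) = 0`, so `D = 0` (`AI` for `rename Sum.inl D`). (2) If the degree is zero then `lin D` is constant, so its values at `0` and `1` agree:
`D(α) = D(α + β)` in `k'`, so (AI) `D(T) = D(T + U)` in `k[T, U]`; put `T = 0`: `D(0) = D(U)`, so `D` is constant. -/
def Stmt_GLD : Prop := ∀ (k k' : Type) [Field k] [Field k'] [Algebra k k'] (m : ℕ) (α β : Fin m → k'), AI k α β →
  ∀ D : MvPolynomial (Fin m) k, (D ≠ 0 → lin k α β D ≠ 0) ∧ ((∀ c : k, D ≠ MvPolynomial.C c) → 1 ≤ (lin k α β D).natDegree)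

/-- **GLM** (250), uses GLD. Let `A0 = MvPolynomial (Fin m ⊕ Fin m) k`, `F0` its fraction field, embedded in `k'` by `(α, β)` (AI). For a prime `p` in `k[T]` let `p^` be `p` with `T_l ↦ C (X (inl l)) + C (X (inr l)) * X` in `A0[X]`; then
`lin p` is the image of `p^` in `k'[X]`. `p^` is prime in `A0[X]`: `rename Sum.inl p` is prime (`MvPolynomial.prime_rename_iff`), so `C (rename Sum.inl p)` is (`Polynomial.prime_C_iff`), and there is an automorphism
of `A0[X] = k[T, U, X]` with `T_l ↦ T_l + U_l X` (inverse `T_l - U_l X`). By GLD (2) (or its proof) `p^` has positive degree, so it is primitive and irreducible over `F0`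
(`Polynomial.IsPrimitive.irreducible_iff_irreducible_map_fraction_map`), so separable (`char 0`), and `lin p` has only simple roots in `k'`. For non-associated `p`, `q` the `p^`, `q^` are
non-associated primes (the automorphism, and `C (rename inl p)` divides `C (rename inl q)` only if `p` divides `q`), so coprime over `F0` and `lin p`, `lin q` have no common root. So for `D = u ∏ p_i^(n_i)` (unique
factorisation, `n_i < N`) every root of `lin D` has multiplicity one of the `n_i`. (For one fixed `c`: write `D = p^n D1` with `lin p (c) = 0`, `p` prime, `p` not dividing `D1`; all primes dividing `D1` are not associated to `p`, so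
`lin D1 (c) ≠ 0`.) -/
def Stmt_GLM : Prop := ∀ (k k' : Type) [Field k] [CharZero k] [Field k'] [Algebra k k'] (m : ℕ) (α β : Fin m → k'), AI k α β →
  ∀ (D : MvPolynomial (Fin m) k) (N : ℕ), 1 ≤ N → D ≠ 0 → (∀ p : MvPolynomial (Fin m) k, Irreducible p → ¬ p ^ N ∣ D) →
  ∀ c : k', (lin k α β D).rootMultiplicity c < N

/-- **CNS** (150). Existence of the function field. `M = FractionRing (P2 k)` (or `RatFunc` of `RatFunc k`), `W = X³ + A X + B` in `k[T][X]` is not a square in `M` (`k[T][X]` is integrally closed and `W` has odd degree in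
`X`, `Polynomial.natDegree_pow`), so `Y² - W` is irreducible over `M` (degree two without a root) and `K = AdjoinRoot (Y² - W)`. `gen`: every element is `a + b y`, `a, b ∈ M`, common denominator. -/
def Stmt_CNS : Prop := ∀ (k : Type) [Field k] (A B : k[X]), ∃ (K : Type) (_ : Field K) (_ : Algebra k K) (s x y : K), W1 k K s x y A B

/-- **EMB** (200), uses GLD. The embedding of `K` in `K'`. The homomorphism `φ : k[T][X] → K'`, `T_l ↦ α_l + β_l s`, `X ↦ x'` is `φ P = ev s x' (P.map lin)`; injective by `W1.ind` and GLD (1). For `z` in `K`, `z evm P = evm Q + evm S y` (`WM.gen`),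
put `j z = (φ Q + φ S y') / φ P`. Well defined: `evm Q + evm S y = 0` implies `Q = S = 0` (square: `Q² = S² W`, degrees in `X`, `WM.ind`); a ring homomorphism since `y'^2 = φ W`
(`aeval s (lin A) = ` the value of `A` at `α + β s`). -/
def Stmt_EMB : Prop := ∀ (k K k' K' : Type) [Field k] [Field K] [Algebra k K] [Field k'] [Field K'] [Algebra k' K'] [Algebra k k'] (m : ℕ)
  (t : Fin m → K) (x y : K) (A B : MvPolynomial (Fin m) k) (α β : Fin m → k') (s x' y' : K'),
  WM k K t x y A B → AI k α β → W1 k' K' s x' y' (lin k α β A) (lin k α β B) →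
  ∃ j : K →+* K', (∀ c : k, j (algebraMap k K c) = algebraMap k' K' (algebraMap k k' c)) ∧
    (∀ l, j (t l) = algebraMap k' K' (α l) + algebraMap k' K' (β l) * s) ∧ j x = x' ∧ j y = y'

/-- **IND** (200). The `β_l` are algebraically independent over `j(K)`. Multiply `P` by a common denominator `evm P0`, `P0 ≠ 0` (`j (evm P0) ≠ 0`, `j` is injective): all coefficients of `P` are `evm Q_b + evm S_b y` (`b` the exponents). The
value is `ev s x' Q^ + ev s x' S^ y'` with `Q^ = ∑_b C (C β^b) * (Q_b.map lin)` in `P2 k'`, the same for `S^`. So `Q^ = S^ = 0` (as in UNQ (2): `Q^ ² = S^ ² W`, degrees in `X`). The coefficient of `X^n` in `Q^` is `∑_b C (β^b) * lin (Q_b.coeff n)`; evaluated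
at `0` it is `∑_b β^b Q_{b,n}(α) = 0`, a polynomial relation of `α, β` over `k`, so all `Q_{b,n} = 0` (AI for `∑_b rename inl (Q_{b,n}) * rename inr (monomial b 1)`). So `P = 0`. -/
def Stmt_IND : Prop := ∀ (k K k' K' : Type) [Field k] [Field K] [Algebra k K] [Field k'] [Field K'] [Algebra k' K'] [Algebra k k'] (m : ℕ)
  (t : Fin m → K) (x y : K) (A B : MvPolynomial (Fin m) k) (α β : Fin m → k') (s x' y' : K'),
  WM k K t x y A B → AI k α β → W1 k' K' s x' y' (lin k α β A) (lin k α β B) →
  ∀ j : K →+* K', (∀ c : k, j (algebraMap k K c) = algebraMap k' K' (algebraMap k k' c)) →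
    (∀ l, j (t l) = algebraMap k' K' (α l) + algebraMap k' K' (β l) * s) → j x = x' → j y = y' →
  ∀ P : MvPolynomial (Fin m) K, MvPolynomial.eval₂ j (fun l => algebraMap k' K' (β l)) P = 0 → P = 0

/-- **SYI** (250). `K'` is a `K`-algebra by `j`. `D1 ∘ j`, `D2 ∘ j : K → K'` are `k`-derivations (they kill the image of `k`, which is in `k'`); they give a `K`-linear map `Ω[K⁄k] → MvPolynomial (Fin 2) K'`
(`Derivation.liftKaehlerDifferential`), `d a ↦ lf D1 D2 (j a)`, and `ε` (`SymmetricAlgebra.lift`). Injective: `Ω[K⁄k]` is spanned by `dt_l` and `dx` (`z evm P = evm Q + evm S y` gives `dz` as a combination of `dt_l`, `dx`, `dy`, and `2 y dy` is a combination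
of `dt_l`, `dx`; `y ≠ 0`, `evm P ≠ 0`), so `π : MvPolynomial (Option (Fin m)) K → SymmetricAlgebra`, `some l ↦ dt_l`, `none ↦ dx` is surjective. `ε ∘ π` maps `X (some l)` to `β_l X0` (`D1 s = 1`, `D2 s = 0`), `X none` to `D1 x' X0 + y' X1` (`D2 x' = y'`), the coefficients by `j`. It is injective:
after the automorphism `X1 ↦ (X1 - D1 x' X0)/y'` (`y' ≠ 0` is a hypothesis) the coefficient of `X0^n X1^b` of the image of `P` is `∑_{|a| = n} j(p_{a,b}) β^a`, so `p_{a,b} = 0` by the last hypothesis. So `ε` is injective. -/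
def Stmt_SYI : Prop := ∀ (k K k' K' : Type) [Field k] [CharZero k] [Field K] [Algebra k K] [Field k'] [Field K'] [Algebra k' K'] [Algebra k k'] (m : ℕ)
  (t : Fin m → K) (x y : K) (A B : MvPolynomial (Fin m) k) (β α : Fin m → k') (s x' y' : K'), WM k K t x y A B → y' ≠ 0 →
  ∀ j : K →+* K', (∀ c : k, j (algebraMap k K c) = algebraMap k' K' (algebraMap k k' c)) →
    (∀ l, j (t l) = algebraMap k' K' (α l) + algebraMap k' K' (β l) * s) → j x = x' → j y = y' →
  (∀ P : MvPolynomial (Fin m) K, MvPolynomial.eval₂ j (fun l => algebraMap k' K' (β l)) P = 0 → P = 0) →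
  ∀ D1 D2 : Derivation k' K' K', D1 s = 1 → D2 s = 0 → D2 x' = y' →
  ∃ ε : SymmetricAlgebra K (Ω[K⁄k]) →+* MvPolynomial (Fin 2) K', Function.Injective ε ∧
    (∀ c : K, ε (algebraMap K _ c) = MvPolynomial.C (j c)) ∧
    ∀ a : K, ε (SymmetricAlgebra.ι K (Ω[K⁄k]) (KaehlerDifferential.D k K a)) = lf D1 D2 (j a)

end Pool.IE
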