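import Pool.Agent.Work.MP_bf99ce_ie.Interface2
import Pool.Agent.Work.MP_bf99ce_ie.Interface3

/-!
# THEOREM EM (MP_bf99ce_ag): elliptic fibrations without isotriviality

THEOREM EM: no nonzero sections of `S^i Ω_X ⊗ U^j` for `i > C j` for every elliptic fibration with a section over a rational base (nonconstant
discriminant). New here: the non-isotrivial case over `k(t)`, paper proof = note 3343 of the team database.

Files `B_X.lean` in `Pool/Agent/Work/MP_bf99ce_ie`, `import Pool.Agent.Work.MP_bf99ce_ie.Interface4`, namespace `Pool.IE`,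
`theorem p_X (hA : Stmt_A) ... : Stmt_X` with exactly the blocks named after `uses` as hypotheses in that order. Auxiliary lemmas with the
prefix `X_`. All rings are in `Type`.

The blocks of part A are versions of typed blocks of THEOREM IE (named in the docstring) with the structure `W1` (equation, independence, generation,
no flatness) instead of `WD`; the proofs there do not use flatness, so copy the file `B_....lean` and change the names.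
-/

set_option autoImplicit false

open Polynomial

noncomputable section

namespace Pool.IE

/-- the derivations `D0` (`x` constant) and `D2` (vertical) -/
structure D0D {k K : Type} [Field k] [Field K] [Algebra k K] (t x y : K) (D0 D2 : Derivation k K K) : Prop where
  t1 : D0 t = 1
  x1 : D0 x = 0
  t2 : D2 t = 0
  x2 : D2 x = y

/-- discriminant -/
def dsc {k : Type} [Field k] (A B : k[X]) : k[X] := 4 * A ^ 3 + 27 * B ^ 2

/-- `3 A' B - 2 A B'`: zero exactly for constant `j`-invariant -/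
def kap {k : Type} [Field k] (A B : k[X]) : k[X] := 3 * derivative A * B - 2 * A * derivative B

/-- `p = (3 κ x² + (Δ'/6) x + 2 A κ) / Δ`: the derivation `D1 = D0 + (p/y) D2` is regular on `k(t)[x, y]` -/
def pp {k K : Type} [Field k] [Field K] [Algebra k K] (t x : K) (A B : k[X]) : K :=
  (3 * aeval t (kap A B) * x ^ 2 + aeval t (derivative (dsc A B)) / 6 * x + 2 * aeval t (A * kap A B)) / aeval t (dsc A B)

/-- the ring `R = k(t)[x, y]` as a set -/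
def RI (k : Type) {K : Type} [Field k] [Field K] [Algebra k K] (t x y : K) : Set K :=
  {z | ∃ (g : k[X]) (Q S : P2 k), g ≠ 0 ∧ aeval t g * z = rr t x y Q S}

/-! ## Part A: versions of typed blocks for `W1` -/

/-- **UNQ1** (80). `B_UNQ.lean`. -/
def Stmt_UNQ1 : Prop := ∀ (k K : Type) [Field k] [Field K] [Algebra k K] (t x y : K) (A B : k[X]), W1 k K t x y A B →
  (∀ Q S Q' S' : P2 k, rr t x y Q S * rr t x y Q' S' = rr t x y (Q * Q' + S * S' * WP A B) (Q * S' + S * Q')) ∧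
  (∀ Q S : P2 k, rr t x y Q S = 0 → Q = 0 ∧ S = 0) ∧
  (∀ P : P2 k, P ≠ 0 → ev t x P ≠ 0) ∧
  y ≠ 0 ∧ x ≠ 0 ∧ t ≠ 0 ∧ ∀ p : k[X], p ≠ 0 → aeval t p ≠ 0

/-- **DEX1** (180). `B_DEX.lean`. -/
def Stmt_DEX1 : Prop := ∀ (k K : Type) [Field k] [CharZero k] [Field K] [Algebra k K] (t x y : K) (A B : k[X]),
  W1 k K t x y A B → ∀ a b : K, ∃ D : Derivation k K K, D t = a ∧ D x = b

/-- **DYF1** (40). Part (1) of `B_DYF.lean`. -/
def Stmt_DYF1 : Prop := ∀ (k K : Type) [Field k] [CharZero k] [Field K] [Algebra k K] (t x y : K) (A B : k[X]),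
  W1 k K t x y A B → ∀ D : Derivation k K K, 2 * y * D y =
    (3 * x ^ 2 + aeval t A) * D x + (aeval t (derivative A) * x + aeval t (derivative B)) * D t

/-- **VVA1** (150), uses UNQ1. `B_VVA.lean`. -/
def Stmt_VVA1 : Prop := ∀ (k K : Type) [Field k] [Field K] [Algebra k K] (t x y : K) (A B : k[X]), W1 k K t x y A B →
  ∃ V : ValuationSubring K, (V : Set K) = VG k t x y

/-- **VCM1** (60), uses UNQ1. `B_VCM.lean`. -/
def Stmt_VCM1 : Prop := ∀ (k K : Type) [Field k] [Field K] [Algebra k K] (t x y : K) (A B : k[X]), W1 k K t x y A B →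
  ∀ (Q S : P2 k) (e : ℕ), ∀ z ∈ VG k t x y, rr t x y Q S = t ^ e * z → TT k ^ e ∣ Q ∧ TT k ^ e ∣ S

/-- **VD0** (120), uses UNQ1 DYF1 VVA1. `D0 y = (A'(t) x + B'(t)) y / (2 ev W)`, `D2 y = (3 x² + A(t)) / 2` are in `VG` (`T` does not divide the monic `W`); then as in `B_VDG.lean` (`VDG_der`) and `B_VDB.lean`. No
condition at the place. -/
def Stmt_VD0 : Prop := ∀ (k K : Type) [Field k] [CharZero k] [Field K] [Algebra k K] (t x y : K) (A B : k[X]),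
  W1 k K t x y A B → ∀ D0 D2 : Derivation k K K, D0D t x y D0 D2 → ∀ z ∈ VG k t x y, D0 z ∈ VG k t x y ∧ D2 z ∈ VG k t x y

/-- **UHO1** (60), uses UNQ1 VVA1. `B_UHO.lean`. -/
def Stmt_UHO1 : Prop := ∀ (k K : Type) [Field k] [Field K] [Algebra k K] (t x y : K) (A B : k[X]), W1 k K t x y A B →
  (∀ u : K, ∃ h : ℕ, t ^ h * u ∈ VG k t x y) ∧ ∀ (p : k[X]) (x' y' : K), t⁻¹ ^ p.natDegree * aeval t p ∈ VG k t⁻¹ x' y'

/-- **UFZ1** (100), uses UNQ1. `B_UFZ.lean`. -/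
def Stmt_UFZ1 : Prop := ∀ (k K : Type) [Field k] [Field K] [Algebra k K] (t x y : K) (A B : k[X]), W1 k K t x y A B →
  (∀ u : K, ∃ Z : Finset k, ∀ c ∉ Z, u ∈ VG k (t - algebraMap k K c) x y) ∧
  (∀ (q : P2 k) (c : k), ev t x q ∈ VG k (t - algebraMap k K c) x y) ∧
  ∀ (N : ℕ) (u : Fin N → K), ∃ q : P2 k, q ≠ 0 ∧ ∀ s, ∃ Q S : P2 k, ev t x q * u s = rr t x y Q S

/-- **TRL1** (100). `B_TRL.lean`. -/
def Stmt_TRL1 : Prop := ∀ (k K : Type) [Field k] [Field K] [Algebra k K] (t x y : K) (A B : k[X]), W1 k K t x y A B → ∀ c : k,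
  W1 k K (t - algebraMap k K c) x y (A.comp (X + C c)) (B.comp (X + C c)) ∧
  (∀ D0 D2 : Derivation k K K, D0D t x y D0 D2 → D0D (t - algebraMap k K c) x y D0 D2) ∧
  ∀ Q S : P2 k, ∃ Q' S' : P2 k, rr (t - algebraMap k K c) x y Q' S' = rr t x y Q S ∧ (lam Q' S').natDegree = (lam Q S).natDegree ∧
    (lam Q' S').leadingCoeff = (lam Q S).leadingCoeff.comp (X + C c) ∧ (lam Q S ≠ 0 → lam Q' S' ≠ 0)

/-- **INV1** (200), uses UNQ1. As `B_INV.lean` (`gen`, `ind`, `rel` for the reflected polynomials). The derivations: `D0' = -(t²) D0 - 2 d t (x/y) D2` has `D0' t⁻¹ = 1` and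
`D0' (x / t^(2d)) = 2 d x t^(1-2d) - 2 d t (x/y) y / t^(2d) = 0`; `D2' = (t^d)⁻¹ D2` has `D2' t⁻¹ = 0`, `D2' (x / t^(2d)) = y / t^(3d)`. -/
def Stmt_INV1 : Prop := ∀ (k K : Type) [Field k] [CharZero k] [Field K] [Algebra k K] (t x y : K) (A B : k[X]), W1 k K t x y A B →
  ∀ d : ℕ, A.natDegree ≤ 4 * d → B.natDegree ≤ 6 * d →
  W1 k K t⁻¹ (x / t ^ (2 * d)) (y / t ^ (3 * d)) (reflect (4 * d) A) (reflect (6 * d) B) ∧
  ∀ D0 D2 : Derivation k K K, D0D t x y D0 D2 → D0D t⁻¹ (x / t ^ (2 * d)) (y / t ^ (3 * d))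
    (-(t ^ 2) • D0 + (-(2 * d * t * (x / y))) • D2) ((t ^ d)⁻¹ • D2)

/-- **VO1** (300), uses UNQ1 DYF1 LMM. `B_VOO.lean`; new is only `D0` in (3): `2 W D0 (rr Q S) = rr (2 W Q_T) (2 W S_T + S (A' X + B'))` (`Q_T` the derivative of the coefficients, `D0 y = (A' x + B') y / (2 W)`), `lam` of degree at most
`6 + M`, and `W` has `lam` of degree `6`. -/
def Stmt_VO1 : Prop := ∀ (k K : Type) [Field k] [CharZero k] [Field K] [Algebra k K] (t x y : K) (A B : k[X]), W1 k K t x y A B →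
  (∃ V : ValuationSubring K, (V : Set K) = VO k t x y) ∧
  (∀ p : k[X], p ≠ 0 → aeval t p ∈ VO k t x y ∧ (aeval t p)⁻¹ ∈ VO k t x y) ∧
  (∀ D0 D2 : Derivation k K K, D0D t x y D0 D2 → ∀ z ∈ VO k t x y, D0 z ∈ VO k t x y ∧ D2 z ∈ VO k t x y) ∧
  (∀ (Q S : P2 k) (e : ℕ), ∀ z ∈ VO k t x y, rr t x y Q S = x ^ e * z → (lam Q S).natDegree ≤ 2 * e) ∧
  ∀ z : K, ∃ e : ℕ, ∃ w ∈ VO k t x y, z = x ^ e * w

/-- **VOZ** (120), uses UNQ1 LMM VO1. The order at `O`: `z = x/y` is a uniformiser and `rr Q S` has order `-natDegree (lam Q S)`. (`z^M rr Q S y^M = x^M rr Q S`: the `lam` of the pair of `x^M rr Q S` and of the pair of `y^M` (the pair `(W^(M/2), 0)` or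
`(0, W^((M-1)/2))`) both have degree `3 M`.) `z⁻¹` is not in `VO`: `z⁻¹ x = y`. -/
def Stmt_VOZ : Prop := ∀ (k K : Type) [Field k] [CharZero k] [Field K] [Algebra k K] (t x y : K) (A B : k[X]), W1 k K t x y A B →
  x / y ∈ VO k t x y ∧ (x / y)⁻¹ ∉ VO k t x y ∧
  ∀ Q S : P2 k, lam Q S ≠ 0 → (x / y) ^ (lam Q S).natDegree * rr t x y Q S ∈ VO k t x y ∧
    ((x / y) ^ (lam Q S).natDegree * rr t x y Q S)⁻¹ ∈ VO k t x y

/-- **RIC1** (200), uses UNQ1. `B_RIC.lean`. -/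
def Stmt_RIC1 : Prop := ∀ (k K : Type) [Field k] [CharZero k] [Field K] [Algebra k K] (t x y : K) (A B : k[X]),
  W1 k K t x y A B → 4 * A ^ 3 + 27 * B ^ 2 ≠ 0 →
  ∃ R : Subring K, (R : Set K) = RI k t x y ∧ ∀ z : K, IsIntegral R z → z ∈ R

/-- **INC1** (60), uses UNQ1 RIC1. `B_INC.lean`. -/
def Stmt_INC1 : Prop := ∀ (k K : Type) [Field k] [CharZero k] [Field K] [Algebra k K] (t x y : K) (A B : k[X]),
  W1 k K t x y A B → 4 * A ^ 3 + 27 * B ^ 2 ≠ 0 → ∀ z : K,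
  (∀ V : ValuationSubring K, (∀ c : k, algebraMap k K c ∈ V) → t ∈ V → x ∈ V → y ∈ V →
    (∀ p : k[X], p ≠ 0 → (aeval t p)⁻¹ ∈ V) → z ∈ V) → z ∈ RI k t x y

/-- **DVP1** (200), uses UNQ1 RIC1. `B_DVP.lean`. -/
def Stmt_DVP1 : Prop := ∀ (k K : Type) [Field k] [CharZero k] [Field K] [Algebra k K] (t x y : K) (A B : k[X]),
  W1 k K t x y A B → 4 * A ^ 3 + 27 * B ^ 2 ≠ 0 → ∀ V : ValuationSubring K, (∀ c : k, algebraMap k K c ∈ V) → t ∈ V → x ∈ V →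
  y ∈ V → (∀ p : k[X], p ≠ 0 → (aeval t p)⁻¹ ∈ V) → ∀ D : Derivation k K K, D t ∈ V → D x ∈ V → D y ∈ V → ∀ z ∈ V, D z ∈ V

/-- **ACO1** (200), uses UNQ1 VVA1 VO1 TRL1 INV1 UHO1 UFZ1. `B_ACO.lean`. -/
def Stmt_ACO1 : Prop := ∀ (k K : Type) [Field k] [CharZero k] [Field K] [Algebra k K] (t x y : K) (A B : k[X]),
  W1 k K t x y A B → ∀ d : ℕ, A.natDegree ≤ 4 * d → B.natDegree ≤ 6 * d → ∀ (N : ℕ) (u : Fin N → K),
  ∃ (H : K) (h0 e0 h1 : ℕ) (Z : Finset k), CD k K t x y u d H h0 e0 h1 Z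

/-! ## Part B: the section in the frame `D0`, `D2` -/

/-- The section `pol i Ψ` with the numerators `g(t) y^a H^j Ψ_a = Q_a(t, x) + S_a(t, x) y`. -/
structure NN (k K : Type) [Field k] [Field K] [Algebra k K] (t x y : K) (D0 D2 : Derivation k K K) {N : ℕ} (u : Fin N → K) (H : K)
    (i j : ℕ) (Ψ : ℕ → K) (g : k[X]) (Q S : ℕ → P2 k) : Prop where
  sec : ∀ V : ValuationSubring K, (∀ c : k, algebraMap k K c ∈ V) → InT D0 D2 (V : Set K) u i j (pol i Ψ)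
  g0 : g ≠ 0
  num : ∀ a ≤ i, rr t x y (Q a) (S a) = aeval t g * (y ^ a * H ^ j * Ψ a)

/-- **AGN** (250), uses UNQ1 DYF1 POL LAT VO1 VOZ INC1 DVP1. Model `B_AGD.lean`. (1) `Φ = pol i Ψ` (`V = ⊤`, LAT (3), (1), POL (4)). (2) For `V` as in INC1 the derivations `y • D0` (`t ↦ y`, `x ↦ 0`, `y ↦ (A' x + B')/2` by DYF1) and `D2` preserve `V` (DVP1). LAT (4) with `α1 = y`, `α2 = 1`,
LAT (3) with `w = 1`, `H` (`CD.HV`), LAT (2): `H^j y^a Ψ_a ∈ V`; INC1; common denominator `g`. (3) `V = VO`: `D0`, `D2` preserve `VO`; LAT (3) with `H := x⁻¹^e0`, LAT (2): `(x⁻¹^e0)^j Ψ_a ∈ VO`, and `(x⁻¹^e0 H)^j ∈ VO`; `x (x/y)²` is in `VO` (VOZ for the pair `(X, 0)`), so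
`(x/y)^(4 e0 j) H^j Ψ_a ∈ VO`. -/
def Stmt_AGN : Prop := ∀ (k K : Type) [Field k] [CharZero k] [Field K] [Algebra k K] (t x y : K) (A B : k[X]),
  W1 k K t x y A B → 4 * A ^ 3 + 27 * B ^ 2 ≠ 0 → ∀ D0 D2 : Derivation k K K, D0D t x y D0 D2 →
  ∀ (N : ℕ) (u : Fin N → K) (d : ℕ) (H : K) (h0 e0 h1 : ℕ) (Z : Finset k), CD k K t x y u d H h0 e0 h1 Z →
  ∀ (i j : ℕ) (Φ : MvPolynomial (Fin 2) K), Φ ≠ 0 →
  (∀ V : ValuationSubring K, (∀ c : k, algebraMap k K c ∈ V) → InT D0 D2 (V : Set K) u i j Φ) →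
  ∃ (Ψ : ℕ → K) (g : k[X]) (Q S : ℕ → P2 k), Φ = pol i Ψ ∧ NN k K t x y D0 D2 u H i j Ψ g Q S ∧
    (∀ a ≤ i, (x / y) ^ (j * (4 * e0)) * (H ^ j * Ψ a) ∈ VO k t x y) ∧ ∃ a ≤ i, Ψ a ≠ 0

/-- **NFP** (200), uses POL VVA1 VCM1 VD0 LAT TRL1 UFZ1. Model `B_AFP.lean` and `B_LGD.lean`. The place `t = c`, `t' = t - c`, `V = VG k t' x y` (VVA1 for the datum of TRL1); `D0`, `D2` preserve `V` (VD0); `y ∈ V`. `g = (X - C c)^e g1`, `w = g1(t) y^a H^j ∈ V`. LAT (3) with `1` and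
`Hh = t'^h` (`h = h0`; `h = 0` for `c ∉ Z`), LAT (2): `t'^(h j) Ψ_a ∈ V`. So `t'^(j h) rr Q_a S_a = t'^e (w t'^(h j) Ψ_a)`, VCM1 for the pair of TRL1 times `T^(j h)`: `X^e` divides `X^(j h) * l.comp (X + C c)`, `l` the leading coefficient of `lam (Q a) (S a)`. -/
def Stmt_NFP : Prop := ∀ (k K : Type) [Field k] [CharZero k] [Field K] [Algebra k K] (t x y : K) (A B : k[X]),
  W1 k K t x y A B → ∀ D0 D2 : Derivation k K K, D0D t x y D0 D2 →
  ∀ (N : ℕ) (u : Fin N → K) (d : ℕ) (H : K) (h0 e0 h1 : ℕ) (Z : Finset k), CD k K t x y u d H h0 e0 h1 Z →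
  ∀ (i j : ℕ) (Ψ : ℕ → K) (g : k[X]) (Q S : ℕ → P2 k), NN k K t x y D0 D2 u H i j Ψ g Q S →
  ∀ a ≤ i, lam (Q a) (S a) ≠ 0 →
  (∀ c ∉ Z, g.rootMultiplicity c ≤ (lam (Q a) (S a)).leadingCoeff.rootMultiplicity c) ∧
  ∀ c : k, g.rootMultiplicity c ≤ (lam (Q a) (S a)).leadingCoeff.rootMultiplicity c + j * h0

/-- **NIN** (300), uses UNQ1 POL VVA1 VCM1 VD0 LAT INV1 INP UHO1. The place `t = ∞`. Write `s = t⁻¹`, `x' = x/t^(2d)`, `y' = y/t^(3d)`, `V = VG k s x' y'` (VVA1 for the datum of INV1), `D0'`, `D2'` as in INV1; they preserve `V` (VD0). The substitution `σ : X0 ↦ -(t²) X0 - 2 d t (x/y) X1 ...` precisely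
`σ = aeval ![C (-(t²)) X0 , C ((t^d)⁻¹) X1 + C (-(2 d t (x/y))) X0]` maps `lf D0 D2 a` to `lf D0' D2' a`, so `Φ' = σ Φ`, `Φ = pol i Ψ`, satisfies `InT D0' D2' V`. LAT (3) with `w = (s^h1 H)^j ∈ V` (`CD.Hi`) and `s^h1` (`CD.ui`), LAT (2): `κ Φ'` has coefficients in `V`, `κ = s^(2 h1 j) H^j`. Inverse substitution:
`X0 ↦ -s² X0`, `X1 ↦ s^(-d) X1 - 2 d s ρ' X0` with `ρ' = x'/y' ∈ V` (`2 d (x/y) / t * t^d = 2 d s ρ'`). So `κ Ψ_a`, the coefficient of `X0^a X1^e`, `e = i - a`, is a sum over `e' ≥ e` of elements of `s^(2 (i - e') - d e + (e' - e)) V`; all exponents are `≥ i - (d+1) e`: `s^((d+1) e) κ Ψ_a ∈ s^i V`. With `y = y' s^(-3d)` and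
`s^(deg g) g(t) ∈ V` (UHO1 (2)): `s^(E0) rr Q_a S_a ∈ s^i V`, `E0 = (d+1) e + 2 h1 j + 3 d a + deg g`. For large `N` (INP) `rr' Q' S' = s^N rr Q_a S_a ∈ s^(N - E0 + i) V`; VCM1: `T^(N - E0 + i)` divides `Q'`, `S'`, so `X^(N-E0+i)` the leading coefficient, INP: `N - E0 + i + d m + deg l ≤ N`. -/
def Stmt_NIN : Prop := ∀ (k K : Type) [Field k] [CharZero k] [Field K] [Algebra k K] (t x y : K) (A B : k[X]),
  W1 k K t x y A B → ∀ D0 D2 : Derivation k K K, D0D t x y D0 D2 → ∀ d : ℕ, A.natDegree ≤ 4 * d → B.natDegree ≤ 6 * d →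
  ∀ (N : ℕ) (u : Fin N → K) (H : K) (h0 e0 h1 : ℕ) (Z : Finset k), CD k K t x y u d H h0 e0 h1 Z →
  ∀ (i j : ℕ) (Ψ : ℕ → K) (g : k[X]) (Q S : ℕ → P2 k), NN k K t x y D0 D2 u H i j Ψ g Q S →
  ∀ a ≤ i, lam (Q a) (S a) ≠ 0 →
  i + d * (lam (Q a) (S a)).natDegree + (lam (Q a) (S a)).leadingCoeff.natDegree ≤
    g.natDegree + j * (2 * h1) + (d + 1) * (i - a) + 3 * d * a

/-- **NAR** (80). `k` algebraically closed: the degree is the sum of the root multiplicities (see `B_ARI.lean`). -/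
def Stmt_NAR : Prop := ∀ (k : Type) [Field k] [IsAlgClosed k] (l g : k[X]) (Z : Finset k) (h : ℕ), l ≠ 0 → g ≠ 0 →
  (∀ c ∉ Z, g.rootMultiplicity c ≤ l.rootMultiplicity c) → (∀ c : k, g.rootMultiplicity c ≤ l.rootMultiplicity c + h) →
  g.natDegree ≤ l.natDegree + Z.card * h

/-- **RFR** (200), uses UNQ1 DYF1 POL LAT INC1 DVP1. The frame `D1 = D0 + (p/y) • D2`, `p = pp t x A B`: `D1 t = 1`, `D1 x = p`, `D1 y = (3/2) ((Δ'/6 + 3 κ x)/Δ) y` (DYF1 and the polynomial identity `W_x p + A' x + B' = 2 W h`, `h = (3/2)(p1 + p2 x)`, which follows from `A' Δ = 9 B κ + A Δ'/3` and `B' Δ = B Δ'/2 - 2 A² κ`). So `D1`, `D2` preserve every `V` as in INC1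
(DVP1). The substitution `X0 ↦ X0`, `X1 ↦ X1 + C (p/y) X0` maps `lf D0 D2 a` to `lf D1 D2 a`; LAT (3) with `w = 1`, `H` (`CD.HV`), LAT (2): the coefficients of `H^j pol i Ψ` at `(X0, X1 + (p/y) X0)` are in `V`. Put `X0 = 1`. INC1. -/
def Stmt_RFR : Prop := ∀ (k K : Type) [Field k] [CharZero k] [Field K] [Algebra k K] (t x y : K) (A B : k[X]),
  W1 k K t x y A B → 4 * A ^ 3 + 27 * B ^ 2 ≠ 0 → ∀ D0 D2 : Derivation k K K, D0D t x y D0 D2 →
  ∀ (N : ℕ) (u : Fin N → K) (d : ℕ) (H : K) (h0 e0 h1 : ℕ) (Z : Finset k), CD k K t x y u d H h0 e0 h1 Z →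
  ∀ (i j : ℕ) (Ψ : ℕ → K) (g : k[X]) (Q S : ℕ → P2 k), NN k K t x y D0 D2 u H i j Ψ g Q S →
  ∀ e : ℕ, ((∑ a ∈ Finset.range (i + 1), C (H ^ j * Ψ a) * X ^ (i - a) : K[X]).comp (X + C (pp t x A B / y))).coeff e ∈ RI k t x y

/-! ## Part C: the zero estimate -/

/-- **SYV** (200). Sylvester determinant. With `P`, `P'` of formal degree `n` and coefficients `P_e ∈ V` with `z^e P_e ∈ z^T1 V` (so `P_e ∈ z^(T1-e) V` for `e ≤ T1`), the same for `P'` and `T2`. Every term of the permutation expansion of the determinant of `sylvester P P' n n` is a product of `2n` entries; an entry in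
the column (or row, look at the definition) of the exponent `c` and the shift `r` is `P_(c-r)` or `P'_(c-r)`. Take the `T1 + T2` exponents `c < T1 + T2`; with `n1` of them matched to shifts of `P`, `n2` to shifts of `P'`, `n1 + n2 = T1 + T2`, distinct shifts: the product is in `z^E V`,
`E ≥ n1 T1 + n2 T2 - ∑_(c < T1+T2) c + n1 (n1 - 1)/2 + n2 (n2 - 1)/2 = T1 T2 + (n1 - T2)²`. The other entries are in `V`. -/
def Stmt_SYV : Prop := ∀ (K : Type) [Field K] (V : ValuationSubring K) (z : K), z ∈ V → z ≠ 0 → ∀ (n T1 T2 : ℕ), T1 + T2 ≤ 2 * n →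
  ∀ P P' : K[X], (∀ e, P.coeff e ∈ V ∧ ∃ v ∈ V, z ^ e * P.coeff e = z ^ T1 * v) →
  (∀ e, P'.coeff e ∈ V ∧ ∃ v ∈ V, z ^ e * P'.coeff e = z ^ T2 * v) → ∃ v ∈ V, resultant P P' n n = z ^ (T1 * T2) * v

/-- **CHC** (150). `P2 = ∑_(l ≤ L) c^l hasseDeriv l P`. For an irreducible `N` with `N^e ∣ P`, `N^(e+1) ∤ P` (`1 ≤ e ≤ L`): `P = N^e h`, `hasseDeriv e P ≡ (N')^e h` modulo `N` is not divisible by `N` (`char 0`, `N` separable). So `∑_l c^l (hasseDeriv l P mod N)` is a nonzero polynomial in `c` over the field `K[X]/N`, zero for only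
finitely many `c`. `P` has finitely many irreducible factors up to units; `k` is infinite. Then `P`, `P2` have no common irreducible factor. The leading term of `P2` is the one of `P`. -/
def Stmt_CHC : Prop := ∀ (k K : Type) [Field k] [CharZero k] [Field K] [Algebra k K] (P : K[X]) (L : ℕ), P ≠ 0 →
  (∀ (N : K[X]) (e : ℕ), N.Monic → Irreducible N → N ^ e ∣ P → e ≤ L) →
  ∃ c : k, IsCoprime P (∑ l ∈ Finset.range (L + 1), C (algebraMap k K c ^ l) * hasseDeriv l P) ∧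
    (∑ l ∈ Finset.range (L + 1), C (algebraMap k K c ^ l) * hasseDeriv l P).natDegree = P.natDegree

/-- **NRM** (200), uses UNQ1. Norm. `n = Q² - S² W` has degree in `X` at most `M` (`2 deg Q ≤ M`, `2 deg S + 3 ≤ M` if `S ≠ 0`: `natDegree (lam Q S) ≤ M`), not zero, and `ev n = rr Q S * rr Q (-S) ∈ a^e V`. Let `F(x) ⊆ K` be the fractions of `ev`. `V ∩ F(x)` is a valuation ring containing `F[x]`, `F = k(t)`; `a` is
quadratic over `F(x)`: in `c0 + c1 a + c2 a² = 0` two terms have the same value, so `v(a²) = v(b)` for some `b ∈ F(x)` (`v(a) = v(b)` gives `v(a²) = v(b²)`), `b` not a unit of `V`. So `V ∩ F(x)` is the localisation of `F[x]` at a prime `π` (a polynomial over `F`), `b ∈ π V`, `a² ∈ π V`. `(ev n)² ∈ a^(2e) V ⊆ π^e V`, so `π^e` divides `n²` in `F[x]`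
(`π^e` and denominators prime to `π`), `e ≤ 2 deg n ≤ 2 M`. (Or with `k(t)[x]` as a principal ideal domain and `multiplicity`; or `e ≤ dim R/(g)`.) -/
def Stmt_NRM : Prop := ∀ (k K : Type) [Field k] [CharZero k] [Field K] [Algebra k K] (t x y : K) (A B : k[X]),
  W1 k K t x y A B → ∀ V : ValuationSubring K, (∀ c : k, algebraMap k K c ∈ V) → t ∈ V → x ∈ V → y ∈ V →
  (∀ p : k[X], p ≠ 0 → (aeval t p)⁻¹ ∈ V) → ∀ (a : K), a ∈ V → a⁻¹ ∉ V → a ≠ 0 → ∀ (Q S : P2 k) (M e : ℕ), lam Q S ≠ 0 →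
  (lam Q S).natDegree ≤ M → (∃ v ∈ V, rr t x y Q S = a ^ e * v) → e ≤ 2 * M

/-- **NSP** (150), uses UNQ1 VO1 VOZ. No splitting. `n = natDegree N`, `c = p/y`: the coefficient of `N.comp (X + C c)` at `n - 1` is `N_(n-1) + n c`. If it is in `R` and `N_(n-1) ∈ VO`: `z = x/y`, `z c = x p / y²` is a unit of `VO`: `= (3 κ(t) (x³/y²) + ...)/Δ(t)` where `x³/y²` is a unit with `x³/y² - 1 ∈ z VO` and the other terms are in `z VO`, `κ ≠ 0`. So
`r = N_(n-1) + n c` has order `-1` at `O`; but `g(t) r = rr Q S` has order `-natDegree (lam Q S)` (VOZ) and `natDegree (lam Q S) = 1` is impossible (`lam Q S = Q(Z²) + Z³ S(Z²)`). -/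
def Stmt_NSP : Prop := ∀ (k K : Type) [Field k] [CharZero k] [Field K] [Algebra k K] (t x y : K) (A B : k[X]),
  W1 k K t x y A B → 4 * A ^ 3 + 27 * B ^ 2 ≠ 0 → kap A B ≠ 0 → ∀ N : K[X], N.Monic → 1 ≤ N.natDegree →
  ¬ ((∀ e, (N.comp (X + C (pp t x A B / y))).coeff e ∈ RI k t x y) ∧ ∀ e, N.coeff e ∈ VO k t x y)

/-- **PWB** (300), uses UNQ1 VO1 VOZ RIC1 INC1 NRM NSP. Bound of the powers. `g` = leading coefficient of `P`, `P = g N^e h`, `h` monic. `g ∈ R` (top coefficient of `P.comp (X + C c)`), `g0(t) g = rr Q S`, and `z^J g ∈ VO` gives `natDegree (lam Q S) ≤ J` (VOZ; `z⁻¹ ∉ VO`). Gauss lemma for a valuation ring `V` and `z^J' P ∈ V[X]`, `N` not in `V[X]`: there is `a ∈ V` with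
`a N` primitive (in `V[X]` with a unit coefficient: divide by the coefficient of largest value), `a` not a unit (`N` monic, not in `V[X]`), and `b ∈ V` with `b h` primitive; `(a N)^e (b h)` is primitive (its image in the polynomial ring over the residue field is not zero), so `z^J' g = a^e (v b)`, `v ∈ V`. By NSP `N` is not in `VO[X]` or
`N.comp` not in `R[X]`. First case: `V = VO`, `J' = J`: `z^J g ∈ a^e VO ⊆ z^e VO` (`a` not a unit, so `a ∈ z VO`), and `z^(J - M) (z^M g)` with a unit in the bracket, `M = natDegree (lam Q S)`: `e ≤ J - M ≤ J`. Second case: a coefficient of `N.comp` is not in some `V` of INC1; `J' = 0` and `P.comp`, `N.comp`, `h.comp`: `g ∈ a^e V`, NRM: `e ≤ 2 J`. -/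
def Stmt_PWB : Prop := ∀ (k K : Type) [Field k] [CharZero k] [Field K] [Algebra k K] (t x y : K) (A B : k[X]),
  W1 k K t x y A B → 4 * A ^ 3 + 27 * B ^ 2 ≠ 0 → kap A B ≠ 0 → ∀ (P : K[X]) (J : ℕ), P ≠ 0 →
  (∀ e, (x / y) ^ J * P.coeff e ∈ VO k t x y) → (∀ e, (P.comp (X + C (pp t x A B / y))).coeff e ∈ RI k t x y) →
  ∀ (N : K[X]) (e : ℕ), N.Monic → 1 ≤ N.natDegree → N ^ e ∣ P → e ≤ 2 * J

/-- **ZES** (200), uses UNQ1 VO1 VOZ RIC1 SYV CHC PWB. `n = natDegree P`, `z = x/y`. If `T ≤ J` nothing to show. `T ≤ n`: the leading coefficient `g ≠ 0` is in `R`, of order `-M ≤ 0` at `O` (VOZ), and `z^n g ∈ z^T VO`. `L = 2 J`, `c`, `P2` from CHC (PWB). `z^J P`, `z^J P2` satisfy the hypotheses of SYV with `T1 = T + J`, `T2 = T - J` (`(P2)_e = ∑_l c^l choose(e + l, l) P_(e+l)`,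
`z^e z^J P_(e+l) = z^(J - l) z^(e+l) P_(e+l)`, `l ≤ 2 J`), `T1 + T2 = 2 T ≤ 2 n`. So `z^(2 n J) Res = z^(T1 T2) v`, `Res = resultant P P2 n n` (`resultant_C_mul_left`, `resultant_C_mul_right`). `Res ≠ 0` (`resultant_ne_zero`). `Res ∈ R`: `Polynomial.resultant_taylor` (`comp (X + C c)` is `taylor c`) and `R` is a ring containing `k`. So
`Res` has order `≤ 0` at `O`: `T1 T2 ≤ 2 n J`. -/
def Stmt_ZES : Prop := ∀ (k K : Type) [Field k] [CharZero k] [Field K] [Algebra k K] (t x y : K) (A B : k[X]),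
  W1 k K t x y A B → 4 * A ^ 3 + 27 * B ^ 2 ≠ 0 → kap A B ≠ 0 → ∀ (P : K[X]) (J T : ℕ), P ≠ 0 →
  (∀ e, (x / y) ^ J * P.coeff e ∈ VO k t x y) → (∀ e, ∃ v ∈ VO k t x y, (x / y) ^ e * P.coeff e = (x / y) ^ T * v) →
  (∀ e, (P.comp (X + C (pp t x A B / y))).coeff e ∈ RI k t x y) → T * T ≤ J * J + 2 * P.natDegree * J

/-! ## Part D -/

/-- **NMN**, uses VO1 VOZ ACO1 AGN NFP NIN NAR RFR ZES. (helper72) -/
def Stmt_NMN : Prop := ∀ (k K : Type) [Field k] [CharZero k] [IsAlgClosed k] [Field K] [Algebra k K] (t x y : K) (A B : k[X]),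
  W1 k K t x y A B → 4 * A ^ 3 + 27 * B ^ 2 ≠ 0 → kap A B ≠ 0 →
  ∀ D0 D2 : Derivation k K K, D0D t x y D0 D2 → ∀ (N : ℕ) (u : Fin N → K), ∃ C : ℕ, ∀ i j : ℕ, C * j < i →
  ∀ Φ : MvPolynomial (Fin 2) K,
    (∀ V : ValuationSubring K, (∀ c : k, algebraMap k K c ∈ V) → InT D0 D2 (V : Set K) u i j Φ) → Φ = 0

/-- **KAP** (100). `A = 0`: `α = 0`. `B = 0`: `α = 1/4`. Otherwise `3 A' B = 2 A B'` gives `(A³)' B² = A³ (B²)'`, so `A³ = c B²` (char 0: divide by the greatest common divisor, or compare with leading coefficients: `G = A³ - c B²` with `c` such that the degree drops also satisfies `G' B² = G (B²)'`, and `deg G < deg B²` or so forces `G = 0`), `c ≠ 0`, and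
`Δ = (4 + 27/c) A³ ≠ 0`. -/
def Stmt_KAP : Prop := ∀ (k : Type) [Field k] [CharZero k] (A B : k[X]), 4 * A ^ 3 + 27 * B ^ 2 ≠ 0 → kap A B = 0 →
  ∃ α : k, A ^ 3 = C α * (4 * A ^ 3 + 27 * B ^ 2)

/-- **GLJ** (150), uses GLD. `E = 4 A³ + 27 B²`. Evaluate at `0` and `1`: `A(α)³ = a' E(α)`, `A(α+β)³ = a' E(α+β)`, so `A(α)³ E(α+β) = A(α+β)³ E(α)`, and by AI `A(T)³ E(T+U) = A(T+U)³ E(T)` in `k[T, U]`. Put `T = τ ∈ k^m` with `E(τ) ≠ 0` (`k` is infinite): `A(τ)³ E(τ+U) = E(τ) A(τ+U)³`; translate: `A³ = (A(τ)³/E(τ)) E`. -/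
def Stmt_GLJ : Prop := ∀ (k k' : Type) [Field k] [CharZero k] [Field k'] [Algebra k k'] (m : ℕ) (α β : Fin m → k'), AI k α β →
  ∀ A B : MvPolynomial (Fin m) k, 4 * A ^ 3 + 27 * B ^ 2 ≠ 0 →
  (∃ a' : k', (lin k α β A) ^ 3 = C a' * (4 * (lin k α β A) ^ 3 + 27 * (lin k α β B) ^ 2)) →
  ∃ a : k, A ^ 3 = MvPolynomial.C a * (4 * A ^ 3 + 27 * B ^ 2)

/-- **MIN** (80). `p^12` divides `A³ = a E` and `27 B² = (1 - 4a) E`; `k[T]` is a unique factorisation domain, `p` prime: `12 ≤ 3 v_p(A)`, `12 ≤ 2 v_p(B)` (`emultiplicity`, or `A = 0`, `B = 0`). -/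
def Stmt_MIN : Prop := ∀ (k : Type) [Field k] [CharZero k] (m : ℕ) (A B : MvPolynomial (Fin m) k) (a : k),
  A ^ 3 = MvPolynomial.C a * (4 * A ^ 3 + 27 * B ^ 2) → ∀ p : MvPolynomial (Fin m) k, Irreducible p →
  p ^ 12 ∣ 4 * A ^ 3 + 27 * B ^ 2 → p ^ 4 ∣ A ∧ p ^ 6 ∣ B

end Pool.IE
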