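import Mathlib

/-!
# THEOREM IE (MP_bf99ce_ag): the definitions of the final statement

Isotrivial elliptic surfaces over the projective line with a section, and global sections of the twisted symmetric powers
`S^i Ω_X ⊗ U^j` read in the function field.
-/

set_option autoImplicit false

open AlgebraicGeometry CategoryTheory Polynomial

noncomputable section

namespace Pool.IES

/-- The value `P(t, x)` of a polynomial `P` in `k[T][X]` (`X` is the outer variable). -/
def val {k K : Type} [Field k] [Field K] [Algebra k K] (t x : K) (P : Polynomial (Polynomial k)) : K :=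
  eval₂ ((aeval t : k[X] →ₐ[k] K) : k[X] →+* K) x P

/-- `K` is the function field of the elliptic curve `y² = x³ + A(t) x + B(t)` over the rational function field `k(t)`: `t`, `x` are
algebraically independent over `k` and `K = k(t, x) + k(t, x) y`. The `j`-invariant is constant, the discriminant
`Δ = 4 A³ + 27 B²` is not constant, and the Weierstrass equation is minimal at every finite place (all zeros of `Δ` have
multiplicity `< 12`). -/
structure Isotrivial (k K : Type) [Field k] [Field K] [Algebra k K] (t x y : K) (A B : k[X]) : Prop where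
  rel : y ^ 2 = x ^ 3 + aeval t A * x + aeval t B
  ind : ∀ P : Polynomial (Polynomial k), val t x P = 0 → P = 0
  gen : ∀ z : K, ∃ P Q S : Polynomial (Polynomial k), P ≠ 0 ∧ z * val t x P = val t x Q + val t x S * y
  jinv : ∃ α : k, A ^ 3 = C α * (4 * A ^ 3 + 27 * B ^ 2)
  disc : 1 ≤ (4 * A ^ 3 + 27 * B ^ 2).natDegree
  mini : ∀ c : k, (4 * A ^ 3 + 27 * B ^ 2).rootMultiplicity c < 12

/-- `R` is a ring with a homomorphism `φ` to the extension field `K` of `k` (in use: a local ring of a scheme with function field
`K`). `Reg` says that `τ` is a sum of terms `c u_1 … u_j (da_1) … (da_i)` with `c` and all `a_l` in the image of `R` and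
`u_1, …, u_j` members of the family `u`. In other words `τ` is in the image of `S^i Ω_{R/k} ⊗ U^j` in `S^i Ω_{K/k}`, where `U` is
the `R`-submodule of `K` spanned by the family `u`. -/
structure Reg (k K R : Type) [Field k] [Field K] [Algebra k K] [CommRing R] (φ : R →+* K) {N : ℕ} (u : Fin N → K) (i j : ℕ)
    (τ : SymmetricAlgebra K (Ω[K⁄k])) : Prop where
  reg : ∃ (n : ℕ) (c : Fin n → R) (e : Fin n → Fin j → Fin N) (a : Fin n → Fin i → R),
    τ = ∑ m, (φ (c m) * ∏ l, u (e m l)) •
      ∏ l, SymmetricAlgebra.ι K (Ω[K⁄k]) (KaehlerDifferential.D k K (φ (a m l)))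

/-- Some nonzero `τ` satisfies `Reg` for all the rings `R x`, `x : P`. -/
structure HasSec (k K P : Type) [Field k] [Field K] [Algebra k K] (R : P → Type) [∀ x, CommRing (R x)]
    (φ : ∀ x, R x →+* K) {N : ℕ} (u : Fin N → K) (i j : ℕ) : Prop where
  ex : ∃ τ : SymmetricAlgebra K (Ω[K⁄k]), τ ≠ 0 ∧ ∀ x, Reg k K (R x) (φ x) u i j τ

/-- The homomorphism from `k` to the function field of the integral `k`-scheme `s : X ⟶ Spec k`. -/
def str {k : Type} [Field k] {X : Scheme.{0}} (s : X ⟶ Spec (CommRingCat.of k)) [IsIntegral X] : k →+* X.functionField :=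
  ((Scheme.ΓSpecIso (CommRingCat.of k)).inv ≫ s.appTop ≫ X.presheaf.germ ⊤ (genericPoint X) trivial).hom

/-- The function field of `X` is the function field of the isotrivial elliptic curve `y² = x³ + A(t) x + B(t)` over `k(t)`. -/
def IsotrivialElliptic {k : Type} [Field k] {X : Scheme.{0}} (s : X ⟶ Spec (CommRingCat.of k)) [IsIntegral X]
    (t x y : X.functionField) (A B : k[X]) : Prop :=
  @Isotrivial k X.functionField _ _ (str s).toAlgebra t x y A B

/-- `S^i Ω_X ⊗ U^j` has a nonzero section over `X`, `U` the subsheaf of the constant sheaf `K` generated over the structure sheaf by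
the family `u` of rational functions: there is a nonzero `τ` in `S^i Ω_{K/k}`, `K` the function field of `X`, which is in the image
of `S^i Ω_{R/k} ⊗ U^j` for the local ring `R` at every point of `X`. -/
def HasSection {k : Type} [Field k] {X : Scheme.{0}} (s : X ⟶ Spec (CommRingCat.of k)) [IsIntegral X] {N : ℕ}
    (u : Fin N → X.functionField) (i j : ℕ) : Prop :=
  @HasSec k X.functionField X _ _ (str s).toAlgebra (fun x => X.presheaf.stalk x) (fun _ => inferInstance)
    (fun x => algebraMap (X.presheaf.stalk x) X.functionField) N u i j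

end Pool.IES
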