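import Pool.Agent.Work.MP_bf99ce_ie.Interface2
import Pool.Agent.Work.MP_bf99ce_ie.Stat

/-!
# THEOREM IE (MP_bf99ce_ag): the assembly of the final statement
-/

set_option autoImplicit false

open AlgebraicGeometry CategoryTheory Polynomial

namespace Pool.IE

/-- The minimal Weierstrass equation of an isotrivial curve is flat with respect to its discriminant and `r = 12`. -/
theorem SK_wd {k K : Type} [Field k] [CharZero k] [Field K] [Algebra k K] {t x y : K} {A B : k[X]}
    (h : Pool.IES.Isotrivial k K t x y A B) : WD k K t x y A B (4 * A ^ 3 + 27 * B ^ 2) 12 := by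
  obtain ⟨α, hα⟩ := h.jinv
  have hne : (4 * A ^ 3 + 27 * B ^ 2 : k[X]) ≠ 0 := by
    intro h0
    have h1 := h.disc
    rw [h0, natDegree_zero] at h1
    omega
  have hcast : ∀ n : ℕ, derivative ((n : k[X])) = 0 := fun n => derivative_natCast
  have d3 : derivative (A ^ 3) = 3 * A ^ 2 * derivative A := by
    have e1 : A ^ 3 = A * A * A := by ring
    rw [e1, derivative_mul, derivative_mul]
    ring
  have d2 : derivative (B ^ 2) = 2 * B * derivative B := by
    have e1 : B ^ 2 = B * B := by ring
    rw [e1, derivative_mul]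
    ring
  have h27' : derivative ((27 : k[X])) = 0 := by simpa using hcast 27
  generalize hF : (4 * A ^ 3 + 27 * B ^ 2 : k[X]) = F at *
  have h1 : 3 * A ^ 2 * derivative A = C α * derivative F := by
    rw [← d3, hα, derivative_C_mul]
  have h27 : (27 : k[X]) * B ^ 2 = (1 - 4 * C α) * F := by
    rw [sub_mul, one_mul, mul_assoc, ← hα, ← hF]
    ring
  have hcc : derivative (1 - 4 * C α : k[X]) = 0 := by
    have e4 : derivative ((4 : k[X])) = 0 := by simpa using hcast 4
    rw [derivative_sub, derivative_one, derivative_mul, e4, derivative_C]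
    ring
  have h2 : 54 * B * derivative B = (1 - 4 * C α) * derivative F := by
    have e : derivative ((27 : k[X]) * B ^ 2) = derivative ((1 - 4 * C α) * F) := by rw [h27]
    rw [derivative_mul, derivative_mul, hcc, h27', d2] at e
    linear_combination e
  refine ⟨h.rel, h.ind, h.gen, ?_, ?_, hne, by norm_num⟩
  · by_cases hA : A = 0
    · rw [hA]
      simp
    · refine mul_left_cancel₀ (pow_ne_zero 2 hA) ?_
      push_cast
      linear_combination (4 * F) * h1 - 4 * derivative F * hα
  · by_cases hB : B = 0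
    · rw [hB]
      simp
    · have h27B : (27 : k[X]) * B ≠ 0 := by
        refine mul_ne_zero ?_ hB
        have : ((27 : ℕ) : k[X]) ≠ 0 := by
          rw [Nat.cast_ne_zero]
          norm_num
        exact_mod_cast this
      refine mul_left_cancel₀ h27B ?_
      push_cast
      linear_combination (6 * F) * h2 - 6 * derivative F * h27

/-- From a section to the forms in the two derivations. -/
theorem SK_form (hSYM : Stmt_SYM) {k K : Type} [Field k] [CharZero k] [Field K] [Algebra k K] {t x y : K} {A B f : k[X]} {r : ℕ}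
    (hW : WD k K t x y A B f r) {D1 D2 : Derivation k K K} (hD : DD t x y f r D1 D2) {N : ℕ} (u : Fin N → K) (i j : ℕ)
    (P : Type) (R : P → Type) [∀ p, CommRing (R p)] (φ : ∀ p, R p →+* K)
    (hC : ∀ V : ValuationSubring K, (∀ c : k, algebraMap k K c ∈ V) → ∃ p, ∀ a : R p, φ p a ∈ V)
    (h : Pool.IES.HasSec k K P R φ u i j) :
    ∃ Φ : MvPolynomial (Fin 2) K, Φ ≠ 0 ∧
      ∀ V : ValuationSubring K, (∀ c : k, algebraMap k K c ∈ V) → InT D1 D2 (V : Set K) u i j Φ := by
  obtain ⟨τ, hτ, hR⟩ := h.ex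
  obtain ⟨ε, hinj, hε⟩ := hSYM k K t x y A B f r hW D1 D2 hD
  refine ⟨ε τ, fun h0 => hτ (hinj (by rw [h0, map_zero])), fun V hV => ?_⟩
  obtain ⟨p, hp⟩ := hC V hV
  obtain ⟨n, c, e, a, hsum⟩ := (hR p).reg
  refine ⟨n, fun m => φ p (c m), e, fun m l => φ p (a m l), fun m => hp _, fun m l => hp _, ?_⟩
  rw [hsum, map_sum]
  refine Finset.sum_congr rfl fun m _ => ?_
  rw [map_smul, map_prod, MvPolynomial.smul_eq_C_mul]
  congr 1
  refine Finset.prod_congr rfl fun l _ => ?_
  exact hε _

/-- Existence of the two derivations. -/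
theorem SK_der (hUNQ : Stmt_UNQ) (hDEX : Stmt_DEX) {k K : Type} [Field k] [CharZero k] [Field K] [Algebra k K] {t x y : K} {A B f : k[X]}
    {r : ℕ} (hW : WD k K t x y A B f r) : ∃ D1 D2 : Derivation k K K, DD t x y f r D1 D2 := by
  obtain ⟨-, -, -, -, -, -, hp⟩ := hUNQ k K t x y A B f r hW
  have hf := hp f hW.f0
  haveI : CharZero K := charZero_of_injective_algebraMap (algebraMap k K).injective
  have hr : (r : K) ≠ 0 := by
    rw [Nat.cast_ne_zero]
    have := hW.r0
    omega
  obtain ⟨D1, h1, h2⟩ := hDEX k K t x y A B f r hW 1 (2 * aeval t (derivative f) * x / ((r : K) * aeval t f))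
  obtain ⟨D2, h3, h4⟩ := hDEX k K t x y A B f r hW 0 y
  refine ⟨D1, D2, h1, ?_, h3, h4⟩
  rw [h2]
  field_simp

/-- The final statement from the blocks. -/
theorem SK_main (hUNQ : Stmt_UNQ) (hDEX : Stmt_DEX) (hSYM : Stmt_SYM) (hCEN : Stmt_CEN) (hAMN : Stmt_AMN) (k : Type) [Field k]
    [CharZero k] [IsAlgClosed k] (X : Scheme.{0}) [IsIntegral X] (s : X ⟶ Spec (CommRingCat.of k)) [IsProper s]
    (t x y : X.functionField) (A B : k[X]) (hE : Pool.IES.IsotrivialElliptic s t x y A B) (N : ℕ)
    (u : Fin N → X.functionField) : ∃ C : ℕ, ∀ i j : ℕ, C * j < i → ¬ Pool.IES.HasSection s u i j := by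
  letI : Algebra k X.functionField := (Pool.IES.str s).toAlgebra
  have hE' : Pool.IES.Isotrivial k X.functionField t x y A B := hE
  have hW := SK_wd hE'
  obtain ⟨D1, D2, hD⟩ := SK_der hUNQ hDEX hW
  obtain ⟨c, hc⟩ := hAMN k X.functionField t x y A B _ 12 hW (by
    intro h0
    have h1 := hE'.disc
    rw [h0, natDegree_zero] at h1
    omega) hE'.disc hE'.mini D1 D2 hD N u
  refine ⟨c, fun i j hij hS => ?_⟩
  have hS' : Pool.IES.HasSec k X.functionField X (fun p => X.presheaf.stalk p)
    (fun p => algebraMap (X.presheaf.stalk p) X.functionField) u i j := hS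
  obtain ⟨Φ, hΦ, hV⟩ := SK_form hSYM hW hD u i j X (fun p => X.presheaf.stalk p)
    (fun p => algebraMap (X.presheaf.stalk p) X.functionField) (fun V hV => hCEN k X s V hV) hS'
  exact hΦ (hc i j hij Φ hV)

end Pool.IE
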