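import Pool.Agent.Work.MP_bf99ce_ie.Skel
import Pool.Agent.Work.MP_bf99ce_ie.Interface3
import Pool.Agent.Work.MP_bf99ce_ie.Stat2

/-!
# THEOREM IEM (MP_bf99ce_ag): the assembly of the final statement
-/

set_option autoImplicit false

open AlgebraicGeometry CategoryTheory Polynomial

namespace Pool.IE

theorem SM_iso (hGLD : Stmt_GLD) (hGLM : Stmt_GLM) {k K k' K' : Type} [Field k] [CharZero k] [Field K] [Algebra k K] [Field k']
    [Field K'] [Algebra k' K'] [Algebra k k'] {m : ℕ} {t : Fin m → K} {x y : K} {A B : MvPolynomial (Fin m) k} {α β : Fin m → k'}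
    {s x' y' : K'} (h : Pool.IEM.Isotrivial k K t x y A B) (hAI : AI k α β)
    (hW : W1 k' K' s x' y' (lin k α β A) (lin k α β B)) :
    Pool.IES.Isotrivial k' K' s x' y' (lin k α β A) (lin k α β B) := by
  have h1 : 4 * (lin k α β A) ^ 3 + 27 * (lin k α β B) ^ 2 = lin k α β (4 * A ^ 3 + 27 * B ^ 2) := by
    simp only [map_add, map_mul, map_pow, map_ofNat]
  refine ⟨hW.rel, hW.ind, hW.gen, ?_, ?_, ?_⟩
  · obtain ⟨a, ha⟩ := h.jinv
    refine ⟨algebraMap k k' a, ?_⟩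
    rw [h1, ← map_pow, ha, map_mul, ← ha]
    congr 1
    have h2 : (MvPolynomial.C a : MvPolynomial (Fin m) k) = algebraMap k _ a := rfl
    rw [h2, AlgHom.commutes]
    rfl
  · rw [h1]
    exact (hGLD k k' m α β hAI _).2 h.disc
  · intro c
    rw [h1]
    refine hGLM k k' m α β hAI _ 12 (by norm_num) ?_ h.mini c
    intro h0
    exact h.disc 0 (by rw [h0, map_zero])

theorem SM_form (hSYI : Stmt_SYI) {k K k' K' : Type} [Field k] [CharZero k] [Field K] [Algebra k K] [Field k'] [Field K']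
    [Algebra k' K'] [Algebra k k'] {m : ℕ} {t : Fin m → K} {x y : K} {A B : MvPolynomial (Fin m) k} {α β : Fin m → k'}
    {s x' y' : K'} (hW : WM k K t x y A B) (hy : y' ≠ 0) (J : K →+* K')
    (hJ : ∀ c : k, J (algebraMap k K c) = algebraMap k' K' (algebraMap k k' c))
    (hJt : ∀ l, J (t l) = algebraMap k' K' (α l) + algebraMap k' K' (β l) * s) (hJx : J x = x') (hJy : J y = y')
    (hI : ∀ P : MvPolynomial (Fin m) K, MvPolynomial.eval₂ J (fun l => algebraMap k' K' (β l)) P = 0 → P = 0)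
    {f : k'[X]} {r : ℕ} {D1 D2 : Derivation k' K' K'} (hD : DD s x' y' f r D1 D2) {N : ℕ} (u : Fin N → K) (i j : ℕ)
    (P : Type) (R : P → Type) [∀ p, CommRing (R p)] (φ : ∀ p, R p →+* K)
    (hC : ∀ V : ValuationSubring K, (∀ c : k, algebraMap k K c ∈ V) → ∃ p, ∀ a : R p, φ p a ∈ V)
    (h : Pool.IEM.HasSec k K P R φ u i j) :
    ∃ Φ : MvPolynomial (Fin 2) K', Φ ≠ 0 ∧
      ∀ V : ValuationSubring K', (∀ c : k', algebraMap k' K' c ∈ V) → InT D1 D2 (V : Set K') (fun n => J (u n)) i j Φ := by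
  obtain ⟨τ, hτ, hR⟩ := h.ex
  obtain ⟨ε, hinj, hε0, hε⟩ := hSYI k K k' K' m t x y A B β α s x' y' hW hy J hJ hJt hJx hJy hI D1 D2 hD.t1 hD.t2 hD.x2
  refine ⟨ε τ, fun h0 => hτ (hinj (by rw [h0, map_zero])), fun V hV => ?_⟩
  obtain ⟨p, hp⟩ := hC (V.comap J) (fun c => by
    rw [ValuationSubring.mem_comap, hJ]
    exact hV _)
  obtain ⟨n, c, e, a, hsum⟩ := (hR p).reg
  refine ⟨n, fun m => J (φ p (c m)), e, fun m l => J (φ p (a m l)), fun m => hp _, fun m l => hp _, ?_⟩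
  rw [hsum, map_sum]
  refine Finset.sum_congr rfl fun m _ => ?_
  rw [Algebra.smul_def, map_mul, map_prod, hε0, map_mul, map_prod]
  congr 1
  refine Finset.prod_congr rfl fun l _ => ?_
  exact hε _

/-- The final statement from the blocks. -/
theorem SM_main (hUNQ : Stmt_UNQ) (hDEX : Stmt_DEX) (hCEN : Stmt_CEN) (hAMN : Stmt_AMN) (hGLK : Stmt_GLK) (hGLD : Stmt_GLD)
    (hGLM : Stmt_GLM) (hCNS : Stmt_CNS) (hEMB : Stmt_EMB) (hIND : Stmt_IND) (hSYI : Stmt_SYI) (k : Type) [Field k]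
    [CharZero k] (X : Scheme.{0}) [IsIntegral X] (s : X ⟶ Spec (CommRingCat.of k)) [IsProper s] (m : ℕ)
    (t : Fin m → X.functionField) (x y : X.functionField) (A B : MvPolynomial (Fin m) k)
    (hE : Pool.IEM.IsotrivialElliptic s t x y A B) (N : ℕ)
    (u : Fin N → X.functionField) : ∃ C : ℕ, ∀ i j : ℕ, C * j < i → ¬ Pool.IEM.HasSection s u i j := by
  letI : Algebra k X.functionField := (Pool.IEM.str s).toAlgebra
  have hE' : Pool.IEM.Isotrivial k X.functionField t x y A B := hE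
  have hWM : WM k X.functionField t x y A B := ⟨hE'.rel, hE'.ind, hE'.gen⟩
  obtain ⟨k', i1, i2, i3, i4, α, β, hAI⟩ := hGLK k m
  obtain ⟨K', i5, i6, s', x', y', hW1⟩ := hCNS k' (lin k α β A) (lin k α β B)
  have hI' := SM_iso hGLD hGLM hE' hAI hW1
  have hW := SK_wd hI'
  obtain ⟨D1, D2, hD⟩ := SK_der hUNQ hDEX hW
  obtain ⟨J, hJ, hJt, hJx, hJy⟩ := hEMB k X.functionField k' K' m t x y A B α β s' x' y' hWM hAI hW1
  have hI := hIND k X.functionField k' K' m t x y A B α β s' x' y' hWM hAI hW1 J hJ hJt hJx hJy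
  have hy : y' ≠ 0 := (hUNQ k' K' s' x' y' _ _ _ 12 hW).2.2.2.1
  obtain ⟨c, hc⟩ := hAMN k' K' s' x' y' _ _ _ 12 hW (by
    intro h0
    have h1 := hI'.disc
    rw [h0, natDegree_zero] at h1
    omega) hI'.disc hI'.mini D1 D2 hD N (fun n => J (u n))
  refine ⟨c, fun i j hij hS => ?_⟩
  have hS' : Pool.IEM.HasSec k X.functionField X (fun p => X.presheaf.stalk p)
    (fun p => algebraMap (X.presheaf.stalk p) X.functionField) u i j := hS
  obtain ⟨Φ, hΦ, hV⟩ := SM_form hSYI hWM hy J hJ hJt hJx hJy hI hD u i j X (fun p => X.presheaf.stalk p)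
    (fun p => algebraMap (X.presheaf.stalk p) X.functionField) (fun V hV => hCEN k X s V hV) hS'
  exact hΦ (hc i j hij Φ hV)

end Pool.IE
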