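import Pool.Agent.Work.MP_bf99ce_ie.Skel2
import Pool.Agent.Work.MP_bf99ce_ie.Interface4
import Pool.Agent.Work.MP_bf99ce_ie.Stat3

/-!
# THEOREM EM (MP_bf99ce_ag): the assembly of the final statement
-/

set_option autoImplicit false

open AlgebraicGeometry CategoryTheory Polynomial

namespace Pool.IE

/-- From a section on `X` to forms of `K'` over `k'`. -/
theorem SE_form (hSYI : Stmt_SYI) {k K k' K' : Type} [Field k] [CharZero k] [Field K] [Algebra k K] [Field k'] [Field K']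
    [Algebra k' K'] [Algebra k k'] {m : ℕ} {t : Fin m → K} {x y : K} {A B : MvPolynomial (Fin m) k} {α β : Fin m → k'}
    {s x' y' : K'} (hW : WM k K t x y A B) (hy : y' ≠ 0) (J : K →+* K')
    (hJ : ∀ c : k, J (algebraMap k K c) = algebraMap k' K' (algebraMap k k' c))
    (hJt : ∀ l, J (t l) = algebraMap k' K' (α l) + algebraMap k' K' (β l) * s) (hJx : J x = x') (hJy : J y = y')
    (hI : ∀ P : MvPolynomial (Fin m) K, MvPolynomial.eval₂ J (fun l => algebraMap k' K' (β l)) P = 0 → P = 0)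
    {D1 D2 : Derivation k' K' K'} (ht1 : D1 s = 1) (ht2 : D2 s = 0) (hx2 : D2 x' = y') {N : ℕ} (u : Fin N → K) (i j : ℕ)
    (P : Type) (R : P → Type) [∀ p, CommRing (R p)] (φ : ∀ p, R p →+* K)
    (hC : ∀ V : ValuationSubring K, (∀ c : k, algebraMap k K c ∈ V) → ∃ p, ∀ a : R p, φ p a ∈ V)
    (h : Pool.EM.HasSec k K P R φ u i j) :
    ∃ Φ : MvPolynomial (Fin 2) K', Φ ≠ 0 ∧
      ∀ V : ValuationSubring K', (∀ c : k', algebraMap k' K' c ∈ V) → InT D1 D2 (V : Set K') (fun n => J (u n)) i j Φ := by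
  obtain ⟨τ, hτ, hR⟩ := h.ex
  obtain ⟨ε, hinj, hε0, hε⟩ := hSYI k K k' K' m t x y A B β α s x' y' hW hy J hJ hJt hJx hJy hI D1 D2 ht1 ht2 hx2
  refine ⟨ε τ, fun h0 => hτ (hinj (by rw [h0, map_zero])), fun V hV => ?_⟩
  obtain ⟨p, hp⟩ := hC (V.comap J) (fun c => by
    rw [ValuationSubring.mem_comap, hJ]
    exact hV _)
  obtain ⟨n, c, e, a, hsum⟩ := (hR p).reg
  refine ⟨n, fun m => J (φ p (c m)), e, fun m l => J (φ p (a m l)), fun m => hp _, fun m l => hp _, ?_⟩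
  rw [hsum, map_sum]
  refine Finset.sum_congr rfl fun m _ => ?_
  rw [Algebra.smul_def, map_mul, map_prod, hε0, map_mul, map_prod]
  congr 1
  refine Finset.prod_congr rfl fun l _ => ?_
  exact hε _

/-- The final statement from the blocks. -/
theorem SE_main (hUNQ : Stmt_UNQ) (hDEX : Stmt_DEX) (hUNQ1 : Stmt_UNQ1) (hDEX1 : Stmt_DEX1) (hCEN : Stmt_CEN) (hAMN : Stmt_AMN)
    (hNMN : Stmt_NMN) (hGLK : Stmt_GLK) (hGLD : Stmt_GLD) (hGLM : Stmt_GLM) (hGLJ : Stmt_GLJ) (hKAP : Stmt_KAP) (hMIN : Stmt_MIN)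
    (hCNS : Stmt_CNS) (hEMB : Stmt_EMB) (hIND : Stmt_IND) (hSYI : Stmt_SYI) (k : Type) [Field k]
    [CharZero k] (X : Scheme.{0}) [IsIntegral X] (s : X ⟶ Spec (CommRingCat.of k)) [IsProper s] (m : ℕ)
    (t : Fin m → X.functionField) (x y : X.functionField) (A B : MvPolynomial (Fin m) k)
    (hE : Pool.EM.EllipticFibration s t x y A B) (N : ℕ)
    (u : Fin N → X.functionField) : ∃ C : ℕ, ∀ i j : ℕ, C * j < i → ¬ Pool.EM.HasSection s u i j := by
  letI : Algebra k X.functionField := (Pool.EM.str s).toAlgebra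
  have hE' : Pool.EM.Elliptic k X.functionField t x y A B := hE
  have hWM : WM k X.functionField t x y A B := ⟨hE'.rel, hE'.ind, hE'.gen⟩
  have hΔ : 4 * A ^ 3 + 27 * B ^ 2 ≠ 0 := by
    intro h0
    exact hE'.disc 0 (by rw [h0, map_zero])
  obtain ⟨k', i1, i2, i3, i4, α, β, hAI⟩ := hGLK k m
  obtain ⟨K', i5, i6, s', x', y', hW1⟩ := hCNS k' (lin k α β A) (lin k α β B)
  obtain ⟨J, hJ, hJt, hJx, hJy⟩ := hEMB k X.functionField k' K' m t x y A B α β s' x' y' hWM hAI hW1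
  have hI := hIND k X.functionField k' K' m t x y A B α β s' x' y' hWM hAI hW1 J hJ hJt hJx hJy
  have hy : y' ≠ 0 := (hUNQ1 k' K' s' x' y' _ _ hW1).2.2.2.1
  -- in both cases there are derivations and a constant
  suffices hmain : ∃ D1 D2 : Derivation k' K' K', D1 s' = 1 ∧ D2 s' = 0 ∧ D2 x' = y' ∧ ∃ C : ℕ, ∀ i j : ℕ, C * j < i →
      ∀ Φ : MvPolynomial (Fin 2) K', (∀ V : ValuationSubring K', (∀ c : k', algebraMap k' K' c ∈ V) →
        InT D1 D2 (V : Set K') (fun n => J (u n)) i j Φ) → Φ = 0 by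
    obtain ⟨D1, D2, ht1, ht2, hx2, c, hc⟩ := hmain
    refine ⟨c, fun i j hij hS => ?_⟩
    have hS' : Pool.EM.HasSec k X.functionField X (fun p => X.presheaf.stalk p)
      (fun p => algebraMap (X.presheaf.stalk p) X.functionField) u i j := hS
    obtain ⟨Φ, hΦ, hV⟩ := SE_form hSYI hWM hy J hJ hJt hJx hJy hI ht1 ht2 hx2 u i j X (fun p => X.presheaf.stalk p)
      (fun p => algebraMap (X.presheaf.stalk p) X.functionField) (fun V hV => hCEN k X s V hV) hS'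
    exact hΦ (hc i j hij Φ hV)
  by_cases hj : ∃ a : k, A ^ 3 = MvPolynomial.C a * (4 * A ^ 3 + 27 * B ^ 2)
  · -- the isotrivial case
    obtain ⟨a, ha⟩ := hj
    have hiso : Pool.IEM.Isotrivial k X.functionField t x y A B :=
      ⟨hE'.rel, hE'.ind, hE'.gen, ⟨a, ha⟩, hE'.disc, fun p hp hd => by
        obtain ⟨h4, h6⟩ := hMIN k m A B a ha p hp hd
        exact hE'.mini p hp h4 h6⟩
    have hI' := SM_iso hGLD hGLM hiso hAI hW1
    have hW := SK_wd hI'
    obtain ⟨D1, D2, hD⟩ := SK_der hUNQ hDEX hW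
    obtain ⟨c, hc⟩ := hAMN k' K' s' x' y' _ _ _ 12 hW (by
      intro h0
      have h1 := hI'.disc
      rw [h0, natDegree_zero] at h1
      omega) hI'.disc hI'.mini D1 D2 hD N (fun n => J (u n))
    exact ⟨D1, D2, hD.t1, hD.t2, hD.x2, c, hc⟩
  · -- the non-isotrivial case
    have h1 : 4 * (lin k α β A) ^ 3 + 27 * (lin k α β B) ^ 2 = lin k α β (4 * A ^ 3 + 27 * B ^ 2) := by
      simp only [map_add, map_mul, map_pow, map_ofNat]
    have hne : 4 * (lin k α β A) ^ 3 + 27 * (lin k α β B) ^ 2 ≠ 0 := by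
      rw [h1]
      exact (hGLD k k' m α β hAI _).1 hΔ
    have hκ : kap (lin k α β A) (lin k α β B) ≠ 0 := by
      intro h0
      exact hj (hGLJ k k' m α β hAI A B hΔ (hKAP k' _ _ hne h0))
    obtain ⟨D0, h3, h4⟩ := hDEX1 k' K' s' x' y' _ _ hW1 1 0
    obtain ⟨D2, h5, h6⟩ := hDEX1 k' K' s' x' y' _ _ hW1 0 y'
    obtain ⟨c, hc⟩ := hNMN k' K' s' x' y' _ _ hW1 hne hκ D0 D2 ⟨h3, h4, h5, h6⟩ N (fun n => J (u n))
    exact ⟨D0, D2, h3, h5, h6, c, hc⟩

end Pool.IE
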